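import Pool.Agent.Run7.h469.Vk
import Pool.Agent.R559.NP.Near

/-!
# Integer vectors with coordinates in a finite type: linear families, vectors near lacunary multiples of a real vector

The definitions are used in statements of results files.
-/

set_option autoImplicit false

namespace Run7.h469.Fm

open Finset MeasureTheory
open Run7.h469.Vk (Lacunary affine FullRank Hits Few few_of_ncard combinations Avoids)

/-! ### definitions -/

/-- The vector `M x + b` with coordinates in `I`. -/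
def member {I : Type} {D : ℕ} (M : I → Fin D → ℤ) (b : I → ℤ) (x : Fin D → ℤ) : I → ℤ := fun i => ∑ j, M i j * x j + b i

/-- The rows of `M` are linearly independent: a maximal minor is not zero. -/
def Independent {I : Type} [Fintype I] [DecidableEq I] {D : ℕ} (M : I → Fin D → ℤ) : Prop :=
  ∃ e : I → Fin D, (Matrix.of fun i j => M i (e j)).det ≠ 0

/-- The integer vectors `x` for which some vector `M x + b` has the property `Bad`, where `M` has independent rows and all entries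
of `M` and `b` are at most `K` in absolute value. -/
def Exceptional {I : Type} [Fintype I] [DecidableEq I] (Bad : (I → ℤ) → Prop) (D : ℕ) (K : ℝ) : Set (Fin D → ℤ) :=
  {x | ∃ (M : I → Fin D → ℤ) (b : I → ℤ), Independent M ∧ (∀ i j, |(M i j : ℝ)| ≤ K) ∧ (∀ i, |(b i : ℝ)| ≤ K) ∧
    Bad (member M b x)}

/-- For all `A`, for all large `n` no integer vector `a` with `|a_i - N_n α_i| ≤ A` for all `i` has the property `Bad`. -/
def NoneNear {I : Type} (Bad : (I → ℤ) → Prop) (N : ℕ → ℝ) (α : I → ℝ) : Prop :=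
  ∀ A : ℝ, ∃ n₀ : ℕ, ∀ n : ℕ, n₀ ≤ n → ∀ a : I → ℤ, (∀ i, |(a i : ℝ) - N n * α i| ≤ A) → ¬ Bad a

/-! ### theorems -/

/-- the bound for the number of exceptional vectors -/
def Count {I : Type} [Fintype I] (Bad : (I → ℤ) → Prop) (C c : ℝ) : Prop :=
  ∀ H : ℕ, 1 ≤ H → (({a : I → ℤ | (∀ i, |a i| ≤ H) ∧ Bad a}.ncard : ℕ) : ℝ) ≤ C * (H : ℝ) ^ ((Fintype.card I : ℝ) - c)

theorem finite_box {I : Type} [Fintype I] (H : ℤ) (Bad : (I → ℤ) → Prop) : {a : I → ℤ | (∀ i, |a i| ≤ H) ∧ Bad a}.Finite := by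
  apply (Set.Finite.pi' fun _ : I => Set.finite_Icc (-H) H).subset
  intro v hv i
  exact abs_le.1 (hv.1 i)

section

variable {I : Type} [Fintype I] [DecidableEq I]

/-- the property for vectors with coordinates in `Fin` -/
def toW (Bad : (I → ℤ) → Prop) : Set (Fin (Fintype.card I) → ℤ) := {t | Bad fun i => t (Fintype.equivFin I i)}

omit [DecidableEq I] in
theorem few {Bad : (I → ℤ) → Prop} {C c : ℝ} (h : Count Bad C c) : Few C ((Fintype.card I : ℝ) - c) (toW Bad) := by
  refine few_of_ncard fun T hT => ?_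
  refine le_trans ?_ (h T hT)
  rw [Nat.cast_le]
  refine Set.ncard_le_ncard_of_injOn (fun (v : Fin (Fintype.card I) → ℤ) (i : I) => v (Fintype.equivFin I i)) ?_ ?_
    (finite_box T Bad)
  · rintro v ⟨h1, h2⟩
    exact ⟨fun i => h1 _, h2⟩
  · intro u _ v _ huv
    funext j
    have := congrFun huv ((Fintype.equivFin I).symm j)
    simpa using this

theorem fullRank {D : ℕ} {M : I → Fin D → ℤ} (h : Independent M) :
    FullRank (fun i : Fin (Fintype.card I) => M ((Fintype.equivFin I).symm i)) := by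
  obtain ⟨e, he⟩ := h
  refine ⟨fun j => e ((Fintype.equivFin I).symm j), ?_⟩
  have h1 : (Matrix.of fun i j : Fin (Fintype.card I) => M ((Fintype.equivFin I).symm i) (e ((Fintype.equivFin I).symm j))) =
      (Matrix.of fun i j => M i (e j)).submatrix (Fintype.equivFin I).symm (Fintype.equivFin I).symm := by
    ext i j
    rfl
  rw [h1, Matrix.det_submatrix_equiv_self]
  exact he

theorem exceptional_subset {Bad : (I → ℤ) → Prop} {D : ℕ} {K : ℝ} : Exceptional Bad D K ⊆ Hits (toW Bad) D K := by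
  rintro x ⟨M, b, h1, h2, h3, h4⟩
  refine ⟨fun i => M ((Fintype.equivFin I).symm i), fun i => b ((Fintype.equivFin I).symm i), fullRank h1,
    fun i j => h2 _ j, fun i => h3 _, ?_⟩
  show Bad _
  have h5 : (fun i => affine (fun i => M ((Fintype.equivFin I).symm i)) (fun i => b ((Fintype.equivFin I).symm i)) x
      (Fintype.equivFin I i)) = member M b x := by
    funext i
    simp only [affine, member, Equiv.symm_apply_apply]
  rw [h5]
  exact h4

omit [DecidableEq I] in
theorem count_shrink {Bad : (I → ℤ) → Prop} {C c : ℝ} (h : Count Bad C c) : Count Bad |C| (min c 1) := by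
  intro H hH
  have hH1 : (1 : ℝ) ≤ H := by exact_mod_cast hH
  refine (h H hH).trans ?_
  calc C * (H : ℝ) ^ ((Fintype.card I : ℝ) - c) ≤ |C| * (H : ℝ) ^ ((Fintype.card I : ℝ) - c) :=
        mul_le_mul_of_nonneg_right (le_abs_self C) (by positivity)
    _ ≤ |C| * (H : ℝ) ^ ((Fintype.card I : ℝ) - min c 1) := mul_le_mul_of_nonneg_left
        (Real.rpow_le_rpow_of_exponent_le hH1 (by linarith [min_le_left c 1])) (abs_nonneg C)

/-- **All linear families.** -/
theorem families {Bad : (I → ℤ) → Prop} {C c : ℝ} (hC : 0 ≤ C) (hc : 0 ≤ c) (hc1 : c ≤ 1) (hI : 1 ≤ Fintype.card I)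
    (h : Count Bad C c) (D X K : ℕ) (hX : 1 ≤ X) (hK : 1 ≤ K) :
    (({x : Fin D → ℤ | (∀ j, |x j| ≤ X) ∧ x ∈ Exceptional Bad D K}.ncard : ℕ) : ℝ) ≤
      C * (((D : ℝ) + 1) ^ Fintype.card I * 3 ^ ((Fintype.card I + 1) * (D + 1))) * (K : ℝ) ^ (Fintype.card I * (D + 2)) *
        (X : ℝ) ^ ((D : ℝ) - c) := by
  refine le_trans ?_ ((combinations hI hc hc1 hC (few h)).1 D X K hX hK)
  rw [Nat.cast_le]
  exact Set.ncard_le_ncard (fun x hx => ⟨hx.1, exceptional_subset hx.2⟩) (finite_box X _)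

omit [DecidableEq I] in
/-- **Vectors near lacunary multiples of generic real vectors.** -/
theorem near {Bad : (I → ℤ) → Prop} {C c : ℝ} (hC : 0 ≤ C) (hc : 0 ≤ c) (hc1 : c ≤ 1) (hI : 1 ≤ Fintype.card I)
    (h : Count Bad C c) (N : ℕ → ℝ) (hN : Lacunary N) :
    ∃ E : Set (I → ℝ), dimH E ≤ ENNReal.ofReal ((Fintype.card I : ℝ) - c) ∧ ∀ α, α ∉ E → NoneNear Bad N α := by
  obtain ⟨⟨E, hE, hE2⟩, -⟩ := (combinations hI hc hc1 hC (few h)).2.1 (Fintype.card I) hI N hN 0 le_rfl
  let f : (Fin (Fintype.card I) → ℝ) ≃L[ℝ] (I → ℝ) :=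
    (LinearEquiv.funCongrLeft ℝ ℝ (Fintype.equivFin I)).toContinuousLinearEquiv
  have hf : ∀ (β : Fin (Fintype.card I) → ℝ) i, f β i = β (Fintype.equivFin I i) := fun β i => rfl
  refine ⟨f '' E, ?_, fun α hα A => ?_⟩
  · rw [ContinuousLinearEquiv.dimH_image]
    refine hE.trans (ENNReal.ofReal_le_ofReal ?_)
    simp
  · obtain ⟨β, rfl⟩ := f.surjective α
    have hβ : β ∉ E := fun hb => hα ⟨β, hb, rfl⟩
    obtain ⟨n₀, hn₀⟩ := hE2 β hβ (max A 1)
    refine ⟨n₀, fun n hn a ha hbad => hn₀ n hn (fun j => a ((Fintype.equivFin I).symm j)) (fun j => ?_) ?_⟩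
    · have h1 := ha ((Fintype.equivFin I).symm j)
      rw [hf, Equiv.apply_symm_apply] at h1
      exact h1.trans (le_max_left _ _)
    · have hle : ∀ y : ℝ, 1 ≤ max y 1 * N n ^ (0 : ℝ) := by
        intro y
        rw [Real.rpow_zero, mul_one]
        exact le_max_right _ _
      refine ⟨fun i j => if i = j then 1 else 0, fun _ => 0, ⟨id, ?_⟩, fun i j => ?_, fun i => ?_, ?_⟩
      · have h1 : (Matrix.of fun i j : Fin (Fintype.card I) => if i = id j then (1 : ℤ) else 0) = 1 := by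
          ext i j
          simp [Matrix.one_apply]
        rw [h1, Matrix.det_one]
        exact one_ne_zero
      · refine le_trans ?_ (hle A)
        show |((if i = j then (1 : ℤ) else 0 : ℤ) : ℝ)| ≤ 1
        split_ifs <;> simp
      · refine le_trans ?_ (hle A)
        simp
      · show Bad _
        have h2 : (fun i => affine (fun i j : Fin (Fintype.card I) => if i = j then (1 : ℤ) else 0) (fun _ => 0)
            (fun j => a ((Fintype.equivFin I).symm j)) (Fintype.equivFin I i)) = a := by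
          funext i
          simp [affine]
        rw [h2]
        exact hbad

omit [DecidableEq I] in
/-- **Vectors near a generic point of a metric space.** -/
theorem metric {Bad : (I → ℤ) → Prop} {C c : ℝ} (hC : 0 ≤ C) (hc1 : c ≤ 1) (hI : 1 ≤ Fintype.card I)
    (h : Count Bad C c) {Y : Type} [MetricSpace Y] (φ : (I → ℤ) → Y) {τ : ℝ} (hτ : 0 < τ) :
    ∃ E : Set Y, dimH E ≤ ENNReal.ofReal (((Fintype.card I : ℝ) - c) / τ) ∧
      ∀ ξ : Y, ξ ∉ E → ∀ A : ℝ, {a : I → ℤ | dist (φ a) ξ ≤ A * max 1 ‖(fun i => (a i : ℝ))‖ ^ (-τ) ∧ Bad a}.Finite := by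
  have hI1 : (1 : ℝ) ≤ Fintype.card I := by exact_mod_cast hI
  have hs : 0 ≤ (Fintype.card I : ℝ) - c := by linarith
  refine Pool.Agent.R559.NP.near_dim (H := fun a : I → ℤ => max 1 ‖(fun i => (a i : ℝ))‖) (fun a => le_max_left _ _) hs hτ
    (fun ε hε => ⟨C, fun B hB => ?_⟩) φ
  have hsub : {a : I → ℤ | Bad a ∧ max 1 ‖(fun i => (a i : ℝ))‖ ≤ B} ⊆ {a : I → ℤ | (∀ i, |a i| ≤ ⌊B⌋₊) ∧ Bad a} := by
    rintro a ⟨h1, h2⟩
    refine ⟨fun i => ?_, h1⟩
    have h3 : |(a i : ℝ)| ≤ B := by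
      have := norm_le_pi_norm (fun i => (a i : ℝ)) i
      rw [Real.norm_eq_abs] at this
      exact this.trans ((le_max_right _ _).trans h2)
    have h4 : ((a i).natAbs : ℝ) ≤ B := by
      rw [Nat.cast_natAbs]
      push_cast
      exact h3
    have h5 : (a i).natAbs ≤ ⌊B⌋₊ := Nat.le_floor h4
    rw [← Int.natCast_natAbs]
    exact_mod_cast h5
  have hB1 : 1 ≤ ⌊B⌋₊ := (Nat.one_le_floor_iff _).2 hB
  refine ⟨(finite_box (⌊B⌋₊ : ℤ) Bad).subset hsub, ?_⟩
  calc _ ≤ (({a : I → ℤ | (∀ i, |a i| ≤ ⌊B⌋₊) ∧ Bad a}.ncard : ℕ) : ℝ) := by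
        exact_mod_cast Set.ncard_le_ncard hsub (finite_box (⌊B⌋₊ : ℤ) Bad)
    _ ≤ C * ((⌊B⌋₊ : ℕ) : ℝ) ^ ((Fintype.card I : ℝ) - c) := h _ hB1
    _ ≤ C * B ^ ((Fintype.card I : ℝ) - c) := by
        gcongr
        exact Nat.floor_le (by linarith)
    _ ≤ C * B ^ ((Fintype.card I : ℝ) - c + ε) := by
        apply mul_le_mul_of_nonneg_left _ hC
        exact Real.rpow_le_rpow_of_exponent_le hB (by linarith)

omit [DecidableEq I] in
/-- a set of small dimension is a null set -/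
theorem null {s : ℝ} {E : Set (I → ℝ)} (hE : dimH E ≤ ENNReal.ofReal s) (hI : 1 ≤ Fintype.card I)
    (hs : s < (Fintype.card I : ℝ)) : volume E = 0 := by
  have hI1 : (1 : ℝ) ≤ Fintype.card I := by exact_mod_cast hI
  have hlt : dimH E < ((Fintype.card I : NNReal) : ENNReal) := by
    refine hE.trans_lt ?_
    have e1 : (((Fintype.card I : ℕ) : NNReal) : ENNReal) = ENNReal.ofReal (Fintype.card I : ℝ) := by
      rw [ENNReal.ofReal_natCast, ENNReal.coe_natCast]
    rw [e1]
    exact (ENNReal.ofReal_lt_ofReal_iff (by linarith)).2 hs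
  rw [← hausdorffMeasure_pi_real]
  exact_mod_cast hausdorffMeasure_of_dimH_lt hlt

end

end Run7.h469.Fm
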