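import Pool.Agent.Run7.h469.Vk
import Pool.Agent.H510R2.Div

/-!
# Products of linear forms with small coefficients in almost all integer vectors and in expansions of real vectors

The definitions which are used in the statements of several results files, and the theorems for a general set of tuples of
integers with a power saving.
-/

set_option autoImplicit false

namespace Run7.h469.Vm

open Finset Filter Topology MeasureTheory
open Run7.h469.Vk (affine FullRank Hits Few Lacunary Generic Avoids combinations)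

/-! ### definitions -/

/-- The `k`-tuple of the products `∏_j y_(i,j)` of `b` numbers each; the coordinates of `y` are numbered by
`(i, j) ↦ b i + j`. -/
def products {k b : ℕ} (y : Fin (k * b) → ℤ) : Fin k → ℤ := fun i => ∏ j : Fin b, y (finProdFinEquiv (i, j))

/-- The vectors `y` of nonzero integers with `k b` coordinates such that the `k`-tuple of products belongs to `W`. -/
def ProductIn {k : ℕ} (b : ℕ) (W : Set (Fin k → ℤ)) : Set (Fin (k * b) → ℤ) := {y | (∀ i, y i ≠ 0) ∧ products y ∈ W}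

/-! ### counting -/

theorem few_products {k b : ℕ} (hb : 1 ≤ b) {C c : ℝ} (hC : 0 ≤ C) {c' : ℝ} (hc' : c' < b * c) :
    ∃ C' : ℝ, 0 ≤ C' ∧ ∀ W : Set (Fin k → ℤ), Few C ((k : ℝ) - c) W → Few C' (((k * b : ℕ) : ℝ) - c') (ProductIn b W) := by
  classical
  -- the loss
  obtain ⟨ε, hε, hε2⟩ : ∃ ε : ℝ, 0 < ε ∧ ε * (b * (k * b)) ≤ b * c - c' := by
    refine ⟨(b * c - c') / (b * (k * b) + 1), by
      apply div_pos (by linarith)
      positivity, ?_⟩
    have h0 : (0 : ℝ) ≤ (b : ℝ) * (k * b) := by positivity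
    rw [div_mul_eq_mul_div, div_le_iff₀ (by linarith)]
    nlinarith
  obtain ⟨D, hD, hDn⟩ := Pool.Agent.H510R2.divisor_bound ε hε
  refine ⟨(2 * D) ^ (k * b) * C, by positivity, fun W hW T hT F hF => ?_⟩
  have hT1 : (1 : ℝ) ≤ T := by exact_mod_cast hT
  have hT0 : (0 : ℝ) < T := by linarith
  have hTb : 1 ≤ T ^ b := Nat.one_le_pow _ _ hT
  -- the images
  have hw : ∀ y ∈ F, ∀ i, products y i ≠ 0 ∧ |products y i| ≤ ((T ^ b : ℕ) : ℤ) := by
    intro y hy i
    obtain ⟨⟨h1, -⟩, h2⟩ := hF y hy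
    constructor
    · unfold products
      exact prod_ne_zero_iff.2 (fun j _ => h1 _)
    · unfold products
      rw [abs_prod]
      calc ∏ j : Fin b, |y (finProdFinEquiv (i, j))| ≤ ∏ _j : Fin b, (T : ℤ) :=
            prod_le_prod (fun _ _ => abs_nonneg _) (fun j _ => h2 _)
        _ = ((T ^ b : ℕ) : ℤ) := by rw [prod_const, card_univ, Fintype.card_fin]; push_cast; rfl
  have hI : ((F.image products).card : ℝ) ≤ C * ((T ^ b : ℕ) : ℝ) ^ ((k : ℝ) - c) := by
    apply hW _ hTb
    intro w hw'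
    rw [mem_image] at hw'
    obtain ⟨y, hy, rfl⟩ := hw'
    exact ⟨(hF y hy).1.2, fun i => (hw y hy i).2⟩
  -- the fibres
  have hfib : ∀ w ∈ F.image products, (((F.filter (fun y => products y = w)).card : ℕ) : ℝ) ≤
      (2 * D) ^ (k * b) * (T : ℝ) ^ (ε * (b * (k * b))) := by
    intro w hw'
    rw [mem_image] at hw'
    obtain ⟨y₀, hy₀, rfl⟩ := hw'
    let S : Finset (Fin (k * b) → ℤ) := Fintype.piFinset (fun t =>
      ((products y₀ (finProdFinEquiv.symm t).1).natAbs.divisors ×ˢ (univ : Finset Bool)).image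
        (fun z => if z.2 then (z.1 : ℤ) else -(z.1 : ℤ)))
    have h1 : (F.filter (fun y => products y = products y₀)) ⊆ S := by
      intro y hy
      rw [mem_filter] at hy
      obtain ⟨hyF, hyp⟩ := hy
      rw [Fintype.mem_piFinset]
      intro t
      rw [mem_image]
      have hdvd : y t ∣ products y₀ (finProdFinEquiv.symm t).1 := by
        rw [← hyp]
        unfold products
        have h2 : t = finProdFinEquiv ((finProdFinEquiv.symm t).1, (finProdFinEquiv.symm t).2) := by
          rw [Prod.mk.eta, Equiv.apply_symm_apply]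
        conv_lhs => rw [h2]
        exact dvd_prod_of_mem _ (mem_univ _)
      refine ⟨((y t).natAbs, decide (0 ≤ y t)), ?_, ?_⟩
      · rw [mem_product]
        refine ⟨?_, mem_univ _⟩
        rw [Nat.mem_divisors]
        exact ⟨Int.natAbs_dvd_natAbs.2 hdvd, Int.natAbs_ne_zero.2 (hw y₀ hy₀ _).1⟩
      · simp only [decide_eq_true_eq]
        split_ifs with h3
        · exact Int.natAbs_of_nonneg h3
        · rw [Int.ofNat_natAbs_of_nonpos (le_of_not_ge h3), neg_neg]
    have h2 : ∀ t : Fin (k * b), (((((products y₀ (finProdFinEquiv.symm t).1).natAbs.divisors ×ˢ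
        (univ : Finset Bool)).image (fun z => if z.2 then (z.1 : ℤ) else -(z.1 : ℤ))).card : ℕ) : ℝ) ≤
        2 * D * (T : ℝ) ^ (b * ε) := by
      intro t
      have h3 : (((products y₀ (finProdFinEquiv.symm t).1).natAbs.divisors ×ˢ
        (univ : Finset Bool)).image (fun z => if z.2 then (z.1 : ℤ) else -(z.1 : ℤ))).card ≤
          (products y₀ (finProdFinEquiv.symm t).1).natAbs.divisors.card * 2 := by
        refine card_image_le.trans ?_
        rw [card_product, card_univ, Fintype.card_bool]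
      obtain ⟨h4, h5⟩ := hw y₀ hy₀ (finProdFinEquiv.symm t).1
      have h6 := hDn (products y₀ (finProdFinEquiv.symm t).1).natAbs (Nat.one_le_iff_ne_zero.2 (Int.natAbs_ne_zero.2 h4))
      have h7 : ((products y₀ (finProdFinEquiv.symm t).1).natAbs : ℝ) ≤ (T : ℝ) ^ b := by
        have h8 : (products y₀ (finProdFinEquiv.symm t).1).natAbs ≤ T ^ b := by
          rw [← Int.natCast_natAbs] at h5
          exact_mod_cast h5
        exact_mod_cast h8
      calc _ ≤ (((products y₀ (finProdFinEquiv.symm t).1).natAbs.divisors.card * 2 : ℕ) : ℝ) := by exact_mod_cast h3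
        _ = 2 * ((products y₀ (finProdFinEquiv.symm t).1).natAbs.divisors.card : ℝ) := by push_cast; ring
        _ ≤ 2 * (D * ((products y₀ (finProdFinEquiv.symm t).1).natAbs : ℝ) ^ ε) := by gcongr
        _ ≤ 2 * (D * ((T : ℝ) ^ b) ^ ε) := by gcongr
        _ = 2 * D * (T : ℝ) ^ (b * ε) := by
            rw [← Real.rpow_natCast (T : ℝ) b, ← Real.rpow_mul hT0.le]
            ring
    calc (((F.filter (fun y => products y = products y₀)).card : ℕ) : ℝ) ≤ (S.card : ℝ) := by
          exact_mod_cast card_le_card h1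
      _ = ∏ t : Fin (k * b), (((((products y₀ (finProdFinEquiv.symm t).1).natAbs.divisors ×ˢ
        (univ : Finset Bool)).image (fun z => if z.2 then (z.1 : ℤ) else -(z.1 : ℤ))).card : ℕ) : ℝ) := by
          rw [Fintype.card_piFinset]
          push_cast
          rfl
      _ ≤ ∏ _t : Fin (k * b), 2 * D * (T : ℝ) ^ (b * ε) := prod_le_prod (fun _ _ => Nat.cast_nonneg _) (fun t _ => h2 t)
      _ = (2 * D) ^ (k * b) * (T : ℝ) ^ (ε * (b * (k * b))) := by
          rw [prod_const, card_univ, Fintype.card_fin, mul_pow, ← Real.rpow_natCast ((T : ℝ) ^ (b * ε)),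
            ← Real.rpow_mul hT0.le]
          congr 2
          push_cast
          ring
  have hcard : (F.card : ℝ) = ∑ w ∈ F.image products, (((F.filter (fun y => products y = w)).card : ℕ) : ℝ) := by
    exact_mod_cast card_eq_sum_card_image products F
  calc (F.card : ℝ) = _ := hcard
    _ ≤ ∑ _w ∈ F.image products, (2 * D) ^ (k * b) * (T : ℝ) ^ (ε * (b * (k * b))) := sum_le_sum hfib
    _ = ((F.image products).card : ℝ) * ((2 * D) ^ (k * b) * (T : ℝ) ^ (ε * (b * (k * b)))) := by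
        rw [sum_const, nsmul_eq_mul]
    _ ≤ (C * ((T ^ b : ℕ) : ℝ) ^ ((k : ℝ) - c)) * ((2 * D) ^ (k * b) * (T : ℝ) ^ (ε * (b * (k * b)))) :=
        mul_le_mul_of_nonneg_right hI (by positivity)
    _ = (2 * D) ^ (k * b) * C * ((T : ℝ) ^ (b * ((k : ℝ) - c)) * (T : ℝ) ^ (ε * (b * (k * b)))) := by
        push_cast
        rw [← Real.rpow_natCast (T : ℝ) b, ← Real.rpow_mul hT0.le]
        ring
    _ = (2 * D) ^ (k * b) * C * (T : ℝ) ^ (b * ((k : ℝ) - c) + ε * (b * (k * b))) := by rw [← Real.rpow_add hT0]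
    _ ≤ (2 * D) ^ (k * b) * C * (T : ℝ) ^ (((k * b : ℕ) : ℝ) - c') := by
        apply mul_le_mul_of_nonneg_left _ (by positivity)
        apply Real.rpow_le_rpow_of_exponent_le hT1
        push_cast
        linarith

/-- **Products of linear forms.** -/
theorem products_of_forms {k b : ℕ} (hk : 1 ≤ k) (hb : 1 ≤ b) {C c c' : ℝ} (hC : 0 ≤ C) (hc0 : 0 ≤ c') (hc1 : c' ≤ 1)
    (hc' : c' < b * c) : ∃ C' : ℝ, 0 ≤ C' ∧ ∀ W : Set (Fin k → ℤ), Few C ((k : ℝ) - c) W →
      (∀ d X K : ℕ, 1 ≤ X → 1 ≤ K →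
        (({x : Fin d → ℤ | (∀ j, |x j| ≤ X) ∧ x ∈ Hits (ProductIn b W) d K}.ncard : ℕ) : ℝ) ≤
          C' * (((d : ℝ) + 1) ^ (k * b) * 3 ^ ((k * b + 1) * (d + 1))) * (K : ℝ) ^ (k * b * (d + 2)) *
            (X : ℝ) ^ ((d : ℝ) - c')) ∧
      (∀ d : ℕ, 1 ≤ d → ∀ N : ℕ → ℝ, Lacunary N → ∀ η : ℝ, 0 ≤ η →
        Generic ((d : ℝ) - c' + k * b * (d + 2) * η) (fun α : Fin d → ℝ => Avoids (ProductIn b W) N η α)) ∧
      ∀ d : ℕ, 1 ≤ d → ∀ N : ℕ → ℝ, Lacunary N → ∀ η : ℝ, 0 ≤ η → k * b * (d + 2) * η < c' →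
        ∀ᵐ α : Fin d → ℝ, Avoids (ProductIn b W) N η α := by
  obtain ⟨C', hC', h⟩ := few_products (k := k) hb hC hc'
  refine ⟨C', hC', fun W hW => ?_⟩
  have hkb : 1 ≤ k * b := Nat.mul_pos hk hb
  obtain ⟨h1, h2, h3⟩ := combinations hkb hc0 hc1 hC' (h W hW)
  push_cast at h2 h3
  exact ⟨h1, h2, h3⟩

end Run7.h469.Vm
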