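import Mathlib

/-!
# The logarithms of algebraic numbers are countable
-/

set_option autoImplicit false

namespace Run7.h469.Cnt

/-- preimages of countable sets under the exponential function are countable -/
theorem countable_exp {A : Set ℂ} (hA : A.Countable) : {z : ℂ | Complex.exp z ∈ A}.Countable := by
  have h1 : {z : ℂ | Complex.exp z ∈ A} = ⋃ a ∈ A, {z : ℂ | Complex.exp z = a} := by
    ext z
    simp
  rw [h1]
  refine hA.biUnion fun a _ => ?_
  rcases Set.eq_empty_or_nonempty {z : ℂ | Complex.exp z = a} with h0 | ⟨z₀, hz₀⟩
  · rw [h0]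
    exact Set.countable_empty
  · refine (Set.countable_range fun n : ℤ => z₀ + n * (2 * Real.pi * Complex.I)).mono ?_
    intro z hz
    have h2 : Complex.exp z = Complex.exp z₀ := by
      have e1 : Complex.exp z = a := hz
      have e2 : Complex.exp z₀ = a := hz₀
      rw [e1, e2]
    obtain ⟨n, hn⟩ := Complex.exp_eq_exp_iff_exists_int.1 h2
    exact ⟨n, hn.symm⟩

/-- the logarithms of algebraic numbers are countable -/
theorem countable_logs : {z : ℂ | IsAlgebraic ℚ (Complex.exp z)}.Countable :=
  countable_exp (A := {x : ℂ | IsAlgebraic ℚ x}) (Algebraic.countable ℚ ℂ)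

instance : Countable (algebraicClosure ℚ ℂ) := by
  have h : ((algebraicClosure ℚ ℂ : IntermediateField ℚ ℂ) : Set ℂ).Countable := by
    refine (Algebraic.countable ℚ ℂ).mono ?_
    intro x hx
    exact mem_algebraicClosure_iff.1 hx
  exact h.to_subtype

/-- the span of a countable set over the algebraic numbers is countable -/
theorem countable_span {A : Set ℂ} (hA : A.Countable) :
    ((Submodule.span (algebraicClosure ℚ ℂ) A : Submodule (algebraicClosure ℚ ℂ) ℂ) : Set ℂ).Countable := by
  haveI := hA.to_subtype
  have h : Countable (Submodule.span (algebraicClosure ℚ ℂ) (Set.range (fun a : A => (a : ℂ)))) := inferInstance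
  rw [Subtype.range_coe] at h
  exact Set.countable_coe_iff.1 h

/-- the linear combinations, with algebraic coefficients, of `1` and logarithms of algebraic numbers are countable -/
theorem countable_logForms : ((Submodule.span (algebraicClosure ℚ ℂ) ({1} ∪ {z : ℂ | IsAlgebraic ℚ (Complex.exp z)}) :
    Submodule (algebraicClosure ℚ ℂ) ℂ) : Set ℂ).Countable :=
  countable_span ((Set.countable_singleton _).union countable_logs)

end Run7.h469.Cnt
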