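import Pool.Agent.N251.LF.Tuples

/-!
# Integer matrices near generic subspaces

If a property of integral `n × k` matrices has few exceptions, by a power `δ k` of the size, then only finitely many of the
exceptions are near a generic subspace of dimension `h` of the space of real `n × k` matrices.
-/

set_option autoImplicit false

namespace Run7.h469.Ns

open Finset MeasureTheory

/-- The integral `n × k` matrices `a` near the space spanned by the `h` real matrices `α_l = (α (j, i, l))_(j,i)`: there is a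
real vector `x` such that all entries of `a - ∑ x_l α_l` are at most `A (1 + |x|)^θ` in absolute value. -/
def Near {n k h : ℕ} (α : Fin n × Fin k × Fin h → ℝ) (A θ : ℝ) : Set (Fin n → Fin k → ℤ) :=
  {a | ∃ x : Fin h → ℝ, ∀ j i, |(a j i : ℝ) - ∑ l, α (j, i, l) * x l| ≤ A * (1 + ‖x‖) ^ θ}

/-- For all systems `α` of `h` real `n × k` matrices outside a set of Hausdorff dimension at most `s`, for all `A`, all but
finitely many of the integral matrices near the space spanned by `α`, as in `Near`, have the property `P`. -/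
def NearSubspaces (n k h : ℕ) (s θ : ℝ) (P : (Fin n → Fin k → ℤ) → Prop) : Prop :=
  ∃ E : Set (Fin n × Fin k × Fin h → ℝ), dimH E ≤ ENNReal.ofReal s ∧
    ∀ α, α ∉ E → ∀ A : ℝ, {a ∈ Near α A θ | ¬ P a}.Finite

/-- a set of small dimension is a null set -/
theorem NearSubspaces.ae {n k h : ℕ} {s θ : ℝ} {P : (Fin n → Fin k → ℤ) → Prop} (H : NearSubspaces n k h s θ P)
    (hs : s < (n : ℝ) * k * h) (h0 : 0 < (n : ℝ) * k * h) :
    ∀ᵐ α : Fin n × Fin k × Fin h → ℝ, ∀ A : ℝ, {a ∈ Near α A θ | ¬ P a}.Finite := by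
  obtain ⟨E, hE, hE2⟩ := H
  have hcard : (Fintype.card (Fin n × Fin k × Fin h) : ℝ) = (n : ℝ) * k * h := by
    simp only [Fintype.card_prod, Fintype.card_fin]
    push_cast
    ring
  have hlt : dimH E < ((Fintype.card (Fin n × Fin k × Fin h) : NNReal) : ENNReal) := by
    refine hE.trans_lt ?_
    have e1 : (((Fintype.card (Fin n × Fin k × Fin h) : ℕ) : NNReal) : ENNReal) =
        ENNReal.ofReal ((n : ℝ) * k * h) := by
      rw [← hcard, ENNReal.ofReal_natCast, ENNReal.coe_natCast]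
    rw [e1]
    exact (ENNReal.ofReal_lt_ofReal_iff h0).2 hs
  have hnull : volume E = 0 := by
    rw [← hausdorffMeasure_pi_real]
    exact_mod_cast hausdorffMeasure_of_dimH_lt hlt
  rw [ae_iff]
  refine measure_mono_null ?_ hnull
  intro α hα
  by_contra hcon
  exact hα (hE2 α hcon)

/-- integral matrices as vectors -/
def toMat {n k : ℕ} (v : Fin (n * k) → ℤ) : Fin n → Fin k → ℤ := fun j i => v (finProdFinEquiv (j, i))

theorem toMat_injective {n k : ℕ} : Function.Injective (toMat (n := n) (k := k)) := by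
  intro u v huv
  funext t
  have h := congrFun (congrFun huv (finProdFinEquiv.symm t).1) (finProdFinEquiv.symm t).2
  simpa only [toMat, Prod.mk.eta, Equiv.apply_symm_apply] using h

theorem toMat_surjective {n k : ℕ} (a : Fin n → Fin k → ℤ) : ∃ v, toMat (n := n) (k := k) v = a := by
  refine ⟨fun t => a (finProdFinEquiv.symm t).1 (finProdFinEquiv.symm t).2, ?_⟩
  funext j i
  unfold toMat
  simp only [Equiv.symm_apply_apply]

open Classical in
theorem thin_mat {n k : ℕ} (P : (Fin n → Fin k → ℤ) → Prop) {C₀ s : ℝ} (hC₀ : 0 ≤ C₀) (hs : 0 ≤ s)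
    (hP : ∀ X : Finset ℤ, X.Nonempty → (((Fintype.piFinset fun _ : Fin n => Fintype.piFinset fun _ : Fin k => X).filter
      (fun a => P a)).card : ℝ) ≤ C₀ * (X.card : ℝ) ^ s) :
    Pool.Agent.N671.DA.Thin {v : Fin (n * k) → ℤ | P (toMat v)} s := by
  refine Pool.Agent.N671.DA.thin_of_nat (C₀ := C₀ * 3 ^ s) hs fun X hX => ?_
  have hne : (Icc (-(X : ℤ)) X).Nonempty := ⟨0, mem_Icc.2 ⟨by omega, by omega⟩⟩
  have hcard : ((Icc (-(X : ℤ)) X).card : ℝ) ≤ 3 * X := by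
    have h1 : (Icc (-(X : ℤ)) X).card ≤ 2 * X + 1 := by
      rw [Int.card_Icc]
      omega
    have h2 : ((Icc (-(X : ℤ)) X).card : ℝ) ≤ 2 * X + 1 := by exact_mod_cast h1
    have h3 : (1 : ℝ) ≤ X := by exact_mod_cast hX
    linarith
  have h1 := hP _ hne
  have hsub : toMat '' {v : Fin (n * k) → ℤ | (∀ t, |v t| ≤ (X : ℤ)) ∧ v ∈ {v : Fin (n * k) → ℤ | P (toMat v)}} ⊆
      (((Fintype.piFinset fun _ : Fin n => Fintype.piFinset fun _ : Fin k => Icc (-(X : ℤ)) X).filter (fun a => P a) :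
        Finset (Fin n → Fin k → ℤ)) : Set (Fin n → Fin k → ℤ)) := by
    rintro _ ⟨v, ⟨hv1, hv2⟩, rfl⟩
    rw [mem_coe, mem_filter, Fintype.mem_piFinset]
    refine ⟨fun j => ?_, hv2⟩
    rw [Fintype.mem_piFinset]
    intro i
    exact mem_Icc.2 (abs_le.1 (hv1 _))
  have h2 := Set.ncard_le_ncard hsub (Finset.finite_toSet _)
  rw [Set.ncard_image_of_injective _ toMat_injective, Set.ncard_coe_finset] at h2
  calc (({v : Fin (n * k) → ℤ | (∀ t, |v t| ≤ (X : ℤ)) ∧ v ∈ {v : Fin (n * k) → ℤ | P (toMat v)}}.ncard : ℕ) : ℝ)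
      ≤ (((Fintype.piFinset fun _ : Fin n => Fintype.piFinset fun _ : Fin k => Icc (-(X : ℤ)) X).filter
        (fun a => P a)).card : ℝ) := by exact_mod_cast h2
    _ ≤ C₀ * ((Icc (-(X : ℤ)) X).card : ℝ) ^ s := h1
    _ ≤ C₀ * (3 * (X : ℝ)) ^ s := by gcongr
    _ = C₀ * 3 ^ s * (X : ℝ) ^ s := by
        rw [Real.mul_rpow (by norm_num) (Nat.cast_nonneg X)]
        ring

/-- the integer vectors as a family of vectors -/
theorem fam_int (h : ℕ) : Pool.Agent.N251.LF.Fam (fun (v : Fin h → ℤ) (j : Fin h) => (v j : ℝ)) (h : ℝ) := by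
  intro ε hε
  refine ⟨3 ^ h, fun X hX => ?_⟩
  have hX0 : 0 ≤ X := by linarith
  have hset : {v : Fin h → ℤ | ‖(fun j : Fin h => (v j : ℝ))‖ ≤ X} = {v : Fin h → ℤ | ∀ j, |(v j : ℝ)| ≤ X} := by
    ext v
    exact pi_norm_le_iff_of_nonneg hX0
  rw [hset]
  refine ⟨Pool.Agent.N671.DA.box_fin X, ?_⟩
  have hX1 : 1 ≤ ⌊X⌋₊ := Nat.le_floor (by exact_mod_cast hX)
  have hXf : (⌊X⌋₊ : ℝ) ≤ X := Nat.floor_le hX0
  have hsub : {v : Fin h → ℤ | ∀ j, |(v j : ℝ)| ≤ X} ⊆
      ((Fintype.piFinset fun _ : Fin h => Icc (-(⌊X⌋₊ : ℤ)) ⌊X⌋₊ : Finset (Fin h → ℤ)) : Set (Fin h → ℤ)) := by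
    intro v hv
    rw [mem_coe, Fintype.mem_piFinset]
    intro j
    rw [mem_Icc, ← abs_le]
    have e1 : |(v j : ℝ)| = (((v j).natAbs : ℕ) : ℝ) := by rw [Nat.cast_natAbs, Int.cast_abs]
    have e2 := hv j
    rw [e1] at e2
    have e3 : (v j).natAbs ≤ ⌊X⌋₊ := Nat.le_floor e2
    have e4 : |v j| = ((v j).natAbs : ℤ) := Int.abs_eq_natAbs _
    rw [e4]
    exact_mod_cast e3
  have h2 := Set.ncard_le_ncard hsub (Finset.finite_toSet _)
  rw [Set.ncard_coe_finset, Fintype.card_piFinset] at h2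
  simp only [prod_const, card_univ, Fintype.card_fin] at h2
  have h3 : (Icc (-(⌊X⌋₊ : ℤ)) ⌊X⌋₊).card ≤ 3 * ⌊X⌋₊ := by
    rw [Int.card_Icc]
    omega
  have h4 : (({v : Fin h → ℤ | ∀ j, |(v j : ℝ)| ≤ X}.ncard : ℕ) : ℝ) ≤ (3 * X) ^ h := by
    calc (({v : Fin h → ℤ | ∀ j, |(v j : ℝ)| ≤ X}.ncard : ℕ) : ℝ)
        ≤ (((Icc (-(⌊X⌋₊ : ℤ)) ⌊X⌋₊).card ^ h : ℕ) : ℝ) := by exact_mod_cast h2
      _ = ((Icc (-(⌊X⌋₊ : ℤ)) ⌊X⌋₊).card : ℝ) ^ h := by push_cast; rfl
      _ ≤ (3 * (⌊X⌋₊ : ℝ)) ^ h := by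
          gcongr
          exact_mod_cast h3
      _ ≤ (3 * X) ^ h := by gcongr
  calc (({v : Fin h → ℤ | ∀ j, |(v j : ℝ)| ≤ X}.ncard : ℕ) : ℝ) ≤ (3 * X) ^ h := h4
    _ = 3 ^ h * X ^ (h : ℝ) := by rw [mul_pow, Real.rpow_natCast]
    _ ≤ 3 ^ h * X ^ ((h : ℝ) + ε) :=
        mul_le_mul_of_nonneg_left (Real.rpow_le_rpow_of_exponent_le hX (by linarith)) (by positivity)

/-- **Integral matrices near generic subspaces**, from a bound for the number of exceptions in boxes. -/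
theorem near_thin {n k : ℕ} (h : ℕ) (P : (Fin n → Fin k → ℤ) → Prop) {s : ℝ} (hs : 0 ≤ s)
    (hT : Pool.Agent.N671.DA.Thin {v : Fin (n * k) → ℤ | ¬ P (toMat v)} s) {θ : ℝ} (hθ0 : 0 ≤ θ) (hθ : θ < 1) :
    NearSubspaces n k h ((n : ℝ) * k * (h - 1) + (s + h) / (1 - θ)) θ P := by
  obtain ⟨E, hE, hE2⟩ := Pool.Agent.N251.LF.tuple_windows (m := n * k) (k := h)
    {v : Fin (n * k) → ℤ | ¬ P (toMat v)} (fun v l => (v l : ℝ)) (fun (v : Fin h → ℤ) (j : Fin h) => (v j : ℝ))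
    hs (Nat.cast_nonneg h) hθ (fam_int h) (fun ε hε => by
      obtain ⟨C, hC⟩ := hT ε hε
      refine ⟨C, fun X hX => ⟨?_, hC X hX⟩⟩
      exact (Pool.Agent.N671.DA.box_fin X).subset fun q hq => hq.2)
  -- the reindexing of the coordinates
  let e : Fin n × Fin k × Fin h ≃ Fin (n * k) × Fin h :=
    (Equiv.prodAssoc (Fin n) (Fin k) (Fin h)).symm.trans (Equiv.prodCongr finProdFinEquiv (Equiv.refl (Fin h)))
  let f : (Fin (n * k) × Fin h → ℝ) ≃L[ℝ] (Fin n × Fin k × Fin h → ℝ) :=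
    (LinearEquiv.funCongrLeft ℝ ℝ e).toContinuousLinearEquiv
  have hf : ∀ (β : Fin (n * k) × Fin h → ℝ) j i l, f β (j, i, l) = β (finProdFinEquiv (j, i), l) := fun β j i l => rfl
  refine ⟨f '' E, ?_, fun α hα A => ?_⟩
  · rw [ContinuousLinearEquiv.dimH_image]
    refine hE.trans (le_of_eq ?_)
    push_cast
    rfl
  · obtain ⟨β, rfl⟩ := f.surjective α
    have hβ : β ∉ E := fun hb => hα ⟨β, hb, rfl⟩
    -- the constant
    set B : ℝ := |A| * 3 + h * ‖β‖ with hB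
    have hfin := hE2 β hβ B
    set V : Set (Fin h → ℤ) := {i | ∃ t ∈ {v : Fin (n * k) → ℤ | ¬ P (toMat v)},
      ∀ l, |(t l : ℝ) - ∑ j, β (l, j) * (i j : ℝ)| ≤ B * ‖fun j => (i j : ℝ)‖ ^ θ} with hV
    -- the vectors near a given point
    have hnear : ∀ v : Fin h → ℤ, {t : Fin (n * k) → ℤ | ∀ l, |(t l : ℝ) - ∑ j, β (l, j) * (v j : ℝ)| ≤
        |A| * (2 + ‖fun j => (v j : ℝ)‖) ^ θ + h * ‖β‖}.Finite := by
      intro v
      have hb : ∀ l, |∑ j, β (l, j) * (v j : ℝ)| ≤ h * (‖β‖ * ‖fun j => (v j : ℝ)‖) := by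
        intro l
        refine (abs_sum_le_sum_abs _ _).trans ?_
        have : ∀ j ∈ (univ : Finset (Fin h)), |β (l, j) * (v j : ℝ)| ≤ ‖β‖ * ‖fun j => (v j : ℝ)‖ := by
          intro j _
          rw [abs_mul]
          exact mul_le_mul (norm_le_pi_norm β (l, j)) (norm_le_pi_norm (fun j => (v j : ℝ)) j) (abs_nonneg _)
            (norm_nonneg _)
        refine (sum_le_sum this).trans ?_
        rw [sum_const, card_univ, Fintype.card_fin, nsmul_eq_mul]
      refine (Pool.Agent.N671.DA.box_fin (|A| * (2 + ‖fun j => (v j : ℝ)‖) ^ θ + h * ‖β‖ +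
        h * (‖β‖ * ‖fun j => (v j : ℝ)‖))).subset ?_
      intro t ht l
      have h1 := ht l
      have h2 := hb l
      have h3 : (t l : ℝ) = ((t l : ℝ) - ∑ j, β (l, j) * (v j : ℝ)) + ∑ j, β (l, j) * (v j : ℝ) := by ring
      rw [h3]
      exact (abs_add_le _ _).trans (add_le_add h1 h2)
    have hall : (⋃ v ∈ V ∪ {0}, {t : Fin (n * k) → ℤ | ∀ l, |(t l : ℝ) - ∑ j, β (l, j) * (v j : ℝ)| ≤
        |A| * (2 + ‖fun j => (v j : ℝ)‖) ^ θ + h * ‖β‖}).Finite :=
      (hfin.union (Set.finite_singleton 0)).biUnion fun v _ => hnear v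
    refine (hall.image toMat).subset ?_
    rintro a ⟨⟨x, hx⟩, ha⟩
    obtain ⟨t, rfl⟩ := toMat_surjective a
    refine ⟨t, ?_, rfl⟩
    -- round `x`
    set v : Fin h → ℤ := fun j => ⌊x j⌋ with hv
    have hxv : ∀ j, |x j - (v j : ℝ)| ≤ 1 := by
      intro j
      rw [abs_le]
      have h1 := Int.floor_le (x j)
      have h2 := Int.lt_floor_add_one (x j)
      constructor <;> simp only [hv] <;> linarith
    have hnx : ‖x‖ ≤ 1 + ‖fun j => (v j : ℝ)‖ := by
      have h1 : ‖x - fun j => (v j : ℝ)‖ ≤ 1 := (pi_norm_le_iff_of_nonneg zero_le_one).2 fun j => hxv j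
      have h2 : x = (x - fun j => (v j : ℝ)) + fun j => (v j : ℝ) := by simp
      calc ‖x‖ = ‖(x - fun j => (v j : ℝ)) + fun j => (v j : ℝ)‖ := by rw [← h2]
        _ ≤ ‖x - fun j => (v j : ℝ)‖ + ‖fun j => (v j : ℝ)‖ := norm_add_le _ _
        _ ≤ 1 + ‖fun j => (v j : ℝ)‖ := by linarith
    have hd : ∀ l, |(t l : ℝ) - ∑ j, β (l, j) * (v j : ℝ)| ≤
        |A| * (2 + ‖fun j => (v j : ℝ)‖) ^ θ + h * ‖β‖ := by
      intro l
      obtain ⟨⟨j₀, i₀⟩, rfl⟩ := finProdFinEquiv.surjective l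
      have h1 := hx j₀ i₀
      simp only [hf, toMat] at h1
      have h2 : (t (finProdFinEquiv (j₀, i₀)) : ℝ) - ∑ j, β (finProdFinEquiv (j₀, i₀), j) * (v j : ℝ) =
          ((t (finProdFinEquiv (j₀, i₀)) : ℝ) - ∑ j, β (finProdFinEquiv (j₀, i₀), j) * x j) +
          ∑ j, β (finProdFinEquiv (j₀, i₀), j) * (x j - (v j : ℝ)) := by
        simp only [mul_sub, sum_sub_distrib]
        ring
      have h3 : |∑ j, β (finProdFinEquiv (j₀, i₀), j) * (x j - (v j : ℝ))| ≤ h * ‖β‖ := by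
        refine (abs_sum_le_sum_abs _ _).trans ?_
        have : ∀ j ∈ (univ : Finset (Fin h)), |β (finProdFinEquiv (j₀, i₀), j) * (x j - (v j : ℝ))| ≤ ‖β‖ := by
          intro j _
          rw [abs_mul]
          calc |β (finProdFinEquiv (j₀, i₀), j)| * |x j - (v j : ℝ)| ≤ ‖β‖ * 1 :=
              mul_le_mul (norm_le_pi_norm β _) (hxv j) (abs_nonneg _) (norm_nonneg _)
            _ = ‖β‖ := mul_one _
        refine (sum_le_sum this).trans ?_
        rw [sum_const, card_univ, Fintype.card_fin, nsmul_eq_mul]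
      rw [h2]
      refine (abs_add_le _ _).trans (add_le_add (h1.trans ?_) h3)
      calc A * (1 + ‖x‖) ^ θ ≤ |A| * (1 + ‖x‖) ^ θ := by
            gcongr
            exact le_abs_self A
        _ ≤ |A| * (2 + ‖fun j => (v j : ℝ)‖) ^ θ :=
            mul_le_mul_of_nonneg_left (Real.rpow_le_rpow (by positivity) (by linarith) hθ0) (abs_nonneg A)
    refine Set.mem_biUnion (x := v) ?_ hd
    by_cases hv0 : v = 0
    · exact Or.inr hv0
    · left
      refine ⟨t, ha, fun l => (hd l).trans ?_⟩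
      have hv1 : 1 ≤ ‖fun j => (v j : ℝ)‖ := by
        obtain ⟨j, hj⟩ := Function.ne_iff.1 hv0
        have h1 : (1 : ℝ) ≤ |(v j : ℝ)| := by
          have : 1 ≤ |v j| := Int.one_le_abs hj
          exact_mod_cast this
        exact h1.trans (norm_le_pi_norm (fun j => (v j : ℝ)) j)
      set N : ℝ := ‖fun j => (v j : ℝ)‖ with hN
      have hN1 : 1 ≤ N ^ θ := Real.one_le_rpow hv1 hθ0
      have h5 : (2 + N) ^ θ ≤ 3 * N ^ θ := by
        calc (2 + N) ^ θ ≤ (3 * N) ^ θ := by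
              gcongr
              linarith
          _ = 3 ^ θ * N ^ θ := Real.mul_rpow (by norm_num) (by linarith)
          _ ≤ 3 * N ^ θ := by
              gcongr
              calc (3 : ℝ) ^ θ ≤ 3 ^ (1 : ℝ) := Real.rpow_le_rpow_of_exponent_le (by norm_num) hθ.le
                _ = 3 := Real.rpow_one _
      calc |A| * (2 + N) ^ θ + h * ‖β‖ ≤ |A| * (3 * N ^ θ) + h * ‖β‖ * N ^ θ := by
            have h6 : (h : ℝ) * ‖β‖ * 1 ≤ h * ‖β‖ * N ^ θ :=
              mul_le_mul_of_nonneg_left hN1 (by positivity)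
            have h7 : |A| * (2 + N) ^ θ ≤ |A| * (3 * N ^ θ) := mul_le_mul_of_nonneg_left h5 (abs_nonneg A)
            linarith
        _ = B * N ^ θ := by rw [hB]; ring

open Classical in
/-- **Integral matrices near generic subspaces.** -/
theorem near_subspaces {n k : ℕ} (h : ℕ) (hnk : 1 ≤ n * k) (P : (Fin n → Fin k → ℤ) → Prop) {C₀ δ : ℝ} (hC₀ : 0 ≤ C₀)
    (hδ1 : δ ≤ 1)
    (hP : ∀ X : Finset ℤ, X.Nonempty → (((Fintype.piFinset fun _ : Fin n => Fintype.piFinset fun _ : Fin k => X).filter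
      (fun a => ¬ P a)).card : ℝ) ≤ C₀ * (X.card : ℝ) ^ ((n * k : ℝ) - δ * k)) {θ : ℝ} (hθ0 : 0 ≤ θ) (hθ : θ < 1) :
    NearSubspaces n k h ((n : ℝ) * k * (h - 1) + (n * k - δ * k + h) / (1 - θ)) θ P := by
  have hn : (1 : ℝ) ≤ n := by
    have : 1 ≤ n := by
      rcases Nat.eq_zero_or_pos n with h0 | h0
      · rw [h0, zero_mul] at hnk
        omega
      · exact h0
    exact_mod_cast this
  have hk0 : (0 : ℝ) ≤ k := Nat.cast_nonneg k
  have hs : 0 ≤ (n : ℝ) * k - δ * k := by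
    have : δ * (k : ℝ) ≤ n * k := mul_le_mul_of_nonneg_right (hδ1.trans hn) hk0
    linarith
  have hT := thin_mat (fun a => ¬ P a) hC₀ hs (fun X hX => by
    refine le_of_eq_of_le ?_ (hP X hX)
    congr!)
  exact near_thin h P hs hT hθ0 hθ

/-- the dimension is less than the dimension of the space -/
theorem dim_lt {n k h : ℕ} {δ θ : ℝ} (hθ : θ < 1) (hlt : (h : ℝ) + n * k * θ < δ * k) :
    (n : ℝ) * k * (h - 1) + (n * k - δ * k + h) / (1 - θ) < (n : ℝ) * k * h := by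
  have h1 : 0 < 1 - θ := by linarith
  have h2 : ((n : ℝ) * k - δ * k + h) / (1 - θ) < n * k := by
    rw [div_lt_iff₀ h1]
    nlinarith
  nlinarith

/-- For almost all systems `α` of `h` real `n × k` matrices, for all `A`, all but finitely many of the integral matrices near
the space spanned by `α`, as in `Near`, have the property `P`. -/
def NearAlmostAll (n k h : ℕ) (θ : ℝ) (P : (Fin n → Fin k → ℤ) → Prop) : Prop :=
  ∀ᵐ α : Fin n × Fin k × Fin h → ℝ, ∀ A : ℝ, {a ∈ Near α A θ | ¬ P a}.Finite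

open Classical in
/-- **Integral matrices near generic subspaces**, from a bound for integral matrices. -/
theorem near_int {n k : ℕ} (h : ℕ) (hn : 1 ≤ n) (hk : 1 ≤ k) (P : (Fin n → Fin k → ℤ) → Prop) {C₀ δ : ℝ} (hC₀ : 0 ≤ C₀)
    (hP : ∀ X : Finset ℤ, X.Nonempty → (((Fintype.piFinset fun _ : Fin n => Fintype.piFinset fun _ : Fin k => X).filter
      (fun a => ¬ P a)).card : ℝ) ≤ C₀ * (X.card : ℝ) ^ ((n * k : ℝ) - δ * k)) {θ : ℝ} (hθ0 : 0 ≤ θ) (hθ : θ < 1) :
    NearSubspaces n k h ((n : ℝ) * k * (h - 1) + (n * k - min δ 1 * k + h) / (1 - θ)) θ P ∧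
      (1 ≤ h → (h : ℝ) + n * k * θ < min δ 1 * k → NearAlmostAll n k h θ P) := by
  have key : NearSubspaces n k h ((n : ℝ) * k * (h - 1) + (n * k - min δ 1 * k + h) / (1 - θ)) θ P := by
    refine near_subspaces h (Nat.mul_pos hn hk) _ hC₀ (min_le_right δ 1) (fun X hX => ?_) hθ0 hθ
    have h1 := hP X hX
    have hX1 : (1 : ℝ) ≤ X.card := by exact_mod_cast hX.card_pos
    have h2 : (X.card : ℝ) ^ ((n * k : ℝ) - δ * k) ≤ (X.card : ℝ) ^ ((n * k : ℝ) - min δ 1 * k) := by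
      apply Real.rpow_le_rpow_of_exponent_le hX1
      have : min δ 1 * (k : ℝ) ≤ δ * k := mul_le_mul_of_nonneg_right (min_le_left _ _) (Nat.cast_nonneg k)
      linarith
    exact h1.trans (mul_le_mul_of_nonneg_left h2 hC₀)
  refine ⟨key, fun hh hlt => ?_⟩
  have h0 : 0 < (n : ℝ) * k * h := by
    have a1 : (1 : ℝ) ≤ n := by exact_mod_cast hn
    have a2 : (1 : ℝ) ≤ k := by exact_mod_cast hk
    have a3 : (1 : ℝ) ≤ h := by exact_mod_cast hh
    positivity
  exact key.ae (dim_lt hθ hlt) h0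

open Classical in
/-- **Integral matrices near generic subspaces**, from a bound for rational matrices. -/
theorem near_rat {n k : ℕ} (h : ℕ) (hn : 1 ≤ n) (hk : 1 ≤ k) (P : (Fin n → Fin k → ℚ) → Prop) {C₀ δ : ℝ} (hC₀ : 0 ≤ C₀)
    (hP : ∀ X : Finset ℚ, X.Nonempty → (((Fintype.piFinset fun _ : Fin n => Fintype.piFinset fun _ : Fin k => X).filter
      (fun a => ¬ P a)).card : ℝ) ≤ C₀ * (X.card : ℝ) ^ ((n * k : ℝ) - δ * k)) {θ : ℝ} (hθ0 : 0 ≤ θ) (hθ : θ < 1) :
    NearSubspaces n k h ((n : ℝ) * k * (h - 1) + (n * k - min δ 1 * k + h) / (1 - θ)) θ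
        (fun a => P fun j i => (a j i : ℚ)) ∧
      (1 ≤ h → (h : ℝ) + n * k * θ < min δ 1 * k → NearAlmostAll n k h θ (fun a => P fun j i => (a j i : ℚ))) := by
  refine near_int h hn hk _ hC₀ (fun X hX => ?_) hθ0 hθ
  have h1 := hP (X.image fun z : ℤ => (z : ℚ)) (hX.image _)
  have hcard : (X.image fun z : ℤ => (z : ℚ)).card = X.card := card_image_of_injective _ Int.cast_injective
  rw [hcard] at h1
  refine le_trans ?_ h1
  rw [Nat.cast_le]
  refine card_le_card_of_injOn (fun a j i => ((a j i : ℤ) : ℚ)) ?_ ?_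
  · intro a ha
    rw [mem_coe, mem_filter, Fintype.mem_piFinset] at ha
    rw [mem_coe, mem_filter, Fintype.mem_piFinset]
    exact ⟨fun j => Fintype.mem_piFinset.2 fun i => mem_image_of_mem _ (Fintype.mem_piFinset.1 (ha.1 j) i), ha.2⟩
  · intro a _ b _ hab
    funext j i
    have h6 : ((a j i : ℤ) : ℚ) = ((b j i : ℤ) : ℚ) := congrFun (congrFun hab j) i
    exact_mod_cast h6

end Run7.h469.Ns
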