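import Pool.Agent.Run7.h469.Nsi

/-!
# Coefficients of points of products of groups near generic subspaces
-/

set_option autoImplicit false

namespace Run7.h469.Nsg

open Finset MeasureTheory Run7.h469.Nsi

/-- The indices of the integral coefficients of `n₁` points in groups with `2 k` integral parameters and of `n₂ + r` points in
groups with `k` integral parameters. -/
abbrev Index (n₁ n₂ r k : ℕ) : Type := ((Fin n₁ × (Fin k × Fin 2)) ⊕ (Fin n₂ × Fin k)) ⊕ (Fin r × Fin k)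

/-- The integer vector with the coordinates `m` as a system of coefficients. -/
def toCoeffs {n₁ n₂ r k : ℕ} (m : Index n₁ n₂ r k → ℤ) :
    ((Fin n₁ → Fin k × Fin 2 → ℤ) × (Fin n₂ → Fin k → ℤ)) × (Fin r → Fin k → ℤ) :=
  ((fun j i => m (Sum.inl (Sum.inl (j, i))), fun j i => m (Sum.inl (Sum.inr (j, i)))), fun j i => m (Sum.inr (j, i)))

theorem toCoeffs_injective {n₁ n₂ r k : ℕ} : Function.Injective (toCoeffs (n₁ := n₁) (n₂ := n₂) (r := r) (k := k)) := by
  intro u v huv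
  unfold toCoeffs at huv
  simp only [Prod.mk.injEq] at huv
  obtain ⟨⟨h1, h2⟩, h3⟩ := huv
  funext t
  rcases t with (⟨j, i⟩ | ⟨j, i⟩) | ⟨j, i⟩
  · exact congrFun (congrFun h1 j) i
  · exact congrFun (congrFun h2 j) i
  · exact congrFun (congrFun h3 j) i

theorem card_index (n₁ n₂ r k : ℕ) : (Fintype.card (Index n₁ n₂ r k) : ℝ) = (2 * n₁ + n₂ + r) * k := by
  simp only [Fintype.card_sum, Fintype.card_prod, Fintype.card_fin]
  push_cast
  ring

open Classical in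
/-- **Coefficients near generic subspaces.** -/
theorem near_coeffs {n₁ n₂ r k : ℕ} (h : ℕ) (hn : 1 ≤ n₁ + n₂ + r) (hk : 1 ≤ k)
    (P : ((Fin n₁ → Fin k × Fin 2 → ℤ) × (Fin n₂ → Fin k → ℤ)) × (Fin r → Fin k → ℤ) → Prop) {C₀ δ : ℝ} (hC₀ : 0 ≤ C₀)
    (hP : ∀ X : Finset ℤ, X.Nonempty →
      ((((((Fintype.piFinset fun _ => Fintype.piFinset fun _ => X) ×ˢ
        (Fintype.piFinset fun _ => Fintype.piFinset fun _ => X)) ×ˢ
        (Fintype.piFinset fun _ => Fintype.piFinset fun _ => X)) : Finset (((Fin n₁ → Fin k × Fin 2 → ℤ) ×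
          (Fin n₂ → Fin k → ℤ)) × (Fin r → Fin k → ℤ))).filter (fun m => ¬ P m)).card : ℝ) ≤
      C₀ * (X.card : ℝ) ^ (((2 * n₁ + n₂ + r) * k : ℝ) - δ * k)) {θ : ℝ} (hθ0 : 0 ≤ θ) (hθ : θ < 1) :
    NearSubspaces (Index n₁ n₂ r k) h (((2 * n₁ + n₂ + r) * k : ℝ) * (h - 1) +
        ((2 * n₁ + n₂ + r) * k - min δ 1 * k + h) / (1 - θ)) θ (fun m => P (toCoeffs m)) ∧
      (1 ≤ h → (h : ℝ) + (2 * n₁ + n₂ + r) * k * θ < min δ 1 * k →
        ∀ᵐ α : Index n₁ n₂ r k × Fin h → ℝ, ∀ A : ℝ, {m ∈ Near α A θ | ¬ P (toCoeffs m)}.Finite) := by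
  have hn1 : (1 : ℝ) ≤ 2 * n₁ + n₂ + r := by
    have : (1 : ℝ) ≤ n₁ + n₂ + r := by exact_mod_cast hn
    have h1 : (0 : ℝ) ≤ n₁ := Nat.cast_nonneg _
    linarith
  have hk1 : (1 : ℝ) ≤ k := by exact_mod_cast hk
  have hs : (0 : ℝ) ≤ ((2 * n₁ + n₂ + r) * k : ℝ) - min δ 1 * k := by
    have h2 : min δ 1 ≤ 1 := min_le_right _ _
    nlinarith
  have hc := card_index n₁ n₂ r k
  have hcard1 : 1 ≤ Fintype.card (Index n₁ n₂ r k) := by
    have : (1 : ℝ) ≤ Fintype.card (Index n₁ n₂ r k) := by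
      rw [hc]
      nlinarith
    exact_mod_cast this
  have key := near_index (I := Index n₁ n₂ r k) h hcard1 (fun m => P (toCoeffs m))
    (s := ((2 * n₁ + n₂ + r) * k : ℝ) - min δ 1 * k) hC₀ hs (fun X hX => by
      have hX1 : (1 : ℝ) ≤ X.card := by exact_mod_cast hX.card_pos
      have h2 : (X.card : ℝ) ^ (((2 * n₁ + n₂ + r) * k : ℝ) - δ * k) ≤
          (X.card : ℝ) ^ (((2 * n₁ + n₂ + r) * k : ℝ) - min δ 1 * k) := by
        apply Real.rpow_le_rpow_of_exponent_le hX1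
        have : min δ 1 * (k : ℝ) ≤ δ * k := mul_le_mul_of_nonneg_right (min_le_left _ _) (Nat.cast_nonneg k)
        linarith
      refine le_trans ?_ ((hP X hX).trans (mul_le_mul_of_nonneg_left h2 hC₀))
      rw [Nat.cast_le]
      refine card_le_card_of_injOn toCoeffs ?_ (toCoeffs_injective.injOn)
      intro m hm
      rw [mem_coe, mem_filter, Fintype.mem_piFinset] at hm
      rw [mem_coe, mem_filter]
      refine ⟨?_, hm.2⟩
      simp only [mem_product, Fintype.mem_piFinset, toCoeffs]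
      exact ⟨⟨fun j i => hm.1 _, fun j i => hm.1 _⟩, fun j i => hm.1 _⟩) hθ0 hθ
  rw [hc] at key
  refine ⟨key, fun hh hlt => ?_⟩
  have hh1 : (1 : ℝ) ≤ h := by exact_mod_cast hh
  refine key.ae ?_ ?_
  · rw [hc]
    have h1 : 0 < 1 - θ := by linarith
    have h2 : (((2 * n₁ + n₂ + r) * k : ℝ) - min δ 1 * k + h) / (1 - θ) < (2 * n₁ + n₂ + r) * k := by
      rw [div_lt_iff₀ h1]
      nlinarith
    nlinarith
  · rw [hc]
    have : (0 : ℝ) < (2 * n₁ + n₂ + r) * k := by nlinarith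
    positivity

end Run7.h469.Nsg
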