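import Pool.Agent.Run7.h469.Rad
import Pool.Agent.Helper294.HallC.PcFp

/-!
# Finite presentability of the iterated image
-/

set_option autoImplicit false
set_option linter.style.haveILetI false

namespace Run7.h469

open Function Pool.Agent.Helper611.PcGrp

theorem vp_fp {G : Type} [Group G] (h : VP G) : Group.IsFinitelyPresented G := by
  obtain ⟨S, hS, hs⟩ := h.2
  haveI : S.FiniteIndex := ⟨hS⟩
  have h1 : Pool.Agent.Helper294.HallC.PC S.normalCore :=
    ⟨Group.isSolvable_of_isSolvable_injective (f := Subgroup.inclusion (Subgroup.normalCore_le S))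
      (Subgroup.inclusion_injective _), (h.sub S.normalCore).1⟩
  have h2 : Group.IsFinitelyPresented S.normalCore := Pool.Agent.Helper294.HallC.pc_fp h1
  haveI : Finite (G ⧸ S.normalCore) := inferInstance
  have h3 : Group.IsFinitelyPresented (G ⧸ S.normalCore) := inferInstance
  refine Pool.Agent.W386.fp_ext S.normalCore.subtype Subtype.val_injective
    (QuotientGroup.mk' S.normalCore) (QuotientGroup.mk'_surjective S.normalCore) ?_ h2 h3
  rw [QuotientGroup.ker_mk', Subgroup.range_subtype]

theorem fp_of_relIndex {P : Type} [Group P] {H L : Subgroup P} (hle : H ≤ L)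
    (h : H.relIndex L ≠ 0) (hL : Group.IsFinitelyPresented L) : Group.IsFinitelyPresented H := by
  haveI : (H.subgroupOf L).FiniteIndex := ⟨h⟩
  have h1 : Group.IsFinitelyPresented (H.subgroupOf L) :=
    Pool.Agent.V11238.MG.fp_of_finiteIndex _
  exact Group.IsFinitelyPresented.equiv (Subgroup.subgroupOfEquivOfLe hle)

section

variable {P Q : Type*} [Group P] [Group Q] {φ : P →* P} {β : Q →* Q}

/-- the kernel of the projection restricted to a subgroup is virtually polycyclic -/
theorem ker_restrict_VP (p : P →* Q) (hker : VP p.ker) (L : Subgroup P) :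
    VP (p.comp L.subtype).ker := by
  let e : (p.comp L.subtype).ker →* p.ker :=
    { toFun := fun x => ⟨x.1.1, x.2⟩
      map_one' := rfl
      map_mul' := fun _ _ => rfl }
  refine hker.of_injective e ?_
  intro a b hab
  exact Subtype.ext (Subtype.ext (congrArg (fun z : p.ker => z.1) hab))

theorem itImg_fg (p : P →* Q) (hp : Surjective p) (hpφ : ∀ x, p (φ x) = β (p x))
    (hφ : Injective φ) (hfi : φ.range.index ≠ 0) (hβ : Injective β) (hker : VP p.ker)
    (hfg : Group.FG (itImg β)) : Group.FG (itImg φ) := by
  have h1 := main_step p hp hpφ hφ hfi hβ hker hfg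
  refine fg_ext (p.comp (itImg φ).subtype) (MaxC.fg (ker_restrict_VP p hker _).1) ?_
  rw [MonoidHom.range_comp, Subgroup.range_subtype]
  exact fg_of_relIndex (itImg_map_le p hpφ) h1 hfg

end

theorem fg_of_fp' {G : Type*} [Group G] (h : Group.IsFinitelyPresented G) : Group.FG G := by
  obtain ⟨n, f, hf, -⟩ := h.out
  exact Group.fg_of_surjective hf

theorem itImg_fp {P Q : Type} [Group P] [Group Q] {φ : P →* P} {β : Q →* Q} (p : P →* Q)
    (hp : Surjective p) (hpφ : ∀ x, p (φ x) = β (p x)) (hφ : Injective φ)
    (hfi : φ.range.index ≠ 0) (hβ : Injective β) (hker : VP p.ker)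
    (hfp : Group.IsFinitelyPresented (itImg β)) : Group.IsFinitelyPresented (itImg φ) := by
  have h1 := main_step p hp hpφ hφ hfi hβ hker (fg_of_fp' hfp)
  let f := p.comp (itImg φ).subtype
  have h2 : Group.IsFinitelyPresented f.ker := vp_fp (ker_restrict_VP p hker _)
  have h3 : f.range = (itImg φ).map p := by
    rw [MonoidHom.range_comp, Subgroup.range_subtype]
  have h4 : Group.IsFinitelyPresented f.range := by
    rw [h3]
    exact fp_of_relIndex (itImg_map_le p hpφ) h1 hfp
  refine Pool.Agent.W386.fp_ext f.ker.subtype Subtype.val_injective f.rangeRestrict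
    f.rangeRestrict_surjective ?_ h2 h4
  rw [MonoidHom.ker_rangeRestrict, Subgroup.range_subtype]

theorem fp_quotient {P : Type*} [Group P] (hP : Group.IsFinitelyPresented P) (R : Subgroup P)
    [R.Normal] (hR : Group.FG R) : Group.IsFinitelyPresented (P ⧸ R) :=
  Group.IsFinitelyPresented.quotient R (Subgroup.IsFinitelyNormallyGenerated.of_FG R)

/-- a group that is not isomorphic to any of its proper subgroups of finite index: an injective
endomorphism with an image of finite index is surjective -/
theorem surjective_of_cohopf {Q : Type*} [Group Q]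
    (hQ : ∀ H : Subgroup Q, H.FiniteIndex → Nonempty (H ≃* Q) → H = ⊤) {β : Q →* Q}
    (hβ : Injective β) (hfi : β.range.index ≠ 0) : Surjective β := by
  have h := hQ β.range ⟨hfi⟩ ⟨(MonoidHom.ofInjective hβ).symm⟩
  exact MonoidHom.range_eq_top.1 h

end Run7.h469
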