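import Pool.Agent.Run7.h469.Dens
import Pool.Agent.Run7.h469.FPmain

/-!
# Iterated images that are kernels of characters
-/

set_option autoImplicit false
set_option linter.style.haveILetI false

namespace Run7.h469.Win

open Function

theorem exists_gen {G : Type*} [Group G] [Group.FG G] {r : ℕ} (h : Group.rank G ≤ r) :
    ∃ l : Fin r → G, Subgroup.closure (Set.range l) = ⊤ := by
  classical
  obtain ⟨T, hT, hT'⟩ := Group.rank_spec G
  have hc : T.card ≤ r := hT.trans_le h
  refine ⟨fun i => if hi : i.1 < T.card then ((T.equivFin.symm ⟨i.1, hi⟩ : T) : G) else 1, ?_⟩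
  rw [eq_top_iff, ← hT']
  refine Subgroup.closure_mono ?_
  intro g hg
  refine ⟨⟨(T.equivFin ⟨g, hg⟩).1, lt_of_lt_of_le (T.equivFin ⟨g, hg⟩).2 hc⟩, ?_⟩
  have h1 : (T.equivFin ⟨g, hg⟩).1 < T.card := (T.equivFin ⟨g, hg⟩).2
  simp

theorem relIndex_le {G : Type*} [Group G] (H K : Subgroup G) (hH : H.index ≠ 0) :
    H.relIndex K ≤ H.index := by
  rw [← Subgroup.relIndex_top_right H]
  refine Subgroup.relIndex_le_of_le_right le_top ?_
  rwa [Subgroup.relIndex_top_right]

/-- the intersection with a subgroup of finite index of the image of an injective endomorphism is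
generated by a bounded number of elements -/
theorem bounded_gen {G : Type*} [Group G] [Group.FG G] (N : Subgroup G) (hN : N.index ≠ 0)
    (f : G →* G) :
    ∃ l : Fin (N.index * Group.rank G) → N,
      Subgroup.closure (Set.range l) = (f.range).subgroupOf N := by
  have h1 : (N.comap f).index ≠ 0 := by
    rw [Subgroup.index_comap]
    exact mt Subgroup.index_eq_zero_of_relIndex_eq_zero hN
  haveI : (N.comap f).FiniteIndex := ⟨h1⟩
  have h2 : Group.rank (N.comap f) ≤ N.index * Group.rank G := by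
    refine (Subgroup.rank_le_index_mul_rank (N.comap f)).trans ?_
    refine Nat.mul_le_mul_right _ ?_
    rw [Subgroup.index_comap]
    exact relIndex_le _ _ hN
  obtain ⟨l, hl⟩ := exists_gen h2
  let e : N.comap f →* N :=
    { toFun := fun g => ⟨f g.1, g.2⟩
      map_one' := Subtype.ext (map_one f)
      map_mul' := fun a b => Subtype.ext (map_mul f a.1 b.1) }
  refine ⟨e ∘ l, ?_⟩
  rw [Set.range_comp, ← MonoidHom.map_closure, hl]
  ext g
  rw [Subgroup.mem_map, Subgroup.mem_subgroupOf]
  constructor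
  · rintro ⟨a, -, rfl⟩
    exact ⟨a.1, rfl⟩
  · rintro ⟨a, ha⟩
    refine ⟨⟨a, ?_⟩, trivial, Subtype.ext ha⟩
    rw [Subgroup.mem_comap, ha]
    exact g.2

/-- a subgroup of finite index that contains the kernel of a surjective character -/
theorem exists_d {N : Type*} [Group N] {χ : N →* Multiplicative ℤ} (hχ : Surjective χ)
    {L : Subgroup N} (hL : L.index ≠ 0) (hle : χ.ker ≤ L) :
    ∃ d : ℕ, 0 < d ∧ L = (modd χ d).ker := by
  obtain ⟨a, ha⟩ := Int.subgroup_cyclic (Subgroup.toAddSubgroup (L.map χ))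
  have hmem : ∀ g : N, g ∈ L ↔ a ∣ (χ g).toAdd := by
    intro g
    have h1 : g ∈ L ↔ χ g ∈ L.map χ := by
      constructor
      · intro hg; exact ⟨g, hg, rfl⟩
      · rintro ⟨g', hg', h⟩
        have h2 : g'⁻¹ * g ∈ χ.ker := by
          rw [MonoidHom.mem_ker, map_mul, map_inv, h, inv_mul_cancel]
        have h3 := mul_mem hg' (hle h2)
        rwa [mul_inv_cancel_left] at h3
    rw [h1, ← Int.mem_zmultiples_iff, AddSubgroup.zmultiples_eq_closure, ← ha]
    rfl
  refine ⟨a.natAbs, ?_, ?_⟩
  · rw [Int.natAbs_pos]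
    rintro rfl
    -- the index would be infinite
    have h2 : L = χ.ker := by
      ext g
      rw [hmem, zero_dvd_iff, MonoidHom.mem_ker]
      constructor
      · intro h; exact Multiplicative.toAdd.injective h
      · intro h; rw [h]; rfl
    apply hL
    rw [h2, Subgroup.index_ker, MonoidHom.range_eq_top.2 hχ]
    have : Infinite (⊤ : Subgroup (Multiplicative ℤ)) :=
      Infinite.of_injective (fun z : ℤ => (⟨Multiplicative.ofAdd z, trivial⟩ :
        (⊤ : Subgroup (Multiplicative ℤ)))) (fun z w h => by simpa using h)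
    exact Nat.card_eq_zero_of_infinite
  · ext g
    rw [hmem, mem_ker_modd, Int.natCast_natAbs, abs_dvd]

variable {G : Type*} [Group G] {φ : G →* G}

theorem range_iter_index (hφ : Injective φ) (hfi : φ.range.index ≠ 0) (k : ℕ)
    {f : G →* G} (hf : ∀ x, f x = φ^[k] x) : f.range.index ≠ 0 := by
  induction k generalizing f with
  | zero =>
    have : f.range = ⊤ := by
      rw [MonoidHom.range_eq_top]
      intro x
      exact ⟨x, hf x⟩
    rw [this, Subgroup.index_top]
    exact one_ne_zero
  | succ k ih =>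
    let f' : G →* G := MonoidHom.mk' (φ^[k]) (fun a b => iterate_map_mul φ k a b)
    have h1 := ih (f := f') (fun x => rfl)
    have h2 : f.range = f'.range.map φ := by
      ext x
      constructor
      · rintro ⟨y, rfl⟩
        exact ⟨φ^[k] y, ⟨y, rfl⟩, by rw [hf, iterate_succ_apply']⟩
      · rintro ⟨_, ⟨y, rfl⟩, rfl⟩
        exact ⟨y, by rw [hf, iterate_succ_apply']; rfl⟩
    rw [h2, Subgroup.index_map_of_injective _ hφ]
    exact mul_ne_zero h1 hfi

/-- The rank condition for a character whose kernel is the iterated image. -/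
theorem rankCond (F : Type*) [Field F] [Group.FG G] (hφ : Injective φ) (hfi : φ.range.index ≠ 0)
    (N : Subgroup G) (hN : N.index ≠ 0) {χ : N →* Multiplicative ℤ} (hχ : Surjective χ)
    (hker : (itImg φ).subgroupOf N = χ.ker) :
    RankCond F χ (N.index * Group.rank G) := by
  classical
  let f : ℕ → (G →* G) := fun k => MonoidHom.mk' (φ^[k]) (fun a b => iterate_map_mul φ k a b)
  have hf : ∀ k x, f k x = φ^[k] x := fun k x => rfl
  have hle : ∀ k, χ.ker ≤ (f k).range.subgroupOf N := by
    intro k g hg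
    rw [← hker] at hg
    exact (Subgroup.mem_subgroupOf.1 hg) k
  have hidx : ∀ k, ((f k).range.subgroupOf N).index ≠ 0 := by
    intro k
    exact mt Subgroup.index_eq_zero_of_relIndex_eq_zero (range_iter_index hφ hfi k (hf k))
  choose d hd hdL using fun k => exists_d hχ (hidx k) (hle k)
  intro m
  obtain ⟨k, hk⟩ : ∃ k, m ≤ d k := by
    by_contra hcon
    push Not at hcon
    obtain ⟨g, hg⟩ := hχ (Multiplicative.ofAdd ((m.factorial : ℕ) : ℤ))
    have h1 : g ∈ χ.ker := by
      rw [← hker, Subgroup.mem_subgroupOf]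
      intro k
      have h2 : g ∈ (f k).range.subgroupOf N := by
        rw [hdL k, mem_ker_modd, hg, toAdd_ofAdd, Int.natCast_dvd_natCast]
        exact Nat.dvd_factorial (hd k) (hcon k).le
      exact Subgroup.mem_subgroupOf.1 h2
    rw [MonoidHom.mem_ker, hg, ofAdd_eq_one] at h1
    exact (Nat.factorial_ne_zero m) (by exact_mod_cast h1)
  obtain ⟨l, hl⟩ := bounded_gen N hN (f k)
  refine ⟨d k, hk, hd k, (f k).range.subgroupOf N, (hdL k).le, ?_, l, hl⟩
  rw [hdL k, Subgroup.relIndex_self, Nat.cast_one]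
  exact one_ne_zero

/-- a group with a finitely generated subgroup of finite index is finitely generated -/
theorem fg_of_sub {G : Type*} [Group G] {H K : Subgroup G} (hHK : H ≤ K) (hidx : H.relIndex K ≠ 0)
    (hH : H.FG) : K.FG := by
  obtain ⟨S, hS, hSf⟩ := (Subgroup.fg_iff H).1 hH
  haveI : (H.subgroupOf K).FiniteIndex := ⟨hidx⟩
  haveI : Finite (K ⧸ H.subgroupOf K) := inferInstance
  refine (Subgroup.fg_iff K).2 ⟨S ∪ Set.range (fun q : K ⧸ H.subgroupOf K => (q.out : K).1), ?_,
    hSf.union (Set.finite_range _)⟩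
  refine le_antisymm ?_ ?_
  · rw [Subgroup.closure_le]
    rintro g (hg | ⟨q, rfl⟩)
    · exact hHK (by rw [← hS]; exact Subgroup.subset_closure hg)
    · exact (q.out : K).2
  · intro g hg
    let q : K ⧸ H.subgroupOf K := QuotientGroup.mk ⟨g, hg⟩
    have h1 : (q.out : K)⁻¹ * ⟨g, hg⟩ ∈ H.subgroupOf K := by
      rw [← QuotientGroup.eq, QuotientGroup.out_eq']
    have h2 : (q.out : K).1⁻¹ * g ∈ Subgroup.closure S := by
      rw [hS]
      exact Subgroup.mem_subgroupOf.1 h1
    have h3 : g = (q.out : K).1 * ((q.out : K).1⁻¹ * g) := by group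
    rw [h3]
    exact mul_mem (Subgroup.subset_closure (Or.inr ⟨q, rfl⟩))
      (Subgroup.closure_mono Set.subset_union_left h2)

/-- separability -/
theorem eq_of_separable {G : Type*} [Group G] {N : Subgroup G}
    {G₀ K : Subgroup N} (hle : G₀ ≤ K)
    (hfin : ∀ (L : Subgroup N), L.Normal → L.index ≠ 0 → K ≤ G₀ ⊔ L)
    (hsep : ∀ g : G, g ∉ G₀.map N.subtype → ∃ L : Subgroup G, L.FiniteIndex ∧
      G₀.map N.subtype ≤ L ∧ g ∉ L) : G₀ = K := by
  refine le_antisymm hle ?_
  intro k hk
  by_contra hk0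
  have h1 : (k : G) ∉ G₀.map N.subtype := by
    rintro ⟨k', hk', h⟩
    exact hk0 (by rwa [← Subtype.ext h])
  obtain ⟨L, hL, hGL, hkL⟩ := hsep _ h1
  haveI : (L.subgroupOf N).FiniteIndex := inferInstance
  have h2 := hfin (L.subgroupOf N).normalCore (Subgroup.normalCore_normal _)
    Subgroup.FiniteIndex.index_ne_zero hk
  have h3 : G₀ ⊔ (L.subgroupOf N).normalCore ≤ L.subgroupOf N := by
    refine sup_le ?_ (Subgroup.normalCore_le _)
    intro g hg
    exact hGL ⟨g, hg, rfl⟩
  exact hkL (h3 h2)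

end Run7.h469.Win
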