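import Pool.Agent.Run7.h469.Nice

/-!
# Homotopy retracts of compact, locally nice spaces have finitely presented fundamental groups
-/

set_option autoImplicit false
set_option linter.style.haveILetI false

namespace Run7.h469.Pi1

open CategoryTheory Function

variable {M K : Type*} [TopologicalSpace M] [TopologicalSpace K]

theorem map_bijective_of_homotopic_id (f : C(M, M)) (h : f.Homotopic (ContinuousMap.id M))
    (x : M) : Bijective (FundamentalGroup.map f x) := by
  obtain ⟨H⟩ := h
  have e : FundamentalGroupoid.map f ≅ 𝟭 _ :=
    (asIso (FundamentalGroupoidFunctor.homotopicMapsNatIso H)).trans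
      (eqToIso FundamentalGroupoid.map_id)
  haveI : (FundamentalGroupoid.map f).Faithful := Functor.Faithful.of_iso e.symm
  haveI : (FundamentalGroupoid.map f).Full := Functor.Full.of_iso e.symm
  have h1 : Bijective ((FundamentalGroupoid.map f).map :
      (FundamentalGroupoid.mk x ⟶ FundamentalGroupoid.mk x) → _) :=
    ⟨Functor.map_injective _, Functor.map_surjective _⟩
  exact h1

theorem fp_of_dominated (i : C(M, K)) (r : C(K, M))
    (h : (r.comp i).Homotopic (ContinuousMap.id M)) (x : M)
    (hK : Group.IsFinitelyPresented (FundamentalGroup K (i x))) :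
    Group.IsFinitelyPresented (FundamentalGroup M x) := by
  have hb := map_bijective_of_homotopic_id (r.comp i) h x
  let e : FundamentalGroup M x ≃* FundamentalGroup M (r (i x)) :=
    MulEquiv.ofBijective (FundamentalGroup.map (r.comp i) x) hb
  refine fp_retract (e.symm.toMonoidHom.comp (FundamentalGroup.map r (i x)))
    (FundamentalGroup.map i x) fun p => ?_
  change e.symm (FundamentalGroup.map r (i x) (FundamentalGroup.map i x p)) = p
  rw [MulEquiv.symm_apply_eq]
  obtain ⟨p, rfl⟩ := Path.Homotopic.Quotient.mk_surjective p
  rfl

end Run7.h469.Pi1
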