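import Mathlib

/-!
# Self-coverings: the induced endomorphism of the fundamental group
-/

set_option autoImplicit false
set_option linter.style.haveILetI false

namespace Run7.h469

open Function

section cov

variable {E X : Type*} [TopologicalSpace E] [TopologicalSpace X]

theorem quot_cast_injective {x y x' y' : X} (hx : x' = x) (hy : y' = y) :
    Injective (fun γ : Path.Homotopic.Quotient x y => γ.cast hx hy) := by
  subst hx hy
  intro a b hab
  simpa using hab

theorem cov_mapOfEq_injective (q : C(E, X)) (hq : IsCoveringMap q) {e : E} {x : X}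
    (h : q e = x) : Injective (FundamentalGroup.mapOfEq q h) := by
  intro a b hab
  rw [FundamentalGroup.mapOfEq_apply, FundamentalGroup.mapOfEq_apply] at hab
  exact hq.injective_path_homotopic_map e e (quot_cast_injective _ _ hab)

theorem cov_range_index (q : C(E, X)) (hq : IsCoveringMap q) {e : E} {x : X}
    (h : q e = x) (hfin : (q ⁻¹' {x}).Finite) :
    (FundamentalGroup.mapOfEq q h).range.index ≠ 0 := by
  classical
  haveI : Finite (q ⁻¹' {x}) := hfin
  have h1 : (hq.monodromyPerm x).ker.FiniteIndex := inferInstance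
  have h2 : (hq.monodromyPerm x).ker ≤ (FundamentalGroup.mapOfEq q h).range := by
    intro γ hγ
    have h3 : hq.monodromy γ ⟨e, h⟩ = ⟨e, h⟩ := by
      have := congrArg (fun f : Equiv.Perm (q ⁻¹' {x}) => f ⟨e, h⟩) (MonoidHom.mem_ker.1 hγ)
      exact this
    refine ⟨(hq.liftPathQuotient γ ⟨e, h⟩).cast rfl (congrArg Subtype.val h3.symm), ?_⟩
    rw [FundamentalGroup.mapOfEq_apply, Path.Homotopic.Quotient.map_cast]
    have h4 := hq.map_liftPathQuotient γ ⟨e, h⟩
    have h5 : ((hq.liftPathQuotient γ ⟨e, h⟩).map q) =
      Path.Homotopic.Quotient.cast γ h (hq.monodromy γ ⟨e, h⟩).2 := h4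
    rw [h5, Path.Homotopic.Quotient.cast_cast, Path.Homotopic.Quotient.cast_cast,
      Path.Homotopic.Quotient.cast_rfl_rfl]
  exact (Subgroup.finiteIndex_of_le h2).index_ne_zero

end cov

section heq

variable {X Y : Type*} [TopologicalSpace X] [TopologicalSpace Y]

theorem hequiv_bijective (h : ContinuousMap.HomotopyEquiv X Y) (x : X) :
    Bijective (FundamentalGroup.map h.toFun x) := by
  have h1 : Bijective ((FundamentalGroupoidFunctor.equivOfHomotopyEquiv h).functor.map :
      (FundamentalGroupoid.mk x ⟶ FundamentalGroupoid.mk x) → _) :=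
    ⟨CategoryTheory.Functor.map_injective _, CategoryTheory.Functor.map_surjective _⟩
  exact h1

/-- the endomorphism of the fundamental group induced by `q ∘ h` -/
noncomputable def hSharp {M M' : Type*} [TopologicalSpace M] [TopologicalSpace M'] (q : C(M', M))
    (h : C(M, M')) {x : M} (hx : q (h x) = x) : FundamentalGroup M x →* FundamentalGroup M x :=
  FundamentalGroup.mapOfEq (q.comp h) hx

theorem hSharp_eq (q : C(Y, X)) (h : C(X, Y)) {x : X} (hx : q (h x) = x)
    (p : FundamentalGroup X x) :
    hSharp q h hx p = FundamentalGroup.mapOfEq q hx (FundamentalGroup.map h x p) := by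
  rw [hSharp, FundamentalGroup.mapOfEq_apply, FundamentalGroup.mapOfEq_apply,
    Path.Homotopic.Quotient.map_comp]
  rfl

theorem hSharp_injective (q : C(Y, X)) (hq : IsCoveringMap q)
    (h : ContinuousMap.HomotopyEquiv X Y) {x : X} (hx : q (h x) = x) :
    Injective (hSharp q h.toFun hx) := by
  have h1 : (hSharp q h.toFun hx : _ → _) =
      FundamentalGroup.mapOfEq q hx ∘ FundamentalGroup.map h.toFun x :=
    funext fun p => hSharp_eq q h.toFun hx p
  rw [h1]
  exact (cov_mapOfEq_injective q hq hx).comp (hequiv_bijective h x).1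

theorem hSharp_range (q : C(Y, X)) (hq : IsCoveringMap q)
    (h : ContinuousMap.HomotopyEquiv X Y) {x : X} (hx : q (h x) = x)
    (hfin : (q ⁻¹' {x}).Finite) : (hSharp q h.toFun hx).range.index ≠ 0 := by
  have h1 : (hSharp q h.toFun hx).range = (FundamentalGroup.mapOfEq q hx).range := by
    ext p
    constructor
    · rintro ⟨a, rfl⟩
      exact ⟨_, (hSharp_eq q h.toFun hx a).symm⟩
    · rintro ⟨a, rfl⟩
      obtain ⟨b, rfl⟩ := (hequiv_bijective h x).2 a
      exact ⟨b, hSharp_eq q h.toFun hx b⟩
  rw [h1]
  exact cov_range_index q hq hx hfin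

end heq

end Run7.h469
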