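import Pool.Agent.Run7.h469.EU.Far2
import Pool.Agent.Run7.h469.EU.Nest
import Pool.Agent.Run7.h469.EU.Forms

/-!
# Properties of pairs with few exceptions: Euclid's algorithm, Farey intervals, combinations and recurrences

The definitions which are used in the statements of several results files, and the theorems for a general property of pairs.
-/

set_option autoImplicit false

namespace Run7.h469.Ab

open Finset Filter Topology MeasureTheory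
open Run7.h469.EU (Thin Generic)

/-! ### definitions -/

/-- one step of the subtractive Euclidean algorithm: the smaller number is subtracted from the larger one -/
def step (x : ℕ × ℕ) : ℕ × ℕ :=
  if x.1 < x.2 then (x.1, x.2 - x.1) else if x.2 < x.1 then (x.1 - x.2, x.2) else x

open Classical in
/-- The pairs `x = (a, b)` in `[1, X]^2` such that `P u v` is false for some pair `(u, v) = step^k (a, b)` with
`max u v ≥ H`. -/
noncomputable def euclidExceptions (P : ℕ → ℕ → Prop) (X H : ℕ) : Finset (ℕ × ℕ) :=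
  (Icc 1 X ×ˢ Icc 1 X).filter (fun x => ∃ k, H ≤ max (step^[k] x).1 (step^[k] x).2 ∧
    ¬ P (step^[k] x).1 (step^[k] x).2)

/-- `p s - q r = 1` and `q / s ≤ α ≤ p / r` with positive denominators -/
def Neighbours (α : ℝ) (p q r s : ℕ) : Prop :=
  p * s = q * r + 1 ∧ 1 ≤ r ∧ 1 ≤ s ∧ (q : ℝ) / s ≤ α ∧ α ≤ (p : ℝ) / r

/-- the neighbours `q / s ≤ α ≤ p / r` such that one of `P p q`, `P r s`, `P p r`, `P q s` is false -/
def badIntervals (P : ℕ → ℕ → Prop) (α : ℝ) : Set (ℕ × ℕ × ℕ × ℕ) :=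
  {z | Neighbours α z.1 z.2.1 z.2.2.1 z.2.2.2 ∧
    ¬ (P z.1 z.2.1 ∧ P z.2.2.1 z.2.2.2 ∧ P z.1 z.2.2.1 ∧ P z.2.1 z.2.2.2)}

open Classical in
/-- The pairs `(x, y)` in `[1, X]^2` such that `P u v` is false for some positive `u = a x + b y`, `v = a' x + b' y` with
integers `a, b, a', b'`, at most `K` in absolute value, `a b' ≠ b a'`. -/
noncomputable def combinationExceptions (P : ℕ → ℕ → Prop) (X K : ℕ) : Finset (ℕ × ℕ) :=
  (Icc 1 X ×ˢ Icc 1 X).filter (fun z => ∃ a b a' b' : ℤ, |a| ≤ K ∧ |b| ≤ K ∧ |a'| ≤ K ∧ |b'| ≤ K ∧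
    a * b' ≠ b * a' ∧ ∃ u v : ℕ, 0 < u ∧ 0 < v ∧ (u : ℤ) = a * z.1 + b * z.2 ∧ (v : ℤ) = a' * z.1 + b' * z.2 ∧ ¬ P u v)

/-- the sequence with `x_0 = a`, `x_1 = b`, `x_(n+2) = s x_(n+1) + t x_n` -/
def seq (s t a b : ℕ) : ℕ → ℕ
  | 0 => a
  | 1 => b
  | n + 2 => s * seq s t a b (n + 1) + t * seq s t a b n

open Classical in
/-- The pairs `(a, b)` in `[1, Y]^2` such that for some `1 ≤ s, t ≤ S` and some member `x_(n+2) ≤ Y` of the sequence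
`P (t x_n) (s x_(n+1))` is false. -/
noncomputable def recurrenceExceptions (P : ℕ → ℕ → Prop) (S Y : ℕ) : Finset (ℕ × ℕ) :=
  (Icc 1 Y ×ˢ Icc 1 Y).filter (fun z => ∃ s t n : ℕ, 1 ≤ s ∧ s ≤ S ∧ 1 ≤ t ∧ t ≤ S ∧ seq s t z.1 z.2 (n + 2) ≤ Y ∧
    ¬ P (t * seq s t z.1 z.2 n) (s * seq s t z.1 z.2 (n + 1)))

/-! ### theorems -/

/-- the positive pairs without the property `P` -/
def Exc (P : ℕ → ℕ → Prop) : Set (ℕ × ℕ) := {z | 1 ≤ z.1 ∧ 1 ≤ z.2 ∧ ¬ P z.1 z.2}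

/-- at most `C H^(β + ε)` positive pairs up to `H` are without the property -/
def FewPairs (β : ℝ) (P : ℕ → ℕ → Prop) : Prop := Thin β (Exc P)

theorem fewPairs_of (β : ℝ) (P : ℕ → ℕ → Prop) (h : ∀ ε : ℝ, 0 < ε → ∃ C : ℝ, ∀ H : ℕ, 1 ≤ H → ∀ F : Finset (ℕ × ℕ),
    (∀ z ∈ F, 1 ≤ z.1 ∧ 1 ≤ z.2 ∧ z.1 ≤ H ∧ z.2 ≤ H ∧ ¬ P z.1 z.2) → (F.card : ℝ) ≤ C * (H : ℝ) ^ (β + ε)) :
    FewPairs β P := by
  intro ε hε
  obtain ⟨C, hC⟩ := h ε hε
  refine ⟨|C|, abs_nonneg C, fun H F hH hF => ?_⟩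
  refine (hC H hH F (fun z hz => ?_)).trans (mul_le_mul_of_nonneg_right (le_abs_self C) (by positivity))
  obtain ⟨⟨h1, h2, h3⟩, -, -, h4, h5⟩ := hF z hz
  exact ⟨h1, h2, h4, h5, h3⟩

theorem step_eq : step = Run7.h469.EU.sub := rfl

theorem euclid {β : ℝ} (hβ : β < 2) (P : ℕ → ℕ → Prop) (hP : FewPairs β P) : ∀ ε : ℝ, 0 < ε → ∃ C : ℝ,
    ∀ X H : ℕ, 1 ≤ H → ((euclidExceptions P X H).card : ℝ) ≤ C * (X : ℝ) ^ 2 * (H : ℝ) ^ (β / 2 - 1 + ε) := by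
  classical
  intro ε hε
  obtain ⟨δ, hδ0, hδ1, hδ2⟩ : ∃ δ : ℝ, 0 < δ ∧ δ ≤ ε ∧ β + δ < 2 :=
    ⟨min ε ((2 - β) / 2), lt_min hε (by linarith), min_le_left _ _, by
      have := min_le_right ε ((2 - β) / 2)
      linarith⟩
  obtain ⟨C, hC, hCB⟩ := hP δ hδ0
  obtain ⟨C', hC'⟩ := Run7.h469.EU.euclid_nest hC hδ2 hCB
  refine ⟨|C'|, fun X H hH => ?_⟩
  have h1 := hC' X H hH (euclidExceptions P X H) (fun x hx => by
    unfold euclidExceptions at hx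
    rw [mem_filter] at hx
    obtain ⟨h3, k, h4, h5⟩ := hx
    refine ⟨h3, k, ?_, h4⟩
    have h6 := Run7.h469.EU.state_mem h3 (k := k) (u := (Run7.h469.EU.sub^[k] x).1)
      (v := (Run7.h469.EU.sub^[k] x).2) rfl
    exact ⟨h6.1, h6.2.1, h5⟩)
  have hH1 : (1 : ℝ) ≤ H := by exact_mod_cast hH
  calc ((euclidExceptions P X H).card : ℝ) ≤ C' * (X : ℝ) ^ 2 * (H : ℝ) ^ ((β + δ) / 2 - 1) := h1
    _ ≤ |C'| * (X : ℝ) ^ 2 * (H : ℝ) ^ ((β + δ) / 2 - 1) := by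
          apply mul_le_mul_of_nonneg_right _ (by positivity)
          exact mul_le_mul_of_nonneg_right (le_abs_self _) (by positivity)
    _ ≤ |C'| * (X : ℝ) ^ 2 * (H : ℝ) ^ (β / 2 - 1 + ε) := by
          apply mul_le_mul_of_nonneg_left _ (by positivity)
          exact Real.rpow_le_rpow_of_exponent_le hH1 (by linarith)

theorem farey {β : ℝ} (hβ : 0 ≤ β) (P : ℕ → ℕ → Prop) (hP0 : ∀ u v, u = 0 ∨ v = 0 → P u v) (hP : FewPairs β P) :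
    (∃ E : Set ℝ, dimH E ≤ ENNReal.ofReal (2 * β / (2 + β)) ∧
      ∀ α : ℝ, 0 < α → α ∉ E → (badIntervals P α).Finite) ∧
    ∀ (μ : Measure ℝ) (C₀ m : ℝ), 2 * β / (2 + β) < m →
      (∀ (x r : ℝ), 0 < r → μ (Metric.closedBall x r) ≤ ENNReal.ofReal (C₀ * r ^ m)) →
      ∀ᵐ α ∂μ, 0 < α → (badIntervals P α).Finite := by
  have h := Run7.h469.EU.farey_nest hβ hP (fun z hz => ⟨hz.1, hz.2.1⟩)
  have hmem : ∀ u v : ℕ, ¬ P u v → (u, v) ∈ Exc P := by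
    intro u v h1
    refine ⟨?_, ?_, h1⟩
    · by_contra h2
      exact h1 (hP0 u v (Or.inl (by simp only at h2; omega)))
    · by_contra h2
      exact h1 (hP0 u v (Or.inr (by simp only at h2; omega)))
  have h' : Generic (2 * β / (2 + β)) (fun α => 0 < α → (badIntervals P α).Finite) := by
    refine h.mono (fun α hα hα0 => (hα hα0).subset ?_)
    rintro ⟨p, q, r, s⟩ ⟨h1, h2⟩
    simp only at h1 h2
    refine ⟨h1, ?_⟩
    simp only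
    by_contra h3
    push Not at h3
    obtain ⟨h4, h5, h6, h7⟩ := h3
    refine h2 ⟨?_, ?_, ?_, ?_⟩
    · by_contra hcon; exact h4 (hmem _ _ hcon)
    · by_contra hcon; exact h5 (hmem _ _ hcon)
    · by_contra hcon; exact h6 (hmem _ _ hcon)
    · by_contra hcon; exact h7 (hmem _ _ hcon)
  obtain ⟨⟨E, h1, h2⟩, h3⟩ := h'
  exact ⟨⟨E, h1, fun α hα hαE => h2 α hαE hα⟩, h3⟩

theorem combinations {β : ℝ} (P : ℕ → ℕ → Prop) (hP : FewPairs β P) : ∀ ε : ℝ, 0 < ε → ∃ C : ℝ,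
    ∀ X K : ℕ, 1 ≤ X → 1 ≤ K →
      ((combinationExceptions P X K).card : ℝ) ≤ C * (K : ℝ) ^ (4 + β + ε) * (X : ℝ) ^ (β + ε) := by
  classical
  intro ε hε
  obtain ⟨C, hC⟩ := Run7.h469.EU.combos hP ε hε
  refine ⟨C, fun X K hX hK => hC X K hX hK _ (fun z hz => ?_)⟩
  unfold combinationExceptions at hz
  rw [mem_filter, mem_product, mem_Icc, mem_Icc] at hz
  obtain ⟨⟨⟨h1, h2⟩, h3, h4⟩, a, b, a', b', j1, j2, j3, j4, j5, u, v, j6, j7, j8, j9, j10⟩ := hz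
  exact ⟨h1, h2, h3, h4, a, b, a', b', j1, j2, j3, j4, j5, u, v, j6, j7, j8, j9, j6, j7, j10⟩

theorem seq_eq (s t a b : ℕ) : ∀ n, seq s t a b n = Run7.h469.EU.seq s t a b n
  | 0 => rfl
  | 1 => rfl
  | n + 2 => by rw [seq, Run7.h469.EU.seq, seq_eq s t a b n, seq_eq s t a b (n + 1)]

theorem recurrences {β : ℝ} (P : ℕ → ℕ → Prop) (hP : FewPairs β P) : ∀ ε : ℝ, 0 < ε → ∃ C : ℝ,
    ∀ S Y : ℕ, 1 ≤ Y → ((recurrenceExceptions P S Y).card : ℝ) ≤ C * (S : ℝ) ^ 2 * (Y : ℝ) ^ (β + ε) := by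
  classical
  intro ε hε
  obtain ⟨C, hC⟩ := Run7.h469.EU.recurrences hP ε hε
  refine ⟨C, fun S Y hY => hC S Y hY _ (fun z hz => ?_)⟩
  unfold recurrenceExceptions at hz
  rw [mem_filter, mem_product, mem_Icc, mem_Icc] at hz
  obtain ⟨⟨⟨h1, h2⟩, h3, h4⟩, s, t, n, h5, h6, h7, h8, h9, h10⟩ := hz
  rw [seq_eq] at h9
  rw [seq_eq, seq_eq] at h10
  refine ⟨h1, h3, s, t, n, h5, h6, h7, h8, h9, ?_, ?_, h10⟩
  · exact Nat.mul_le_mul h7 (Run7.h469.EU.seq_pos h5 h1 h3 n)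
  · exact Nat.mul_le_mul h5 (Run7.h469.EU.seq_pos h5 h1 h3 (n + 1))

end Run7.h469.Ab
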