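import Pool.Agent.Run7.h469.Tm

/-! Properties `R n` of the integers `n` for which the numbers `K n + E` have the exceptions in common residue classes. -/

set_option autoImplicit false

namespace Run7.h469.Tm

open Finset Filter Topology MeasureTheory
open Run7.h469.CT (Few)
open Run7.h469.GA (Thin)

lemma ev_log_ge (C : ℝ) : ∃ X₀ : ℕ, ∀ X : ℕ, X₀ ≤ X → C ≤ Real.log X := by
  have h := (Real.tendsto_log_atTop.comp tendsto_natCast_atTop_atTop).eventually_ge_atTop C
  exact Filter.eventually_atTop.1 h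

theorem AlmostAll.mono_ge {P Q : ℕ → Prop} (m₀ : ℕ) (h : ∀ m, m₀ ≤ m → P m → Q m) (hP : AlmostAll P) :
    AlmostAll Q := by
  classical
  unfold AlmostAll at hP ⊢
  have h0 : Tendsto (fun N : ℕ => (m₀ : ℝ) / N) atTop (𝓝 0) :=
    tendsto_const_nhds.div_atTop tendsto_natCast_atTop_atTop
  have h1 := hP.add h0
  rw [add_zero] at h1
  refine squeeze_zero (fun N => by positivity) (fun N => ?_) h1
  rw [← add_div]
  apply div_le_div_of_nonneg_right _ (Nat.cast_nonneg N)
  have h2 : ((Icc 1 N).filter (fun m => ¬ Q m)).card ≤ ((Icc 1 N).filter (fun m => ¬ P m)).card + m₀ := by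
    have h3 : (Icc 1 N).filter (fun m => ¬ Q m) ⊆ (Icc 1 N).filter (fun m => ¬ P m) ∪ range m₀ := by
      intro m hm
      rw [mem_filter] at hm
      rw [mem_union, mem_filter, mem_range]
      by_cases h4 : m < m₀
      · right; exact h4
      · left; exact ⟨hm.1, fun h5 => hm.2 (h m (by omega) h5)⟩
    refine (card_le_card h3).trans ((card_union_le _ _).trans ?_)
    rw [card_range]
  exact_mod_cast h2

/-- the property of `M = K n + E` -/
def Aff (K : ℕ) (E : ℤ) (R : ℕ → Prop) (M : ℕ) : Prop := ∀ n : ℕ, (K : ℤ) * n + E = M → R n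

theorem few_mono {θ : ℝ} {P Q : ℕ → Prop} (h : ∀ m, P m → Q m) (hP : Few θ P) : Few θ Q := by
  intro ρ hρ A T
  obtain ⟨x₀, h₀⟩ := hP ρ hρ A T
  refine ⟨x₀, fun x hx q hq hqx a ha => ?_⟩
  obtain ⟨h1, h2⟩ := h₀ x hx q hq hqx a ha
  have hsub : {n : ℕ | 0 < n ∧ (n : ℝ) ≤ x ∧ (n : ℤ) ≡ a [ZMOD q] ∧ ¬ Q n} ⊆
      {n : ℕ | 0 < n ∧ (n : ℝ) ≤ x ∧ (n : ℤ) ≡ a [ZMOD q] ∧ ¬ P n} :=
    fun n hn => ⟨hn.1, hn.2.1, hn.2.2.1, fun hcon => hn.2.2.2 (h n hcon)⟩
  refine ⟨h1.subset hsub, le_trans (Nat.cast_le.2 (Set.ncard_le_ncard hsub h1)) h2⟩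

theorem vectors_affine {d : ℕ} (hd : 1 ≤ d) (θ τ η : ℝ) (hθ0 : 0 < θ) (hθ1 : θ < 1) (hη0 : 0 < η)
    (hτ : τ = θ / (1 - θ) - η) (K : ℕ) (hK : 1 ≤ K) (E : ℤ) (R : ℕ → Prop) (hR : ∀ n : ℕ, (K : ℤ) * n + E ≤ 0 → R n)
    (hP : Few θ (Aff K E R)) (A U : ℕ) : ∃ X₀ : ℕ, ∀ X : ℕ, X₀ ≤ X →
      ∀ family : Finset ((Fin d → ℤ) × ℤ), (family.card : ℝ) ≤ Real.log X ^ U →
      (∀ l ∈ family, Admissible τ U X l.1 l.2) →
        ((exceptionalVectors R X family).card : ℝ) ≤ (X : ℝ) ^ d / Real.log X ^ A := by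
  classical
  obtain ⟨X₀, hX₀⟩ := vectors (d := d) hd θ (θ / (1 - θ) - η / 2) (η / 2) hθ0 hθ1 (by linarith) rfl (Aff K E R) hP
    (A + d) (U + 1)
  obtain ⟨X₁, hX₁⟩ := ev_log_ge (2 * (K + E.natAbs + 2))
  have hpow : ∃ X₂ : ℕ, ∀ X : ℕ, X₂ ≤ X → (K : ℝ) ≤ (X : ℝ) ^ (η / 2) := by
    have h := ((tendsto_rpow_atTop (show (0 : ℝ) < η / 2 by linarith)).comp
      tendsto_natCast_atTop_atTop).eventually_ge_atTop (K : ℝ)
    exact Filter.eventually_atTop.1 h
  obtain ⟨X₂, hX₂⟩ := hpow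
  refine ⟨X₀ + X₁ + X₂ + E.natAbs + 2, fun X hX 𝓛 hcard hadm => ?_⟩
  have hlog := hX₁ X (by omega)
  have hKpow := hX₂ X (by omega)
  obtain ⟨l, hl⟩ : ∃ l, l = Real.log (X : ℝ) := ⟨_, rfl⟩
  rw [← hl] at hcard hlog ⊢
  have hK1 : (1 : ℝ) ≤ K := by exact_mod_cast hK
  have hE0 : (0 : ℝ) ≤ (E.natAbs : ℝ) := Nat.cast_nonneg _
  have hl1 : 1 ≤ l := by linarith
  have hX1 : (1 : ℝ) ≤ X := by exact_mod_cast (by omega : 1 ≤ X)
  have hX0 : (0 : ℝ) < X := by linarith
  obtain ⟨l', hl'⟩ : ∃ l', l' = Real.log ((2 * X : ℕ) : ℝ) := ⟨_, rfl⟩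
  have hcast : ((2 * X : ℕ) : ℝ) = 2 * X := by push_cast; ring
  have hll' : l ≤ l' := by
    rw [hl, hl', hcast]
    exact Real.log_le_log hX0 (by linarith)
  have key := hX₀ (2 * X) (by omega) (𝓛.image (fun z => ((fun i => (K : ℤ) * z.1 i), (K : ℤ) * z.2 + E))) (by
    refine le_trans (Nat.cast_le.2 card_image_le) (hcard.trans ?_)
    rw [← hl']
    calc l ^ U ≤ l' ^ U := pow_le_pow_left₀ (by linarith) hll' U
      _ ≤ l' ^ (U + 1) := pow_le_pow_right₀ (by linarith) (by omega)) (by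
    intro z hz
    rw [mem_image] at hz
    obtain ⟨z', hz', rfl⟩ := hz
    obtain ⟨⟨u, hu1, hu2⟩, i, hi1, hi2, hi3⟩ := hadm z' hz'
    constructor
    · refine ⟨u, ?_, ?_⟩
      · have e : ∑ i, (K : ℤ) * z'.1 i * u i = K * ∑ i, z'.1 i * u i := by
          rw [mul_sum]
          exact sum_congr rfl (fun i _ => by ring)
        simp only [e]
        have : (1 : ℤ) ≤ K := by exact_mod_cast hK
        nlinarith
      · have e : ∑ i, (K : ℤ) * z'.1 i * u i = K * ∑ i, z'.1 i * u i := by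
          rw [mul_sum]
          exact sum_congr rfl (fun i _ => by ring)
        simp only [e]
        rw [← hl']
        push_cast at hu2 ⊢
        rw [← hl] at hu2
        have h1 : (0 : ℝ) ≤ ∑ i, (z'.1 i : ℝ) * u i := by
          have : (0 : ℝ) ≤ ((∑ i, z'.1 i * u i : ℤ) : ℝ) := by exact_mod_cast (by omega : (0 : ℤ) ≤ ∑ i, z'.1 i * u i)
          push_cast at this
          exact this
        calc (K : ℝ) * ∑ i, (z'.1 i : ℝ) * u i ≤ l' * l' ^ U := by
              apply mul_le_mul (by linarith) _ h1 (by linarith)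
              exact hu2.trans (pow_le_pow_left₀ (by linarith) hll' U)
          _ = l' ^ (U + 1) := by ring
    · refine ⟨i, ?_, ?_, ?_⟩
      · intro j
        simp only [abs_mul]
        exact mul_le_mul_of_nonneg_left (hi1 j) (abs_nonneg _)
      · push_cast
        rw [abs_mul, abs_of_nonneg (by linarith : (0 : ℝ) ≤ K)]
        calc (K : ℝ) * |(z'.1 i : ℝ)| ≤ (X : ℝ) ^ (η / 2) * (X : ℝ) ^ τ := by
              apply mul_le_mul hKpow hi2 (abs_nonneg _) (by positivity)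
          _ = (X : ℝ) ^ (θ / (1 - θ) - η / 2) := by
              rw [← Real.rpow_add hX0, hτ]
              congr 1
              ring
          _ ≤ (2 * (X : ℝ)) ^ (θ / (1 - θ) - η / 2) := ?_
        have hexp : (0 : ℝ) ≤ θ / (1 - θ) - η / 2 := by
          have h3 : 1 ≤ |(z'.1 i : ℝ)| := by
            have h4 : z'.1 i ≠ 0 := by
              intro h0
              have : ∑ j, z'.1 j * u j = 0 := by
                apply sum_eq_zero
                intro j _
                have := hi1 j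
                rw [h0, abs_zero] at this
                have : z'.1 j = 0 := abs_eq_zero.1 (le_antisymm this (abs_nonneg _))
                rw [this, zero_mul]
              omega
            have h5 := Int.one_le_abs h4
            have h6 : ((1 : ℤ) : ℝ) ≤ ((|z'.1 i| : ℤ) : ℝ) := by exact_mod_cast h5
            push_cast at h6
            exact h6
          by_contra hcon
          rw [not_le] at hcon
          have h7 : (X : ℝ) ^ τ < 1 := Real.rpow_lt_one_of_one_lt_of_neg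
            (by exact_mod_cast (by omega : 1 < X)) (by rw [hτ]; linarith)
          linarith
        exact Real.rpow_le_rpow hX0.le (by linarith) hexp
      · simp only [abs_mul]
        have h3 : z'.1 i ≠ 0 := by
          intro h0
          have : ∑ j, z'.1 j * u j = 0 := by
            apply sum_eq_zero
            intro j _
            have := hi1 j
            rw [h0, abs_zero] at this
            have : z'.1 j = 0 := abs_eq_zero.1 (le_antisymm this (abs_nonneg _))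
            rw [this, zero_mul]
          omega
        have h4 := Int.one_le_abs h3
        have h5 : |(K : ℤ) * z'.2 + E| ≤ K * |z'.2| + |E| := by
          refine (abs_add_le _ _).trans ?_
          rw [abs_mul, abs_of_nonneg (by positivity : (0 : ℤ) ≤ K)]
        have h6 : |E| ≤ (X : ℤ) := by
          rw [Int.abs_eq_natAbs]
          exact_mod_cast (by omega : E.natAbs ≤ X)
        have h7 : (K : ℤ) * |z'.2| ≤ K * (|z'.1 i| * X) := mul_le_mul_of_nonneg_left hi3 (by positivity)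
        rw [abs_of_nonneg (by positivity : (0 : ℤ) ≤ K)]
        have h8 : (1 : ℤ) ≤ K := by exact_mod_cast hK
        have h9 : (X : ℤ) ≤ K * |z'.1 i| * X := by
          have : (1 : ℤ) ≤ K * |z'.1 i| := by nlinarith
          have hX' : (0 : ℤ) ≤ X := by positivity
          nlinarith
        push_cast
        nlinarith)
  have hsub : (exceptionalVectors R X 𝓛).card ≤ (exceptionalVectors (Aff K E R) (2 * X)
      (𝓛.image (fun z => ((fun i => (K : ℤ) * z.1 i), (K : ℤ) * z.2 + E)))).card := by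
    apply card_le_card
    intro v hv
    unfold exceptionalVectors at hv ⊢
    rw [mem_filter, Fintype.mem_piFinset] at hv ⊢
    obtain ⟨hv1, z, hz, m, hm0, hm1, hm2⟩ := hv
    refine ⟨fun i => ?_, (fun i => (K : ℤ) * z.1 i, (K : ℤ) * z.2 + E), mem_image_of_mem _ hz, ?_⟩
    · have := hv1 i
      rw [mem_Icc] at this ⊢
      omega
    · have h1 : 0 < (K : ℤ) * m + E := by
        by_contra hcon
        rw [not_lt] at hcon
        exact hm2 (hR m hcon)
      refine ⟨((K : ℤ) * m + E).toNat, by omega, ?_, ?_⟩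
      · rw [Int.toNat_of_nonneg h1.le, hm1]
        simp only
        have e : ∑ i, (K : ℤ) * z.1 i * (v i : ℤ) = K * ∑ i, z.1 i * (v i : ℤ) := by
          rw [mul_sum]
          exact sum_congr rfl (fun i _ => by ring)
        rw [e]
        ring
      · intro hA
        exact hm2 (hA m (Int.toNat_of_nonneg h1.le).symm)
  refine le_trans (Nat.cast_le.2 hsub) (key.trans ?_)
  rw [← hl', hcast, mul_pow]
  have hl'2 : 2 ≤ l' := by linarith
  rw [div_le_div_iff₀ (by positivity) (by positivity)]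
  have h1 : (2 : ℝ) ^ d * l ^ A ≤ l' ^ (A + d) := by
    calc (2 : ℝ) ^ d * l ^ A ≤ l' ^ d * l' ^ A := by gcongr
      _ = l' ^ (A + d) := by ring
  have h2 : (0 : ℝ) ≤ (X : ℝ) ^ d := by positivity
  nlinarith

theorem pairs_affine (s t : ℕ) (hs : 1 ≤ s) (ht : 1 ≤ t) (hst : Nat.Coprime s t) (θ κ η : ℝ) (hθ0 : 0 < θ)
    (hθ1 : θ < 1) (hη0 : 0 < η) (hκ : κ = 1 / (1 - θ) - η) (K : ℕ) (hK : 1 ≤ K) (E : ℤ) (R : ℕ → Prop)
    (hR : ∀ n : ℕ, (K : ℤ) * n + E ≤ 0 → R n) (hP : Few θ (Aff K E R)) (A U : ℕ) :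
    ∃ X₀ : ℕ, ∀ X : ℕ, X₀ ≤ X →
      ((exceptionalPairs s t R U X ((X : ℝ) ^ κ)).card : ℝ) ≤ (X : ℝ) ^ 2 / Real.log X ^ A := by
  classical
  obtain ⟨X₀, hX₀⟩ := pairs s t hs ht hst θ κ η hθ0 hθ1 hη0 hκ (Aff K E R) hP A (U + 1)
  obtain ⟨X₁, hX₁⟩ := ev_log_ge (K + E.natAbs + 2)
  refine ⟨X₀ + X₁, fun X hX => le_trans ?_ (hX₀ X (by omega))⟩
  have hlog := hX₁ X (by omega)
  apply Nat.cast_le.2
  apply card_le_card
  intro z hz
  unfold exceptionalPairs at hz ⊢
  rw [mem_filter] at hz ⊢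
  obtain ⟨hz1, n, u, m, v, h1, h2, h3, h4, h5, h6, h7⟩ := hz
  obtain ⟨l, hl⟩ : ∃ l, l = Real.log (X : ℝ) := ⟨_, rfl⟩
  rw [← hl] at h3 h4 hlog ⊢
  have hK1 : (1 : ℝ) ≤ K := by exact_mod_cast hK
  have hE0 : (0 : ℝ) ≤ (E.natAbs : ℝ) := Nat.cast_nonneg _
  have hl1 : 1 ≤ l := by linarith
  have h8 : 0 < (K : ℤ) * m + E := by
    by_contra hcon
    rw [not_lt] at hcon
    exact h7 (hR m hcon)
  have hlU : 1 ≤ l ^ U := one_le_pow₀ hl1
  refine ⟨hz1, n, K * u, ((K : ℤ) * m + E).toNat, K * v + E, h1, Nat.mul_pos hK h2, ?_, ?_, by omega, ?_, ?_⟩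
  · push_cast
    calc (K : ℝ) * u ≤ l * l ^ U := by
          apply mul_le_mul (by linarith) h3 (by positivity) (by linarith)
      _ = l ^ (U + 1) := by ring
  · push_cast
    have h9 : |(E : ℝ)| = E.natAbs := by
      rw [Nat.cast_natAbs, Int.cast_abs]
    calc |(K : ℝ) * v + E| ≤ K * |(v : ℝ)| + E.natAbs := by
          refine (abs_add_le _ _).trans ?_
          rw [abs_mul, abs_of_nonneg (by linarith : (0 : ℝ) ≤ K), h9]
      _ ≤ K * l ^ U + E.natAbs * l ^ U := by
          apply add_le_add (mul_le_mul_of_nonneg_left h4 (by linarith))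
          nlinarith
      _ = (K + E.natAbs) * l ^ U := by ring
      _ ≤ l * l ^ U := by
          apply mul_le_mul_of_nonneg_right _ (by linarith)
          linarith
      _ = l ^ (U + 1) := by ring
  · rw [Int.toNat_of_nonneg h8.le, h6]
    push_cast
    ring
  · intro hA
    exact h7 (hA m (Int.toNat_of_nonneg h8.le).symm)

theorem small_finite (d W : ℕ) (α : Fin d → ℝ) (q₀ : ℕ) :
    {z : (Fin d → ℤ) × ℕ | GoodApproximation d W α z.1 z.2 ∧ z.2 < q₀}.Finite := by
  classical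
  obtain ⟨B, hB⟩ : ∃ B : ℕ, ∀ i, |α i| ≤ B := by
    obtain ⟨B, hB⟩ := exists_nat_ge (∑ i, |α i|)
    exact ⟨B, fun i => le_trans (single_le_sum (f := fun i => |α i|) (fun _ _ => abs_nonneg _) (mem_univ i)) hB⟩
  obtain ⟨M, hM⟩ : ∃ M : ℕ, M = (B + q₀ ^ W) * q₀ := ⟨_, rfl⟩
  apply Set.Finite.subset (Set.Finite.prod (Set.Finite.pi' (fun _ : Fin d => Set.finite_Icc (-(M : ℤ)) M))
    (Set.finite_Iio q₀))
  rintro ⟨p, q⟩ ⟨⟨h1, h2⟩, h3⟩
  refine ⟨fun i => ?_, h3⟩
  simp only at h1 h2 h3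
  have hq1 : (1 : ℝ) ≤ q := by exact_mod_cast h1
  have hqq : (q : ℝ) ≤ q₀ := by exact_mod_cast h3.le
  have h4 := h2 i
  have h5 : Real.log q ^ W / (q : ℝ) ^ (1 + 1 / (d : ℝ)) ≤ (q₀ : ℝ) ^ W := by
    have hlog0 : 0 ≤ Real.log q := Real.log_nonneg hq1
    have h6 : Real.log q ≤ q₀ := (Real.log_le_self (by linarith)).trans hqq
    refine (div_le_self (by positivity) (Real.one_le_rpow hq1 (by positivity))).trans ?_
    exact pow_le_pow_left₀ hlog0 h6 W
  have h6 : |(p i : ℝ) / q| ≤ B + (q₀ : ℝ) ^ W := by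
    have : (p i : ℝ) / q = α i - (α i - p i / q) := by ring
    rw [this]
    refine (abs_sub _ _).trans ?_
    exact add_le_add (hB i) (h4.trans h5)
  have h7 : |(p i : ℝ)| ≤ M := by
    have : (p i : ℝ) = p i / q * q := by field_simp
    rw [this, abs_mul, abs_of_nonneg (by linarith : (0 : ℝ) ≤ q), hM]
    push_cast
    exact mul_le_mul h6 hqq (by linarith) (by positivity)
  rw [abs_le] at h7
  rw [Set.mem_Icc]
  exact ⟨by exact_mod_cast h7.1, by exact_mod_cast h7.2⟩

theorem approximations_affine (K : ℕ) (hK : 1 ≤ K) (E : ℤ) (R : ℕ → Prop)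
    (hR : ∀ n : ℕ, (K : ℤ) * n + E ≤ 0 → R n) (hP : Thin (Aff K E R)) (d W : ℕ) (hd : 1 ≤ d) :
    ∀ᵐ α : Fin d → ℝ,
    {z : (Fin d → ℤ) × ℕ | GoodApproximation d W α z.1 z.2 ∧ ∃ n : ℕ, Near W z.1 z.2 n ∧ ¬ R n}.Finite := by
  obtain ⟨q₀, hq₀⟩ := ev_log_ge (K + E.natAbs + 2)
  filter_upwards [approximations (Aff K E R) hP d (W + 1) hd] with α hα
  refine (hα.union (small_finite d W α (q₀ + 2))).subset ?_
  rintro ⟨p, q⟩ ⟨h1, n, ⟨h2, u, v, w, h3, h4, h5, h6, h7⟩, h8⟩
  simp only at h1 h2 h3 h4 h5 h6 h7 h8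
  by_cases hq : q < q₀ + 2
  · right
    exact ⟨h1, hq⟩
  left
  rw [not_lt] at hq
  have hlog := hq₀ q (by omega)
  obtain ⟨l, hl⟩ : ∃ l, l = Real.log (q : ℝ) := ⟨_, rfl⟩
  have hK1 : (1 : ℝ) ≤ K := by exact_mod_cast hK
  have hE0 : (0 : ℝ) ≤ (E.natAbs : ℝ) := Nat.cast_nonneg _
  rw [← hl] at hlog
  have hl1 : 1 ≤ l := by linarith
  have hq1 : (1 : ℝ) ≤ q := by exact_mod_cast h1.1
  have hlW : 1 ≤ l ^ W := one_le_pow₀ hl1
  have h9 : 0 < (K : ℤ) * n + E := by
    by_contra hcon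
    rw [not_lt] at hcon
    exact h8 (hR n hcon)
  have hKz : (K : ℤ) ≠ 0 := by exact_mod_cast (by omega : K ≠ 0)
  refine ⟨⟨h1.1, fun i => (h1.2 i).trans ?_⟩, ((K : ℤ) * n + E).toNat, ⟨by omega, fun i => K * u i, K * v, K * w + E,
    ?_, ?_, ?_, ?_, ?_⟩, ?_⟩
  · simp only [← hl]
    apply div_le_div_of_nonneg_right _ (by positivity)
    exact pow_le_pow_right₀ hl1 (by omega)
  · rcases h3 with h3 | h3
    · left
      intro h0
      apply h3
      funext i
      have := congrFun h0 i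
      simp only [Pi.zero_apply, mul_eq_zero] at this
      rcases this with this | this
      · exact absurd this hKz
      · exact this
    · right
      exact mul_ne_zero hKz h3
  · intro i
    simp only [← hl]
    have h10 := h4 i
    rw [← hl] at h10
    push_cast at h10 ⊢
    rw [abs_mul, abs_of_nonneg (by linarith : (0 : ℝ) ≤ K)]
    calc (K : ℝ) * |(u i : ℝ)| ≤ l * l ^ W := by
          apply mul_le_mul (by linarith) h10 (abs_nonneg _) (by linarith)
      _ = l ^ (W + 1) := by ring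
  · simp only [← hl]
    rw [← hl] at h5
    push_cast at h5 ⊢
    rw [abs_mul, abs_of_nonneg (by linarith : (0 : ℝ) ≤ K)]
    calc (K : ℝ) * |(v : ℝ)| ≤ l * l ^ W := by
          apply mul_le_mul (by linarith) h5 (abs_nonneg _) (by linarith)
      _ = l ^ (W + 1) := by ring
  · simp only [← hl]
    rw [← hl] at h6
    push_cast at h6 ⊢
    have h9 : |(E : ℝ)| = E.natAbs := by
      rw [Nat.cast_natAbs, Int.cast_abs]
    calc |(K : ℝ) * w + E| ≤ K * |(w : ℝ)| + E.natAbs := by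
          refine (abs_add_le _ _).trans ?_
          rw [abs_mul, abs_of_nonneg (by linarith : (0 : ℝ) ≤ K), h9]
      _ ≤ K * l ^ W + E.natAbs * l ^ W := by
          apply add_le_add (mul_le_mul_of_nonneg_left h6 (by linarith))
          nlinarith
      _ = (K + E.natAbs) * l ^ W := by ring
      _ ≤ l * l ^ W := by
          apply mul_le_mul_of_nonneg_right _ (by linarith)
          linarith
      _ = l ^ (W + 1) := by ring
  · rw [Int.toNat_of_nonneg h9.le, h7]
    have e : ∑ i, (K : ℤ) * u i * p i = K * ∑ i, u i * p i := by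
      rw [mul_sum]
      exact sum_congr rfl (fun i _ => by ring)
    simp only [e]
    ring
  · intro hA
    exact h8 (hA n (Int.toNat_of_nonneg h9.le).symm)

end Run7.h469.Tm
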