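import Pool.Agent.Run7.h469.Ineq

/-!
# A finitely generated subgroup with the same invariants as the kernel of a character
-/

set_option autoImplicit false
set_option linter.style.haveILetI false

namespace Run7.h469.Win

open Function

section modd

variable {P : Type*} [Group P]

/-- the reduction of a character -/
def modd (χ : P →* Multiplicative ℤ) (d : ℕ) : P →* Multiplicative (ZMod d) :=
  (AddMonoidHom.toMultiplicative (Int.castAddHom (ZMod d))).comp χ

theorem mem_ker_modd {χ : P →* Multiplicative ℤ} {d : ℕ} {g : P} :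
    g ∈ (modd χ d).ker ↔ (d : ℤ) ∣ (χ g).toAdd := by
  rw [MonoidHom.mem_ker]
  have h : modd χ d g = Multiplicative.ofAdd (((χ g).toAdd : ℤ) : ZMod d) := rfl
  rw [h, ofAdd_eq_one, ZMod.intCast_zmod_eq_zero_iff_dvd _ d]

theorem modd_surjective {χ : P →* Multiplicative ℤ} (hχ : Surjective χ) (d : ℕ) :
    Surjective (modd χ d) := by
  intro a
  obtain ⟨k, hk⟩ := ZMod.intCast_surjective a.toAdd
  obtain ⟨g, hg⟩ := hχ (Multiplicative.ofAdd k)
  refine ⟨g, ?_⟩
  have h : modd χ d g = Multiplicative.ofAdd (((χ g).toAdd : ℤ) : ZMod d) := rfl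
  rw [h, hg, toAdd_ofAdd, hk, ofAdd_toAdd]

theorem ker_le_ker_modd (χ : P →* Multiplicative ℤ) (d : ℕ) : χ.ker ≤ (modd χ d).ker := by
  intro g hg
  rw [mem_ker_modd, (MonoidHom.mem_ker).1 hg, toAdd_one]
  exact dvd_zero _

/-- the bounded rank condition -/
def RankCond (F : Type*) [Field F] (χ : P →* Multiplicative ℤ) (r : ℕ) : Prop :=
  ∀ N : ℕ, ∃ d : ℕ, N ≤ d ∧ 0 < d ∧ ∃ L : Subgroup P, L ≤ (modd χ d).ker ∧
    ((L.relIndex (modd χ d).ker : ℕ) : F) ≠ 0 ∧
    ∃ l : Fin r → P, Subgroup.closure (Set.range l) = L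

end modd

section main

variable {P : Type*} [Group P] {ι : Type*} {t : P} {x : ι → P} {χ : P →* Multiplicative ℤ}
variable {F V : Type*} [Field F] [AddCommGroup V] [Module F V] [FiniteDimensional F V]

theorem θ_surjective (hgen : Subgroup.closure (insert t (Set.range x)) = ⊤) :
    Surjective (θ t x) := by
  rw [← MonoidHom.range_eq_top, eq_top_iff, ← hgen, Subgroup.closure_le]
  rintro g (rfl | ⟨i, rfl⟩)
  · exact ⟨FreeGroup.of none, θ_none⟩
  · exact ⟨FreeGroup.of (some i), θ_some i⟩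

theorem finrank_le (hχ : Surjective χ) (hx : ∀ i, χ (x i) = 1)
    (hgen : Subgroup.closure (insert t (Set.range x)) = ⊤) {n : ℕ} (hn : Bound t x n)
    {r : ℕ} (hr : RankCond F χ r) (ρ : Representation F P V) :
    Module.finrank F (inv ρ (W t x 1 n)) ≤ Module.finrank F (inv ρ (W t x 0 n)) := by
  by_contra hlt
  rw [not_le] at hlt
  obtain ⟨d, hNd, hd, L, hL1, hL2, l, hl⟩ := hr (r * Module.finrank F V + 1)
  haveI : NeZero d := ⟨hd.ne'⟩
  have hB : W t x 0 (n : ℤ) ≤ (modd χ d).ker := (W_le_ker χ hx _ _).trans (ker_le_ker_modd χ d)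
  have hC : W t x 1 (n : ℤ) ≤ (modd χ d).ker := (W_le_ker χ hx _ _).trans (ker_le_ker_modd χ d)
  have hgen' : Subgroup.closure (insert t ((W t x 0 (n : ℤ) : Subgroup P) : Set P)) = ⊤ := by
    rw [eq_top_iff, ← hgen, Subgroup.closure_le]
    rintro g (rfl | ⟨i, rfl⟩)
    · exact Subgroup.subset_closure (Set.mem_insert _ _)
    · refine Subgroup.subset_closure (Set.mem_insert_of_mem _ ?_)
      have h : x i = y t x i 0 := by simp [y]
      rw [h]
      exact y_mem i le_rfl (by positivity)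
  have key := ineq (ρ := ρ) (modd_surjective hχ d) hB hC hgen' (fun w hw => by
    obtain ⟨D, h1, h2, h3⟩ := exists_der (coind ρ (modd χ d)) w (θ_surjective hgen) hn hw
    exact ⟨D, ⟨h1, h3⟩, h2⟩) hL2 l hl hL1
  have hcard : Fintype.card (Multiplicative (ZMod d)) = d := by
    rw [Fintype.card_multiplicative, ZMod.card]
  rw [hcard] at key
  have h1 : d * (Module.finrank F (inv ρ (W t x 0 n)) + 1) ≤
      d * Module.finrank F (inv ρ (W t x 1 n)) := Nat.mul_le_mul_left _ hlt
  rw [mul_add, mul_one] at h1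
  omega

theorem rep_main (hχ : Surjective χ) (ht : χ t = Multiplicative.ofAdd 1) (hx : ∀ i, χ (x i) = 1)
    (hgen : Subgroup.closure (insert t (Set.range x)) = ⊤) {n : ℕ} (hn : Bound t x n)
    {r : ℕ} (hr : RankCond F χ r) (ρ : Representation F P V) {v : V}
    (hv : v ∈ inv ρ (W t x 0 n)) : v ∈ inv ρ χ.ker := by
  have h1 := finrank_le hχ hx hgen (hn.mono (Nat.le_succ n)) hr ρ
  have h2 : inv ρ (W t x 0 ((n + 1 : ℕ) : ℤ)) = inv ρ (W t x 1 ((n + 1 : ℕ) : ℤ)) :=
    Submodule.eq_of_le_of_finrank_le (inv_mono ρ (W_mono (by norm_num) le_rfl)) h1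
  have h3 : inv ρ (W t x 1 ((n + 1 : ℕ) : ℤ)) ≤ inv ρ (W t x 0 (n : ℤ)) := by
    rw [← h2]
    exact inv_mono ρ (W_mono le_rfl (by push_cast; linarith))
  have h4 : (inv ρ (W t x 0 (n : ℤ))).map (ρ t) ≤ inv ρ (W t x 0 (n : ℤ)) := by
    refine le_trans ?_ h3
    rintro _ ⟨u, hu, rfl⟩ g hg
    have h5 := W_conj (-1) hg
    have h6 : t ^ (-1 : ℤ) * g * t ^ (-(-1) : ℤ) = t⁻¹ * g * t := by group
    rw [h6] at h5
    have h7 : t⁻¹ * g * t ∈ W t x 0 (n : ℤ) := by
      refine W_mono ?_ ?_ h5 <;> push_cast <;> linarith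
    have h8 := hu _ h7
    rw [← rho_mul, show g * t = t * (t⁻¹ * g * t) by group, rho_mul, h8]
  have hinj : Injective (ρ t) := fun a b hab => by
    have := congrArg (ρ t⁻¹) hab
    rwa [rho_inv_self, rho_inv_self] at this
  have h5 : (inv ρ (W t x 0 (n : ℤ))).map (ρ t) = inv ρ (W t x 0 (n : ℤ)) := by
    refine Submodule.eq_of_le_of_finrank_le h4 ?_
    rw [LinearEquiv.finrank_eq (Submodule.equivMapOfInjective (ρ t) hinj _)]
  have hup : ∀ (k : ℕ) (u : V), u ∈ inv ρ (W t x 0 (n : ℤ)) →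
      ρ (t ^ k) u ∈ inv ρ (W t x 0 (n : ℤ)) := by
    intro k
    induction k with
    | zero => intro u hu; simpa using hu
    | succ k ih =>
      intro u hu
      rw [pow_succ', rho_mul]
      exact h4 ⟨_, ih u hu, rfl⟩
  have hdn : ∀ (k : ℕ) (u : V), u ∈ inv ρ (W t x 0 (n : ℤ)) →
      ρ (t ^ k)⁻¹ u ∈ inv ρ (W t x 0 (n : ℤ)) := by
    intro k
    induction k with
    | zero => intro u hu; simpa using hu
    | succ k ih =>
      intro u hu
      rw [pow_succ, mul_inv_rev, rho_mul]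
      have h6 := ih u hu
      rw [← h5] at h6
      obtain ⟨u', hu', hu''⟩ := h6
      rw [← hu'', rho_inv_self]
      exact hu'
  have hz : ∀ (k : ℤ) (u : V), u ∈ inv ρ (W t x 0 (n : ℤ)) →
      ρ (t ^ k) u ∈ inv ρ (W t x 0 (n : ℤ)) := by
    intro k u hu
    obtain ⟨m, rfl | rfl⟩ := Int.eq_nat_or_neg k
    · rw [zpow_natCast]; exact hup m u hu
    · rw [zpow_neg, zpow_natCast]; exact hdn m u hu
  intro g hg
  obtain ⟨N, hN⟩ := exists_window_ker hgen χ ht hx hg
  let H : Subgroup P :=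
    { carrier := {g | ρ g v = v}
      mul_mem' := by
        intro a b ha hb
        rw [Set.mem_ofPred_eq] at *
        rw [rho_mul, hb, ha]
      one_mem' := by simp
      inv_mem' := by
        intro a ha
        rw [Set.mem_ofPred_eq] at *
        conv_lhs => rw [← ha]
        exact rho_inv_self ρ a v }
  have h6 : W t x (-(N : ℤ)) N ≤ H := by
    refine W_le fun i j _ _ => ?_
    change ρ (y t x i j) v = v
    have h7 := hz (-j) v hv
    have h8 : x i ∈ W t x 0 (n : ℤ) := by
      have h : x i = y t x i 0 := by simp [y]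
      rw [h]
      exact y_mem i le_rfl (by positivity)
    rw [y, rho_mul, rho_mul, h7 _ h8, zpow_neg, rho_self_inv]
  exact h6 hN

end main

universe u v

/-- **Main algebraic theorem, representations.** -/
theorem core {P : Type} [Group P] (hP : Group.IsFinitelyPresented P) {χ : P →* Multiplicative ℤ}
    (hχ : Surjective χ) : ∃ G₀ : Subgroup P, G₀.FG ∧ G₀ ≤ χ.ker ∧
      ∀ (F : Type u) [Field F] (r : ℕ), RankCond F χ r → ∀ (V : Type v) [AddCommGroup V]
        [Module F V] [FiniteDimensional F V] (ρ : Representation F P V) (v : V),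
        (∀ g ∈ G₀, ρ g v = v) → ∀ g ∈ χ.ker, ρ g v = v := by
  classical
  obtain ⟨m, f, hf, -⟩ := hP.out
  obtain ⟨t, ht⟩ := hχ (Multiplicative.ofAdd 1)
  let x : Fin m → P := fun i => f (FreeGroup.of i) * t ^ (-(χ (f (FreeGroup.of i))).toAdd)
  have hx : ∀ i, χ (x i) = 1 := by
    intro i
    change χ (f (FreeGroup.of i) * t ^ (-(χ (f (FreeGroup.of i))).toAdd)) = 1
    rw [map_mul, map_zpow, ht, ← ofAdd_zsmul]
    apply Multiplicative.toAdd.injective
    simp
  have hgen : Subgroup.closure (insert t (Set.range x)) = ⊤ := by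
    have h1 : (Subgroup.closure (Set.range (FreeGroup.of : Fin m → FreeGroup (Fin m)))).map f =
        ⊤ := by
      rw [FreeGroup.closure_range_of, ← MonoidHom.range_eq_map, MonoidHom.range_eq_top.2 hf]
    rw [eq_top_iff, ← h1, MonoidHom.map_closure, Subgroup.closure_le]
    rintro _ ⟨_, ⟨i, rfl⟩, rfl⟩
    have h2 : f (FreeGroup.of i) = x i * t ^ ((χ (f (FreeGroup.of i))).toAdd) := by
      change _ = f (FreeGroup.of i) * t ^ (-(χ (f (FreeGroup.of i))).toAdd) * _
      rw [mul_assoc, ← zpow_add, neg_add_cancel, zpow_zero, mul_one]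
    rw [h2]
    exact mul_mem (Subgroup.subset_closure (Set.mem_insert_of_mem _ ⟨i, rfl⟩))
      (Subgroup.zpow_mem _ (Subgroup.subset_closure (Set.mem_insert _ _)) _)
  have hθ := θ_surjective hgen
  haveI : Group.FG (FreeGroup (Option (Fin m))) := inferInstance
  obtain ⟨S, hSf, hS⟩ := Pool.Agent.Helper294.HallC.fng_of_fp
    (inferInstance : Group.FG (FreeGroup (Option (Fin m)))) hP (θ t x) hθ
  have hfree : Subgroup.closure (insert (FreeGroup.of none)
      (Set.range (fun i : Fin m => FreeGroup.of (some i)))) = ⊤ := by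
    rw [eq_top_iff, ← FreeGroup.closure_range_of, Subgroup.closure_le]
    rintro _ ⟨o, rfl⟩
    cases o with
    | none => exact Subgroup.subset_closure (Set.mem_insert _ _)
    | some i => exact Subgroup.subset_closure (Set.mem_insert_of_mem _ ⟨i, rfl⟩)
  have hwin : ∀ s ∈ S, ∃ N : ℕ, s ∈ W (FreeGroup.of none)
      (fun i : Fin m => FreeGroup.of (some i)) (-N) N := by
    intro s hs
    refine exists_window_ker hfree (χ.comp (θ t x)) ?_ ?_ ?_
    · rw [MonoidHom.comp_apply, θ_none, ht]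
    · intro i
      rw [MonoidHom.comp_apply, θ_some, hx]
    · have h1 : s ∈ (θ t x).ker := by rw [← hS]; exact Subgroup.subset_normalClosure hs
      rw [MonoidHom.mem_ker, MonoidHom.comp_apply, (MonoidHom.mem_ker).1 h1, map_one]
  choose! b hb using hwin
  obtain ⟨N, hN⟩ := (hSf.image b).bddAbove
  have hbound : Bound t x (2 * N) := by
    refine ⟨S, hS, fun s hs => ⟨N, ?_⟩⟩
    have h1 : b s ≤ N := hN ⟨s, hs, rfl⟩
    refine W_mono ?_ ?_ (W_conj (N : ℤ) (hb s hs))
    · have : (b s : ℤ) ≤ N := by exact_mod_cast h1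
      linarith
    · have : (b s : ℤ) ≤ N := by exact_mod_cast h1
      push_cast
      linarith
  refine ⟨W t x 0 ((2 * N : ℕ) : ℤ), W_fg _ _, W_le_ker χ hx _ _, ?_⟩
  intro F _ r hr V _ _ _ ρ v hv
  exact rep_main hχ ht hx hgen hbound hr ρ hv

/-- finite images -/
theorem finite_image {P : Type} [Group P] {G₀ K : Subgroup P} (hle : G₀ ≤ K)
    (h : ∀ (V : Type) [AddCommGroup V] [Module ℚ V] [FiniteDimensional ℚ V]
      (ρ : Representation ℚ P V) (v : V), (∀ g ∈ G₀, ρ g v = v) → ∀ g ∈ K, ρ g v = v)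
    {Q : Type} [Group Q] [Finite Q] (f : P →* Q) : G₀.map f = K.map f := by
  classical
  refine le_antisymm (Subgroup.map_mono hle) ?_
  rintro _ ⟨k, hk, rfl⟩
  haveI : Finite (Q ⧸ G₀.map f) := inferInstance
  haveI : Fintype (Q ⧸ G₀.map f) := Fintype.ofFinite _
  let ρ : Representation ℚ P ((Q ⧸ G₀.map f) → ℚ) :=
    { toFun := fun g =>
        { toFun := fun φ q => φ ((f g)⁻¹ • q)
          map_add' := fun _ _ => rfl
          map_smul' := fun _ _ => rfl }
      map_one' := by
        refine LinearMap.ext fun φ => funext fun q => ?_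
        change φ ((f 1)⁻¹ • q) = φ q
        rw [map_one, inv_one, one_smul]
      map_mul' := fun a b => by
        refine LinearMap.ext fun φ => funext fun q => ?_
        change φ ((f (a * b))⁻¹ • q) = φ ((f b)⁻¹ • ((f a)⁻¹ • q))
        rw [map_mul, mul_inv_rev, mul_smul] }
  have hρ : ∀ g φ q, ρ g φ q = φ ((f g)⁻¹ • q) := fun _ _ _ => rfl
  let e : Q ⧸ G₀.map f := QuotientGroup.mk 1
  have he : ∀ g ∈ G₀, (f g) • e = e := by
    intro g hg
    change QuotientGroup.mk (f g * 1) = (QuotientGroup.mk 1 : Q ⧸ G₀.map f)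
    rw [mul_one, eq_comm, QuotientGroup.eq, inv_one, one_mul]
    exact ⟨g, hg, rfl⟩
  let v : (Q ⧸ G₀.map f) → ℚ := fun q => if q = e then 1 else 0
  have hv : ∀ g ∈ G₀, ρ g v = v := by
    intro g hg
    funext q
    rw [hρ]
    change (if (f g)⁻¹ • q = e then (1 : ℚ) else 0) = if q = e then 1 else 0
    have : (f g)⁻¹ • q = e ↔ q = e := by
      rw [inv_smul_eq_iff, he g hg]
    simp only [this]
  have h1 := h _ ρ v hv k hk
  have h2 := congrFun h1 ((f k) • e)
  rw [hρ, inv_smul_smul] at h2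
  change (if e = e then (1 : ℚ) else 0) = if (f k) • e = e then 1 else 0 at h2
  have h3 : (f k) • e = e := by
    by_contra h4
    rw [if_pos rfl, if_neg h4] at h2
    exact one_ne_zero h2
  change QuotientGroup.mk (f k * 1) = (QuotientGroup.mk 1 : Q ⧸ G₀.map f) at h3
  rw [mul_one, eq_comm, QuotientGroup.eq, inv_one, one_mul] at h3
  exact h3

end Run7.h469.Win
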