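import Mathlib

/-!
# An affine equation for crossed homomorphisms
-/

set_option autoImplicit false
set_option linter.style.haveILetI false

namespace Run7.h469

open Function

section inj

variable {D : Type*} [AddCommGroup D]

/-- an injective endomorphism of a finitely generated torsion-free abelian group has an image
that contains a nonzero multiple of everything -/
theorem exists_mul_mem_range (f : D →ₗ[ℤ] D) [Module.Finite ℤ D] [Module.IsTorsionFree ℤ D]
    (hf : Injective f) : ∃ δ : ℤ, δ ≠ 0 ∧ ∀ x, ∃ y, f y = δ • x := by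
  haveI : Module.Free ℤ D := Module.free_of_finite_type_torsion_free'
  have h1 : Module.finrank ℤ (LinearMap.range f) = Module.finrank ℤ D :=
    LinearMap.finrank_range_of_inj hf
  haveI : Finite (D ⧸ LinearMap.range f) := Submodule.finiteQuotientOfFreeOfRankEq _ h1
  refine ⟨(Nat.card (D ⧸ LinearMap.range f) : ℤ), ?_, fun x => ?_⟩
  · exact_mod_cast Nat.card_pos.ne'
  · have h2 : (Nat.card (D ⧸ LinearMap.range f)) • (Submodule.Quotient.mk x :
        D ⧸ LinearMap.range f) = 0 := card_nsmul_eq_zero'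
    rw [← Submodule.Quotient.mk_smul, Submodule.Quotient.mk_eq_zero] at h2
    obtain ⟨y, hy⟩ := h2
    refine ⟨y, ?_⟩
    rw [hy, natCast_zsmul]

/-- the multiples of a nonzero integer have finite index -/
theorem finite_quot_smul [Module.Finite ℤ D] [Module.IsTorsionFree ℤ D] (δ : ℤ) (hδ : δ ≠ 0) :
    Finite (D ⧸ LinearMap.range (δ • (LinearMap.id : D →ₗ[ℤ] D))) := by
  haveI : Module.Free ℤ D := Module.free_of_finite_type_torsion_free'
  refine Submodule.finiteQuotientOfFreeOfRankEq _ (LinearMap.finrank_range_of_inj ?_)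
  intro x y hxy
  simpa [hδ] using hxy

end inj

variable {F V : Type*} [Group F] [AddCommGroup V]

/-- crossed homomorphisms for the action `ρ` -/
def Der (ρ : F →* AddMonoid.End V) : Submodule ℤ (F → V) where
  carrier := {v | ∀ a b, v (a * b) = v a + ρ a (v b)}
  zero_mem' := fun a b => by simp
  add_mem' := by
    intro x y hx hy a b
    simp only [Set.mem_ofPred_eq] at hx hy
    simp only [Pi.add_apply, hx, hy, map_add]
    abel
  smul_mem' := by
    intro c x hx a b
    simp only [Set.mem_ofPred_eq] at hx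
    simp only [Pi.smul_apply, hx, map_zsmul, smul_add]

theorem mem_Der {ρ : F →* AddMonoid.End V} {v : F → V} :
    v ∈ Der ρ ↔ ∀ a b, v (a * b) = v a + ρ a (v b) := Iff.rfl

theorem Der.one {ρ : F →* AddMonoid.End V} {v : F → V} (hv : v ∈ Der ρ) : v 1 = 0 := by
  have := hv 1 1
  simpa using this

theorem Der.inv {ρ : F →* AddMonoid.End V} {v : F → V} (hv : v ∈ Der ρ) (a : F) :
    v a⁻¹ = - ρ a⁻¹ (v a) := by
  have := hv a⁻¹ a
  rw [inv_mul_cancel, Der.one hv] at this
  exact eq_neg_of_add_eq_zero_left this.symm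

theorem Der.finite (ρ : F →* AddMonoid.End V) (hF : Group.FG F) [Module.Finite ℤ V] :
    Module.Finite ℤ (Der ρ) := by
  obtain ⟨S, hS⟩ := Group.fg_def.1 hF
  let ev : Der ρ →ₗ[ℤ] (S → V) :=
    { toFun := fun v s => v.1 s.1
      map_add' := fun _ _ => rfl
      map_smul' := fun _ _ => rfl }
  refine Module.Finite.of_injective ev ?_
  intro v w hvw
  apply Subtype.ext
  have h : ∀ g ∈ Subgroup.closure (S : Set F), v.1 g = w.1 g := by
    intro g hg
    induction hg using Subgroup.closure_induction with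
    | mem x hx => exact congrFun hvw ⟨x, hx⟩
    | one => rw [Der.one v.2, Der.one w.2]
    | mul x y _ _ hx hy => rw [v.2 x y, w.2 x y, hx, hy]
    | inv x _ hx => rw [Der.inv v.2, Der.inv w.2, hx]
  funext g
  exact h g (by rw [hS]; trivial)

/-- The main lemma on the affine equation `n = A n b + c` for crossed homomorphisms. -/
theorem exists_fix (ρ : F →* AddMonoid.End V) (hF : Group.FG F) [Module.Finite ℤ V]
    [Module.IsTorsionFree ℤ V] (A : V →+ V) (b : F →* F)
    (hAb : ∀ w v, A (ρ (b w) v) = ρ w (A v))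
    (hint : ∀ v, (∀ k : ℕ, ∃ y, A^[k] y = v) → v = 0) (c : F → V) (hc : c ∈ Der ρ) :
    ∃ (F' : Subgroup F) (n : F → V), F'.index ≠ 0 ∧
      ∀ w ∈ F', b w ∈ F' ∧ n w = A (n (b w)) + c w := by
  classical
  haveI := Der.finite ρ hF
  let L : Der ρ →ₗ[ℤ] Der ρ :=
    { toFun := fun v => ⟨fun w => A (v.1 (b w)), fun a d => by
        change A (v.1 (b (a * d))) = A (v.1 (b a)) + ρ a (A (v.1 (b d)))
        rw [map_mul, v.2, map_add, hAb]⟩
      map_add' := fun v w => Subtype.ext (funext fun g => map_add A _ _)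
      map_smul' := fun r w => Subtype.ext (funext fun g => map_zsmul A _ _) }
  have hL : ∀ (k : ℕ) (v : Der ρ) (w : F), ∃ y, A^[k] y = (L^[k] v).1 w := by
    intro k
    induction k with
    | zero => intro v w; exact ⟨v.1 w, rfl⟩
    | succ k ih =>
      intro v w
      obtain ⟨y, hy⟩ := ih v (b w)
      refine ⟨y, ?_⟩
      rw [iterate_succ_apply', iterate_succ_apply', hy]
      rfl
  have hinj : Injective (LinearMap.id - L : Der ρ →ₗ[ℤ] Der ρ) := by
    rw [← LinearMap.ker_eq_bot, LinearMap.ker_eq_bot']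
    intro v hv
    have hv' : L v = v := by
      rw [LinearMap.sub_apply, LinearMap.id_apply, sub_eq_zero] at hv
      exact hv.symm
    apply Subtype.ext
    funext w
    refine hint _ fun k => ?_
    obtain ⟨y, hy⟩ := hL k v w
    refine ⟨y, ?_⟩
    rw [hy, iterate_fixed hv']
  obtain ⟨δ, hδ, hδ'⟩ := exists_mul_mem_range (LinearMap.id - L : Der ρ →ₗ[ℤ] Der ρ) hinj
  obtain ⟨u, hu⟩ := hδ' ⟨c, hc⟩
  have hu' : ∀ w, u.1 w = A (u.1 (b w)) + δ • c w := by
    intro w
    have h1 := congrFun (congrArg Subtype.val hu) w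
    have h2 : ((LinearMap.id - L : Der ρ →ₗ[ℤ] Der ρ) u).1 w = u.1 w - A (u.1 (b w)) := rfl
    rw [h2] at h1
    rw [sub_eq_iff_eq_add] at h1
    rw [h1, add_comm]
    rfl
  let F' : Subgroup F :=
    { carrier := {w | ∃ y, u.1 w = δ • y}
      one_mem' := ⟨0, by rw [Der.one u.2, smul_zero]⟩
      mul_mem' := by
        rintro x y ⟨p, hp⟩ ⟨q, hq⟩
        exact ⟨p + ρ x q, by rw [u.2, hp, hq, map_zsmul, smul_add]⟩
      inv_mem' := by
        rintro x ⟨p, hp⟩
        exact ⟨- ρ x⁻¹ p, by rw [Der.inv u.2, hp, map_zsmul, smul_neg]⟩ }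
  have hF' : F'.index ≠ 0 := by
    haveI := finite_quot_smul (D := V) δ hδ
    let R := LinearMap.range (δ • (LinearMap.id : V →ₗ[ℤ] V))
    haveI : Finite (F ⧸ F') := by
      refine Finite.of_injective (β := V ⧸ R) (fun q => Submodule.Quotient.mk (u.1 q.out)) ?_
      intro p q hpq
      simp only [Submodule.Quotient.eq] at hpq
      obtain ⟨y, hy⟩ := hpq
      rw [← QuotientGroup.out_eq' p, ← QuotientGroup.out_eq' q, QuotientGroup.eq]
      refine ⟨- ρ (p.out)⁻¹ y, ?_⟩
      rw [u.2, Der.inv u.2]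
      have h3 : u.1 p.out - u.1 q.out = δ • y := by rw [← hy]; rfl
      rw [smul_neg, ← map_zsmul, ← h3, map_sub]
      abel
    exact Subgroup.index_ne_zero_of_finite
  have hcomap : F'.comap b ≤ F' := by
    rintro w ⟨y, hy⟩
    exact ⟨A y + c w, by rw [hu', hy, map_zsmul, smul_add]⟩
  have hle : F' ≤ F'.comap b := by
    have h1 : (F'.comap b).index ≤ F'.index := by
      rw [Subgroup.index_comap, ← Subgroup.relIndex_top_right (H := F')]
      exact Subgroup.relIndex_le_of_le_right le_top (by rwa [Subgroup.relIndex_top_right])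
    have h2 := Subgroup.relIndex_mul_index hcomap
    have h4 : (F'.comap b).index ≠ 0 := by
      rw [Subgroup.index_comap]
      intro h0
      exact hF' (Subgroup.index_eq_zero_of_relIndex_eq_zero h0)
    have h3 : (F'.comap b).relIndex F' = 1 := by
      have h5 : (F'.comap b).relIndex F' ≠ 0 := by
        intro h0
        rw [h0, zero_mul] at h2
        exact h4 h2.symm
      have h6 : (F'.comap b).relIndex F' * F'.index ≤ 1 * F'.index := by rw [h2, one_mul]; exact h1
      have h7 := Nat.le_of_mul_le_mul_right h6 (Nat.pos_of_ne_zero hF')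
      omega
    exact Subgroup.relIndex_eq_one.1 h3
  refine ⟨F', fun w => if h : w ∈ F' then Classical.choose h else 0, hF', fun w hw => ?_⟩
  have hbw : b w ∈ F' := hle hw
  refine ⟨hbw, ?_⟩
  simp only [hw, hbw, dif_pos]
  have h1 : u.1 w = δ • Classical.choose hw := Classical.choose_spec hw
  have h2 : u.1 (b w) = δ • Classical.choose hbw := Classical.choose_spec hbw
  have h3 := hu' w
  rw [h1, h2, map_zsmul, ← smul_add] at h3
  exact (smul_right_injective V hδ) h3

end Run7.h469
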