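import Pool.Agent.Run7.h469.VP
import Pool.Agent.H648R4.Fit

/-!
# Finite conjugacy classes
-/

set_option autoImplicit false
set_option linter.style.haveILetI false

namespace Run7.h469

open Function Pool.Agent.Helper611.PcGrp
open scoped commutatorElement

section FC

variable {G : Type*} [Group G]

/-- centraliser of an element -/
abbrev cen (x : G) : Subgroup G := Subgroup.centralizer {x}

theorem mem_cen {x y : G} : y ∈ cen x ↔ y * x = x * y := by
  rw [Subgroup.mem_centralizer_iff]
  constructor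
  · intro h; exact (h x rfl).symm
  · rintro h _ rfl; exact h.symm

theorem relIndex_ne_zero_of_map {K H : Subgroup G} {α : Type*} (S : Set α) (hS : S.Finite)
    (c : G → α) (hc : ∀ y ∈ K, c y ∈ S) (h : ∀ y ∈ K, ∀ z ∈ K, c y = c z → y⁻¹ * z ∈ H) :
    H.relIndex K ≠ 0 := by
  classical
  haveI := hS.to_subtype
  haveI : Finite (K ⧸ H.subgroupOf K) := by
    refine Finite.of_injective (β := S) (fun q => ⟨c q.out.1, hc _ q.out.2⟩) ?_
    intro p q hpq
    rw [← QuotientGroup.out_eq' p, ← QuotientGroup.out_eq' q, QuotientGroup.eq]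
    rw [Subgroup.mem_subgroupOf]
    exact h _ p.out.2 _ q.out.2 (congrArg Subtype.val hpq)
  exact Subgroup.index_ne_zero_of_finite

theorem relIndex_cen_of_finite {K : Subgroup G} {x : G} (S : Set G) (hS : S.Finite)
    (h : ∀ y ∈ K, y * x * y⁻¹ ∈ S) : (cen x).relIndex K ≠ 0 := by
  refine relIndex_ne_zero_of_map S hS (fun y => y * x * y⁻¹) h ?_
  intro y _ z _ hyz
  rw [mem_cen]
  have h1 : z * x = y * x * y⁻¹ * z := by rw [hyz]; group
  calc y⁻¹ * z * x = y⁻¹ * (z * x) := by group
    _ = y⁻¹ * (y * x * y⁻¹ * z) := by rw [h1]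
    _ = x * (y⁻¹ * z) := by group

theorem centralizer_relIndex {K C : Subgroup G} (hC : C.FG)
    (h : ∀ x ∈ C, (cen x).relIndex K ≠ 0) : (Subgroup.centralizer (C : Set G)).relIndex K ≠ 0 := by
  classical
  obtain ⟨S, hS⟩ := hC
  have h1 : Subgroup.centralizer (C : Set G) = ⨅ x : S, cen (x : G) := by
    rw [← hS]
    ext y
    rw [Subgroup.mem_iInf]
    constructor
    · intro hy x
      rw [mem_cen]
      exact (Subgroup.mem_centralizer_iff.1 hy _ (Subgroup.subset_closure x.2)).symm
    · intro hy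
      rw [Subgroup.mem_centralizer_iff]
      intro z hz
      have : z ∈ Subgroup.centralizer {y} := by
        have hle : Subgroup.closure (S : Set G) ≤ Subgroup.centralizer {y} := by
          rw [Subgroup.closure_le]
          intro s hs
          exact mem_cen.2 (mem_cen.1 (hy ⟨s, hs⟩)).symm
        exact hle hz
      exact mem_cen.1 this
  rw [h1]
  exact Subgroup.relIndex_iInf_ne_zero fun x => h x.1 (by
    rw [← hS]; exact Subgroup.subset_closure x.2)

/-- the FC part of a subgroup -/
def FCs (C : Subgroup G) : Subgroup G where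
  carrier := {x | x ∈ C ∧ (cen x).relIndex C ≠ 0}
  one_mem' := ⟨C.one_mem, by
    have : cen (1 : G) = ⊤ := by
      rw [eq_top_iff]; intro y _; rw [mem_cen]; simp
    rw [this, Subgroup.relIndex_top_left]; exact one_ne_zero⟩
  mul_mem' := by
    rintro x y ⟨hx, hx'⟩ ⟨hy, hy'⟩
    refine ⟨C.mul_mem hx hy, ?_⟩
    have h1 := Subgroup.relIndex_inf_ne_zero hx' hy'
    refine fun h0 => h1 (Subgroup.relIndex_eq_zero_of_le_left ?_ h0)
    rintro z ⟨hz1, hz2⟩
    rw [mem_cen]
    have h2 := mem_cen.1 hz1
    have h3 := mem_cen.1 hz2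
    rw [← mul_assoc, h2, mul_assoc, h3, mul_assoc]
  inv_mem' := by
    rintro x ⟨hx, hx'⟩
    refine ⟨C.inv_mem hx, ?_⟩
    have : cen x⁻¹ = cen x := by
      ext y
      rw [mem_cen, mem_cen]
      constructor
      · intro h
        have h2 : x * y = y * x := by
          calc x * y = x * (y * x⁻¹) * x := by group
            _ = y * x := by rw [h]; group
        exact h2.symm
      · intro h
        calc y * x⁻¹ = x⁻¹ * (x * y) * x⁻¹ := by group
          _ = x⁻¹ * y := by rw [← h]; group
    rwa [this]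

theorem mem_FCs {C : Subgroup G} {x : G} : x ∈ FCs C ↔ x ∈ C ∧ (cen x).relIndex C ≠ 0 := Iff.rfl

theorem FCs_le (C : Subgroup G) : FCs C ≤ C := fun _ h => h.1

end FC

section schur

variable {E : Type*} [Group E]

theorem fc_center (hE : Group.FG E) (h : ∀ x : E, (cen x).index ≠ 0) :
    (Subgroup.center E).index ≠ 0 := by
  have h1 := centralizer_relIndex (K := (⊤ : Subgroup E)) (C := ⊤) (Group.fg_def.1 hE)
    (fun x _ => by rw [Subgroup.relIndex_top_right]; exact h x)
  rw [Subgroup.relIndex_top_right] at h1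
  have h2 : Subgroup.centralizer ((⊤ : Subgroup E) : Set E) = Subgroup.center E := by
    rw [Subgroup.coe_top, Subgroup.centralizer_univ]
  rwa [h2] at h1

theorem fc_commutator (hE : Group.FG E) (h : ∀ x : E, (cen x).index ≠ 0) :
    Finite (_root_.commutator E) := by
  classical
  have h1 := fc_center hE h
  haveI : Finite (E ⧸ Subgroup.center E) := Subgroup.index_ne_zero_iff_finite.1 h1
  haveI : Finite (commutatorSet E) := by
    have hf : (Set.range fun p : (E ⧸ Subgroup.center E) × (E ⧸ Subgroup.center E) =>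
        ⁅p.1.out, p.2.out⁆).Finite := Set.finite_range _
    refine (hf.subset ?_).to_subtype
    rintro _ ⟨a, b, rfl⟩
    refine ⟨(QuotientGroup.mk a, QuotientGroup.mk b), ?_⟩
    obtain ⟨z, hz⟩ := QuotientGroup.mk_out_eq_mul (Subgroup.center E) a
    obtain ⟨w, hw⟩ := QuotientGroup.mk_out_eq_mul (Subgroup.center E) b
    simp only [hz, hw]
    have hz' := Subgroup.mem_center_iff.1 z.2
    have hw' := Subgroup.mem_center_iff.1 w.2
    rw [commutatorElement_def, commutatorElement_def, mul_inv_rev, mul_inv_rev]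
    calc a * z * (b * w) * ((z : E)⁻¹ * a⁻¹) * ((w : E)⁻¹ * b⁻¹)
        = a * (z * b) * w * (z : E)⁻¹ * a⁻¹ * (w : E)⁻¹ * b⁻¹ := by group
      _ = a * (b * z) * w * (z : E)⁻¹ * a⁻¹ * (w : E)⁻¹ * b⁻¹ := by rw [hz' b]
      _ = a * b * (z * w) * (z : E)⁻¹ * a⁻¹ * (w : E)⁻¹ * b⁻¹ := by group
      _ = a * b * (w * z) * (z : E)⁻¹ * a⁻¹ * (w : E)⁻¹ * b⁻¹ := by rw [hz' w]
      _ = a * b * (w * a⁻¹) * (w : E)⁻¹ * b⁻¹ := by group
      _ = a * b * (a⁻¹ * w) * (w : E)⁻¹ * b⁻¹ := by rw [hw' a⁻¹]
      _ = a * b * a⁻¹ * b⁻¹ := by group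
  infer_instance

/-- the torsion subgroup of a group with finite commutator subgroup -/
def torSub (E : Type*) [Group E] [Finite (_root_.commutator E)] : Subgroup E where
  carrier := {x | IsOfFinOrder x}
  one_mem' := IsOfFinOrder.one
  inv_mem' := fun h => h.inv
  mul_mem' := by
    intro x y hx hy
    have h1 : IsOfFinOrder (Abelianization.of x * Abelianization.of y) :=
      (Commute.all _ _).isOfFinOrder_mul (Abelianization.of.isOfFinOrder hx)
        (Abelianization.of.isOfFinOrder hy)
    rw [← map_mul, isOfFinOrder_iff_pow_eq_one] at h1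
    obtain ⟨n, hn, h2⟩ := h1
    rw [← map_pow] at h2
    have h3 : (x * y) ^ n ∈ _root_.commutator E := by
      rw [← Abelianization.ker_of, MonoidHom.mem_ker]; exact h2
    have h4 : IsOfFinOrder (⟨_, h3⟩ : _root_.commutator E) := isOfFinOrder_of_finite _
    have h5 : IsOfFinOrder ((x * y) ^ n) := (_root_.commutator E).subtype.isOfFinOrder h4
    exact (isOfFinOrder_pow.1 h5).resolve_right hn.ne'

theorem mem_torSub [Finite (_root_.commutator E)] {x : E} : x ∈ torSub E ↔ IsOfFinOrder x := Iff.rfl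

theorem torSub_finite [Finite (_root_.commutator E)] (hE : MaxC E) : Finite (torSub E) := by
  classical
  let f : torSub E →* Abelianization E := Abelianization.of.comp (torSub E).subtype
  haveI : Group.FG (torSub E) := MaxC.sub hE _
  haveI : Finite f.range := by
    apply CommGroup.finite_of_fg_isMulTorsion
    rintro ⟨_, ⟨x, rfl⟩⟩
    have h1 : IsOfFinOrder (f x) := Abelianization.of.isOfFinOrder x.2
    exact (Submonoid.isOfFinOrder_coe (H := f.range.toSubmonoid) (x := ⟨f x, ⟨x, rfl⟩⟩)).1 h1
  haveI : Finite f.ker := by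
    refine Finite.of_injective (β := _root_.commutator E) (fun x => ⟨x.1.1, ?_⟩) ?_
    · rw [← Abelianization.ker_of, MonoidHom.mem_ker]; exact x.2
    · intro a b hab
      exact Subtype.ext (Subtype.ext (congrArg (fun z : _root_.commutator E => z.1) hab))
  exact f.finite_iff_finite_ker_range.2 ⟨inferInstance, inferInstance⟩

end schur

end Run7.h469
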