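import Pool.Agent.Run7.h469.WDer

/-!
# The dimension inequality
-/

set_option autoImplicit false
set_option linter.style.haveILetI false

namespace Run7.h469.Win

open Function

section avg

variable {F V N : Type*} [Field F] [AddCommGroup V] [Module F V] [Group N]

theorem avg (ρ : Representation F N V) (a : N → V) (ha : ∀ g h, a (g * h) = a g + ρ g (a h))
    (L : Subgroup N) (hL : ((L.index : ℕ) : F) ≠ 0) (h0 : ∀ l ∈ L, a l = 0) :
    ∃ v : V, ∀ g, a g = ρ g v - v := by
  classical
  have hi : L.index ≠ 0 := by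
    intro h
    rw [h] at hL
    simp at hL
  haveI : L.FiniteIndex := ⟨hi⟩
  haveI : Finite (N ⧸ L) := inferInstance
  haveI : Fintype (N ⧸ L) := Fintype.ofFinite _
  have hwd : ∀ g h : N, (QuotientGroup.leftRel L) g h → a g = a h := by
    intro g h hgh
    rw [QuotientGroup.leftRel_apply] at hgh
    have h1 : h = g * (g⁻¹ * h) := by group
    rw [h1, ha, h0 _ hgh, map_zero, add_zero]
  let b : N ⧸ L → V := Quotient.lift a hwd
  have hb : ∀ g : N, b (QuotientGroup.mk g) = a g := fun g => rfl
  have hmul : ∀ (g : N) (q : N ⧸ L), b (g • q) = a g + ρ g (b q) := by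
    intro g q
    obtain ⟨h, rfl⟩ := QuotientGroup.mk_surjective q
    rw [MulAction.Quotient.smul_mk, hb, hb]
    exact ha g h
  have hs : ∀ g : N, (L.index : F) • a g = (∑ q, b q) - ρ g (∑ q, b q) := by
    intro g
    have h1 : ∑ q, b q = ∑ q, b (g • q) :=
      (Equiv.sum_comp (MulAction.toPerm g : Equiv.Perm (N ⧸ L)) b).symm
    have h2 : ∑ q : N ⧸ L, b (g • q) = (L.index : F) • a g + ρ g (∑ q, b q) := by
      simp_rw [hmul]
      rw [Finset.sum_add_distrib, Finset.sum_const, Finset.card_univ, map_sum,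
        Subgroup.index_eq_card, Nat.card_eq_fintype_card, Nat.cast_smul_eq_nsmul]
    rw [eq_sub_iff_add_eq, ← h2, ← h1]
  refine ⟨-((L.index : F)⁻¹ • ∑ q, b q), fun g => ?_⟩
  rw [map_neg, map_smul, neg_sub_neg, ← smul_sub, ← hs, smul_smul, inv_mul_cancel₀ hL, one_smul]

end avg

section coind

variable {F V P A : Type*} [Field F] [AddCommGroup V] [Module F V] [Group P] [Group A]

/-- the coinduced representation -/
def coind (ρ : Representation F P V) (c : P →* A) : Representation F P (A → V) where
  toFun g :=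
    { toFun := fun f a => ρ g (f ((c g)⁻¹ * a))
      map_add' := fun f f' => by funext a; simp
      map_smul' := fun r f => by funext a; simp }
  map_one' := by
    ext f a
    simp
  map_mul' g h := by
    refine LinearMap.ext fun f => funext fun a => ?_
    change ρ (g * h) (f ((c (g * h))⁻¹ * a)) = ρ g (ρ h (f ((c h)⁻¹ * ((c g)⁻¹ * a))))
    rw [rho_mul, map_mul, mul_inv_rev, mul_assoc]

theorem coind_apply (ρ : Representation F P V) (c : P →* A) (g : P) (f : A → V) (a : A) :
    coind ρ c g f a = ρ g (f ((c g)⁻¹ * a)) := rfl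

/-- invariants -/
def inv (ρ : Representation F P V) (H : Subgroup P) : Submodule F V where
  carrier := {v | ∀ g ∈ H, ρ g v = v}
  zero_mem' := fun g _ => map_zero _
  add_mem' := by
    intro v w hv hw g hg
    rw [map_add, hv g hg, hw g hg]
  smul_mem' := by
    intro r v hv g hg
    rw [map_smul, hv g hg]

theorem mem_inv {ρ : Representation F P V} {H : Subgroup P} {v : V} :
    v ∈ inv ρ H ↔ ∀ g ∈ H, ρ g v = v := Iff.rfl

theorem inv_mono (ρ : Representation F P V) {H K : Subgroup P} (h : H ≤ K) :
    inv ρ K ≤ inv ρ H := fun _ hv g hg => hv g (h hg)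

theorem inv_coind {ρ : Representation F P V} {c : P →* A} {H : Subgroup P} (hH : H ≤ c.ker)
    {f : A → V} : f ∈ inv (coind ρ c) H ↔ ∀ a, f a ∈ inv ρ H := by
  constructor
  · intro h a g hg
    have h1 := congrFun (h g hg) a
    rw [coind_apply, (MonoidHom.mem_ker).1 (hH hg), inv_one, one_mul] at h1
    exact h1
  · intro h g hg
    funext a
    rw [coind_apply, (MonoidHom.mem_ker).1 (hH hg), inv_one, one_mul]
    exact h a g hg

theorem finrank_inv_coind [Fintype A] [FiniteDimensional F V] {ρ : Representation F P V}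
    {c : P →* A} {H : Subgroup P} (hH : H ≤ c.ker) :
    Module.finrank F (inv (coind ρ c) H) = Fintype.card A * Module.finrank F (inv ρ H) := by
  let e : inv (coind ρ c) H ≃ₗ[F] (A → inv ρ H) :=
    { toFun := fun f a => ⟨f.1 a, (inv_coind hH).1 f.2 a⟩
      invFun := fun f => ⟨fun a => (f a).1, (inv_coind hH).2 fun a => (f a).2⟩
      map_add' := fun _ _ => rfl
      map_smul' := fun _ _ => rfl
      left_inv := fun _ => rfl
      right_inv := fun _ => rfl }
  rw [LinearEquiv.finrank_eq e, Module.finrank_pi_fintype, Finset.sum_const, Finset.card_univ,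
    smul_eq_mul]

/-- a derivation into the coinduced module whose value at the identity vanishes on a subgroup of
invertible index is inner -/
theorem inner_of_res {ρ : Representation F P V} {c : P →* A} (hc : Surjective c)
    {D : P → (A → V)} (hD : ∀ g h, D (g * h) = D g + coind ρ c g (D h))
    {L : Subgroup P} (hL : ((L.relIndex c.ker : ℕ) : F) ≠ 0)
    (h0 : ∀ l ∈ L, D l 1 = 0) : ∃ u : A → V, ∀ g, D g = coind ρ c g u - u := by
  have h1 : ∀ g h, D (g * h) 1 = D g 1 + ρ g (D h ((c g)⁻¹)) := by
    intro g h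
    rw [hD, Pi.add_apply, coind_apply, mul_one]
  obtain ⟨v, hv⟩ := avg (ρ.comp c.ker.subtype) (fun g => D g.1 1) (fun g h => by
    change D (g.1 * h.1) 1 = D g.1 1 + ρ g.1 (D h.1 1)
    rw [h1, (MonoidHom.mem_ker).1 g.2, inv_one]) (L.subgroupOf c.ker) hL
    (fun l hl => h0 _ (Subgroup.mem_subgroupOf.1 hl))
  have hv' : ∀ g ∈ c.ker, D g 1 = ρ g v - v := fun g hg => hv ⟨g, hg⟩
  choose p hp using fun a : A => hc a⁻¹
  have hu : ∀ g : P, ρ g⁻¹ (v + D g 1) = ρ (p (c g)⁻¹)⁻¹ (v + D (p (c g)⁻¹) 1) := by
    intro g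
    obtain ⟨q, hq⟩ : ∃ q, q = p (c g)⁻¹ := ⟨_, rfl⟩
    have hq1 : c q = c g := by rw [hq, hp, inv_inv]
    rw [← hq]
    have h2 : g * q⁻¹ ∈ c.ker := by
      rw [MonoidHom.mem_ker, map_mul, map_inv, hq1, mul_inv_cancel]
    have h3 : g = (g * q⁻¹) * q := by group
    have h4 : D g 1 = ρ (g * q⁻¹) v - v + ρ (g * q⁻¹) (D q 1) := by
      conv_lhs => rw [h3, h1, hv' _ h2, (MonoidHom.mem_ker).1 h2, inv_one]
    rw [h4, show v + (ρ (g * q⁻¹) v - v + ρ (g * q⁻¹) (D q 1)) = ρ (g * q⁻¹) (v + D q 1) by
      rw [map_add]; abel, ← rho_mul]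
    congr 2
    group
  refine ⟨fun a => ρ (p a)⁻¹ (v + D (p a) 1), fun g => funext fun a => ?_⟩
  rw [Pi.sub_apply, coind_apply]
  have h2 : D (p a * g) 1 = D (p a) 1 + ρ (p a) (D g a) := by
    rw [h1, hp, inv_inv]
  have h3 : D g a = ρ (p a)⁻¹ (D (p a * g) 1 - D (p a) 1) := by
    rw [h2, add_sub_cancel_left, rho_inv_self]
  have h4 : ρ (p ((c g)⁻¹ * a))⁻¹ (v + D (p ((c g)⁻¹ * a)) 1) =
      ρ (p a * g)⁻¹ (v + D (p a * g) 1) := by
    rw [hu (p a * g), map_mul, hp, mul_inv_rev, inv_inv]
  rw [h3]
  change _ = ρ g (ρ (p ((c g)⁻¹ * a))⁻¹ (v + D (p ((c g)⁻¹ * a)) 1)) - _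
  rw [h4, ← rho_mul, show g * (p a * g)⁻¹ = (p a)⁻¹ by group, ← map_sub]
  congr 1
  abel

end coind

section ineq

variable {F V P A : Type*} [Field F] [AddCommGroup V] [Module F V] [Group P]

/-- derivations that vanish on a subgroup -/
def DerB (ρ : Representation F P V) (B : Subgroup P) : Submodule F (P → V) where
  carrier := {D | (∀ g h, D (g * h) = D g + ρ g (D h)) ∧ ∀ g ∈ B, D g = 0}
  zero_mem' := ⟨fun g h => by simp, fun g _ => rfl⟩
  add_mem' := by
    intro D D' hD hD'
    refine ⟨fun g h => ?_, fun g hg => ?_⟩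
    · rw [Pi.add_apply, Pi.add_apply, Pi.add_apply, hD.1, hD'.1, map_add]; abel
    · rw [Pi.add_apply, hD.2 g hg, hD'.2 g hg, add_zero]
  smul_mem' := by
    intro r D hD
    refine ⟨fun g h => ?_, fun g hg => ?_⟩
    · rw [Pi.smul_apply, Pi.smul_apply, Pi.smul_apply, hD.1, map_smul, smul_add]
    · rw [Pi.smul_apply, hD.2 g hg, smul_zero]

theorem der_ext {ρ : Representation F P V} {D D' : P → V}
    (hD : ∀ g h, D (g * h) = D g + ρ g (D h)) (hD' : ∀ g h, D' (g * h) = D' g + ρ g (D' h))
    {S : Set P} (hS : Subgroup.closure S = ⊤) (h : ∀ g ∈ S, D g = D' g) : D = D' := by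
  have hone : ∀ {D : P → V}, (∀ g h, D (g * h) = D g + ρ g (D h)) → D 1 = 0 := by
    intro D hD
    have := hD 1 1
    simpa using this
  have hinv : ∀ {D : P → V}, (∀ g h, D (g * h) = D g + ρ g (D h)) →
      ∀ g, D g⁻¹ = - ρ g⁻¹ (D g) := by
    intro D hD g
    have := hD g⁻¹ g
    rw [inv_mul_cancel, hone hD] at this
    exact eq_neg_of_add_eq_zero_left this.symm
  funext g
  have hg : g ∈ Subgroup.closure S := by rw [hS]; trivial
  induction hg using Subgroup.closure_induction with
  | mem x hx => exact h x hx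
  | one => rw [hone hD, hone hD']
  | mul x y _ _ hx hy => rw [hD, hD', hx, hy]
  | inv x _ hx => rw [hinv hD, hinv hD', hx]

/-- the inner derivations -/
def innerMap (ρ : Representation F P V) : V →ₗ[F] (P → V) where
  toFun v g := ρ g v - v
  map_add' v w := by funext g; simp only [map_add, Pi.add_apply]; abel
  map_smul' r v := by funext g; simp [smul_sub]

variable [FiniteDimensional F V]

/-- **The dimension inequality.** -/
theorem ineq {ρ : Representation F P V} [Group A] [Fintype A] {c : P →* A} (hc : Surjective c)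
    {B C : Subgroup P} (hB : B ≤ c.ker) (hC : C ≤ c.ker) {t : P}
    (hgen : Subgroup.closure (insert t (B : Set P)) = ⊤)
    (hex : ∀ w : A → V, w ∈ inv (coind ρ c) C → ∃ D ∈ DerB (coind ρ c) B, D t = w)
    {L : Subgroup P} (hL : ((L.relIndex c.ker : ℕ) : F) ≠ 0) {r : ℕ} (l : Fin r → P)
    (hl : Subgroup.closure (Set.range l) = L) (hLc : L ≤ c.ker) :
    Fintype.card A * Module.finrank F (inv ρ C) ≤
      r * Module.finrank F V + Fintype.card A * Module.finrank F (inv ρ B) := by
  rw [← finrank_inv_coind hC, ← finrank_inv_coind hB]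
  -- evaluation at `t`
  let ev : DerB (coind ρ c) B →ₗ[F] (A → V) :=
    { toFun := fun D => D.1 t
      map_add' := fun _ _ => rfl
      map_smul' := fun _ _ => rfl }
  have hev : Injective ev := by
    intro D D' h
    apply Subtype.ext
    refine der_ext D.2.1 D'.2.1 hgen ?_
    rintro g (rfl | hg)
    · exact h
    · rw [D.2.2 g hg, D'.2.2 g hg]
  haveI hfd : FiniteDimensional F (DerB (coind ρ c) B) := FiniteDimensional.of_injective ev hev
  have h1 : Module.finrank F (inv (coind ρ c) C) ≤ Module.finrank F (DerB (coind ρ c) B) := by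
    have h2 : inv (coind ρ c) C ≤ LinearMap.range ev := by
      intro w hw
      obtain ⟨D, hD, hDt⟩ := hex w hw
      exact ⟨⟨D, hD⟩, hDt⟩
    calc Module.finrank F (inv (coind ρ c) C) ≤ Module.finrank F (LinearMap.range ev) :=
          Submodule.finrank_mono h2
      _ = Module.finrank F (DerB (coind ρ c) B) := LinearMap.finrank_range_of_inj hev
  -- restriction to `L`
  let res : DerB (coind ρ c) B →ₗ[F] (Fin r → V) :=
    { toFun := fun D i => D.1 (l i) 1
      map_add' := fun _ _ => rfl
      map_smul' := fun _ _ => rfl }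
  have h2 := LinearMap.finrank_range_add_finrank_ker res
  have h3 : Module.finrank F (LinearMap.range res) ≤ r * Module.finrank F V := by
    refine (Submodule.finrank_le _).trans ?_
    rw [Module.finrank_pi_fintype, Finset.sum_const, Finset.card_univ, Fintype.card_fin,
      smul_eq_mul]
  have h4 : Module.finrank F (LinearMap.ker res) ≤ Module.finrank F (inv (coind ρ c) B) := by
    let I : Submodule F (P → (A → V)) :=
      (inv (coind ρ c) B).map (innerMap (coind ρ c))
    have h5 : (LinearMap.ker res).map (DerB (coind ρ c) B).subtype ≤ I := by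
      rintro _ ⟨D, hD, rfl⟩
      have hD1 : ∀ g ∈ L, D.1 g 1 = 0 := by
        intro g hg
        rw [← hl] at hg
        have hle : Subgroup.closure (Set.range l) ≤ c.ker := hl.trans_le hLc
        have hmul : ∀ a ∈ c.ker, ∀ b, D.1 (a * b) 1 = D.1 a 1 + ρ a (D.1 b 1) := by
          intro a ha b
          rw [D.2.1, Pi.add_apply, coind_apply, (MonoidHom.mem_ker).1 ha, inv_one, one_mul]
        have hone : D.1 1 1 = 0 := by
          have := hmul 1 (one_mem _) 1
          simpa using this
        induction hg using Subgroup.closure_induction with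
        | mem x hx =>
          obtain ⟨i, rfl⟩ := hx
          exact congrFun (LinearMap.mem_ker.1 hD) i
        | one => exact hone
        | mul x y hx hy hx' hy' => rw [hmul x (hle hx), hx', hy', map_zero, add_zero]
        | inv x hx hx' =>
          have := hmul x⁻¹ (inv_mem (hle hx)) x
          rw [inv_mul_cancel, hone, hx', map_zero, add_zero] at this
          exact this.symm
      obtain ⟨u, hu⟩ := inner_of_res hc D.2.1 hL hD1
      refine ⟨u, ?_, ?_⟩
      · intro g hg
        have := hu g
        rw [D.2.2 g hg] at this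
        exact sub_eq_zero.1 this.symm
      · funext g
        exact (hu g).symm
    haveI : FiniteDimensional F I := inferInstance
    calc Module.finrank F (LinearMap.ker res)
        = Module.finrank F ((LinearMap.ker res).map (DerB (coind ρ c) B).subtype) :=
          (LinearEquiv.finrank_eq (Submodule.equivMapOfInjective _
            (Submodule.injective_subtype _) _))
      _ ≤ Module.finrank F I := Submodule.finrank_mono h5
      _ ≤ Module.finrank F (inv (coind ρ c) B) := Submodule.finrank_map_le _ _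
  omega

end ineq

end Run7.h469.Win
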