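import Pool.Agent.Run7.h469.Der

/-!
# Iterated images of an injective endomorphism, and the abelian step
-/

set_option autoImplicit false
set_option linter.style.haveILetI false

namespace Run7.h469

open Function

/-- the intersection of the images of all iterates -/
def itImg {P : Type*} [Group P] (φ : P →* P) : Subgroup P where
  carrier := {x | ∀ k : ℕ, ∃ y, φ^[k] y = x}
  one_mem' := fun k => ⟨1, iterate_map_one φ k⟩
  mul_mem' := by
    intro x y hx hy k
    obtain ⟨p, hp⟩ := hx k
    obtain ⟨q, hq⟩ := hy k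
    exact ⟨p * q, by rw [iterate_map_mul, hp, hq]⟩
  inv_mem' := by
    intro x hx k
    obtain ⟨p, hp⟩ := hx k
    exact ⟨p⁻¹, by rw [iterate_map_inv, hp]⟩

section basic

variable {P Q : Type*} [Group P] [Group Q] {φ : P →* P} {β : Q →* Q}

theorem mem_itImg {x : P} : x ∈ itImg φ ↔ ∀ k : ℕ, ∃ y, φ^[k] y = x := Iff.rfl

theorem semi (p : P →* Q) (h : ∀ x, p (φ x) = β (p x)) (k : ℕ) (x : P) :
    p (φ^[k] x) = β^[k] (p x) := by
  induction k generalizing x with
  | zero => rfl
  | succ k ih => rw [iterate_succ_apply, iterate_succ_apply, ih, h]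

theorem itImg_map_le (p : P →* Q) (h : ∀ x, p (φ x) = β (p x)) :
    (itImg φ).map p ≤ itImg β := by
  rintro _ ⟨x, hx, rfl⟩ k
  obtain ⟨y, hy⟩ := hx k
  exact ⟨p y, by rw [← semi p h, hy]⟩

theorem itImg_apply_mem (hφ : Injective φ) {x : P} : φ x ∈ itImg φ ↔ x ∈ itImg φ := by
  constructor
  · intro h k
    obtain ⟨y, hy⟩ := h (k + 1)
    rw [iterate_succ_apply'] at hy
    exact ⟨y, hφ hy⟩
  · intro h k
    cases k with
    | zero => exact ⟨φ x, rfl⟩
    | succ k =>
      obtain ⟨y, hy⟩ := h k
      exact ⟨y, by rw [iterate_succ_apply', hy]⟩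

theorem itImg_surj (hφ : Injective φ) {x : P} (hx : x ∈ itImg φ) :
    ∃ y ∈ itImg φ, φ y = x := by
  obtain ⟨y, hy⟩ := hx 1
  exact ⟨y, (itImg_apply_mem hφ).1 (by rw [show φ y = x from hy]; exact hx), hy⟩

theorem itImg_eq_top (hφ : Surjective φ) : itImg φ = ⊤ := by
  rw [eq_top_iff]
  intro x _ k
  exact (hφ.iterate k) x

end basic

section fgab

variable {V : Type*} [AddCommGroup V]

theorem finite_killed [Module.Finite ℤ V] (n : ℤ) (hn : n ≠ 0) : Finite {v : V // n • v = 0} := by
  let S : Submodule ℤ V := LinearMap.ker (n • (LinearMap.id : V →ₗ[ℤ] V))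
  haveI : Finite S := Module.finite_of_fg_torsion S (by
    intro x
    refine ⟨⟨n, by simpa using hn⟩, ?_⟩
    apply Subtype.ext
    have := x.2
    rw [LinearMap.mem_ker] at this
    exact this)
  refine Finite.of_injective (β := S) (fun v => ⟨v.1, ?_⟩) ?_
  · rw [LinearMap.mem_ker]; exact v.2
  · intro a b hab
    exact Subtype.ext (congrArg (fun z : S => z.1) hab)

/-- an injective endomorphism of a finitely generated abelian group with trivial intersection of
iterated images forces torsion-freeness -/
theorem torsionFree_of_inter [Module.Finite ℤ V] (A : V →+ V) (hA : Injective A)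
    (hint : ∀ v, (∀ k : ℕ, ∃ y, A^[k] y = v) → v = 0) : Module.IsTorsionFree ℤ V := by
  refine Module.IsTorsionFree.of_smul_eq_zero fun n v hnv => ?_
  by_cases hn : n = 0
  · exact Or.inl hn
  right
  haveI := finite_killed (V := V) n hn
  let T : {v : V // n • v = 0} → {v : V // n • v = 0} := fun v =>
    ⟨A v.1, by rw [← map_zsmul, v.2, map_zero]⟩
  have hT : Injective T := fun a b hab =>
    Subtype.ext (hA (congrArg Subtype.val hab))
  have hTs : Surjective T := Finite.surjective_of_injective hT
  refine hint v fun k => ?_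
  obtain ⟨y, hy⟩ := (hTs.iterate k) ⟨v, hnv⟩
  refine ⟨y.1, ?_⟩
  have h1 : ∀ (k : ℕ) (y : {v : V // n • v = 0}), (T^[k] y).1 = A^[k] y.1 := by
    intro k
    induction k with
    | zero => intro y; rfl
    | succ k ih =>
      intro y
      rw [iterate_succ_apply', iterate_succ_apply', ← ih]
  rw [← h1, hy]

end fgab

section step

variable {P Q : Type*} [Group P] [Group Q] {φ : P →* P} {β : Q →* Q}

/-- The abelian step. -/
theorem abelian_step (p : P →* Q) (hp : Surjective p) (hpφ : ∀ x, p (φ x) = β (p x))
    (hφ : Injective φ) (hβ : Surjective β) (hQ : Group.FG Q)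
    (hcomm : ∀ x ∈ p.ker, ∀ y ∈ p.ker, x * y = y * x) (hN : Group.FG p.ker) :
    ((itImg φ).map p).index ≠ 0 := by
  classical
  letI icg : CommGroup p.ker :=
    { (inferInstance : Group p.ker) with
      mul_comm := fun a b => Subtype.ext (hcomm a.1 a.2 b.1 b.2) }
  -- the additive version of the kernel
  let κ : p.ker →* p.ker := (φ.comp p.ker.subtype).codRestrict p.ker (fun x => by
    have := x.2
    rw [MonoidHom.mem_ker] at this ⊢
    simp [hpφ, this])
  let A0 : Additive p.ker →+ Additive p.ker := MonoidHom.toAdditive κ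
  have hA0v : ∀ v : Additive p.ker, ((A0 v).toMul : P) = φ (v.toMul : P) := fun v => rfl
  have hA0k : ∀ (k : ℕ) (v : Additive p.ker), (((A0^[k]) v).toMul : P) = φ^[k] (v.toMul : P) := by
    intro k
    induction k with
    | zero => intro v; rfl
    | succ k ih =>
      intro v
      rw [iterate_succ_apply', iterate_succ_apply', hA0v, ih]
  have hA0inj : Injective A0 := by
    intro a b hab
    have h1 : φ (a.toMul : P) = φ (b.toMul : P) := by rw [← hA0v, ← hA0v, hab]
    exact congrArg Additive.ofMul (Subtype.ext (hφ h1))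
  let cj : P →* AddMonoid.End (Additive p.ker) :=
    { toFun := fun g => MonoidHom.toAdditive (MulAut.conjNormal g : MulAut p.ker).toMonoidHom
      map_one' := by
        apply AddMonoidHom.ext
        intro v
        have h1 : ((MulAut.conjNormal (1 : P) : MulAut p.ker) v.toMul : P) = (v.toMul : P) := by
          rw [MulAut.conjNormal_apply]; group
        exact congrArg Additive.ofMul (Subtype.ext h1)
      map_mul' := fun a b => by
        apply AddMonoidHom.ext
        intro v
        have h1 : ((MulAut.conjNormal (a * b) : MulAut p.ker) v.toMul : P) =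
            ((MulAut.conjNormal a : MulAut p.ker)
              ((MulAut.conjNormal b : MulAut p.ker) v.toMul) : P) := by
          rw [MulAut.conjNormal_apply, MulAut.conjNormal_apply, MulAut.conjNormal_apply]; group
        exact congrArg Additive.ofMul (Subtype.ext h1) }
  have hcj : ∀ (g : P) (v : Additive p.ker), ((cj g v).toMul : P) = g * (v.toMul : P) * g⁻¹ := by
    intro g v
    exact MulAut.conjNormal_apply g v.toMul
  have hcjker : ∀ (g : P) (_ : g ∈ p.ker) (v : Additive p.ker), cj g v = v := by
    intro g hg v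
    have h1 : ((cj g v).toMul : P) = (v.toMul : P) := by
      rw [hcj, hcomm g hg _ v.toMul.2, mul_inv_cancel_right]
    exact congrArg Additive.ofMul (Subtype.ext h1)
  let U : AddSubgroup (Additive p.ker) :=
    { carrier := {v | ∀ k : ℕ, ∃ y, A0^[k] y = v}
      zero_mem' := fun k => ⟨0, iterate_map_zero A0 k⟩
      add_mem' := by
        intro x y hx hy k
        obtain ⟨a, ha⟩ := hx k
        obtain ⟨b, hb⟩ := hy k
        exact ⟨a + b, by rw [iterate_map_add, ha, hb]⟩
      neg_mem' := by
        intro x hx k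
        obtain ⟨a, ha⟩ := hx k
        exact ⟨-a, by rw [iterate_map_neg, ha]⟩ }
  have hcjU : ∀ g, ∀ v ∈ U, cj g v ∈ U := by
    intro g v hv k
    obtain ⟨y, hy⟩ := hv k
    obtain ⟨q, hq⟩ := hβ.iterate k (p g)
    obtain ⟨x, rfl⟩ := hp q
    rw [← semi p hpφ] at hq
    -- g = n * φ^k x
    have hn : g * (φ^[k] x)⁻¹ ∈ p.ker := by
      rw [MonoidHom.mem_ker, map_mul, map_inv, hq, mul_inv_cancel]
    have hg : g = (g * (φ^[k] x)⁻¹) * φ^[k] x := by group
    refine ⟨cj x y, ?_⟩
    rw [hg, map_mul]
    change _ = cj (g * (φ^[k] x)⁻¹) (cj (φ^[k] x) v)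
    rw [hcjker _ hn]
    have h1 : (((A0^[k]) (cj x y)).toMul : P) = ((cj (φ^[k] x) v).toMul : P) := by
      rw [hA0k, hcj, hcj, iterate_map_mul, iterate_map_mul, iterate_map_inv, ← hy, hA0k]
    exact congrArg Additive.ofMul (Subtype.ext h1)
  -- the quotient module
  have hA0U : U ≤ U.comap A0 := by
    intro v hv k
    cases k with
    | zero => exact ⟨_, rfl⟩
    | succ k =>
      obtain ⟨y, hy⟩ := hv k
      exact ⟨y, by rw [iterate_succ_apply', hy]⟩
  have hA0U' : ∀ v, A0 v ∈ U → v ∈ U := by
    intro v hv k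
    obtain ⟨y, hy⟩ := hv (k + 1)
    rw [iterate_succ_apply'] at hy
    exact ⟨y, hA0inj hy⟩
  let V := Additive p.ker ⧸ U
  let A : V →+ V := QuotientAddGroup.map U U A0 hA0U
  have hAmk : ∀ v, A (QuotientAddGroup.mk v) = QuotientAddGroup.mk (A0 v) := fun v => rfl
  have hAmkk : ∀ (k : ℕ) (v : Additive p.ker), A^[k] (QuotientAddGroup.mk v) =
      QuotientAddGroup.mk (A0^[k] v) := by
    intro k
    induction k with
    | zero => intro v; rfl
    | succ k ih =>
      intro v
      rw [iterate_succ_apply', iterate_succ_apply', ih, hAmk]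
  have hAinj : Injective A := by
    rw [injective_iff_map_eq_zero]
    intro v hv
    induction v using QuotientAddGroup.induction_on with
    | H v =>
      rw [hAmk, QuotientAddGroup.eq_zero_iff] at hv
      exact (QuotientAddGroup.eq_zero_iff v).2 (hA0U' v hv)
  have hint : ∀ v : V, (∀ k : ℕ, ∃ y, A^[k] y = v) → v = 0 := by
    intro v hv
    induction v using QuotientAddGroup.induction_on with
    | H v =>
      rw [QuotientAddGroup.eq_zero_iff]
      intro k
      obtain ⟨y, hy⟩ := hv k
      induction y using QuotientAddGroup.induction_on with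
      | H y =>
        rw [hAmkk, QuotientAddGroup.eq] at hy
        obtain ⟨z, hz⟩ := hy k
        refine ⟨y + z, ?_⟩
        rw [iterate_map_add, hz, add_neg_cancel_left]
  have hV0fin : Module.Finite ℤ (Additive p.ker) := by
    rw [Module.Finite.iff_addGroup_fg]
    exact GroupFG.iff_add_fg.1 hN
  haveI hVfin : Module.Finite ℤ V := by
    rw [Module.Finite.iff_addGroup_fg] at hV0fin ⊢
    exact QuotientAddGroup.fg U
  haveI hVtf : Module.IsTorsionFree ℤ V := torsionFree_of_inter A hAinj hint
  -- the free group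
  obtain ⟨α, hα, f, hf⟩ := Group.fg_iff_exists_freeGroup_hom_surjective_finite.1 hQ
  choose l0 hl0 using fun i : α => hp (f (FreeGroup.of i))
  let l : FreeGroup α →* P := FreeGroup.lift l0
  have hl : ∀ w, p (l w) = f w := by
    intro w
    have : p.comp l = f := by
      ext i
      simp [l, hl0]
    rw [← this]
    rfl
  choose b0 hb0 using fun i : α => (hβ.comp hf) (f (FreeGroup.of i))
  let b : FreeGroup α →* FreeGroup α := FreeGroup.lift b0
  have hb : ∀ w, β (f (b w)) = f w := by
    intro w
    have : (β.comp f).comp b = f := by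
      ext i
      have := hb0 i
      simpa [b] using this
    exact DFunLike.congr_fun this w
  let rho : FreeGroup α →* AddMonoid.End V :=
    { toFun := fun w => QuotientAddGroup.map U U (cj (l w)) (fun v hv => hcjU (l w) v hv)
      map_one' := by
        apply AddMonoidHom.ext
        intro v
        induction v using QuotientAddGroup.induction_on with
        | H v =>
          change (QuotientAddGroup.mk (cj (l 1) v) : V) = QuotientAddGroup.mk v
          rw [map_one, map_one]; rfl
      map_mul' := fun x y => by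
        apply AddMonoidHom.ext
        intro v
        induction v using QuotientAddGroup.induction_on with
        | H v =>
          change (QuotientAddGroup.mk (cj (l (x * y)) v) : V) =
            QuotientAddGroup.mk (cj (l x) (cj (l y) v))
          rw [map_mul, map_mul]; rfl }
  have hrho : ∀ w v, rho w (QuotientAddGroup.mk v) = QuotientAddGroup.mk (cj (l w) v) :=
    fun w v => rfl
  have hcker : ∀ w, φ (l (b w)) * (l w)⁻¹ ∈ p.ker := by
    intro w
    rw [MonoidHom.mem_ker, map_mul, map_inv, hpφ, hl, hl, hb, mul_inv_cancel]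
  let c0 : FreeGroup α → Additive p.ker := fun w => Additive.ofMul ⟨_, hcker w⟩
  have hc0 : ∀ w, ((c0 w).toMul : P) = φ (l (b w)) * (l w)⁻¹ := fun w => rfl
  have hc0add : ∀ x y, c0 (x * y) = c0 x + cj (l x) (c0 y) := by
    intro x y
    have h1 : ((c0 (x * y)).toMul : P) = ((c0 x + cj (l x) (c0 y)).toMul : P) := by
      rw [hc0, toMul_add, Subgroup.coe_mul, hcj, hc0, hc0]
      simp only [map_mul]
      group
    exact congrArg Additive.ofMul (Subtype.ext h1)
  let c : FreeGroup α → V := fun w => QuotientAddGroup.mk (c0 w)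
  have hc : c ∈ Der rho := by
    intro x y
    change (QuotientAddGroup.mk (c0 (x * y)) : V) = _
    rw [hc0add]
    rfl
  have hAb0 : ∀ w (v : Additive p.ker), A0 (cj (l (b w)) v) = cj (l w) (A0 v) := by
    intro w v
    have h1 : ((A0 (cj (l (b w)) v)).toMul : P) = ((cj (l w) (A0 v)).toMul : P) := by
      rw [hA0v, hcj, hcj, hA0v, map_mul, map_mul, map_inv]
      have h2 : φ (l (b w)) = (φ (l (b w)) * (l w)⁻¹) * l w := by group
      have h3 : l w * φ (v.toMul : P) * (l w)⁻¹ ∈ p.ker := by
        refine p.normal_ker.conj_mem _ ?_ _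
        rw [← hA0v]
        exact (A0 v).toMul.2
      have h4 := hcomm _ (hcker w) _ h3
      calc φ (l (b w)) * φ (v.toMul : P) * (φ (l (b w)))⁻¹
          = (φ (l (b w)) * (l w)⁻¹) * (l w * φ (v.toMul : P) * (l w)⁻¹) *
            (φ (l (b w)) * (l w)⁻¹)⁻¹ := by group
        _ = l w * φ (v.toMul : P) * (l w)⁻¹ := by rw [h4, mul_inv_cancel_right]
    exact congrArg Additive.ofMul (Subtype.ext h1)
  have hAb : ∀ w v, A (rho (b w) v) = rho w (A v) := by
    intro w v
    induction v using QuotientAddGroup.induction_on with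
    | H v => rw [hrho, hAmk, hAmk, hrho, hAb0]
  obtain ⟨F', n, hF', hn⟩ := exists_fix rho inferInstance A b hAb hint c hc
  choose n0 hn0 using fun w => QuotientAddGroup.mk_surjective (s := U) (n w)
  -- the new lift
  have key : ∀ (k : ℕ), ∀ w ∈ F', ∃ y, φ^[k] y = ((n0 w).toMul : P) * l w := by
    intro k
    induction k with
    | zero => intro w _; exact ⟨_, rfl⟩
    | succ k ih =>
      intro w hw
      obtain ⟨hbw, hnw⟩ := hn w hw
      obtain ⟨z, hz⟩ := ih (b w) hbw
      have h1 : n0 w - (A0 (n0 (b w)) + c0 w) ∈ U := by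
        have h2 : (QuotientAddGroup.mk (n0 w) : V) =
            QuotientAddGroup.mk (A0 (n0 (b w)) + c0 w) := by
          rw [hn0, hnw, QuotientAddGroup.mk_add, ← hAmk, hn0]
        have h3 := QuotientAddGroup.eq.1 h2.symm
        rwa [neg_add_eq_sub] at h3
      obtain ⟨e, he⟩ := h1 (k + 1)
      refine ⟨(e.toMul : P) * z, ?_⟩
      have h4 : n0 w = A0^[k + 1] e + (A0 (n0 (b w)) + c0 w) := by rw [he]; abel
      rw [iterate_map_mul, ← hA0k]
      rw [iterate_succ_apply' φ, hz, map_mul]
      conv_rhs => rw [h4]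
      rw [toMul_add, toMul_add, Subgroup.coe_mul, Subgroup.coe_mul, hA0v, hc0]
      group
  have hle : F'.map f ≤ (itImg φ).map p := by
    rintro _ ⟨w, hw, rfl⟩
    refine ⟨((n0 w).toMul : P) * l w, fun k => key k w hw, ?_⟩
    rw [map_mul, hl]
    have := (n0 w).toMul.2
    rw [MonoidHom.mem_ker] at this
    rw [this, one_mul]
  have h1 : (F'.map f).index ≠ 0 := fun h0 => hF' (by
    have := Subgroup.index_map_dvd F' hf
    rw [h0] at this
    exact Nat.eq_zero_of_zero_dvd this)
  have h2 := Subgroup.index_dvd_of_le hle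
  intro h0
  rw [h0] at h2
  exact h1 (Nat.eq_zero_of_zero_dvd h2)

end step

end Run7.h469
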