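import Pool.Agent.Run7.h469.Ab

/-! Properties of integers with few exceptions, for all the integers near two consecutive terms. -/

set_option autoImplicit false

namespace Run7.h469.Ab

open Finset Filter Topology MeasureTheory

/-- `n > 0` is `i u + j v + w` with integers `(i, j) ≠ (0, 0)` and `|i|, |j|, |w| ≤ (max u v)^κ` -/
def Near (κ : ℝ) (u v n : ℕ) : Prop :=
  0 < n ∧ ∃ i j w : ℤ, (i ≠ 0 ∨ j ≠ 0) ∧ |(i : ℝ)| ≤ ((max u v : ℕ) : ℝ) ^ κ ∧ |(j : ℝ)| ≤ ((max u v : ℕ) : ℝ) ^ κ ∧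
    |(w : ℝ)| ≤ ((max u v : ℕ) : ℝ) ^ κ ∧ (n : ℤ) = i * u + j * v + w

/-- if `u, v > 0`, then all `n > 0` of the form `i u + j v + w`, `(i, j) ≠ (0, 0)`, `|i|, |j|, |w| ≤ (max u v)^κ` have the
property `P` -/
def AllNear (κ : ℝ) (P : ℕ → Prop) (u v : ℕ) : Prop := 0 < u → 0 < v → ∀ n : ℕ, Near κ u v n → P n

/-- at most `C N^(s + ε)` positive integers up to `N` are without the property -/
def FewInts (s : ℝ) (P : ℕ → Prop) : Prop :=
  ∀ ε : ℝ, 0 < ε → ∃ C : ℝ, ∀ N : ℕ, 1 ≤ N → ∀ F : Finset ℕ, (∀ n ∈ F, 1 ≤ n ∧ n ≤ N ∧ ¬ P n) →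
    (F.card : ℝ) ≤ C * (N : ℝ) ^ (s + ε)

theorem allNear_zero (κ : ℝ) (P : ℕ → Prop) (u v : ℕ) (h : u = 0 ∨ v = 0) : AllNear κ P u v := by
  intro hu hv
  omega

theorem few_allNear {s κ : ℝ} (hs : 0 ≤ s) (hκ : 0 ≤ κ) {P : ℕ → Prop} (hP : FewInts s P) :
    FewPairs (1 + s + κ * (3 + s)) (AllNear κ P) := by
  classical
  apply fewPairs_of
  intro ε hε
  obtain ⟨δ, hδ⟩ : ∃ δ : ℝ, δ = ε / (1 + κ) := ⟨_, rfl⟩
  have hδ0 : 0 < δ := by rw [hδ]; positivity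
  obtain ⟨C, hC⟩ := hP δ hδ0
  refine ⟨27 * |C| * 3 ^ (s + δ), fun H hH F hF => ?_⟩
  have hH1 : (1 : ℝ) ≤ H := by exact_mod_cast hH
  have hH0 : (0 : ℝ) < H := by linarith
  have hHκ : (1 : ℝ) ≤ (H : ℝ) ^ κ := Real.one_le_rpow hH1 hκ
  obtain ⟨K, hK⟩ : ∃ K : ℕ, K = ⌊(H : ℝ) ^ κ⌋₊ := ⟨_, rfl⟩
  have hK1 : 1 ≤ K := by rw [hK]; exact Nat.le_floor (by exact_mod_cast hHκ)
  have hKr : (K : ℝ) ≤ (H : ℝ) ^ κ := by rw [hK]; exact Nat.floor_le (by positivity)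
  have hbd : ∀ i : ℤ, ∀ m : ℕ, 1 ≤ m → m ≤ H → |(i : ℝ)| ≤ (m : ℝ) ^ κ → -(K : ℤ) ≤ i ∧ i ≤ K := by
    intro i m hm1 hm hi
    have h1 : |(i : ℝ)| ≤ (H : ℝ) ^ κ := hi.trans (Real.rpow_le_rpow (by positivity) (by exact_mod_cast hm) hκ)
    have h2 : ((i.natAbs : ℕ) : ℝ) ≤ (H : ℝ) ^ κ := by
      have : ((i.natAbs : ℕ) : ℝ) = |(i : ℝ)| := by
        rw [Nat.cast_natAbs]
        push_cast
        rfl
      rw [this]
      exact h1
    have h3 : i.natAbs ≤ K := by rw [hK]; exact Nat.le_floor h2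
    omega
  let I : Finset ℤ := Icc (-(K : ℤ)) K
  have hIc : (I.card : ℝ) ≤ 3 * K := by
    simp only [I]
    rw [Int.card_Icc]
    have : ((K : ℤ) + 1 - -(K : ℤ)).toNat = 2 * K + 1 := by omega
    rw [this]
    have : (1 : ℝ) ≤ K := by exact_mod_cast hK1
    push_cast
    linarith
  let N : ℕ := 3 * K * H
  have hN1 : 1 ≤ N := Nat.mul_pos (by omega) hH
  let E : Finset ℕ := (Icc 1 N).filter (fun n => ¬ P n)
  have hE : (E.card : ℝ) ≤ |C| * (N : ℝ) ^ (s + δ) := by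
    refine (hC N hN1 E (fun n hn => ?_)).trans (mul_le_mul_of_nonneg_right (le_abs_self C) (by positivity))
    simp only [E, mem_filter, mem_Icc] at hn
    exact ⟨hn.1.1, hn.1.2, hn.2⟩
  let G : (ℤ × ℤ) × ℤ → Finset (ℕ × ℕ) := fun w => F.filter (fun z => ∃ n ∈ E, (n : ℤ) = w.1.1 * z.1 + w.1.2 * z.2 + w.2)
  have hG : ∀ w : (ℤ × ℤ) × ℤ, (w.1.1 ≠ 0 ∨ w.1.2 ≠ 0) → ((G w).card : ℝ) ≤ H * (|C| * (N : ℝ) ^ (s + δ)) := by
    intro w hw
    have hz : ∀ z ∈ G w, (1 ≤ z.1 ∧ z.1 ≤ H) ∧ (1 ≤ z.2 ∧ z.2 ≤ H) ∧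
        ((w.1.1 * z.1 + w.1.2 * z.2 + w.2).toNat ∈ E) ∧
        (((w.1.1 * z.1 + w.1.2 * z.2 + w.2).toNat : ℕ) : ℤ) = w.1.1 * z.1 + w.1.2 * z.2 + w.2 := by
      intro z hz
      simp only [G, mem_filter] at hz
      obtain ⟨h1, n, h2, h3⟩ := hz
      obtain ⟨h4, h5, h6, h7, -⟩ := hF z h1
      rw [← h3]
      simp only [Int.toNat_natCast]
      exact ⟨⟨h4, h6⟩, ⟨h5, h7⟩, h2, trivial⟩
    have hcard : (G w).card ≤ (Icc 1 H ×ˢ E).card := by
      rcases hw with hw | hw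
      · apply card_le_card_of_injOn (fun z => (z.2, (w.1.1 * z.1 + w.1.2 * z.2 + w.2).toNat))
        · intro z hz'
          obtain ⟨h1, h2, h3, h4⟩ := hz z hz'
          rw [mem_coe, mem_product, mem_Icc]
          exact ⟨h2, h3⟩
        · intro z hz1 z' hz2 e
          obtain ⟨-, -, -, h4⟩ := hz z hz1
          obtain ⟨-, -, -, h4'⟩ := hz z' hz2
          simp only [Prod.mk.injEq] at e
          obtain ⟨e1, e2⟩ := e
          rw [e2] at h4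
          rw [h4, e1] at h4'
          have e3 : w.1.1 * (z.1 : ℤ) = w.1.1 * (z'.1 : ℤ) := by linarith
          have e4 := mul_left_cancel₀ hw e3
          exact Prod.ext (by exact_mod_cast e4) e1
      · apply card_le_card_of_injOn (fun z => (z.1, (w.1.1 * z.1 + w.1.2 * z.2 + w.2).toNat))
        · intro z hz'
          obtain ⟨h1, h2, h3, h4⟩ := hz z hz'
          rw [mem_coe, mem_product, mem_Icc]
          exact ⟨h1, h3⟩
        · intro z hz1 z' hz2 e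
          obtain ⟨-, -, -, h4⟩ := hz z hz1
          obtain ⟨-, -, -, h4'⟩ := hz z' hz2
          simp only [Prod.mk.injEq] at e
          obtain ⟨e1, e2⟩ := e
          rw [e2] at h4
          rw [h4, e1] at h4'
          have e3 : w.1.2 * (z.2 : ℤ) = w.1.2 * (z'.2 : ℤ) := by linarith
          have e4 := mul_left_cancel₀ hw e3
          exact Prod.ext e1 (by exact_mod_cast e4)
    rw [card_product, Nat.card_Icc] at hcard
    have e : H + 1 - 1 = H := by omega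
    rw [e] at hcard
    calc ((G w).card : ℝ) ≤ ((H * E.card : ℕ) : ℝ) := by exact_mod_cast hcard
      _ = H * (E.card : ℝ) := by push_cast; rfl
      _ ≤ H * (|C| * (N : ℝ) ^ (s + δ)) := mul_le_mul_of_nonneg_left hE hH0.le
  let W : Finset ((ℤ × ℤ) × ℤ) := ((I ×ˢ I) ×ˢ I).filter (fun w => w.1.1 ≠ 0 ∨ w.1.2 ≠ 0)
  have hsub : F ⊆ W.biUnion G := by
    intro z hz
    obtain ⟨h1, h2, h3, h4, h5⟩ := hF z hz
    unfold AllNear at h5
    push Not at h5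
    obtain ⟨-, -, n, ⟨h6, i, j, w, h7, h8, h9, h10, h11⟩, h12⟩ := h5
    have hm1 : 1 ≤ max z.1 z.2 := h1.trans (le_max_left _ _)
    have hm2 : max z.1 z.2 ≤ H := max_le h3 h4
    obtain ⟨i1, i2⟩ := hbd i _ hm1 hm2 h8
    obtain ⟨j1, j2⟩ := hbd j _ hm1 hm2 h9
    obtain ⟨w1, w2⟩ := hbd w _ hm1 hm2 h10
    rw [mem_biUnion]
    refine ⟨((i, j), w), ?_, ?_⟩
    · simp only [W, mem_filter, mem_product, I, mem_Icc]
      exact ⟨⟨⟨⟨i1, i2⟩, j1, j2⟩, w1, w2⟩, h7⟩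
    · simp only [G, mem_filter]
      refine ⟨hz, n, ?_, h11⟩
      simp only [E, mem_filter, mem_Icc]
      refine ⟨⟨h6, ?_⟩, h12⟩
      have hz1 : (z.1 : ℤ) ≤ H := by exact_mod_cast h3
      have hz2 : (z.2 : ℤ) ≤ H := by exact_mod_cast h4
      have hz1' : (0 : ℤ) ≤ z.1 := Int.natCast_nonneg _
      have hz2' : (0 : ℤ) ≤ z.2 := Int.natCast_nonneg _
      have hK0 : (0 : ℤ) ≤ K := Int.natCast_nonneg _
      have hHz : (1 : ℤ) ≤ H := by exact_mod_cast hH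
      have k1 : i * (z.1 : ℤ) ≤ K * H := (mul_le_mul_of_nonneg_right i2 hz1').trans (mul_le_mul_of_nonneg_left hz1 hK0)
      have k2 : j * (z.2 : ℤ) ≤ K * H := (mul_le_mul_of_nonneg_right j2 hz2').trans (mul_le_mul_of_nonneg_left hz2 hK0)
      have k3 : w ≤ K * H := w2.trans (le_mul_of_one_le_right hK0 hHz)
      have k4 : (n : ℤ) ≤ ((3 * K * H : ℕ) : ℤ) := by
        push_cast
        rw [h11]
        linarith
      exact_mod_cast k4
  have hWc : (W.card : ℝ) ≤ 27 * (K : ℝ) ^ 3 := by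
    have h1 : W.card ≤ ((I ×ˢ I) ×ˢ I).card := card_filter_le _ _
    rw [card_product, card_product] at h1
    calc (W.card : ℝ) ≤ ((I.card * I.card * I.card : ℕ) : ℝ) := by exact_mod_cast h1
      _ = (I.card : ℝ) ^ 3 := by push_cast; ring
      _ ≤ (3 * (K : ℝ)) ^ 3 := pow_le_pow_left₀ (Nat.cast_nonneg _) hIc 3
      _ = 27 * (K : ℝ) ^ 3 := by ring
  have hF1 : (F.card : ℝ) ≤ ∑ w ∈ W, ((G w).card : ℝ) := by
    exact_mod_cast (card_le_card hsub).trans card_biUnion_le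
  have hsδ : 0 ≤ s + δ := by linarith
  calc (F.card : ℝ) ≤ ∑ w ∈ W, ((G w).card : ℝ) := hF1
    _ ≤ ∑ _w ∈ W, (H : ℝ) * (|C| * (N : ℝ) ^ (s + δ)) := by
        apply sum_le_sum
        intro w hw
        simp only [W, mem_filter] at hw
        exact hG w hw.2
    _ = (W.card : ℝ) * (H * (|C| * (N : ℝ) ^ (s + δ))) := by rw [sum_const, nsmul_eq_mul]
    _ ≤ (27 * (K : ℝ) ^ 3) * (H * (|C| * (N : ℝ) ^ (s + δ))) := mul_le_mul_of_nonneg_right hWc (by positivity)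
    _ ≤ (27 * ((H : ℝ) ^ κ) ^ 3) * (H * (|C| * (3 * (H : ℝ) ^ κ * H) ^ (s + δ))) := by
        have hNr : (N : ℝ) ≤ 3 * (H : ℝ) ^ κ * H := by
          simp only [N]
          push_cast
          gcongr
        gcongr
    _ = 27 * |C| * 3 ^ (s + δ) * (H : ℝ) ^ (1 + s + κ * (3 + s) + ε) := by
        have e1 : ((H : ℝ) ^ κ) ^ 3 = (H : ℝ) ^ (κ * 3) := by
          rw [← Real.rpow_natCast, ← Real.rpow_mul hH0.le]
          norm_num
        have e2 : (3 * (H : ℝ) ^ κ * H) ^ (s + δ) = 3 ^ (s + δ) * (H : ℝ) ^ ((κ + 1) * (s + δ)) := by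
          have : (3 : ℝ) * (H : ℝ) ^ κ * H = 3 * (H : ℝ) ^ (κ + 1) := by
            rw [Real.rpow_add hH0, Real.rpow_one]
            ring
          rw [this, Real.mul_rpow (by norm_num) (by positivity), ← Real.rpow_mul hH0.le]
        have e3 : (H : ℝ) ^ (1 + s + κ * (3 + s) + ε) =
            (H : ℝ) ^ (κ * 3) * (H * (H : ℝ) ^ ((κ + 1) * (s + δ))) := by
          have h1 : (H : ℝ) * (H : ℝ) ^ ((κ + 1) * (s + δ)) = (H : ℝ) ^ (1 + (κ + 1) * (s + δ)) := by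
            rw [Real.rpow_add hH0, Real.rpow_one]
          rw [h1, ← Real.rpow_add hH0]
          congr 1
          have h2 : (κ + 1) * δ = ε := by
            rw [hδ]
            field_simp
            ring
          linear_combination -h2
        rw [e1, e2, e3]
        ring

theorem euclid_near {s κ : ℝ} (hs : 0 ≤ s) (hκ : 0 ≤ κ) (h : κ * (3 + s) < 1 - s) {P : ℕ → Prop} (hP : FewInts s P) :
    ∀ ε : ℝ, 0 < ε → ∃ C : ℝ, ∀ X H : ℕ, 1 ≤ H →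
      ((euclidExceptions (AllNear κ P) X H).card : ℝ) ≤ C * (X : ℝ) ^ 2 * (H : ℝ) ^ ((s - 1 + κ * (3 + s)) / 2 + ε) := by
  intro ε hε
  obtain ⟨C, hC⟩ := euclid (by linarith) (AllNear κ P) (few_allNear hs hκ hP) ε hε
  refine ⟨C, fun X H hH => ?_⟩
  have h1 := hC X H hH
  have e : (1 + s + κ * (3 + s)) / 2 - 1 + ε = (s - 1 + κ * (3 + s)) / 2 + ε := by ring
  rwa [e] at h1

theorem farey_near {s κ : ℝ} (hs : 0 ≤ s) (hκ : 0 ≤ κ) {P : ℕ → Prop} (hP : FewInts s P) :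
    (∃ E : Set ℝ, dimH E ≤ ENNReal.ofReal (2 * (1 + s + κ * (3 + s)) / ((1 + κ) * (3 + s))) ∧
      ∀ α : ℝ, 0 < α → α ∉ E → (badIntervals (AllNear κ P) α).Finite) ∧
    ∀ (μ : Measure ℝ) (C₀ m : ℝ), 2 * (1 + s + κ * (3 + s)) / ((1 + κ) * (3 + s)) < m →
      (∀ (x r : ℝ), 0 < r → μ (Metric.closedBall x r) ≤ ENNReal.ofReal (C₀ * r ^ m)) →
      ∀ᵐ α ∂μ, 0 < α → (badIntervals (AllNear κ P) α).Finite := by
  have h := farey (β := 1 + s + κ * (3 + s)) (by positivity) (AllNear κ P) (allNear_zero κ P) (few_allNear hs hκ hP)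
  have e : 2 * (1 + s + κ * (3 + s)) / (2 + (1 + s + κ * (3 + s))) =
      2 * (1 + s + κ * (3 + s)) / ((1 + κ) * (3 + s)) := by
    congr 1
    ring
  rw [e] at h
  exact h

end Run7.h469.Ab
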