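import Pool.Agent.Run7.h469.FC

/-!
# Near-normal nilpotent subgroups and subgroups compatible with an injective endomorphism
-/

set_option autoImplicit false
set_option linter.style.haveILetI false

namespace Run7.h469

open Function Pool.Agent.Helper611.PcGrp
open scoped commutatorElement

variable {P : Type*} [Group P]

/-- `K` is compatible with `φ`: it is invariant and equal to its preimage -/
def Compat (φ : P →* P) (K : Subgroup P) : Prop := ∀ x, φ x ∈ K ↔ x ∈ K

/-- nilpotent subgroups of `N` with a normaliser of finite index -/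
structure NN (N K : Subgroup P) : Prop where
  le : K ≤ N
  nil : Group.IsNilpotent K
  nn : ∃ W : Subgroup P, W.index ≠ 0 ∧ ∀ g ∈ W, ∀ x ∈ K, g * x * g⁻¹ ∈ K

theorem cen_one : cen (1 : P) = ⊤ := by
  rw [eq_top_iff]; intro y _; rw [mem_cen]; simp

theorem cen_mul (x y : P) : cen x ⊓ cen y ≤ cen (x * y) := by
  rintro z ⟨hz1, hz2⟩
  rw [mem_cen]
  have h2 := mem_cen.1 hz1
  have h3 := mem_cen.1 hz2
  rw [← mul_assoc, h2, mul_assoc, h3, mul_assoc]

theorem cen_inv (x : P) : cen x⁻¹ = cen x := by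
  ext y
  rw [mem_cen, mem_cen]
  constructor
  · intro h
    have h2 : x * y = y * x := by
      calc x * y = x * (y * x⁻¹) * x := by group
        _ = y * x := by rw [h]; group
    exact h2.symm
  · intro h
    calc y * x⁻¹ = x⁻¹ * (x * y) * x⁻¹ := by group
      _ = x⁻¹ * y := by rw [← h]; group

theorem cen_comap {f : P →* P} (hf : Injective f) (x : P) : (cen (f x)).comap f = cen x := by
  ext y
  rw [Subgroup.mem_comap, mem_cen, mem_cen, ← map_mul, ← map_mul, hf.eq_iff]

theorem relIndex_inf_range {f : P →* P} (hfi : f.range.index ≠ 0) (H K : Subgroup P) :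
    H.relIndex (f.range ⊓ K) ≠ 0 ↔ H.relIndex K ≠ 0 := by
  constructor
  · intro h
    refine Subgroup.relIndex_ne_zero_trans h ?_
    rw [Subgroup.inf_relIndex_right]
    exact fun h0 => hfi (Subgroup.index_eq_zero_of_relIndex_eq_zero h0)
  · intro h h0
    exact h (Subgroup.relIndex_eq_zero_of_le_right inf_le_right h0)

theorem NN.map {N K : Subgroup P} (h : NN N K) {f : P →* P} (hf : Injective f)
    (hfi : f.range.index ≠ 0) (hN : ∀ x ∈ N, f x ∈ N) : NN N (K.map f) := by
  refine ⟨?_, ?_, ?_⟩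
  · rintro _ ⟨x, hx, rfl⟩
    exact hN x (h.le hx)
  · haveI := h.nil
    exact Group.nilpotent_of_surjective (f.subgroupMap K) (f.subgroupMap_surjective K)
  · obtain ⟨W, hW, hW'⟩ := h.nn
    refine ⟨W.map f, ?_, ?_⟩
    · rw [Subgroup.index_map_of_injective W hf]
      exact Nat.mul_ne_zero hW hfi
    · rintro _ ⟨g, hg, rfl⟩ _ ⟨x, hx, rfl⟩
      exact ⟨g * x * g⁻¹, hW' g hg x hx, by simp⟩

theorem NN.comap {N K : Subgroup P} (h : NN N K) {f : P →* P} (hf : Injective f)
    (hN : ∀ x, f x ∈ N → x ∈ N) : NN N (K.comap f) := by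
  refine ⟨fun x hx => hN x (h.le hx), ?_, ?_⟩
  · haveI := h.nil
    have h1 : Injective (f.subgroupComap K) := fun a b hab =>
      Subtype.ext (hf (congrArg Subtype.val hab))
    exact (Group.isNilpotent_congr (MonoidHom.ofInjective h1)).2 inferInstance
  · obtain ⟨W, hW, hW'⟩ := h.nn
    refine ⟨W.comap f, ?_, ?_⟩
    · rw [Subgroup.index_comap]
      intro h0
      exact hW (Subgroup.index_eq_zero_of_relIndex_eq_zero h0)
    · intro g hg x hx
      have := hW' _ hg _ hx
      rw [Subgroup.mem_comap]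
      simpa using this

/-- conjugation by `g` as an endomorphism -/
def cjh (g : P) : P →* P := (MulAut.conj g).toMonoidHom

theorem cjh_apply (g x : P) : cjh g x = g * x * g⁻¹ := rfl

theorem cjh_inj (g : P) : Injective (cjh g) := (MulAut.conj g).injective

theorem cjh_range (g : P) : (cjh g).range.index ≠ 0 := by
  rw [MonoidHom.range_eq_top.2 (MulAut.conj g).surjective, Subgroup.index_top]
  exact one_ne_zero

/-- elements of `N` that virtually centralise all near-normal nilpotent subgroups -/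
def Cs (N : Subgroup P) : Subgroup P where
  carrier := {x | x ∈ N ∧ ∀ K, NN N K → (cen x).relIndex K ≠ 0}
  one_mem' := ⟨N.one_mem, fun K _ => by
    rw [cen_one, Subgroup.relIndex_top_left]; exact one_ne_zero⟩
  mul_mem' := by
    rintro x y ⟨hx, hx'⟩ ⟨hy, hy'⟩
    exact ⟨N.mul_mem hx hy, fun K hK h0 => Subgroup.relIndex_inf_ne_zero (hx' K hK) (hy' K hK)
      (Subgroup.relIndex_eq_zero_of_le_left (cen_mul x y) h0)⟩
  inv_mem' := by
    rintro x ⟨hx, hx'⟩
    exact ⟨N.inv_mem hx, fun K hK => by rw [cen_inv]; exact hx' K hK⟩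

theorem mem_Cs {N : Subgroup P} {x : P} :
    x ∈ Cs N ↔ x ∈ N ∧ ∀ K, NN N K → (cen x).relIndex K ≠ 0 := Iff.rfl

theorem Cs_le (N : Subgroup P) : Cs N ≤ N := fun _ h => h.1

theorem Cs_compat {N : Subgroup P} {f : P →* P} (hf : Injective f) (hfi : f.range.index ≠ 0)
    (hN : Compat f N) : Compat f (Cs N) := by
  intro x
  rw [mem_Cs, mem_Cs, hN x]
  refine and_congr_right fun hx => ?_
  constructor
  · intro h K hK
    have h1 := h _ (hK.map hf hfi (fun y hy => (hN y).2 hy))
    rw [← Subgroup.relIndex_comap, cen_comap hf] at h1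
    exact h1
  · intro h K hK
    have h1 := h _ (hK.comap hf (fun y hy => (hN y).1 hy))
    rw [← cen_comap hf, Subgroup.relIndex_comap, Subgroup.map_comap_eq,
      relIndex_inf_range hfi] at h1
    exact h1

theorem normal_of_compat {K : Subgroup P} (h : ∀ g : P, Compat (cjh g) K) : K.Normal :=
  ⟨fun n hn g => (h g n).2 hn⟩

theorem compat_of_normal {K : Subgroup P} (h : K.Normal) (g : P) : Compat (cjh g) K :=
  fun x => ⟨fun hx => by
    have := h.conj_mem _ hx g⁻¹
    simpa [cjh_apply, mul_assoc] using this, fun hx => h.conj_mem x hx g⟩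

theorem Cs_normal {N : Subgroup P} (hN : N.Normal) : (Cs N).Normal :=
  normal_of_compat fun g => Cs_compat (cjh_inj g) (cjh_range g) (compat_of_normal hN g)

theorem map_compat {f : P →* P} {C : Subgroup P} (hC : Compat f C) : C.map f = f.range ⊓ C := by
  have : C.comap f = C := by
    ext x; exact hC x
  rw [← Subgroup.map_comap_eq, this]

theorem FCs_compat {C : Subgroup P} {f : P →* P} (hf : Injective f) (hfi : f.range.index ≠ 0)
    (hC : Compat f C) : Compat f (FCs C) := by
  intro x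
  rw [mem_FCs, mem_FCs, hC x]
  refine and_congr_right fun hx => ?_
  rw [← cen_comap hf x, Subgroup.relIndex_comap, map_compat hC, relIndex_inf_range hfi]

theorem FCs_normal {C : Subgroup P} (hC : C.Normal) : (FCs C).Normal :=
  normal_of_compat fun g => FCs_compat (cjh_inj g) (cjh_range g) (compat_of_normal hC g)

/-! ### Fitting subgroup -/

theorem fit_exists {G : Type*} [Group G] (N : Subgroup G) (hN : MaxC N) :
    ∃ M : Subgroup G, M.Normal ∧ Group.IsNilpotent M ∧ M ≤ N ∧
      ∀ K : Subgroup G, K.Normal → Group.IsNilpotent K → K ≤ N → K ≤ M := by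
  let 𝒮 : Set (Subgroup N) := {L | ∃ K : Subgroup G, K.Normal ∧ Group.IsNilpotent K ∧ K ≤ N ∧
    K.subgroupOf N = L}
  obtain ⟨M', ⟨M, hM1, hM2, hM3, rfl⟩, hmax⟩ := MaxC.exists_max hN 𝒮
    ⟨(⊥ : Subgroup G).subgroupOf N, ⊥, inferInstance, inferInstance, bot_le, rfl⟩
  refine ⟨M, hM1, hM2, hM3, fun K hK1 hK2 hK3 => ?_⟩
  have h1 : (M ⊔ K).subgroupOf N ∈ 𝒮 :=
    ⟨M ⊔ K, inferInstance, Pool.Agent.H648R4.fitting_thm hM2 hK2, sup_le hM3 hK3, rfl⟩
  have h2 := hmax _ h1 (Subgroup.comap_mono le_sup_left)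
  intro x hx
  have h3 : (⟨x, hK3 hx⟩ : N) ∈ (M ⊔ K).subgroupOf N := by
    rw [Subgroup.mem_subgroupOf]
    exact (le_sup_right : K ≤ M ⊔ K) hx
  exact h2 h3

/-- the Fitting subgroup meets every near-normal nilpotent subgroup in a subgroup of finite
index -/
theorem absorb {N M : Subgroup P} (hNn : N.Normal) (hN : MaxC N)
    (hM : ∀ K : Subgroup P, K.Normal → Group.IsNilpotent K → K ≤ N → K ≤ M)
    {K : Subgroup P} (hK : NN N K) : M.relIndex K ≠ 0 := by
  obtain ⟨W, hW, hWK⟩ := hK.nn
  haveI : W.FiniteIndex := ⟨hW⟩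
  let W' := W.normalCore
  have hW' : W'.index ≠ 0 := Subgroup.FiniteIndex.index_ne_zero
  have hN' : MaxC (N.subgroupOf W') := by
    refine MaxC.of_injective hN
      (({ toFun := fun x => ⟨x.1.1, x.2⟩, map_one' := rfl, map_mul' := fun _ _ => rfl } :
        N.subgroupOf W' →* N)) ?_
    intro a b hab
    exact Subtype.ext (Subtype.ext (congrArg (fun z : N => z.1) hab))
  obtain ⟨M1, hM1n, hM1nil, hM1N, hM1max⟩ := fit_exists (N.subgroupOf W') hN'
  -- the image of `M1` is normal in `P`
  have hconj : ∀ g : P, ∀ x : W', x ∈ M1 → ∀ y : W', (y : P) = g * x * g⁻¹ → y ∈ M1 := by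
    intro g x hx y hy
    let e : MulAut W' := MulAut.conjNormal g
    have h1 : (M1.map e.toMonoidHom).Normal := hM1n.map _ e.surjective
    have h2 : Group.IsNilpotent (M1.map e.toMonoidHom) :=
      Group.nilpotent_of_surjective (e.toMonoidHom.subgroupMap M1)
        (e.toMonoidHom.subgroupMap_surjective M1)
    have h3 : M1.map e.toMonoidHom ≤ N.subgroupOf W' := by
      rintro _ ⟨z, hz, rfl⟩
      rw [Subgroup.mem_subgroupOf]
      change ((MulAut.conjNormal g : MulAut W') z : P) ∈ N
      rw [MulAut.conjNormal_apply]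
      exact hNn.conj_mem _ (hM1N hz) g
    have h4 : e x ∈ M1 := hM1max _ h1 h2 h3 ⟨x, hx, rfl⟩
    have h5 : e x = y := by
      apply Subtype.ext
      rw [hy]
      exact MulAut.conjNormal_apply g x
    rwa [h5] at h4
  have hM1' : (M1.map W'.subtype).Normal := by
    refine ⟨?_⟩
    rintro _ ⟨x, hx, rfl⟩ g
    have hgx : g * x * g⁻¹ ∈ W' := (inferInstance : W'.Normal).conj_mem _ x.2 g
    exact ⟨⟨_, hgx⟩, hconj g x hx ⟨_, hgx⟩ rfl, rfl⟩
  have hle1 : M1.map W'.subtype ≤ M := by
    refine hM _ hM1' ?_ ?_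
    · exact Group.nilpotent_of_surjective (W'.subtype.subgroupMap M1)
        (W'.subtype.subgroupMap_surjective M1)
    · rintro _ ⟨x, hx, rfl⟩
      exact hM1N hx
  have hle2 : W' ⊓ K ≤ M := by
    rintro x ⟨hxW, hxK⟩
    have h1 : (K.subgroupOf W').Normal := by
      refine ⟨fun n hn g => ?_⟩
      rw [Subgroup.mem_subgroupOf] at hn ⊢
      exact hWK _ (Subgroup.normalCore_le W g.2) _ hn
    have h2 : Group.IsNilpotent (K.subgroupOf W') := by
      haveI := hK.nil
      have h3 : Injective (W'.subtype.subgroupComap K) := fun a b hab =>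
        Subtype.ext (Subtype.ext (congrArg (fun z : K => z.1) hab))
      exact (Group.isNilpotent_congr (MonoidHom.ofInjective h3)).2 inferInstance
    have h3 := hM1max _ h1 h2 (fun y hy => hK.le hy)
    exact hle1 ⟨⟨x, hxW⟩, h3 hxK, rfl⟩
  have h1 : (W' ⊓ K).relIndex K ≠ 0 := by
    rw [Subgroup.inf_relIndex_right]
    exact fun h0 => hW' (Subgroup.index_eq_zero_of_relIndex_eq_zero h0)
  exact fun h0 => h1 (Subgroup.relIndex_eq_zero_of_le_left hle2 h0)

end Run7.h469
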