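import Pool.Agent.Run7.h469.NN

/-!
# A compatible finite or abelian normal subgroup
-/

set_option autoImplicit false
set_option linter.style.haveILetI false

namespace Run7.h469

open Function Pool.Agent.Helper611.PcGrp
open scoped commutatorElement

variable {P : Type*} [Group P]

theorem centralizer_index {F : Subgroup P} (hn : F.Normal) [Finite F] :
    (Subgroup.centralizer (F : Set P)).index ≠ 0 := by
  have h1 : (MulAut.conjNormal (H := F)).ker.FiniteIndex := by
    haveI : Finite (MulAut F) := Finite.of_injective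
      (fun e : MulAut F => (e : F → F)) DFunLike.coe_injective
    infer_instance
  have h2 : (MulAut.conjNormal (H := F)).ker ≤ Subgroup.centralizer (F : Set P) := by
    intro c hc
    rw [MonoidHom.mem_ker] at hc
    rw [Subgroup.mem_centralizer_iff]
    intro n hn
    have h3 := congrArg (fun e : MulAut F => ((e ⟨n, hn⟩ : F) : P)) hc
    simp only [MulAut.conjNormal_apply, MulAut.one_apply] at h3
    rw [mul_inv_eq_iff_eq_mul] at h3
    exact h3.symm
  exact (Subgroup.finiteIndex_of_le h2).index_ne_zero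

theorem infinite_inf {H K : Subgroup P} (hK : Infinite K) (h : H.relIndex K ≠ 0) :
    Infinite (H ⊓ K : Subgroup P) := by
  rw [← not_finite_iff_infinite] at hK ⊢
  intro hf
  refine hK ?_
  haveI : Finite ↥((H ⊓ K).subgroupOf K) := by
    refine Finite.of_injective (β := (H ⊓ K : Subgroup P)) (fun x => ⟨x.1.1, x.2⟩) ?_
    intro a b hab
    exact Subtype.ext (Subtype.ext (congrArg (fun z : (H ⊓ K : Subgroup P) => z.1) hab))
  rw [Subgroup.finite_iff_finite_and_finiteIndex (H := (H ⊓ K).subgroupOf K)]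
  refine ⟨inferInstance, ⟨?_⟩⟩
  change (H ⊓ K).relIndex K ≠ 0
  rwa [Subgroup.inf_relIndex_right]

theorem infinite_of_le {H K : Subgroup P} (h : H ≤ K) (hH : Infinite H) : Infinite K :=
  Infinite.of_injective (Subgroup.inclusion h) (Subgroup.inclusion_injective h)

theorem exists_step {D : ℕ → Prop} (h0 : ¬ D 0) (h1 : ∃ n, D n) : ∃ n, ¬ D n ∧ D (n + 1) := by
  classical
  have hm := Nat.find_spec h1
  have hmin : ∀ k < Nat.find h1, ¬ D k := fun k hk => Nat.find_min h1 hk
  cases hf : Nat.find h1 with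
  | zero => rw [hf] at hm; exact absurd hm h0
  | succ n => rw [hf] at hm hmin; exact ⟨n, hmin n (Nat.lt_succ_self n), hm⟩

/-- the derived series of a subgroup, inside the ambient group -/
def dS (D : Subgroup P) : ℕ → Subgroup P
  | 0 => D
  | n + 1 => ⁅dS D n, dS D n⁆

theorem dS_normal {D : Subgroup P} (h : D.Normal) (n : ℕ) : (dS D n).Normal := by
  induction n with
  | zero => exact h
  | succ n ih => exact Subgroup.commutator_normal _ _

theorem dS_eq (D : Subgroup P) (n : ℕ) : dS D n = (derivedSeries D n).map D.subtype := by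
  induction n with
  | zero => rw [derivedSeries_zero, ← MonoidHom.range_eq_map, Subgroup.range_subtype]; rfl
  | succ n ih =>
    change ⁅dS D n, dS D n⁆ = _
    rw [derivedSeries_succ, Subgroup.map_commutator, ih]

/-- an infinite normal virtually polycyclic subgroup contains an infinite nilpotent normal
subgroup -/
theorem exists_infinite_nilp {N : Subgroup P} (hNn : N.Normal) (hN : VP N) (hinf : Infinite N) :
    ∃ B : Subgroup P, B.Normal ∧ Group.IsNilpotent B ∧ B ≤ N ∧ Infinite B := by
  obtain ⟨S, hS, hs⟩ := hN.2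
  haveI : S.FiniteIndex := ⟨hS⟩
  obtain ⟨K0, hK1, hK2, hK3⟩ := charCore (MaxC.fg hN.1) S
  haveI hKs : Group.IsSolvable K0 :=
    Group.isSolvable_of_isSolvable_injective (f := Subgroup.inclusion hK3)
      (Subgroup.inclusion_injective hK3)
  let D : Subgroup P := K0.map N.subtype
  haveI hDn : D.Normal := by
    refine ⟨fun n hn g => ?_⟩
    have hg : g ∈ Subgroup.normalizer (N : Set P) := by
      rw [Subgroup.normalizer_eq_top]; trivial
    exact (Subgroup.mem_normalizer_iff.1 (normalizer_map_char hK1 hg) n).1 hn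
  have hDN : D ≤ N := by
    rintro _ ⟨x, _, rfl⟩
    exact x.2
  haveI hDs : Group.IsSolvable D := Group.isSolvable_of_surjective (f := N.subtype.subgroupMap K0)
    (N.subtype.subgroupMap_surjective K0)
  have hDi : Infinite D := by
    have h1 : D.relIndex N ≠ 0 := by
      have : D.subgroupOf N = K0 := by
        rw [Subgroup.subgroupOf, Subgroup.comap_map_eq_self_of_injective N.subtype_injective]
      rw [Subgroup.relIndex, this]
      exact hK2.index_ne_zero
    have := infinite_inf hinf h1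
    exact infinite_of_le inf_le_left this
  obtain ⟨m, hm⟩ := (Group.isSolvable_def D).1 hDs
  obtain ⟨n, hn1, hn2⟩ := exists_step (D := fun n => Finite (dS D n))
    (not_finite_iff_infinite.2 hDi) ⟨m, by rw [dS_eq, hm, Subgroup.map_bot]; infer_instance⟩
  have hBinf : Infinite (dS D n) := not_finite_iff_infinite.1 hn1
  haveI hB'fin : Finite (dS D (n + 1)) := hn2
  have hBn := dS_normal hDn n
  have hB'n := dS_normal hDn (n + 1)
  let Z := Subgroup.centralizer ((dS D (n + 1) : Subgroup P) : Set P)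
  have hZ : Z.index ≠ 0 := centralizer_index hB'n
  haveI hZn : Z.Normal := inferInstance
  let B := Z ⊓ dS D n
  have hdle : ∀ n, dS D n ≤ D := by
    intro n
    induction n with
    | zero => exact le_rfl
    | succ n ih => exact (Subgroup.commutator_le_self _).trans ih
  refine ⟨B, inferInstance, ?_, inf_le_right.trans ((hdle n).trans hDN), ?_⟩
  · rw [Subgroup.isNilpotent_iff_lowerCentralSeries]
    refine ⟨2, ?_⟩
    rw [Subgroup.lowerCentralSeries_succ, Subgroup.lowerCentralSeries_succ,
      Subgroup.lowerCentralSeries_zero, Subgroup.commutator_eq_bot_iff_le_centralizer]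
    have h1 : ⁅B, B⁆ ≤ dS D (n + 1) := Subgroup.commutator_mono inf_le_right inf_le_right
    intro x hx
    rw [Subgroup.mem_centralizer_iff]
    intro y hy
    exact ((Subgroup.mem_centralizer_iff.1 hy.1) x (h1 hx)).symm
  · exact infinite_inf hBinf (fun h0 => hZ (Subgroup.index_eq_zero_of_relIndex_eq_zero h0))

/-- an infinite nilpotent subgroup has an infinite subgroup of elements with finitely many
conjugates -/
theorem exists_infinite_fc {M : Subgroup P} (hM : Group.IsNilpotent M) (hinf : Infinite M) :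
    ∃ L : Subgroup P, L ≤ M ∧ Infinite L ∧ ∀ x ∈ L, (cen x).relIndex M ≠ 0 := by
  obtain ⟨m, hm⟩ := M.isNilpotent_iff_lowerCentralSeries.1 hM
  obtain ⟨n, hn1, hn2⟩ := exists_step (D := fun n => Finite (M.lowerCentralSeries n))
    (by rw [Subgroup.lowerCentralSeries_zero]; exact not_finite_iff_infinite.2 hinf)
    ⟨m, by rw [hm]; infer_instance⟩
  refine ⟨M.lowerCentralSeries n, ?_, not_finite_iff_infinite.1 hn1, ?_⟩
  · exact M.lowerCentralSeries_le_self n
  intro x hx
  haveI : Finite (M.lowerCentralSeries (n + 1)) := hn2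
  refine relIndex_cen_of_finite ((fun z => z * x) '' (M.lowerCentralSeries (n + 1) : Set P))
    (Set.Finite.image _ (Set.toFinite _)) ?_
  intro y hy
  refine ⟨⁅y, x⁆, ?_, ?_⟩
  · have h1 : ⁅x, y⁆ ∈ M.lowerCentralSeries (n + 1) := by
      rw [Subgroup.lowerCentralSeries_succ]
      exact Subgroup.commutator_mem_commutator hx hy
    rw [← commutatorElement_inv]
    exact inv_mem h1
  · simp [commutatorElement_def]

theorem NN_of_normal {N K : Subgroup P} (h1 : K.Normal) (h2 : Group.IsNilpotent K) (h3 : K ≤ N) :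
    NN N K :=
  ⟨h3, h2, ⊤, by rw [Subgroup.index_top]; exact one_ne_zero, fun g _ x hx => h1.conj_mem x hx g⟩

theorem MaxC.of_le {K L : Subgroup P} (h : MaxC L) (hKL : K ≤ L) : MaxC K :=
  MaxC.of_injective h (Subgroup.inclusion hKL) (Subgroup.inclusion_injective hKL)

theorem MaxC.fg_of_le {K L : Subgroup P} (h : MaxC L) (hKL : K ≤ L) : K.FG :=
  (Group.fg_iff_subgroup_fg K).1 (MaxC.fg (MaxC.of_le h hKL))

/-- the FC part of the virtual centraliser of the Fitting subgroup is infinite -/
theorem infinite_FCs {N : Subgroup P} (hNn : N.Normal) (hN : VP N) (hinf : Infinite N) :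
    Infinite (FCs (Cs N)) := by
  obtain ⟨B, hB1, hB2, hB3, hB4⟩ := exists_infinite_nilp hNn hN hinf
  obtain ⟨M, hM1, hM2, hM3, hM4⟩ := fit_exists N hN.1
  have hMinf : Infinite M := infinite_of_le (hM4 B hB1 hB2 hB3) hB4
  obtain ⟨L, hL1, hL2, hL3⟩ := exists_infinite_fc hM2 hMinf
  have hLC : L ≤ Cs N := by
    intro x hx
    refine ⟨hM3 (hL1 hx), fun K hK => ?_⟩
    have h1 := absorb hNn hN.1 hM4 hK
    have h2 := hL3 x hx
    have h3 : (cen x).relIndex (M ⊓ K) ≠ 0 := fun h0 =>
      h2 (Subgroup.relIndex_eq_zero_of_le_right inf_le_left h0)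
    refine Subgroup.relIndex_ne_zero_trans h3 ?_
    rwa [Subgroup.inf_relIndex_right]
  have hCfg : (Cs N).FG := MaxC.fg_of_le hN.1 (Cs_le N)
  have h1 : (Subgroup.centralizer ((Cs N : Subgroup P) : Set P)).relIndex M ≠ 0 :=
    centralizer_relIndex hCfg fun x hx => hx.2 M (NN_of_normal hM1 hM2 hM3)
  have h2 : (Subgroup.centralizer ((Cs N : Subgroup P) : Set P)).relIndex L ≠ 0 := fun h0 =>
    h1 (Subgroup.relIndex_eq_zero_of_le_right hL1 h0)
  have h3 := infinite_inf hL2 h2
  refine infinite_of_le ?_ h3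
  rintro x ⟨hx1, hx2⟩
  refine ⟨hLC hx2, ?_⟩
  have h4 : Cs N ≤ cen x := by
    intro y hy
    rw [mem_cen]
    exact Subgroup.mem_centralizer_iff.1 hx1 y hy
  rw [Subgroup.relIndex_eq_one.2 h4]
  exact one_ne_zero

/-- The next compatible subgroup. -/
theorem exists_next {φ : P →* P} (hφ : Injective φ) (hfi : φ.range.index ≠ 0) {N : Subgroup P}
    (hNn : N.Normal) (hNc : Compat φ N) (hN : VP N) (hne : N ≠ ⊥) :
    ∃ K : Subgroup P, K.Normal ∧ Compat φ K ∧ K ≤ N ∧ K ≠ ⊥ ∧
      (Finite K ∨ ∀ x ∈ K, ∀ y ∈ K, x * y = y * x) := by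
  classical
  by_cases hfin : Finite N
  · exact ⟨N, hNn, hNc, le_rfl, hne, Or.inl hfin⟩
  have hinf : Infinite N := not_finite_iff_infinite.1 hfin
  let C := Cs N
  let E := FCs C
  have hCn : C.Normal := Cs_normal hNn
  have hCc : Compat φ C := Cs_compat hφ hfi hNc
  have hEn : E.Normal := FCs_normal hCn
  have hEc : Compat φ E := FCs_compat hφ hfi hCc
  have hEN : E ≤ N := (FCs_le C).trans (Cs_le N)
  have hEmax : MaxC E := MaxC.of_le hN.1 hEN
  have hEinf : Infinite E := infinite_FCs hNn hN hinf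
  have hEfc : ∀ x : E, (cen x).index ≠ 0 := by
    intro x
    have h1 : (cen (x : P)).relIndex E ≠ 0 := fun h0 =>
      x.2.2 (Subgroup.relIndex_eq_zero_of_le_right (FCs_le C) h0)
    have h2 : (cen (x : P)).subgroupOf E = cen x := by
      ext y
      rw [Subgroup.mem_subgroupOf, mem_cen, mem_cen]
      constructor
      · intro h; exact Subtype.ext h
      · intro h; exact congrArg Subtype.val h
    rwa [Subgroup.relIndex, h2] at h1
  haveI : Finite (_root_.commutator E) := fc_commutator (MaxC.fg hEmax) hEfc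
  let T : Subgroup P := (torSub E).map E.subtype
  have hT : ∀ x, x ∈ T ↔ x ∈ E ∧ IsOfFinOrder x := by
    intro x
    constructor
    · rintro ⟨y, hy, rfl⟩
      exact ⟨y.2, E.subtype.isOfFinOrder hy⟩
    · rintro ⟨hx, hx'⟩
      have h1 : IsOfFinOrder (⟨x, hx⟩ : E) := by
        rw [isOfFinOrder_iff_pow_eq_one] at hx' ⊢
        obtain ⟨n, hn, h⟩ := hx'
        exact ⟨n, hn, Subtype.ext h⟩
      exact ⟨⟨x, hx⟩, h1, rfl⟩
  have hfin : ∀ (f : P →* P) (_ : Injective f) (x : P), IsOfFinOrder (f x) ↔ IsOfFinOrder x := by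
    intro f hf x
    constructor
    · intro h
      rw [isOfFinOrder_iff_pow_eq_one] at h ⊢
      obtain ⟨n, hn, h⟩ := h
      refine ⟨n, hn, hf ?_⟩
      rw [map_pow, h, map_one]
    · exact fun h => f.isOfFinOrder h
  have hTcg : ∀ (f : P →* P) (_ : Injective f), Compat f E → Compat f T := by
    intro f hf hE x
    rw [hT, hT, hE x, hfin f hf]
  have hTn : T.Normal := normal_of_compat fun g => hTcg _ (cjh_inj g) (compat_of_normal hEn g)
  have hTc : Compat φ T := hTcg φ hφ hEc
  by_cases hTb : T = ⊥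
  · refine ⟨E, hEn, hEc, hEN, ?_, Or.inr ?_⟩
    · rintro hE
      rw [hE] at hEinf
      exact not_finite_iff_infinite.2 hEinf inferInstance
    · intro x hx y hy
      have h1 : ⁅(⟨x, hx⟩ : E), (⟨y, hy⟩ : E)⁆ ∈ _root_.commutator E :=
        Subgroup.commutator_mem_commutator (Subgroup.mem_top _) (Subgroup.mem_top _)
      have h2 : IsOfFinOrder ⁅(⟨x, hx⟩ : E), (⟨y, hy⟩ : E)⁆ := by
        have h3 : IsOfFinOrder (⟨_, h1⟩ : _root_.commutator E) := isOfFinOrder_of_finite _
        exact (_root_.commutator E).subtype.isOfFinOrder h3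
      have h4 : ((⁅(⟨x, hx⟩ : E), (⟨y, hy⟩ : E)⁆ : E) : P) ∈ T := ⟨_, h2, rfl⟩
      rw [hTb, Subgroup.mem_bot] at h4
      have h5 : x * y * x⁻¹ * y⁻¹ = 1 := h4
      have h6 := mul_inv_eq_one.1 h5
      exact mul_inv_eq_iff_eq_mul.1 h6
  · refine ⟨T, hTn, hTc, ?_, hTb, Or.inl ?_⟩
    · intro x hx
      exact hEN ((hT x).1 hx).1
    · haveI := torSub_finite hEmax
      exact Finite.of_surjective (E.subtype.subgroupMap (torSub E))
        (E.subtype.subgroupMap_surjective _)

end Run7.h469
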