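import Pool.Agent.Run7.h469.Pres

/-!
# Compact Hausdorff, locally path-connected, semilocally simply connected spaces
-/

set_option autoImplicit false
set_option linter.style.haveILetI false

namespace Run7.h469.Pi1

open Topology Set unitInterval Uniformity CategoryTheory

universe u

/-- semilocally simply connected: each point has a neighbourhood in which every loop at the point
is null-homotopic in the space -/
def SLSC (X : Type u) [TopologicalSpace X] : Prop :=
  ∀ x : X, ∃ U ∈ 𝓝 x, ∀ p : Path x x, range p ⊆ U → p.Homotopic (Path.refl x)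

variable {X : Type u} [TopologicalSpace X]

theorem Thin.mono {S T : Set X} (h : Thin T) (hST : S ⊆ T) : Thin S :=
  fun x y p q hp hq => h x y p q (hp.trans hST) (hq.trans hST)

/-- path-connected sets with null-homotopic loops are thin -/
theorem thin_of_loops {W : Set X} {x : X} (hW : ∀ y ∈ W, JoinedIn W x y)
    (h : ∀ p : Path x x, range p ⊆ W → p.Homotopic (Path.refl x)) : Thin W := by
  intro y z p q hp hq
  have hy : y ∈ W := hp ⟨0, p.source⟩
  let s : Path x y := (hW y hy).somePath
  have hs : range s ⊆ W := by
    rintro _ ⟨t, rfl⟩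
    exact (hW y hy).somePath_mem t
  have h1 := h ((s.trans (p.trans q.symm)).trans s.symm) (by
    rw [Path.trans_range, Path.trans_range, Path.trans_range, Path.symm_range, Path.symm_range]
    exact union_subset (union_subset hs (union_subset hp hq)) hs)
  have h2 : cls ((s.trans (p.trans q.symm)).trans s.symm) = cls (Path.refl x) := cls_eq h1
  rw [cls_trans, cls_trans, cls_trans, cls_symm, cls_symm, cls_refl] at h2
  have h3 : cls p = cls q := by
    have h4 : Groupoid.inv (cls s) ≫ ((cls s ≫ cls p ≫ Groupoid.inv (cls q)) ≫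
        Groupoid.inv (cls s)) ≫ cls s = 𝟙 _ := by rw [h2]; simp
    have h5 : cls p ≫ Groupoid.inv (cls q) = 𝟙 _ := by
      rw [← h4]
      simp
    calc cls p = (cls p ≫ Groupoid.inv (cls q)) ≫ cls q := by simp
      _ = cls q := by rw [h5]; simp
  exact Path.Homotopic.Quotient.eq.1 h3

theorem exists_cov [CompactSpace X] [T2Space X] [LocallyPathConnectedSpace X] (hX : SLSC X) :
    ∃ (ι : Type u) (_ : Finite ι), Nonempty (Cov X ι) := by
  classical
  letI : UniformSpace X := uniformSpaceOfCompactR1
  choose O hO hO' using hX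
  -- thin open sets
  let W : X → Set X := fun x => pathComponentIn (interior (O x)) x
  have hWopen : ∀ x, IsOpen (W x) := fun x => isOpen_interior.pathComponentIn x
  have hWmem : ∀ x, x ∈ W x := fun x => mem_pathComponentIn_self (mem_interior_iff_mem_nhds.2 (hO x))
  have hWthin : ∀ x, Thin (W x) := by
    intro x
    refine thin_of_loops (x := x) ?_ ?_
    · intro y hy
      have hpc : IsPathConnected (W x) :=
        isPathConnected_pathComponentIn (mem_interior_iff_mem_nhds.2 (hO x))
      exact hpc.joinedIn x (hWmem x) y hy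
    · intro p hp
      exact hO' x p (hp.trans (pathComponentIn_subset.trans interior_subset))
  obtain ⟨V, hV, hVW⟩ := lebesgue_number_lemma (isCompact_univ : IsCompact (univ : Set X)) hWopen
    (fun x _ => mem_iUnion.2 ⟨x, hWmem x⟩)
  obtain ⟨V', hV', hV's, hV'V⟩ := comp_symm_mem_uniformity_sets hV
  -- small open path-connected sets
  let B : X → Set X := fun x => pathComponentIn (interior (UniformSpace.ball x V')) x
  have hx0 : ∀ x, x ∈ interior (UniformSpace.ball x V') := fun x =>
    mem_interior_iff_mem_nhds.2 (UniformSpace.ball_mem_nhds x hV')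
  have hBopen : ∀ x, IsOpen (B x) := fun x => isOpen_interior.pathComponentIn x
  have hBmem : ∀ x, x ∈ B x := fun x => mem_pathComponentIn_self (hx0 x)
  have hBV : ∀ x, ∀ y ∈ B x, (x, y) ∈ V' := by
    intro x y hy
    have h1 : y ∈ interior (UniformSpace.ball x V') := pathComponentIn_subset hy
    have h2 : y ∈ UniformSpace.ball x V' := interior_subset h1
    exact h2
  have hBj : ∀ x, ∀ y ∈ B x, JoinedIn (B x) x y := fun x y hy =>
    (isPathConnected_pathComponentIn (hx0 x)).joinedIn x (hBmem x) y hy
  obtain ⟨t, ht⟩ := CompactSpace.elim_nhds_subcover B (fun x => (hBopen x).mem_nhds (hBmem x))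
  have hcov : ∀ x, ∃ i : t, x ∈ B i := by
    intro x
    have : x ∈ ⋃ x ∈ t, B x := by rw [ht]; trivial
    simp only [mem_iUnion] at this
    obtain ⟨i, hi, hx⟩ := this
    exact ⟨⟨i, hi⟩, hx⟩
  choose idx hidx using hcov
  suffices hthin : ∀ i j : t, (B i ∩ B j).Nonempty → Thin (B i ∪ B j) from
    ⟨t, inferInstance, ⟨Cov.mk (fun i => B i) (fun i => hBopen i) idx hidx (fun i => i)
      (fun i => hBj i) hthin⟩⟩
  rintro i j ⟨z, hzi, hzj⟩
  obtain ⟨w, hw⟩ := hVW z trivial
  refine (hWthin w).mono (Set.Subset.trans ?_ hw)
  have key : ∀ k : t, z ∈ B k → B k ⊆ UniformSpace.ball z V := by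
    intro k hz y hy
    apply hV'V
    exact ⟨(k : X), hV's.symm _ _ (hBV k z hz), hBV k y hy⟩
  exact union_subset (key i hzi) (key j hzj)

/-- The fundamental group of a compact Hausdorff, path-connected, locally path-connected,
semilocally simply connected space is finitely presented. -/
theorem fp_pi1 [CompactSpace X] [T2Space X] [PathConnectedSpace X] [LocallyPathConnectedSpace X]
    (hX : SLSC X) (x₀ : X) : Group.IsFinitelyPresented (FundamentalGroup X x₀) := by
  obtain ⟨ι, hι, ⟨C⟩⟩ := exists_cov hX
  exact fp_of_cov C x₀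

end Run7.h469.Pi1
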