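import Pool.Agent.Run7.h469.Ns

/-!
# Integer vectors near generic subspaces, with coordinates indexed by a finite type
-/

set_option autoImplicit false

namespace Run7.h469.Nsi

open Finset MeasureTheory

/-- The integer vectors `a` near the space spanned by the `h` real vectors `α_l = (α (i, l))_i`: there is a real vector `x` such
that all coordinates of `a - ∑ x_l α_l` are at most `A (1 + |x|)^θ` in absolute value. -/
def Near {I : Type} {h : ℕ} (α : I × Fin h → ℝ) (A θ : ℝ) : Set (I → ℤ) :=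
  {a | ∃ x : Fin h → ℝ, ∀ i, |(a i : ℝ) - ∑ l, α (i, l) * x l| ≤ A * (1 + ‖x‖) ^ θ}

/-- For all systems `α` of `h` real vectors outside a set of Hausdorff dimension at most `s`, for all `A`, all but finitely many
of the integer vectors near the space spanned by `α`, as in `Near`, have the property `P`. -/
def NearSubspaces (I : Type) [Fintype I] (h : ℕ) (s θ : ℝ) (P : (I → ℤ) → Prop) : Prop :=
  ∃ E : Set (I × Fin h → ℝ), dimH E ≤ ENNReal.ofReal s ∧
    ∀ α, α ∉ E → ∀ A : ℝ, {a ∈ Near α A θ | ¬ P a}.Finite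

/-- a set of small dimension is a null set -/
theorem NearSubspaces.ae {I : Type} [Fintype I] {h : ℕ} {s θ : ℝ} {P : (I → ℤ) → Prop} (H : NearSubspaces I h s θ P)
    (hs : s < (Fintype.card I : ℝ) * h) (h0 : 0 < (Fintype.card I : ℝ) * h) :
    ∀ᵐ α : I × Fin h → ℝ, ∀ A : ℝ, {a ∈ Near α A θ | ¬ P a}.Finite := by
  obtain ⟨E, hE, hE2⟩ := H
  have hcard : (Fintype.card (I × Fin h) : ℝ) = (Fintype.card I : ℝ) * h := by
    simp only [Fintype.card_prod, Fintype.card_fin]
    push_cast
    ring
  have hlt : dimH E < ((Fintype.card (I × Fin h) : NNReal) : ENNReal) := by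
    refine hE.trans_lt ?_
    have e1 : (((Fintype.card (I × Fin h) : ℕ) : NNReal) : ENNReal) = ENNReal.ofReal ((Fintype.card I : ℝ) * h) := by
      rw [← hcard, ENNReal.ofReal_natCast, ENNReal.coe_natCast]
    rw [e1]
    exact (ENNReal.ofReal_lt_ofReal_iff h0).2 hs
  have hnull : volume E = 0 := by
    rw [← hausdorffMeasure_pi_real]
    exact_mod_cast hausdorffMeasure_of_dimH_lt hlt
  rw [ae_iff]
  refine measure_mono_null ?_ hnull
  intro α hα
  by_contra hcon
  exact hα (hE2 α hcon)

open Classical in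
/-- **Integer vectors near generic subspaces.** -/
theorem near_index {I : Type} [Fintype I] [DecidableEq I] (h : ℕ) (hI : 1 ≤ Fintype.card I) (P : (I → ℤ) → Prop) {C₀ s : ℝ}
    (hC₀ : 0 ≤ C₀) (hs : 0 ≤ s)
    (hP : ∀ X : Finset ℤ, X.Nonempty → (((Fintype.piFinset fun _ : I => X).filter (fun a => ¬ P a)).card : ℝ) ≤
      C₀ * (X.card : ℝ) ^ s) {θ : ℝ} (hθ0 : 0 ≤ θ) (hθ : θ < 1) :
    NearSubspaces I h ((Fintype.card I : ℝ) * (h - 1) + (s + h) / (1 - θ)) θ P := by
  set k : ℕ := Fintype.card I with hk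
  let e : I ≃ Fin k := Fintype.equivFin I
  have hk0 : (0 : ℝ) < k := by exact_mod_cast hI
  -- the property of `1 × k` matrices
  let Q : (Fin 1 → Fin k → ℤ) → Prop := fun a => P fun i => a 0 (e i)
  have hexp : ((1 : ℕ) : ℝ) * k - (k - s) / k * k = s := by
    push_cast
    field_simp
    ring
  have hδ : ((k : ℝ) - s) / k ≤ 1 := by
    rw [div_le_one hk0]
    linarith
  have key := Run7.h469.Ns.near_subspaces (n := 1) (k := k) (δ := ((k : ℝ) - s) / k) h (by rw [one_mul]; exact hI) Q hC₀ hδ
    (fun X hX => by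
      rw [hexp]
      refine le_trans ?_ (hP X hX)
      rw [Nat.cast_le]
      refine card_le_card_of_injOn (fun a i => a 0 (e i)) ?_ ?_
      · intro a ha
        rw [mem_coe, mem_filter, Fintype.mem_piFinset] at ha
        rw [mem_coe, mem_filter, Fintype.mem_piFinset]
        exact ⟨fun i => Fintype.mem_piFinset.1 (ha.1 0) (e i), ha.2⟩
      · intro a _ b _ hab
        funext j i
        have hj : j = 0 := Subsingleton.elim _ _
        subst hj
        have := congrFun hab (e.symm i)
        simpa using this) hθ0 hθ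
  obtain ⟨E, hE, hE2⟩ := key
  -- the reindexing of the coordinates
  let g : I × Fin h ≃ Fin 1 × Fin k × Fin h :=
    ((Equiv.prodCongr e (Equiv.refl (Fin h))).trans (Equiv.uniqueProd (Fin k × Fin h) (Fin 1)).symm)
  let f : (Fin 1 × Fin k × Fin h → ℝ) ≃L[ℝ] (I × Fin h → ℝ) :=
    (LinearEquiv.funCongrLeft ℝ ℝ g).toContinuousLinearEquiv
  have hf : ∀ (β : Fin 1 × Fin k × Fin h → ℝ) i l, f β (i, l) = β (0, e i, l) := fun β i l => rfl
  refine ⟨f '' E, ?_, fun α hα A => ?_⟩
  · rw [ContinuousLinearEquiv.dimH_image]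
    refine hE.trans (le_of_eq ?_)
    rw [hexp]
    push_cast
    rw [one_mul]
  · obtain ⟨β, rfl⟩ := f.surjective α
    have hβ : β ∉ E := fun hb => hα ⟨β, hb, rfl⟩
    refine ((hE2 β hβ A).image fun a : Fin 1 → Fin k → ℤ => fun i => a 0 (e i)).subset ?_
    rintro a ⟨⟨x, hx⟩, ha⟩
    refine ⟨fun _ i => a (e.symm i), ⟨⟨x, fun j i => ?_⟩, ?_⟩, ?_⟩
    · have h1 := hx (e.symm i)
      simp only [hf, Equiv.apply_symm_apply] at h1
      have hj : j = 0 := Subsingleton.elim _ _
      subst hj
      exact h1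
    · intro hcon
      apply ha
      have h2 : P fun i => a (e.symm (e i)) := hcon
      simpa only [Equiv.symm_apply_apply] using h2
    · funext i
      simp only [Equiv.symm_apply_apply]

/-- the dimension is less than the dimension of the space -/
theorem dim_lt {M h : ℕ} {s θ : ℝ} (hθ : θ < 1) (hlt : s + h + M * θ < M) :
    (M : ℝ) * (h - 1) + (s + h) / (1 - θ) < (M : ℝ) * h := by
  have h1 : 0 < 1 - θ := by linarith
  have h2 : (s + h) / (1 - θ) < M := by
    rw [div_lt_iff₀ h1]
    nlinarith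
  nlinarith

end Run7.h469.Nsi
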