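import Mathlib

/-!
# The fundamental group of a compact, locally nice space is finitely presented

The space is covered by finitely many open path-connected sets, such that the union of any two
that meet is thin, that is, paths in this union with the same ends are homotopic in the space. A
finitely presented group with one generator for each pair of indices acts on a covering space of
the space, and its monodromy is a right inverse, up to conjugation, of the obvious homomorphism to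
the fundamental group.
-/

set_option autoImplicit false
set_option linter.style.haveILetI false

namespace Run7.h469.Pi1

open CategoryTheory Topology Set unitInterval

variable {X : Type*} [TopologicalSpace X]

/-- any two paths in `S` with the same ends are homotopic (in the whole space) -/
def Thin (S : Set X) : Prop :=
  ∀ (x y : X) (p q : Path x y), range p ⊆ S → range q ⊆ S → p.Homotopic q

/-- a cover as in the introduction -/
structure Cov (X : Type*) [TopologicalSpace X] (ι : Type*) where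
  U : ι → Set X
  isOpen : ∀ i, IsOpen (U i)
  idx : X → ι
  mem_idx : ∀ x, x ∈ U (idx x)
  pt : ι → X
  joined : ∀ i, ∀ x ∈ U i, JoinedIn (U i) (pt i) x
  thin : ∀ i j, (U i ∩ U j).Nonempty → Thin (U i ∪ U j)

/-- the class of a path, as a morphism of the fundamental groupoid -/
def cls {x y : X} (p : Path x y) : FundamentalGroupoid.mk x ⟶ FundamentalGroupoid.mk y :=
  Path.Homotopic.Quotient.mk p

theorem cls_trans {x y z : X} (p : Path x y) (q : Path y z) :
    cls (p.trans q) = cls p ≫ cls q := rfl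

theorem cls_symm {x y : X} (p : Path x y) : cls p.symm = Groupoid.inv (cls p) := rfl

theorem cls_refl (x : X) : cls (Path.refl x) = 𝟙 (FundamentalGroupoid.mk x) := rfl

theorem cls_eq {x y : X} {p q : Path x y} (h : p.Homotopic q) : cls p = cls q :=
  Path.Homotopic.Quotient.eq.2 h

namespace Cov

variable {ι : Type*} (C : Cov X ι)

/-- a path in `U i` from its base point -/
noncomputable def sp (i : ι) (x : X) (hx : x ∈ C.U i) : Path (C.pt i) x :=
  (C.joined i x hx).somePath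

theorem sp_range (i : ι) (x : X) (hx : x ∈ C.U i) : range (C.sp i x hx) ⊆ C.U i := by
  rintro _ ⟨t, rfl⟩
  exact (C.joined i x hx).somePath_mem t

/-- the class of a path in `U i` from its base point -/
noncomputable def pth (i : ι) (x : X) (hx : x ∈ C.U i) :
    FundamentalGroupoid.mk (C.pt i) ⟶ FundamentalGroupoid.mk x := cls (C.sp i x hx)

theorem pt_mem (i : ι) (x : X) (hx : x ∈ C.U i) : C.pt i ∈ C.U i := (C.joined i x hx).source_mem

theorem thin_self (i : ι) : Thin (C.U i) := by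
  intro x y p q hp hq
  have hx : x ∈ C.U i := hp ⟨0, p.source⟩
  have h := C.thin i i ⟨x, hx, hx⟩
  rw [union_self] at h
  exact h x y p q hp hq

/-- moving along a path in `U i` -/
theorem pth_comp (i : ι) {x y : X} (hx : x ∈ C.U i) (hy : y ∈ C.U i) (p : Path x y)
    (hp : range p ⊆ C.U i) : C.pth i x hx ≫ cls p = C.pth i y hy := by
  rw [pth, pth, ← cls_trans]
  refine cls_eq (C.thin_self i _ _ _ _ ?_ (C.sp_range i y hy))
  rw [Path.trans_range]
  exact union_subset (C.sp_range i x hx) hp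

/-- the class of a path from the base point of `U i` to that of `U j` -/
noncomputable def e (i j : ι) (h : (C.U i ∩ C.U j).Nonempty) :
    FundamentalGroupoid.mk (C.pt i) ⟶ FundamentalGroupoid.mk (C.pt j) :=
  C.pth i h.some h.some_mem.1 ≫ Groupoid.inv (C.pth j h.some h.some_mem.2)

theorem e_eq (i j : ι) (h : (C.U i ∩ C.U j).Nonempty) (x : X) (hi : x ∈ C.U i)
    (hj : x ∈ C.U j) : C.e i j h = C.pth i x hi ≫ Groupoid.inv (C.pth j x hj) := by
  rw [e, pth, pth, pth, pth, ← cls_symm, ← cls_symm, ← cls_trans, ← cls_trans]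
  refine cls_eq (C.thin i j h _ _ _ _ ?_ ?_)
  · rw [Path.trans_range, Path.symm_range]
    exact union_subset_union (C.sp_range _ _ _) (C.sp_range _ _ _)
  · rw [Path.trans_range, Path.symm_range]
    exact union_subset_union (C.sp_range _ _ _) (C.sp_range _ _ _)

theorem e_comp_pth (i j : ι) (h : (C.U i ∩ C.U j).Nonempty) (x : X) (hi : x ∈ C.U i)
    (hj : x ∈ C.U j) : C.e i j h ≫ C.pth j x hj = C.pth i x hi := by
  rw [C.e_eq i j h x hi hj, Category.assoc, Groupoid.inv_comp, Category.comp_id]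

theorem e_comp (i j k : ι) (x : X) (hi : x ∈ C.U i) (hj : x ∈ C.U j) (hk : x ∈ C.U k) :
    C.e i j ⟨x, hi, hj⟩ ≫ C.e j k ⟨x, hj, hk⟩ = C.e i k ⟨x, hi, hk⟩ := by
  rw [C.e_eq i j _ x hi hj, C.e_eq j k _ x hj hk, C.e_eq i k _ x hi hk]
  simp

/-! ### The finitely presented group -/

/-- the relations -/
def rels : Set (FreeGroup (ι × ι)) :=
  {r | ∃ i j k, (C.U i ∩ C.U j ∩ C.U k).Nonempty ∧
    r = FreeGroup.of (j, k) * FreeGroup.of (i, j) * (FreeGroup.of (i, k))⁻¹}

theorem rels_finite [Finite ι] : C.rels.Finite := by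
  refine (Set.finite_range fun p : ι × ι × ι => (FreeGroup.of (p.2.1, p.2.2) *
    FreeGroup.of (p.1, p.2.1) * (FreeGroup.of (p.1, p.2.2))⁻¹ : FreeGroup (ι × ι))).subset ?_
  rintro _ ⟨i, j, k, _, rfl⟩
  exact ⟨(i, j, k), rfl⟩

/-- the finitely presented group -/
abbrev N : Type _ := PresentedGroup C.rels

/-- the generators -/
def g (i j : ι) : C.N := PresentedGroup.of (i, j)

theorem g_comp {i j k : ι} {x : X} (hi : x ∈ C.U i) (hj : x ∈ C.U j) (hk : x ∈ C.U k) :
    C.g j k * C.g i j = C.g i k := by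
  have h1 : (QuotientGroup.mk (FreeGroup.of (j, k) * FreeGroup.of (i, j) *
      (FreeGroup.of (i, k))⁻¹) : C.N) = 1 :=
    (QuotientGroup.eq_one_iff _).2 (Subgroup.subset_normalClosure ⟨i, j, k, ⟨x, ⟨hi, hj⟩, hk⟩, rfl⟩)
  exact mul_inv_eq_one.1 h1

theorem g_self {i : ι} {x : X} (hi : x ∈ C.U i) : C.g i i = 1 := by
  have := C.g_comp hi hi hi
  exact mul_eq_left.1 this

variable [PathConnectedSpace X] (x₀ : X)

/-- a path to the base point of `U i` -/
noncomputable def δ (i : ι) : FundamentalGroupoid.mk x₀ ⟶ FundamentalGroupoid.mk (C.pt i) :=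
  cls (PathConnectedSpace.somePath x₀ (C.pt i))

open Classical in
/-- images of the generators in the fundamental group -/
noncomputable def r0 (p : ι × ι) : End (FundamentalGroupoid.mk x₀) :=
  if h : (C.U p.1 ∩ C.U p.2).Nonempty then
    C.δ x₀ p.1 ≫ C.e p.1 p.2 h ≫ Groupoid.inv (C.δ x₀ p.2) else 𝟙 _

theorem r0_eq {i j : ι} (h : (C.U i ∩ C.U j).Nonempty) :
    C.r0 x₀ (i, j) = C.δ x₀ i ≫ C.e i j h ≫ Groupoid.inv (C.δ x₀ j) := by
  rw [r0]; exact dif_pos h

/-- the homomorphism to the fundamental group -/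
noncomputable def ρ : C.N →* FundamentalGroup X x₀ :=
  PresentedGroup.toGroup (f := C.r0 x₀) (by
    rintro _ ⟨i, j, k, ⟨x, ⟨hi, hj⟩, hk⟩, rfl⟩
    rw [map_mul, map_mul, map_inv, mul_inv_eq_one, FreeGroup.lift_apply_of,
      FreeGroup.lift_apply_of, FreeGroup.lift_apply_of]
    change C.r0 x₀ (i, j) ≫ C.r0 x₀ (j, k) = C.r0 x₀ (i, k)
    rw [C.r0_eq x₀ ⟨x, hi, hj⟩, C.r0_eq x₀ ⟨x, hj, hk⟩, C.r0_eq x₀ ⟨x, hi, hk⟩,
      ← C.e_comp i j k x hi hj hk]
    simp)

theorem ρ_g (i j : ι) : C.ρ x₀ (C.g i j) = C.r0 x₀ (i, j) := PresentedGroup.toGroup.of _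

/-! ### The covering space -/

instance : TopologicalSpace C.N := ⊥

instance : DiscreteTopology C.N := ⟨rfl⟩

omit [PathConnectedSpace X] in
/-- the cocycle -/
def Z : FiberBundleCore ι X C.N where
  baseSet := C.U
  isOpen_baseSet := C.isOpen
  indexAt := C.idx
  mem_baseSet_at := C.mem_idx
  coordChange i j _ v := C.g i j * v
  coordChange_self i x hx v := by rw [C.g_self hx, one_mul]
  continuousOn_coordChange i j := by
    have : Continuous (fun p : X × C.N => C.g i j * p.2) :=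
      continuous_of_discreteTopology.comp continuous_snd
    exact this.continuousOn
  coordChange_comp i j k x hx v := by
    rw [← mul_assoc, C.g_comp hx.1.1 hx.1.2 hx.2]

/-- the total space -/
abbrev E : Type _ := C.Z.TotalSpace

/-- the projection -/
abbrev pr : C.E → X := C.Z.proj

omit [PathConnectedSpace X] in
theorem cov_pr : IsCoveringMap C.pr :=
  FiberBundle.isCoveringMap (F := C.N) (E := C.Z.Fiber)

/-- the coordinate with respect to the preferred index -/
def co (a : C.E) : C.N := a.2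

/-- the coordinate with respect to the index `i` -/
def coord (i : ι) (a : C.E) : C.N := C.g (C.idx a.1) i * C.co a

omit [PathConnectedSpace X] in
theorem coord_ev (i : ι) (Γ : C(I, C.E)) (t₀ : I) (h : (Γ t₀).1 ∈ C.U i) :
    ∀ᶠ t in 𝓝 t₀, C.coord i (Γ t) = C.coord i (Γ t₀) := by
  have h1 : ContinuousAt (C.Z.localTriv i) (Γ t₀) :=
    (C.Z.localTriv i).continuousAt ((C.Z.localTriv i).mem_source.2 h)
  have h2 : ContinuousAt (fun t => (C.Z.localTriv i (Γ t)).2) t₀ :=
    continuous_snd.continuousAt.comp (h1.comp Γ.continuous.continuousAt)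
  have h3 : ∀ᶠ t in 𝓝 t₀, (C.Z.localTriv i (Γ t)).2 = (C.Z.localTriv i (Γ t₀)).2 := by
    have := h2.eventually (isOpen_discrete {(C.Z.localTriv i (Γ t₀)).2} |>.mem_nhds rfl)
    exact this
  exact h3

/-- the comparison with classes of paths -/
noncomputable def Ψ (a : C.E) : FundamentalGroupoid.mk x₀ ⟶ FundamentalGroupoid.mk a.1 :=
  (C.ρ x₀ (C.co a) : FundamentalGroupoid.mk x₀ ⟶ FundamentalGroupoid.mk x₀) ≫
    C.δ x₀ (C.idx a.1) ≫ C.pth (C.idx a.1) a.1 (C.mem_idx _)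

theorem Ψ_eq (a : C.E) (i : ι) (hi : a.1 ∈ C.U i) :
    C.Ψ x₀ a = (C.ρ x₀ (C.coord i a) : FundamentalGroupoid.mk x₀ ⟶ FundamentalGroupoid.mk x₀) ≫
      C.δ x₀ i ≫ C.pth i a.1 hi := by
  have h1 : C.ρ x₀ (C.coord i a) = (C.ρ x₀ (C.co a) ≫ C.ρ x₀ (C.g (C.idx a.1) i) : _) := by
    rw [coord, map_mul]; rfl
  have h2 : Groupoid.inv (C.δ x₀ i) ≫ C.δ x₀ i ≫ C.pth i a.1 hi = C.pth i a.1 hi := by
    rw [← Category.assoc, Groupoid.inv_comp, Category.id_comp]
  rw [h1, C.ρ_g, C.r0_eq x₀ ⟨a.1, C.mem_idx _, hi⟩, Ψ]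
  simp only [Category.assoc]
  rw [h2, C.e_comp_pth]

/-- the projection of a path in the total space -/
def γ (Γ : C(I, C.E)) : Path (Γ 0).1 (Γ 1).1 where
  toFun := fun t => (Γ t).1
  continuous_toFun := C.cov_pr.continuous.comp Γ.continuous
  source' := rfl
  target' := rfl

omit [PathConnectedSpace X] in
theorem cls_subpath {x y : X} (p : Path x y) (a b c : I) :
    cls (p.subpath a b) ≫ cls (p.subpath b c) = cls (p.subpath a c) := by
  rw [← cls_trans]
  exact cls_eq ⟨Path.Homotopy.subpathTransSubpath p a b c⟩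

omit [PathConnectedSpace X] in
theorem const_along {a b : X} (γ : Path a b)
    (A : ∀ t : I, FundamentalGroupoid.mk x₀ ⟶ FundamentalGroupoid.mk (γ t))
    (h : ∀ t₀, ∀ᶠ t in 𝓝 t₀, A t = A t₀ ≫ cls (γ.subpath t₀ t)) :
    A 1 = A 0 ≫ cls (γ.subpath 0 1) := by
  let c : I → (FundamentalGroupoid.mk x₀ ⟶ FundamentalGroupoid.mk (γ 0)) := fun t =>
    A t ≫ Groupoid.inv (cls (γ.subpath 0 t))
  have hc : IsLocallyConstant c := by
    rw [IsLocallyConstant.iff_eventually_eq]
    intro t₀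
    filter_upwards [h t₀] with t ht
    change A t ≫ Groupoid.inv (cls (γ.subpath 0 t)) = A t₀ ≫ Groupoid.inv (cls (γ.subpath 0 t₀))
    rw [ht, ← cls_subpath γ 0 t₀ t]
    simp
  have h01 : c 1 = c 0 := hc.apply_eq_of_isPreconnected isPreconnected_univ trivial trivial
  have h0 : c 0 = A 0 := by
    change A 0 ≫ Groupoid.inv (cls (γ.subpath 0 0)) = _
    rw [Path.subpath_self, cls_refl]
    simp
  rw [h0] at h01
  rw [← h01]
  change _ = (A 1 ≫ Groupoid.inv (cls (γ.subpath 0 1))) ≫ cls (γ.subpath 0 1)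
  simp

omit [PathConnectedSpace X] in
theorem ev_segment {Y : Type*} [TopologicalSpace Y] (f : I → Y) (hf : Continuous f) {S : Set Y}
    (hS : IsOpen S) (t₀ : I) (h : f t₀ ∈ S) : ∀ᶠ t in 𝓝 t₀, f '' (uIcc t₀ t) ⊆ S := by
  have h1 : f ⁻¹' S ∈ 𝓝 t₀ := (hS.preimage hf).mem_nhds h
  obtain ⟨ε, hε, h2⟩ := Metric.mem_nhds_iff.1 h1
  filter_upwards [Metric.ball_mem_nhds t₀ hε] with t ht
  rintro _ ⟨s, hs, rfl⟩
  apply h2
  rw [Metric.mem_ball] at ht ⊢
  refine lt_of_le_of_lt ?_ ht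
  have hs' : (s : ℝ) ∈ uIcc (t₀ : ℝ) (t : ℝ) := by
    rcases le_total t₀ t with h3 | h3
    · rw [uIcc_of_le h3] at hs
      rw [uIcc_of_le (show (t₀ : ℝ) ≤ t from h3)]
      exact hs
    · rw [uIcc_of_ge h3] at hs
      rw [uIcc_of_ge (show (t : ℝ) ≤ t₀ from h3)]
      exact hs
  have h4 := Real.dist_left_le_of_mem_uIcc hs'
  rw [dist_comm (s : I), dist_comm (t : I)]
  exact h4

theorem Ψ_local (a b : C.E) (i : ι) (ha : a.1 ∈ C.U i) (hb : b.1 ∈ C.U i)
    (h : C.coord i b = C.coord i a) (p : Path a.1 b.1) (hp : range p ⊆ C.U i) :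
    C.Ψ x₀ b = C.Ψ x₀ a ≫ cls p := by
  rw [C.Ψ_eq x₀ a i ha, C.Ψ_eq x₀ b i hb, h, ← C.pth_comp i ha hb p hp]
  simp

theorem Ψ_path (Γ : C(I, C.E)) :
    C.Ψ x₀ (Γ 1) = C.Ψ x₀ (Γ 0) ≫ cls (C.γ Γ) := by
  have h1 := const_along x₀ (C.γ Γ) (fun t => C.Ψ x₀ (Γ t)) (by
    intro t₀
    have hi : (Γ t₀).1 ∈ C.U (C.idx (Γ t₀).1) := C.mem_idx _
    filter_upwards [C.coord_ev (C.idx (Γ t₀).1) Γ t₀ hi,
      ev_segment (C.γ Γ) (C.γ Γ).continuous (C.isOpen (C.idx (Γ t₀).1)) t₀ hi] with t ht hseg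
    refine C.Ψ_local x₀ (Γ t₀) (Γ t) _ hi (hseg ⟨t, right_mem_uIcc, rfl⟩) ht
      ((C.γ Γ).subpath t₀ t) ?_
    have h2 := Path.range_subpath (C.γ Γ) t₀ t
    exact h2.le.trans hseg)
  have h3 : cls ((C.γ Γ).subpath 0 1) = cls ((C.γ Γ).cast (C.γ Γ).source (C.γ Γ).target) := by
    rw [Path.subpath_zero_one]
  rw [h3] at h1
  exact h1

theorem Ψ_transport {a b a' b' : C.E} (ha : a = a') (hb : b = b') (p : Path a.1 b.1)
    (p' : Path a'.1 b'.1) (hp : ∀ t, p t = p' t) (h : C.Ψ x₀ b = C.Ψ x₀ a ≫ cls p) :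
    C.Ψ x₀ b' = C.Ψ x₀ a' ≫ cls p' := by
  subst ha hb
  have : p = p' := Path.ext (funext hp)
  rwa [← this]

/-- monodromy and the comparison map -/
theorem Ψ_lift {a b : C.E} (p : Path a.1 b.1) (Γ : C(I, C.E)) (h0 : Γ 0 = a) (h1 : Γ 1 = b)
    (hΓ : ∀ t, (Γ t).1 = p t) : C.Ψ x₀ b = C.Ψ x₀ a ≫ cls p :=
  C.Ψ_transport x₀ h0 h1 (C.γ Γ) p hΓ (C.Ψ_path x₀ Γ)

omit [PathConnectedSpace X] in
/-- two lifts of the same path -/
theorem two_lifts (Γ Γ' : C(I, C.E)) (h : ∀ t, (Γ t).1 = (Γ' t).1) :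
    (C.co (Γ 1))⁻¹ * C.co (Γ' 1) = (C.co (Γ 0))⁻¹ * C.co (Γ' 0) := by
  let d : I → C.N := fun t => (C.co (Γ t))⁻¹ * C.co (Γ' t)
  have hd : ∀ t i, d t = (C.coord i (Γ t))⁻¹ * C.coord i (Γ' t) := by
    intro t i
    simp only [d, coord, h t]
    group
  have hc : IsLocallyConstant d := by
    rw [IsLocallyConstant.iff_eventually_eq]
    intro t₀
    have hi : (Γ t₀).1 ∈ C.U (C.idx (Γ t₀).1) := C.mem_idx _
    filter_upwards [C.coord_ev (C.idx (Γ t₀).1) Γ t₀ hi,
      C.coord_ev (C.idx (Γ t₀).1) Γ' t₀ (h t₀ ▸ hi)] with t ht ht'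
    rw [hd t (C.idx (Γ t₀).1), hd t₀ (C.idx (Γ t₀).1), ht, ht']
  exact hc.apply_eq_of_isPreconnected isPreconnected_univ trivial trivial

/-! ### The monodromy homomorphism -/

/-- points over `x₀` -/
def P (v : C.N) : C.E := ⟨x₀, v⟩

/-- points of the fibre over `x₀` -/
def fp (v : C.N) : C.pr ⁻¹' {x₀} := ⟨C.P x₀ v, rfl⟩

omit [PathConnectedSpace X] in
theorem fp_co (a : C.pr ⁻¹' {x₀}) : C.fp x₀ (C.co a.1) = a := by
  obtain ⟨⟨x, v⟩, hx⟩ := a
  have hx' : x = x₀ := hx
  subst hx'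
  rfl

/-- the monodromy in coordinates -/
noncomputable def m (γ : FundamentalGroup X x₀) (v : C.N) : C.N :=
  C.co (C.cov_pr.monodromy γ (C.fp x₀ v)).1

omit [PathConnectedSpace X] in
theorem m_trans (γ γ' : FundamentalGroup X x₀) (v : C.N) :
    C.m x₀ (γ * γ') v = C.m x₀ γ (C.m x₀ γ' v) := by
  unfold m
  rw [FundamentalGroup.mul_def, IsCoveringMap.monodromy_trans_apply, fp_co]

omit [PathConnectedSpace X] in
theorem m_one (v : C.N) : C.m x₀ 1 v = v := by
  unfold m
  rw [FundamentalGroup.one_def, IsCoveringMap.monodromy_refl]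
  rfl

omit [PathConnectedSpace X] in
theorem m_right (γ : FundamentalGroup X x₀) (v : C.N) : C.m x₀ γ v = C.m x₀ γ 1 * v := by
  obtain ⟨p, rfl⟩ := Path.Homotopic.Quotient.mk_surjective γ
  have h := C.two_lifts (C.cov_pr.liftPath p (C.P x₀ 1) p.source)
    (C.cov_pr.liftPath p (C.P x₀ v) p.source) (fun t =>
      (congrFun (C.cov_pr.liftPath_lifts p (C.P x₀ 1) p.source) t).trans
        (congrFun (C.cov_pr.liftPath_lifts p (C.P x₀ v) p.source) t).symm)
  rw [C.cov_pr.liftPath_zero, C.cov_pr.liftPath_zero] at h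
  have h2 : (C.co (C.P x₀ 1))⁻¹ * C.co (C.P x₀ v) = v := by
    change (1 : C.N)⁻¹ * v = v
    rw [inv_one, one_mul]
  rw [h2] at h
  change C.co (C.cov_pr.liftPath p (C.P x₀ v) p.source 1) =
    C.co (C.cov_pr.liftPath p (C.P x₀ 1) p.source 1) * v
  exact inv_mul_eq_iff_eq_mul.1 h

/-- the monodromy homomorphism -/
noncomputable def μ : FundamentalGroup X x₀ →* C.N where
  toFun γ := C.m x₀ γ 1
  map_one' := C.m_one x₀ 1
  map_mul' γ γ' := by rw [C.m_trans, C.m_right x₀ γ (C.m x₀ γ' 1)]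

/-- the comparison element -/
noncomputable def κ : FundamentalGroupoid.mk x₀ ⟶ FundamentalGroupoid.mk x₀ :=
  C.δ x₀ (C.idx x₀) ≫ C.pth (C.idx x₀) x₀ (C.mem_idx _)

theorem ρ_μ (γ : FundamentalGroup X x₀) :
    (C.ρ x₀ (C.μ x₀ γ) : FundamentalGroupoid.mk x₀ ⟶ FundamentalGroupoid.mk x₀) ≫ C.κ x₀ =
      C.κ x₀ ≫ (γ : FundamentalGroupoid.mk x₀ ⟶ FundamentalGroupoid.mk x₀) := by
  obtain ⟨p, rfl⟩ := Path.Homotopic.Quotient.mk_surjective γ
  have h1 : C.cov_pr.liftPath p (C.P x₀ 1) p.source 1 =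
      C.P x₀ (C.μ x₀ (Path.Homotopic.Quotient.mk p)) :=
    (congrArg Subtype.val (C.fp_co x₀
      (C.cov_pr.monodromy (Path.Homotopic.Quotient.mk p) (C.fp x₀ 1)))).symm
  have h := C.Ψ_lift x₀ (a := C.P x₀ 1) (b := C.P x₀ (C.μ x₀ (Path.Homotopic.Quotient.mk p))) p
    (C.cov_pr.liftPath p (C.P x₀ 1) p.source) (C.cov_pr.liftPath_zero _ _ _) h1
    (fun t => congrFun (C.cov_pr.liftPath_lifts p (C.P x₀ 1) p.source) t)
  have h2 : C.Ψ x₀ (C.P x₀ 1) = C.κ x₀ := by
    change (C.ρ x₀ 1 : FundamentalGroupoid.mk x₀ ⟶ FundamentalGroupoid.mk x₀) ≫ C.κ x₀ = _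
    rw [map_one]
    exact Category.id_comp _
  rw [h2] at h
  exact h

/-- the fundamental group is a retract of the finitely presented group -/
theorem exists_retract : ∃ (r : C.N →* FundamentalGroup X x₀) (s : FundamentalGroup X x₀ →* C.N),
    ∀ γ, r (s γ) = γ := by
  let k : FundamentalGroup X x₀ := C.κ x₀
  refine ⟨(MulAut.conj k).toMonoidHom.comp (C.ρ x₀), C.μ x₀, fun γ => ?_⟩
  have h : k * C.ρ x₀ (C.μ x₀ γ) = γ * k := C.ρ_μ x₀ γ
  change k * C.ρ x₀ (C.μ x₀ γ) * k⁻¹ = γ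
  rw [h, mul_inv_cancel_right]

end Cov

/-- retracts of finitely presented groups are finitely presented -/
theorem fp_retract {N H : Type*} [Group N] [Group H] [hN : Group.IsFinitelyPresented N]
    (r : N →* H) (s : H →* N) (hrs : ∀ x, r (s x) = x) : Group.IsFinitelyPresented H := by
  classical
  obtain ⟨n, φ, hφ, -⟩ := hN.out
  set T : Set N := Set.range fun i : Fin n => (φ (FreeGroup.of i))⁻¹ * s (r (φ (FreeGroup.of i)))
    with hT
  refine Group.IsFinitelyPresented.of_surjective r (fun x => ⟨s x, hrs x⟩)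
    ⟨T, Set.finite_range _, ?_⟩
  apply le_antisymm
  · apply Subgroup.normalClosure_le_normal
    rintro _ ⟨i, rfl⟩
    simp [MonoidHom.mem_ker, hrs]
  · intro w hw
    rw [MonoidHom.mem_ker] at hw
    have key : (QuotientGroup.mk' (Subgroup.normalClosure T)).comp φ =
        ((QuotientGroup.mk' (Subgroup.normalClosure T)).comp (s.comp r)).comp φ := by
      ext i
      simp only [MonoidHom.comp_apply, QuotientGroup.mk'_apply]
      rw [QuotientGroup.eq]
      exact Subgroup.subset_normalClosure ⟨i, rfl⟩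
    obtain ⟨v, rfl⟩ := hφ w
    have h1 := DFunLike.congr_fun key v
    simp only [MonoidHom.comp_apply] at h1
    rw [hw, map_one, map_one] at h1
    exact (QuotientGroup.eq_one_iff _).1 h1

theorem fp_of_cov {ι : Type*} [Finite ι] [PathConnectedSpace X] (C : Cov X ι) (x₀ : X) :
    Group.IsFinitelyPresented (FundamentalGroup X x₀) := by
  haveI : Finite C.rels := C.rels_finite
  obtain ⟨r, s, h⟩ := C.exists_retract x₀
  exact fp_retract r s h

end Run7.h469.Pi1
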