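import Pool.Agent.Run7.h469.Step

/-!
# The virtually polycyclic radical is compatible
-/

set_option autoImplicit false
set_option linter.style.haveILetI false

namespace Run7.h469

open Function Pool.Agent.Helper611.PcGrp

section sup

variable {G : Type*} [Group G]

theorem VP_sup {K M : Subgroup G} [hMn : M.Normal] (hK : VP K) (hM : VP M) :
    VP (K ⊔ M : Subgroup G) := by
  classical
  let f : (K ⊔ M : Subgroup G) →* G ⧸ M := (QuotientGroup.mk' M).comp (K ⊔ M).subtype
  have hker : ∀ x : f.ker, (x.1.1 : G) ∈ M := fun x => (QuotientGroup.eq_one_iff _).1 x.2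
  let e : f.ker →* M :=
    { toFun := fun x => ⟨x.1.1, hker x⟩
      map_one' := rfl
      map_mul' := fun _ _ => rfl }
  refine VP_ext f (hM.of_injective e ?_) ?_
  · intro a b hab
    exact Subtype.ext (Subtype.ext (congrArg (fun z : M => z.1) hab))
  · have h1 : f.range = K.map (QuotientGroup.mk' M) := by
      rw [MonoidHom.range_comp, Subgroup.range_subtype, Subgroup.map_sup]
      have h2 : M.map (QuotientGroup.mk' M) = ⊥ := by
        rw [eq_bot_iff]
        rintro _ ⟨x, hx, rfl⟩
        exact (QuotientGroup.eq_one_iff x).2 hx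
      rw [h2, sup_bot_eq]
    rw [h1]
    exact VP.map _ hK

theorem VP_finset_sup {ι : Type*} (s : Finset ι) (f : ι → Subgroup G)
    (hn : ∀ i, (f i).Normal) (hv : ∀ i, VP (f i)) :
    (s.sup f).Normal ∧ VP (s.sup f : Subgroup G) := by
  classical
  induction s using Finset.induction_on with
  | empty =>
    rw [Finset.sup_empty]
    exact ⟨inferInstance, VP_finite⟩
  | insert i s _ ih =>
    rw [Finset.sup_insert]
    haveI := ih.1
    haveI := hn i
    exact ⟨inferInstance, VP_sup (hv i) ih.2⟩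

end sup

section near

variable {Γ : Type*} [Group Γ]

theorem cjN_apply {W : Subgroup Γ} [W.Normal] (g : Γ) (x : W) :
    ((MulAut.conjNormal g : MulAut W) x : Γ) = g * x * g⁻¹ := MulAut.conjNormal_apply g x

theorem conj_sup_VP (W : Subgroup Γ) [W.Normal] (hW : W.index ≠ 0) (B : Subgroup W)
    (hn : B.Normal) (hB : VP B) :
    ∃ D : Subgroup Γ, D.Normal ∧ VP D ∧ B.map W.subtype ≤ D := by
  classical
  haveI : Finite (Γ ⧸ W) := Subgroup.index_ne_zero_iff_finite.1 hW
  haveI := Fintype.ofFinite (Γ ⧸ W)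
  let cj : Γ → W →* W := fun g => (MulAut.conjNormal g : MulAut W).toMonoidHom
  have hcj : ∀ g x, ((cj g x : W) : Γ) = g * x * g⁻¹ := fun g x => cjN_apply g x
  let f : Γ ⧸ W → Subgroup W := fun q => B.map (cj q.out)
  have hfn : ∀ q, (f q).Normal := fun q =>
    hn.map _ (MulAut.conjNormal q.out : MulAut W).surjective
  have hfv : ∀ q, VP (f q) := fun q => VP.map _ hB
  obtain ⟨hDn, hDv⟩ := VP_finset_sup Finset.univ f hfn hfv
  have hle : ∀ g : Γ, B.map (cj g) ≤ f (QuotientGroup.mk g) := by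
    rintro g _ ⟨x, hx, rfl⟩
    obtain ⟨w, hw⟩ := QuotientGroup.mk_out_eq_mul W g
    have h1 : (w⁻¹ * x * w : W) ∈ B := by
      have := hn.conj_mem x hx w⁻¹
      simpa using this
    refine ⟨_, h1, ?_⟩
    apply Subtype.ext
    rw [hcj, hcj, hw]
    simp only [Subgroup.coe_mul, Subgroup.coe_inv]
    group
  have hcomp : ∀ g h x, cj g (cj h x) = cj (g * h) x := by
    intro g h x
    apply Subtype.ext
    rw [hcj, hcj, hcj]
    group
  have hconj : ∀ g : Γ, (Finset.univ.sup f).map (cj g) ≤ Finset.univ.sup f := by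
    intro g
    rw [Subgroup.map_le_iff_le_comap]
    refine Finset.sup_le fun q _ => ?_
    rw [← Subgroup.map_le_iff_le_comap]
    rintro _ ⟨_, ⟨x, hx, rfl⟩, rfl⟩
    rw [hcomp]
    exact (Finset.le_sup (f := f) (Finset.mem_univ _)) (hle _ ⟨x, hx, rfl⟩)
  refine ⟨(Finset.univ.sup f).map W.subtype, ⟨?_⟩, VP.map _ hDv, ?_⟩
  · rintro _ ⟨x, hx, rfl⟩ g
    refine ⟨cj g x, hconj g ⟨x, hx, rfl⟩, ?_⟩
    exact hcj g x
  · refine Subgroup.map_mono ?_
    refine le_trans ?_ ((hle 1).trans (Finset.le_sup (Finset.mem_univ _)))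
    intro x hx
    refine ⟨x, hx, ?_⟩
    apply Subtype.ext
    rw [hcj]
    group

/-- if a group has no nontrivial virtually polycyclic normal subgroup, then it has no nontrivial
virtually polycyclic subgroup whose normaliser has finite index -/
theorem near_trivial (hΓ : ∀ L : Subgroup Γ, L.Normal → VP L → L = ⊥) (B : Subgroup Γ)
    (hB : VP B) (W : Subgroup Γ) (hW : W.index ≠ 0)
    (hWB : ∀ g ∈ W, ∀ x ∈ B, g * x * g⁻¹ ∈ B) : B = ⊥ := by
  classical
  haveI : W.FiniteIndex := ⟨hW⟩
  let W' := W.normalCore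
  have hW' : W'.index ≠ 0 := Subgroup.FiniteIndex.index_ne_zero
  have hWW : W' ≤ W := Subgroup.normalCore_le W
  have h1 : (B.subgroupOf W').Normal := by
    refine ⟨fun n hn g => ?_⟩
    rw [Subgroup.mem_subgroupOf] at hn ⊢
    exact hWB _ (hWW g.2) _ hn
  have h2 : VP (B.subgroupOf W') := by
    refine hB.of_injective (W'.subtype.subgroupComap B) ?_
    intro a b hab
    exact Subtype.ext (Subtype.ext (congrArg (fun z : B => z.1) hab))
  obtain ⟨D, hD1, hD2, hD3⟩ := conj_sup_VP W' hW' _ h1 h2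
  have hBW : ∀ x ∈ B, x ∈ W' → x = 1 := by
    intro x hx hx'
    have h3 : x ∈ D := hD3 ⟨⟨x, hx'⟩, hx, rfl⟩
    rw [hΓ D hD1 hD2, Subgroup.mem_bot] at h3
    exact h3
  rw [eq_bot_iff]
  intro b hb
  have hcen : W' ≤ cen b := by
    intro w hw
    rw [mem_cen]
    have h3 : b * (w * b⁻¹ * w⁻¹) ∈ B := B.mul_mem hb (hWB w (hWW hw) _ (B.inv_mem hb))
    have h4 : b * w * b⁻¹ * w⁻¹ ∈ W' :=
      W'.mul_mem ((inferInstance : W'.Normal).conj_mem w hw b) (W'.inv_mem hw)
    have h5 := hBW _ h3 (by convert h4 using 1; group)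
    have h6 : b * w * b⁻¹ = w := by
      rw [← mul_inv_eq_one, ← h5]; group
    exact (mul_inv_eq_iff_eq_mul.1 h6).symm
  have hcenb : (cen b).index ≠ 0 := by
    haveI : W'.FiniteIndex := ⟨hW'⟩
    exact (Subgroup.finiteIndex_of_le hcen).index_ne_zero
  -- the normal closure of `b`
  let D' := Subgroup.normalClosure {b}
  have hFC : D' ≤ FCs ⊤ := by
    haveI : (FCs (⊤ : Subgroup Γ)).Normal := FCs_normal inferInstance
    refine Subgroup.normalClosure_le_normal ?_
    rintro _ rfl
    exact ⟨Subgroup.mem_top _, by rw [Subgroup.relIndex_top_right]; exact hcenb⟩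
  have hfc : ∀ x : D', (cen x).index ≠ 0 := by
    intro x
    have h3 := (hFC x.2).2
    rw [Subgroup.relIndex_top_right] at h3
    have h4 : (cen (x : Γ)).relIndex D' ≠ 0 := fun h0 =>
      h3 (Subgroup.index_eq_zero_of_relIndex_eq_zero h0)
    have h5 : (cen (x : Γ)).subgroupOf D' = cen x := by
      ext y
      rw [Subgroup.mem_subgroupOf, mem_cen, mem_cen]
      constructor
      · intro h; exact Subtype.ext h
      · intro h; exact congrArg Subtype.val h
    rwa [Subgroup.relIndex, h5] at h4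
  have hfg : Group.FG D' := by
    haveI : Finite (Γ ⧸ cen b) := Subgroup.index_ne_zero_iff_finite.1 hcenb
    have h3 : (Group.conjugatesOfSet {b}).Finite := by
      refine (Set.finite_range fun q : Γ ⧸ cen b => q.out * b * (q.out)⁻¹).subset ?_
      intro y hy
      obtain ⟨b', hb', hby⟩ := Group.mem_conjugatesOfSet_iff.1 hy
      rw [Set.mem_singleton_iff] at hb'
      rw [hb'] at hby
      obtain ⟨g, rfl⟩ := isConj_iff.1 hby
      refine ⟨QuotientGroup.mk g, ?_⟩
      obtain ⟨w, hw⟩ := QuotientGroup.mk_out_eq_mul (cen b) g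
      have h4 := mem_cen.1 w.2
      simp only [hw]
      calc g * w * b * (g * w)⁻¹ = g * (w * b) * (w : Γ)⁻¹ * g⁻¹ := by group
        _ = g * (b * w) * (w : Γ)⁻¹ * g⁻¹ := by rw [h4]
        _ = g * b * g⁻¹ := by group
    rw [Group.fg_iff_subgroup_fg]
    exact ⟨h3.toFinset, by rw [Set.Finite.coe_toFinset]; rfl⟩
  have hVP : VP D' := by
    have h3 := fc_center hfg hfc
    haveI : (Subgroup.center D').FiniteIndex := ⟨h3⟩
    haveI : Group.FG (Subgroup.center D') := Subgroup.fg_of_index_ne_zero _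
    letI : CommGroup (Subgroup.center D') :=
      { (inferInstance : Group (Subgroup.center D')) with
        mul_comm := fun a c => Subtype.ext ((Subgroup.mem_center_iff.1 c.2 a.1)) }
    exact VP.of_finiteIndex h3 (VP_comm (G := Subgroup.center D') inferInstance) inferInstance
  have h6 := hΓ D' Subgroup.normalClosure_normal hVP
  have h7 : b ∈ D' := Subgroup.subset_normalClosure rfl
  rw [h6] at h7
  exact h7

end near

section rad

variable {P : Type*} [Group P]

/-- `R` is the largest virtually polycyclic normal subgroup -/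
def IsRad (R : Subgroup P) : Prop :=
  R.Normal ∧ VP R ∧ ∀ K : Subgroup P, K.Normal → VP K → K ≤ R

theorem rad_quotient {R : Subgroup P} [hRn : R.Normal] (hR : VP R)
    (hmax : ∀ K : Subgroup P, K.Normal → VP K → K ≤ R) (L : Subgroup (P ⧸ R)) (hL : L.Normal)
    (hLv : VP L) : L = ⊥ := by
  have h1 : (L.comap (QuotientGroup.mk' R)).Normal := hL.comap _
  have h2 : VP (L.comap (QuotientGroup.mk' R)) := by
    let f : L.comap (QuotientGroup.mk' R) →* L := (QuotientGroup.mk' R).subgroupComap L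
    have hker : ∀ x : f.ker, (x.1.1 : P) ∈ R := fun x =>
      (QuotientGroup.eq_one_iff _).1 (congrArg Subtype.val x.2)
    let e : f.ker →* R :=
      { toFun := fun x => ⟨x.1.1, hker x⟩
        map_one' := rfl
        map_mul' := fun _ _ => rfl }
    refine VP_ext f (hR.of_injective e ?_) (hLv.sub _)
    intro a b hab
    exact Subtype.ext (Subtype.ext (congrArg (fun z : R => z.1) hab))
  have h3 := hmax _ h1 h2
  rw [eq_bot_iff]
  intro x hx
  induction x using QuotientGroup.induction_on with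
  | H x => exact (QuotientGroup.eq_one_iff x).2 (h3 hx)

theorem rad_compat {φ : P →* P} (hφ : Injective φ) (hfi : φ.range.index ≠ 0) {R : Subgroup P}
    [hRn : R.Normal] (hR : VP R) (hmax : ∀ K : Subgroup P, K.Normal → VP K → K ≤ R) :
    Compat φ R := by
  intro x
  constructor
  · intro hx
    have h1 : VP (R.comap φ) := by
      refine hR.of_injective (φ.subgroupComap R) ?_
      intro a b hab
      exact Subtype.ext (hφ (congrArg (fun z : R => z.1) hab))
    exact hmax _ (hRn.comap φ) h1 hx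
  · intro hx
    let B : Subgroup (P ⧸ R) := (R.map φ).map (QuotientGroup.mk' R)
    have hB : VP B := VP.map _ (VP.map _ hR)
    let W : Subgroup (P ⧸ R) := φ.range.map (QuotientGroup.mk' R)
    have hW : W.index ≠ 0 := by
      intro h0
      have h2 := Subgroup.index_map_dvd φ.range (QuotientGroup.mk'_surjective R)
      rw [show (φ.range.map (QuotientGroup.mk' R)).index = 0 from h0] at h2
      exact hfi (Nat.eq_zero_of_zero_dvd h2)
    have hWB : ∀ g ∈ W, ∀ x ∈ B, g * x * g⁻¹ ∈ B := by
      rintro _ ⟨_, ⟨g, rfl⟩, rfl⟩ _ ⟨_, ⟨y, hy, rfl⟩, rfl⟩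
      exact ⟨_, ⟨g * y * g⁻¹, hRn.conj_mem y hy g, rfl⟩, by simp⟩
    have h3 := near_trivial (rad_quotient hR hmax) B hB W hW hWB
    have h4 : (QuotientGroup.mk' R) (φ x) ∈ B := ⟨_, ⟨x, hx, rfl⟩, rfl⟩
    rw [h3, Subgroup.mem_bot] at h4
    exact (QuotientGroup.eq_one_iff _).1 h4

end rad

end Run7.h469
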