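import Pool.Agent.Run7.h469.Next
import Pool.Agent.Run7.h469.Iter

/-!
# Iterated images modulo a virtually polycyclic normal subgroup
-/

set_option autoImplicit false
set_option linter.style.haveILetI false

namespace Run7.h469

open Function Pool.Agent.Helper611.PcGrp

theorem relIndex_map_ne_zero {P Q : Type*} [Group P] [Group Q] (f : P →* Q) {H K : Subgroup P}
    (h : H.relIndex K ≠ 0) : (H.map f).relIndex (K.map f) ≠ 0 := by
  rw [← Subgroup.relIndex_comap]
  exact fun h0 => h (Subgroup.relIndex_eq_zero_of_le_left (Subgroup.le_comap_map f H) h0)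

theorem fg_of_relIndex {P : Type*} [Group P] {H L : Subgroup P} (hle : H ≤ L)
    (h : H.relIndex L ≠ 0) (hL : Group.FG L) : Group.FG H := by
  haveI : (H.subgroupOf L).FiniteIndex := ⟨h⟩
  haveI : Group.FG (H.subgroupOf L) := Subgroup.fg_of_index_ne_zero _
  exact fg_of_equiv (Subgroup.subgroupOfEquivOfLe hle) inferInstance

theorem exists_max_le {P : Type*} [Group P] {N : Subgroup P} (hN : MaxC N)
    (𝒮 : Set (Subgroup P)) (hle : ∀ K ∈ 𝒮, K ≤ N) (hne : 𝒮.Nonempty) :
    ∃ M ∈ 𝒮, ∀ K ∈ 𝒮, M ≤ K → K = M := by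
  obtain ⟨K0, hK0⟩ := hne
  obtain ⟨M', ⟨M, hM, rfl⟩, hmax⟩ := MaxC.exists_max hN
    {L | ∃ K ∈ 𝒮, K.subgroupOf N = L} ⟨_, K0, hK0, rfl⟩
  refine ⟨M, hM, fun K hK hMK => le_antisymm ?_ hMK⟩
  have h2 := hmax _ ⟨K, hK, rfl⟩ (Subgroup.comap_mono hMK)
  intro x hx
  exact h2 (show (⟨x, hle K hK hx⟩ : N) ∈ K.subgroupOf N from hx)

section step

variable {P Q : Type*} [Group P] [Group Q] {φ : P →* P} {β : Q →* Q}

theorem rel_step (p : P →* Q) (hp : Surjective p) (hpφ : ∀ x, p (φ x) = β (p x))
    (hφ : Injective φ) (hβ : Injective β) (hfg : Group.FG (itImg β))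
    (hker : Finite p.ker ∨ ((∀ x ∈ p.ker, ∀ y ∈ p.ker, x * y = y * x) ∧ Group.FG p.ker)) :
    ((itImg φ).map p).relIndex (itImg β) ≠ 0 := by
  classical
  let P2 : Subgroup P := (itImg β).comap p
  let φ2 : P2 →* P2 := (φ.comp P2.subtype).codRestrict P2 (fun x => by
    rw [MonoidHom.comp_apply, Subgroup.mem_comap, hpφ]
    exact (itImg_apply_mem hβ).2 x.2)
  let β2 : itImg β →* itImg β := (β.comp (itImg β).subtype).codRestrict (itImg β)
    (fun x => (itImg_apply_mem hβ).2 x.2)
  let p2 : P2 →* itImg β := p.subgroupComap (itImg β)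
  have hp2 : Surjective p2 := p.subgroupComap_surjective_of_surjective _ hp
  have hpφ2 : ∀ x, p2 (φ2 x) = β2 (p2 x) := fun x => Subtype.ext (hpφ x.1)
  have hφ2 : Injective φ2 := fun a b hab => Subtype.ext (hφ (congrArg Subtype.val hab))
  have hβ2 : Surjective β2 := by
    rintro ⟨x, hx⟩
    obtain ⟨y, hy, hxy⟩ := itImg_surj hβ hx
    exact ⟨⟨y, hy⟩, Subtype.ext hxy⟩
  have hφ2k : ∀ (k : ℕ) (y : P2), ((φ2^[k] y : P2) : P) = φ^[k] y := by
    intro k
    induction k with
    | zero => intro y; rfl
    | succ k ih =>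
      intro y
      rw [iterate_succ_apply', iterate_succ_apply', ← ih]
      rfl
  -- it suffices to treat the restricted problem
  suffices h : ((itImg φ2).map p2).index ≠ 0 by
    have hle : (itImg φ2).map p2 ≤ ((itImg φ).map p).subgroupOf (itImg β) := by
      rintro _ ⟨x, hx, rfl⟩
      rw [Subgroup.mem_subgroupOf]
      refine ⟨x.1, fun k => ?_, rfl⟩
      obtain ⟨y, hy⟩ := hx k
      exact ⟨y.1, by rw [← hφ2k, hy]⟩
    intro h0
    have h1 := Subgroup.index_dvd_of_le hle
    rw [Subgroup.relIndex] at h0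
    rw [h0] at h1
    exact h (Nat.eq_zero_of_zero_dvd h1)
  have hkmem : ∀ x : p2.ker, (x.1.1 : P) ∈ p.ker := fun x => congrArg Subtype.val x.2
  rcases hker with hfin | ⟨hcomm, hkfg⟩
  · haveI : Finite p2.ker := Finite.of_injective (β := p.ker) (fun x => ⟨x.1.1, hkmem x⟩) (by
      intro a b hab
      exact Subtype.ext (Subtype.ext (congrArg (fun z : p.ker => z.1) hab)))
    have hsurj : Surjective φ2 := by
      let κ : p2.ker → p2.ker := fun x => ⟨φ2 x.1, by
        rw [MonoidHom.mem_ker, hpφ2, (MonoidHom.mem_ker.1 x.2), map_one]⟩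
      have hκ : Injective κ := fun a b hab =>
        Subtype.ext (hφ2 (congrArg (fun z : p2.ker => z.1) hab))
      have hκs : Surjective κ := Finite.surjective_of_injective hκ
      intro x
      obtain ⟨z, hz⟩ := hβ2 (p2 x)
      obtain ⟨y, rfl⟩ := hp2 z
      have h1 : x * (φ2 y)⁻¹ ∈ p2.ker := by
        rw [MonoidHom.mem_ker, map_mul, map_inv, hpφ2, hz, mul_inv_cancel]
      obtain ⟨w, hw⟩ := hκs ⟨_, h1⟩
      have hw' : φ2 w.1 = x * (φ2 y)⁻¹ := congrArg (fun z : p2.ker => z.1) hw
      exact ⟨w.1 * y, by rw [map_mul, hw', inv_mul_cancel_right]⟩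
    rw [itImg_eq_top hsurj, ← MonoidHom.range_eq_map, MonoidHom.range_eq_top.2 hp2,
      Subgroup.index_top]
    exact one_ne_zero
  · refine abelian_step p2 hp2 hpφ2 hφ2 hβ2 hfg ?_ ?_
    · intro x hx y hy
      exact Subtype.ext (hcomm x.1 (hkmem ⟨x, hx⟩) y.1 (hkmem ⟨y, hy⟩))
    · let e : p.ker →* p2.ker :=
        { toFun := fun x => ⟨⟨x.1, by
            rw [Subgroup.mem_comap, MonoidHom.mem_ker.1 x.2]; exact one_mem _⟩,
            Subtype.ext (MonoidHom.mem_ker.1 x.2)⟩
          map_one' := rfl
          map_mul' := fun _ _ => rfl }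
      exact Group.fg_of_surjective (f := e) (fun x => ⟨⟨x.1.1, hkmem x⟩, rfl⟩)

/-- the endomorphism induced on the quotient by a compatible normal subgroup -/
def quo (φ : P →* P) (K : Subgroup P) [K.Normal] (h : Compat φ K) : P ⧸ K →* P ⧸ K :=
  QuotientGroup.map K K φ (fun x hx => (h x).2 hx)

theorem quo_mk {K : Subgroup P} [K.Normal] (h : Compat φ K) (x : P) :
    quo φ K h (QuotientGroup.mk x) = QuotientGroup.mk (φ x) := rfl

theorem quo_inj {K : Subgroup P} [K.Normal] (h : Compat φ K) : Injective (quo φ K h) := by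
  rw [injective_iff_map_eq_one]
  intro x hx
  induction x using QuotientGroup.induction_on with
  | H x =>
    rw [quo_mk, QuotientGroup.eq_one_iff, h] at hx
    exact (QuotientGroup.eq_one_iff x).2 hx

theorem quo_iter {K : Subgroup P} [K.Normal] (h : Compat φ K) (k : ℕ) (x : P) :
    (quo φ K h)^[k] (QuotientGroup.mk x) = QuotientGroup.mk (φ^[k] x) :=
  (semi (β := quo φ K h) (QuotientGroup.mk' K) (fun _ => rfl) k x).symm

theorem quo_range {K : Subgroup P} [K.Normal] (h : Compat φ K) (hfi : φ.range.index ≠ 0) :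
    (quo φ K h).range.index ≠ 0 := by
  have h1 : (quo φ K h).range = φ.range.map (QuotientGroup.mk' K) := by
    ext x
    constructor
    · rintro ⟨y, rfl⟩
      induction y using QuotientGroup.induction_on with
      | H y => exact ⟨φ y, ⟨y, rfl⟩, rfl⟩
    · rintro ⟨_, ⟨y, rfl⟩, rfl⟩
      exact ⟨QuotientGroup.mk y, rfl⟩
  rw [h1]
  intro h0
  have h2 := Subgroup.index_map_dvd φ.range (QuotientGroup.mk'_surjective K)
  rw [h0] at h2
  exact hfi (Nat.eq_zero_of_zero_dvd h2)

/-- **Main algebraic theorem.** Let `p : P → Q` be a surjection with virtually polycyclic kernel,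
`φ` an injective endomorphism of `P` with an image of finite index, that induces an injective
endomorphism `β` of `Q`. If the iterated image of `β` is finitely generated, then the iterated
image of `φ` maps onto a subgroup of finite index of it. -/
theorem main_step (p : P →* Q) (hp : Surjective p) (hpφ : ∀ x, p (φ x) = β (p x))
    (hφ : Injective φ) (hfi : φ.range.index ≠ 0) (hβ : Injective β) (hker : VP p.ker)
    (hfg : Group.FG (itImg β)) :
    ((itImg φ).map p).relIndex (itImg β) ≠ 0 := by
  classical
  let 𝒮 : Set (Subgroup P) := {K | ∃ (_ : K.Normal) (hc : Compat φ K) (hk : K ≤ p.ker),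
    (((itImg (quo φ K hc)).map (QuotientGroup.lift K p hk)).relIndex (itImg β) ≠ 0 →
      ((itImg φ).map p).relIndex (itImg β) ≠ 0)}
  have hbot : (⊥ : Subgroup P) ∈ 𝒮 := by
    have hc : Compat φ (⊥ : Subgroup P) := fun x => by
      rw [Subgroup.mem_bot, Subgroup.mem_bot, map_eq_one_iff φ hφ]
    refine ⟨inferInstance, hc, bot_le, fun h h0 => h ?_⟩
    refine Subgroup.relIndex_eq_zero_of_le_left ?_ h0
    rintro _ ⟨x, hx, rfl⟩
    induction x using QuotientGroup.induction_on with
    | H x =>
      refine ⟨x, fun k => ?_, rfl⟩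
      obtain ⟨y, hy⟩ := hx k
      induction y using QuotientGroup.induction_on with
      | H y =>
        rw [quo_iter, QuotientGroup.eq, Subgroup.mem_bot] at hy
        exact ⟨y, inv_mul_eq_one.1 hy⟩
  obtain ⟨K, ⟨hKn, hKc, hKk, hKT⟩, hmax⟩ := exists_max_le hker.1 𝒮
    (fun K hK => by obtain ⟨_, _, hk, _⟩ := hK; exact hk) ⟨_, hbot⟩
  have hkc : Compat φ p.ker := by
    intro x
    rw [MonoidHom.mem_ker, MonoidHom.mem_ker, hpφ, map_eq_one_iff β hβ]
  by_cases hK : K = p.ker
  · apply hKT
    have h1 : itImg β ≤ (itImg (quo φ K hKc)).map (QuotientGroup.lift K p hKk) := by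
      intro z hz
      obtain ⟨x, rfl⟩ := hp z
      refine ⟨QuotientGroup.mk x, fun k => ?_, rfl⟩
      obtain ⟨w, hw⟩ := hz k
      obtain ⟨y, rfl⟩ := hp w
      refine ⟨QuotientGroup.mk y, ?_⟩
      rw [quo_iter, QuotientGroup.eq, hK, MonoidHom.mem_ker, map_mul, map_inv, semi p hpφ, hw,
        inv_mul_cancel]
    rw [Subgroup.relIndex_eq_one.2 h1]
    exact one_ne_zero
  · exfalso
    let N1 : Subgroup (P ⧸ K) := p.ker.map (QuotientGroup.mk' K)
    have hN1n : N1.Normal := p.normal_ker.map _ (QuotientGroup.mk'_surjective K)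
    have hN1mem : ∀ x : P, (QuotientGroup.mk x : P ⧸ K) ∈ N1 ↔ x ∈ p.ker := by
      intro x
      constructor
      · rintro ⟨y, hy, hxy⟩
        have h1 : y⁻¹ * x ∈ K := QuotientGroup.eq.1 hxy
        have h2 := p.ker.mul_mem hy (hKk h1)
        rwa [mul_inv_cancel_left] at h2
      · intro hx
        exact ⟨x, hx, rfl⟩
    have hN1c : Compat (quo φ K hKc) N1 := by
      intro x
      induction x using QuotientGroup.induction_on with
      | H x => rw [quo_mk, hN1mem, hN1mem, hkc]
    have hN1 : VP N1 := VP.map _ hker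
    have hN1b : N1 ≠ ⊥ := by
      intro h
      apply hK
      refine le_antisymm hKk fun x hx => ?_
      have h1 := (hN1mem x).2 hx
      rw [h, Subgroup.mem_bot] at h1
      exact (QuotientGroup.eq_one_iff x).1 h1
    obtain ⟨K1, hK1n, hK1c, hK1N, hK1b, hK1⟩ := exists_next (quo_inj hKc) (quo_range hKc hfi)
      hN1n hN1c hN1 hN1b
    let K' : Subgroup P := K1.comap (QuotientGroup.mk' K)
    haveI hK'n : K'.Normal := hK1n.comap _
    have hKK' : K ≤ K' := by
      intro x hx
      rw [Subgroup.mem_comap]
      have : QuotientGroup.mk' K x = 1 := (QuotientGroup.eq_one_iff x).2 hx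
      rw [this]
      exact K1.one_mem
    have hK'c : Compat φ K' := fun x => hK1c (QuotientGroup.mk x)
    have hK'k : K' ≤ p.ker := fun x hx => (hN1mem x).1 (hK1N hx)
    have hK'S : K' ∈ 𝒮 := by
      refine ⟨hK'n, hK'c, hK'k, fun hT => hKT ?_⟩
      -- the projection
      let q : P ⧸ K →* P ⧸ K' := QuotientGroup.map K K' (MonoidHom.id P) hKK'
      have hq : Surjective q := by
        intro x
        induction x using QuotientGroup.induction_on with
        | H x => exact ⟨QuotientGroup.mk x, rfl⟩
      have hqφ : ∀ x, q (quo φ K hKc x) = quo φ K' hK'c (q x) := by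
        intro x
        induction x using QuotientGroup.induction_on with
        | H x => rfl
      have hqker : ∀ x, x ∈ q.ker ↔ x ∈ K1 := by
        intro x
        induction x using QuotientGroup.induction_on with
        | H x => exact QuotientGroup.eq_one_iff x
      have hqker' : q.ker = K1 := by ext x; exact hqker x
      let p' : P ⧸ K' →* Q := QuotientGroup.lift K' p hK'k
      have hp'q : ∀ x, p' (q x) = QuotientGroup.lift K p hKk x := by
        intro x
        induction x using QuotientGroup.induction_on with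
        | H x => rfl
      have hp'φ : ∀ x, p' (quo φ K' hK'c x) = β (p' x) := by
        intro x
        induction x using QuotientGroup.induction_on with
        | H x => exact hpφ x
      -- finite generation of the intermediate iterated image
      have hfg' : Group.FG (itImg (quo φ K' hK'c)) := by
        refine fg_ext (p'.comp (itImg (quo φ K' hK'c)).subtype) ?_ ?_
        · have hk' : VP (p.ker.map (QuotientGroup.mk' K')) := VP.map _ hker
          have hmem : ∀ x : (p'.comp (itImg (quo φ K' hK'c)).subtype).ker,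
              (x.1.1 : P ⧸ K') ∈ p.ker.map (QuotientGroup.mk' K') := by
            rintro ⟨⟨x, hx1⟩, hx2⟩
            induction x using QuotientGroup.induction_on with
            | H x => exact ⟨x, hx2, rfl⟩
          let e : (p'.comp (itImg (quo φ K' hK'c)).subtype).ker →*
              (p.ker.map (QuotientGroup.mk' K')) :=
            { toFun := fun x => ⟨x.1.1, hmem x⟩
              map_one' := rfl
              map_mul' := fun _ _ => rfl }
          have hi : VP (p'.comp (itImg (quo φ K' hK'c)).subtype).ker := by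
            refine VP.of_injective hk' e ?_
            intro a b hab
            exact Subtype.ext (Subtype.ext
              (congrArg (fun z : (p.ker.map (QuotientGroup.mk' K')) => z.1) hab))
          exact MaxC.fg hi.1
        · have hr : (p'.comp (itImg (quo φ K' hK'c)).subtype).range =
              (itImg (quo φ K' hK'c)).map p' := by
            rw [MonoidHom.range_comp, Subgroup.range_subtype]
          rw [hr]
          exact fg_of_relIndex (itImg_map_le p' hp'φ) hT hfg
      have hstep := rel_step q hq hqφ (quo_inj hKc) (quo_inj hK'c) hfg' (by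
        rw [hqker']
        rcases hK1 with h | h
        · exact Or.inl h
        · exact Or.inr ⟨h, MaxC.fg (MaxC.of_le hN1.1 hK1N)⟩)
      have h1 := relIndex_map_ne_zero p' hstep
      have h2 : ((itImg (quo φ K hKc)).map q).map p' =
          (itImg (quo φ K hKc)).map (QuotientGroup.lift K p hKk) := by
        rw [Subgroup.map_map]
        congr 1
        exact MonoidHom.ext hp'q
      rw [h2] at h1
      exact Subgroup.relIndex_ne_zero_trans h1 hT
    have h3 := hmax K' hK'S hKK'
    apply hK1b
    rw [eq_bot_iff]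
    intro x hx
    induction x using QuotientGroup.induction_on with
    | H x =>
      have h4 : x ∈ K' := hx
      rw [h3] at h4
      rw [Subgroup.mem_bot]
      exact (QuotientGroup.eq_one_iff x).2 h4

end step

end Run7.h469
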