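import Pool.Agent.Run7.h469.CT.Gen
import Pool.Agent.Run7.h469.LF.Rec
import Pool.Agent.Run7.h469.GA.Main

/-!
# Trajectories of the `q x + c` maps, linear forms, linear recurrences and good rational approximations

The definitions which are used in the statements of several results files (trajectories: `T`, `exceptionalStarts`,
`AlmostAll`; linear forms and recurrences: `Admissible`, `exceptionalVectors`, `seq`, `exceptionalPairs`; approximations: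
`GoodApproximation`, `Near`), and the theorems for a general property `P` with few exceptions.
-/

set_option autoImplicit false

namespace Run7.h469.Tm

open Finset Filter Topology MeasureTheory
open Run7.h469.CT (Few)
open Run7.h469.GA (Thin)

/-! ### definitions: trajectories -/

/-- the `q x + c` map, `x ↦ x / 2` for even `x` and `x ↦ (q x + c) / 2` for odd `x`; `T 3 1` is the map of Collatz -/
def T (q c x : ℕ) : ℕ := if x % 2 = 0 then x / 2 else (q * x + c) / 2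

open Classical in
/-- The `m ≤ N` such that `P (u * T^k(m))` is false for some `k ≤ κ log N` and some `1 ≤ u ≤ (log N)^U`. -/
noncomputable def exceptionalStarts (q c : ℕ) (P : ℕ → Prop) (κ : ℝ) (U N : ℕ) : Finset ℕ :=
  (Icc 1 N).filter (fun m => ∃ k u : ℕ, (k : ℝ) ≤ κ * Real.log N ∧ 1 ≤ u ∧ (u : ℝ) ≤ Real.log N ^ U ∧
    ¬ P (u * (T q c)^[k] m))

open Classical in
/-- The proportion of the positive integers `m ≤ N` without the property `P` tends to `0`. -/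
def AlmostAll (P : ℕ → Prop) : Prop :=
  Tendsto (fun N : ℕ => (((Icc 1 N).filter (fun m => ¬ P m)).card : ℝ) / N) atTop (𝓝 0)

/-! ### definitions: linear forms and linear recurrences -/

/-- The greatest common divisor of the coefficients `c_i` is at most `(log X)^U` (some integral linear combination of them is
positive and at most `(log X)^U`), the coefficients are at most `X^τ` in absolute value, and the constant term `e` is at
most `X` times the largest coefficient. -/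
def Admissible {d : ℕ} (τ : ℝ) (U X : ℕ) (c : Fin d → ℤ) (e : ℤ) : Prop :=
  (∃ u : Fin d → ℤ, 1 ≤ ∑ i, c i * u i ∧ ((∑ i, c i * u i : ℤ) : ℝ) ≤ Real.log X ^ U) ∧
  ∃ i, (∀ j, |c j| ≤ |c i|) ∧ |(c i : ℝ)| ≤ (X : ℝ) ^ τ ∧ |e| ≤ |c i| * X

open Classical in
/-- The vectors `v` of `[1, X]^d` for which `P m` is false for some value `m = c · v + e > 0` of a form of the family. -/
noncomputable def exceptionalVectors {d : ℕ} (P : ℕ → Prop) (X : ℕ) (family : Finset ((Fin d → ℤ) × ℤ)) :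
    Finset (Fin d → ℕ) :=
  (Fintype.piFinset (fun _ => Icc 1 X)).filter (fun v => ∃ l ∈ family, ∃ m : ℕ, 0 < m ∧
    (m : ℤ) = ∑ i, l.1 i * (v i : ℤ) + l.2 ∧ ¬ P m)

/-- the sequence with `x_0 = a`, `x_1 = b`, `x_(n+2) = s x_(n+1) + t x_n` -/
def seq (s t a b : ℕ) : ℕ → ℕ
  | 0 => a
  | 1 => b
  | n + 2 => s * seq s t a b (n + 1) + t * seq s t a b n

open Classical in
/-- The pairs `(a, b)` in `[1, X]^2` such that for some member `x_n ≤ Y` of the sequence, some `1 ≤ u ≤ (log X)^U` and some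
integer `v`, `|v| ≤ (log X)^U`, the number `m = u x_n + v` is positive and `P m` is false. -/
noncomputable def exceptionalPairs (s t : ℕ) (P : ℕ → Prop) (U X : ℕ) (Y : ℝ) : Finset (ℕ × ℕ) :=
  (Icc 1 X ×ˢ Icc 1 X).filter (fun z => ∃ (n u m : ℕ) (v : ℤ), (seq s t z.1 z.2 n : ℝ) ≤ Y ∧
    1 ≤ u ∧ (u : ℝ) ≤ Real.log X ^ U ∧ |(v : ℝ)| ≤ Real.log X ^ U ∧ 0 < m ∧ (m : ℤ) = u * seq s t z.1 z.2 n + v ∧ ¬ P m)

/-! ### definitions: good rational approximations -/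

/-- `q ≥ 1`, and the rational tuple `p / q` approximates `α` up to `(log q)^W / q^(1 + 1/d)` in all coordinates. -/
def GoodApproximation (d W : ℕ) (α : Fin d → ℝ) (p : Fin d → ℤ) (q : ℕ) : Prop :=
  1 ≤ q ∧ ∀ i, |α i - p i / q| ≤ Real.log q ^ W / (q : ℝ) ^ (1 + 1 / (d : ℝ))

/-- `n = u_1 p_1 + … + u_d p_d + v q + w` is positive, where `(u, v) ≠ (0, 0)` and all the integers `u_i`, `v`, `w` are at
most `(log q)^W` in absolute value. -/
def Near {d : ℕ} (W : ℕ) (p : Fin d → ℤ) (q n : ℕ) : Prop :=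
  0 < n ∧ ∃ (u : Fin d → ℤ) (v w : ℤ), (u ≠ 0 ∨ v ≠ 0) ∧ (∀ i, (|u i| : ℝ) ≤ Real.log q ^ W) ∧
    (|v| : ℝ) ≤ Real.log q ^ W ∧ (|w| : ℝ) ≤ Real.log q ^ W ∧ (n : ℤ) = ∑ i, u i * p i + v * q + w

/-! ### properties with few exceptions -/

/-- from the form of the theorems of the starting files (for even integers) -/
theorem few_even (θ : ℝ) (Q : ℕ → Prop) (h : ∀ ρ : ℝ, 0 < ρ → ∀ A T : ℕ, ∃ x₀ : ℝ, ∀ x : ℝ, x₀ ≤ x → ∀ q : ℕ, 1 ≤ q →
    (q : ℝ) ≤ x ^ (θ - ρ) → ∀ a : ℤ, (Int.gcd a q : ℝ) ≤ Real.log x ^ T →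
      ({m : ℕ | 0 < m ∧ (m : ℝ) ≤ x ∧ 2 ∣ m ∧ (m : ℤ) ≡ a [ZMOD q] ∧ ¬ Q m}).Finite ∧
      (({m : ℕ | 0 < m ∧ (m : ℝ) ≤ x ∧ 2 ∣ m ∧ (m : ℤ) ≡ a [ZMOD q] ∧ ¬ Q m}.ncard : ℕ) : ℝ) ≤
        x / (q * Real.log x ^ A)) : Few θ (fun n => Even n → Q n) := by
  intro ρ hρ A T
  obtain ⟨x₀, h₀⟩ := h ρ hρ A T
  refine ⟨x₀, fun x hx q hq hqx a ha => ?_⟩
  have e : {n : ℕ | 0 < n ∧ (n : ℝ) ≤ x ∧ (n : ℤ) ≡ a [ZMOD q] ∧ ¬ (Even n → Q n)} =
      {m : ℕ | 0 < m ∧ (m : ℝ) ≤ x ∧ 2 ∣ m ∧ (m : ℤ) ≡ a [ZMOD q] ∧ ¬ Q m} := by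
    ext n
    simp only [Set.mem_setOf_eq, even_iff_two_dvd]
    tauto
  rw [e]
  exact h₀ x hx q hq hqx a ha

theorem thin_of_few {θ : ℝ} (hθ : 0 < θ) {P : ℕ → Prop} (h : Few θ P) : Thin P := by
  classical
  intro A
  obtain ⟨x₀, h₀⟩ := h (θ / 2) (by linarith) A 0
  obtain ⟨n₀, hn₀⟩ := exists_nat_ge x₀
  refine ⟨n₀ + 1, fun X hX => ?_⟩
  have hX1 : (1 : ℝ) ≤ X := by exact_mod_cast (by omega : 1 ≤ X)
  obtain ⟨hfin, hcard⟩ := h₀ X (hn₀.trans (by exact_mod_cast (by omega : n₀ ≤ X))) 1 le_rfl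
    (by push_cast; exact Real.one_le_rpow hX1 (by linarith)) 0 (by simp)
  have e : (X : ℝ) / (((1 : ℕ) : ℝ) * Real.log (X : ℝ) ^ A) = X / Real.log (X : ℝ) ^ A := by
    rw [Nat.cast_one, one_mul]
  rw [e] at hcard
  refine le_trans ?_ hcard
  rw [Set.ncard_eq_toFinset_card _ hfin]
  apply Nat.cast_le.2
  apply card_le_card
  intro n hn
  obtain ⟨h0, h3⟩ := mem_filter.1 hn
  obtain ⟨h1, h2⟩ := mem_Icc.1 h0
  rw [Set.Finite.mem_toFinset]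
  exact ⟨by omega, by exact_mod_cast h2, Int.modEq_one, h3⟩

theorem AlmostAll.mono {P Q : ℕ → Prop} (h : ∀ m, P m → Q m) (hP : AlmostAll P) : AlmostAll Q := by
  classical
  unfold AlmostAll at hP ⊢
  refine squeeze_zero (fun N => by positivity) (fun N => ?_) hP
  apply div_le_div_of_nonneg_right _ (Nat.cast_nonneg N)
  apply Nat.cast_le.2
  apply card_le_card
  intro m hm
  rw [mem_filter] at hm ⊢
  exact ⟨hm.1, fun h1 => hm.2 (h m h1)⟩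

/-! ### trajectories -/

theorem T_eq : T = Run7.h469.CT.step := rfl

theorem starts (q c : ℕ) (hq : Odd q) (hc : Odd c) (hcq : Nat.Coprime c q) (θ κ : ℝ) (hθ0 : 0 < θ) (hθ1 : θ < 1)
    (hκ : κ * (θ * Real.log 2 + (1 - θ) / 2 * Real.log q) < θ) (P : ℕ → Prop) (hP : Few θ P)
    (A U : ℕ) : ∃ N₀ : ℕ, ∀ N : ℕ, N₀ ≤ N → ((exceptionalStarts q c P κ U N).card : ℝ) ≤ N / Real.log N ^ A :=
  Run7.h469.CT.general q c hq hc hcq θ κ hθ0 hθ1 hκ P hP A U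

theorem starts_two_thirds (q c : ℕ) (hq : Odd q) (hc : Odd c) (hcq : Nat.Coprime c q) (κ : ℝ)
    (hκ : κ * (Real.log 2 + 1 / 4 * Real.log q) < 1) (P : ℕ → Prop) (hP : Few (2 / 3) P)
    (A U : ℕ) : ∃ N₀ : ℕ, ∀ N : ℕ, N₀ ≤ N → ((exceptionalStarts q c P κ U N).card : ℝ) ≤ N / Real.log N ^ A :=
  starts q c hq hc hcq (2 / 3) κ (by norm_num) (by norm_num) (by linarith) P hP A U

theorem starts_seven_tenths (q c : ℕ) (hq : Odd q) (hc : Odd c) (hcq : Nat.Coprime c q) (κ : ℝ)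
    (hκ : κ * (Real.log 2 + 3 / 14 * Real.log q) < 1) (P : ℕ → Prop) (hP : Few (7 / 10) P)
    (A U : ℕ) : ∃ N₀ : ℕ, ∀ N : ℕ, N₀ ≤ N → ((exceptionalStarts q c P κ U N).card : ℝ) ≤ N / Real.log N ^ A :=
  starts q c hq hc hcq (7 / 10) κ (by norm_num) (by norm_num) (by linarith) P hP A U

theorem collatz (θ κ : ℝ) (hθ0 : 0 < θ) (hθ1 : θ < 1) (hκ0 : 0 ≤ κ)
    (hκ : κ * (θ * Real.log 2 + (1 - θ) / 2 * Real.log 3) < θ) (P : ℕ → Prop) (hP : Few θ P) (U : ℕ) :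
    AlmostAll (fun m => ∀ k u : ℕ, (k : ℝ) ≤ κ * Real.log m → 1 ≤ u → (u : ℝ) ≤ Real.log m ^ U →
      P (u * (T 3 1)^[k] m)) :=
  Run7.h469.CT.almost 3 1 P κ hκ0 U
    (Run7.h469.CT.general 3 1 (by decide) (by decide) (by decide) θ κ hθ0 hθ1 (by push_cast; exact hκ) P hP 1 U)

/-- `κ = 1.03` -/
theorem collatz_two_thirds (P : ℕ → Prop) (hP : Few (2 / 3) P) (U : ℕ) :
    AlmostAll (fun m => ∀ k u : ℕ, (k : ℝ) ≤ 103 / 100 * Real.log m → 1 ≤ u → (u : ℝ) ≤ Real.log m ^ U →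
      P (u * (T 3 1)^[k] m)) := by
  refine collatz (2 / 3) (103 / 100) (by norm_num) (by norm_num) (by norm_num) ?_ P hP U
  have h2 := Real.log_two_lt_d9
  have h3 := Run7.h469.CT.log_three_lt
  norm_num at h2 ⊢
  linarith

/-- `κ = 1.07` -/
theorem collatz_seven_tenths (P : ℕ → Prop) (hP : Few (7 / 10) P) (U : ℕ) :
    AlmostAll (fun m => ∀ k u : ℕ, (k : ℝ) ≤ 107 / 100 * Real.log m → 1 ≤ u → (u : ℝ) ≤ Real.log m ^ U →
      P (u * (T 3 1)^[k] m)) := by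
  refine collatz (7 / 10) (107 / 100) (by norm_num) (by norm_num) (by norm_num) ?_ P hP U
  have h2 := Real.log_two_lt_d9
  have h3 := Run7.h469.CT.log_three_lt
  norm_num at h2 ⊢
  linarith

/-- `κ = 0.8` -/
theorem collatz_half (P : ℕ → Prop) (hP : Few (1 / 2) P) (U : ℕ) :
    AlmostAll (fun m => ∀ k u : ℕ, (k : ℝ) ≤ 4 / 5 * Real.log m → 1 ≤ u → (u : ℝ) ≤ Real.log m ^ U →
      P (u * (T 3 1)^[k] m)) := by
  refine collatz (1 / 2) (4 / 5) (by norm_num) (by norm_num) (by norm_num) ?_ P hP U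
  have h2 := Real.log_two_lt_d9
  have h3 := Run7.h469.CT.log_three_lt
  norm_num at h2 ⊢
  linarith

/-! ### linear forms and recurrences -/

theorem seq_eq (s t a b : ℕ) : ∀ n, seq s t a b n = Run7.h469.LF.seq s t a b n
  | 0 => rfl
  | 1 => rfl
  | n + 2 => by rw [seq, Run7.h469.LF.seq, seq_eq s t a b n, seq_eq s t a b (n + 1)]

theorem vectors {d : ℕ} (hd : 1 ≤ d) (θ τ η : ℝ) (hθ0 : 0 < θ) (hθ1 : θ < 1) (hη0 : 0 < η) (hτ : τ = θ / (1 - θ) - η)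
    (P : ℕ → Prop) (hP : Few θ P) (A U : ℕ) : ∃ X₀ : ℕ, ∀ X : ℕ, X₀ ≤ X →
      ∀ family : Finset ((Fin d → ℤ) × ℤ), (family.card : ℝ) ≤ Real.log X ^ U →
      (∀ l ∈ family, Admissible τ U X l.1 l.2) →
        ((exceptionalVectors P X family).card : ℝ) ≤ (X : ℝ) ^ d / Real.log X ^ A := by
  classical
  obtain ⟨X₀, hX₀⟩ := Run7.h469.LF.family (d := d) (by omega) θ η hθ0 hθ1 hη0 P hP A U
  refine ⟨X₀, fun X hX 𝓛 hcard hadm => ?_⟩
  rw [hτ] at hadm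
  refine le_trans ?_ (hX₀ X hX 𝓛 hcard hadm)
  apply Nat.cast_le.2
  apply card_le_card
  intro v hv
  unfold exceptionalVectors at hv
  rw [mem_filter] at hv
  obtain ⟨h1, l, h2, m, h3, h4, h5⟩ := hv
  rw [mem_filter]
  have h6 : Run7.h469.LF.val l.1 l.2 v = m := by
    unfold Run7.h469.LF.val
    exact h4.symm
  refine ⟨h1, l, h2, ?_, ?_⟩
  · rw [h6]
    exact_mod_cast h3
  · rw [h6]
    simpa using h5

theorem pairs (s t : ℕ) (hs : 1 ≤ s) (ht : 1 ≤ t) (hst : Nat.Coprime s t) (θ κ η : ℝ) (hθ0 : 0 < θ) (hθ1 : θ < 1)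
    (hη0 : 0 < η) (hκ : κ = 1 / (1 - θ) - η) (P : ℕ → Prop) (hP : Few θ P) (A U : ℕ) :
    ∃ X₀ : ℕ, ∀ X : ℕ, X₀ ≤ X →
      ((exceptionalPairs s t P U X ((X : ℝ) ^ κ)).card : ℝ) ≤ (X : ℝ) ^ 2 / Real.log X ^ A := by
  classical
  obtain ⟨X₀, hX₀⟩ := Run7.h469.LF.recurrence hs ht hst θ η hθ0 hθ1 hη0 P hP A U
  refine ⟨X₀, fun X hX => ?_⟩
  refine le_trans ?_ (hX₀ X hX)
  apply Nat.cast_le.2
  apply card_le_card
  intro z hz
  unfold exceptionalPairs at hz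
  rw [mem_filter] at hz ⊢
  obtain ⟨h1, n, u, m, v, h2, h3, h4, h5, h6, h7, h8⟩ := hz
  rw [seq_eq] at h2 h7
  rw [hκ] at h2
  exact ⟨h1, n, u, m, v, h2, h3, h4, h5, h6, h7, h8⟩

theorem vectors_two_thirds {d : ℕ} (hd : 1 ≤ d) (η : ℝ) (hη0 : 0 < η) (P : ℕ → Prop) (hP : Few (2 / 3) P) (A U : ℕ) :
    ∃ X₀ : ℕ, ∀ X : ℕ, X₀ ≤ X → ∀ family : Finset ((Fin d → ℤ) × ℤ), (family.card : ℝ) ≤ Real.log X ^ U →
      (∀ l ∈ family, Admissible (2 - η) U X l.1 l.2) →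
        ((exceptionalVectors P X family).card : ℝ) ≤ (X : ℝ) ^ d / Real.log X ^ A :=
  vectors hd (2 / 3) (2 - η) η (by norm_num) (by norm_num) hη0 (by norm_num) P hP A U

theorem vectors_seven_tenths {d : ℕ} (hd : 1 ≤ d) (η : ℝ) (hη0 : 0 < η) (P : ℕ → Prop) (hP : Few (7 / 10) P)
    (A U : ℕ) :
    ∃ X₀ : ℕ, ∀ X : ℕ, X₀ ≤ X → ∀ family : Finset ((Fin d → ℤ) × ℤ), (family.card : ℝ) ≤ Real.log X ^ U →
      (∀ l ∈ family, Admissible (7 / 3 - η) U X l.1 l.2) →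
        ((exceptionalVectors P X family).card : ℝ) ≤ (X : ℝ) ^ d / Real.log X ^ A :=
  vectors hd (7 / 10) (7 / 3 - η) η (by norm_num) (by norm_num) hη0 (by norm_num) P hP A U

theorem pairs_two_thirds (s t : ℕ) (hs : 1 ≤ s) (ht : 1 ≤ t) (hst : Nat.Coprime s t) (η : ℝ) (hη0 : 0 < η)
    (P : ℕ → Prop) (hP : Few (2 / 3) P) (A U : ℕ) : ∃ X₀ : ℕ, ∀ X : ℕ, X₀ ≤ X →
      ((exceptionalPairs s t P U X ((X : ℝ) ^ (3 - η))).card : ℝ) ≤ (X : ℝ) ^ 2 / Real.log X ^ A :=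
  pairs s t hs ht hst (2 / 3) (3 - η) η (by norm_num) (by norm_num) hη0 (by norm_num) P hP A U

theorem pairs_seven_tenths (s t : ℕ) (hs : 1 ≤ s) (ht : 1 ≤ t) (hst : Nat.Coprime s t) (η : ℝ) (hη0 : 0 < η)
    (P : ℕ → Prop) (hP : Few (7 / 10) P) (A U : ℕ) : ∃ X₀ : ℕ, ∀ X : ℕ, X₀ ≤ X →
      ((exceptionalPairs s t P U X ((X : ℝ) ^ (10 / 3 - η))).card : ℝ) ≤ (X : ℝ) ^ 2 / Real.log X ^ A :=
  pairs s t hs ht hst (7 / 10) (10 / 3 - η) η (by norm_num) (by norm_num) hη0 (by norm_num) P hP A U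

/-! ### good approximations -/

theorem approximations (P : ℕ → Prop) (hP : Thin P) (d W : ℕ) (hd : 1 ≤ d) : ∀ᵐ α : Fin d → ℝ,
    {z : (Fin d → ℤ) × ℕ | GoodApproximation d W α z.1 z.2 ∧ ∃ n : ℕ, Near W z.1 z.2 n ∧ ¬ P n}.Finite :=
  Run7.h469.GA.main P hP d W hd

end Run7.h469.Tm
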