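import Mathlib
import Pool.Agent.Helper611.PcGrp
import Pool.Agent.W386.Grp
import Pool.Agent.V11238.MG.FP

/-!
# Virtually polycyclic groups
-/

set_option autoImplicit false
set_option linter.style.haveILetI false

namespace Run7.h469

open Function Pool.Agent.Helper611.PcGrp

section fg

variable {G H : Type*} [Group G] [Group H]

theorem fg_ext (f : G →* H) (hk : Group.FG f.ker) (hr : Group.FG f.range) : Group.FG G := by
  classical
  obtain ⟨S, hS⟩ := (Group.fg_iff_subgroup_fg _).1 hk
  obtain ⟨T, hT⟩ := (Group.fg_iff_subgroup_fg _).1 hr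
  have hTr : ∀ t ∈ T, ∃ g, f g = t := by
    intro t ht
    have : t ∈ f.range := by rw [← hT]; exact Subgroup.subset_closure ht
    exact this
  choose! g hg using hTr
  rw [Group.fg_iff]
  refine ⟨(S : Set G) ∪ g '' T, ?_, S.finite_toSet.union (T.finite_toSet.image g)⟩
  rw [eq_top_iff]
  intro x _
  have h1 : f x ∈ (Subgroup.closure (g '' (T : Set H))).map f := by
    rw [MonoidHom.map_closure]
    have h2 : f '' (g '' (T : Set H)) = T := by
      rw [Set.image_image]
      ext t
      constructor
      · rintro ⟨s, hs, rfl⟩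
        change f (g s) ∈ _
        rw [hg s hs]; exact hs
      · intro ht
        exact ⟨t, ht, hg t ht⟩
    rw [h2, hT]
    exact ⟨x, rfl⟩
  obtain ⟨y, hy, hxy⟩ := h1
  have h3 : x * y⁻¹ ∈ Subgroup.closure (S : Set G) := by
    rw [hS, MonoidHom.mem_ker, map_mul, map_inv, hxy, mul_inv_cancel]
  have h4 := Subgroup.closure_mono (Set.subset_union_left (t := g '' (T : Set H))) h3
  have h5 := Subgroup.closure_mono (Set.subset_union_right (s := (S : Set G))) hy
  have := mul_mem h4 h5
  simpa using this

theorem fg_of_equiv (e : G ≃* H) (h : Group.FG G) : Group.FG H :=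
  Group.fg_of_surjective (f := e.toMonoidHom) e.surjective

theorem MaxC_ext (f : G →* H) (hk : MaxC f.ker) (hr : MaxC f.range) : MaxC G := by
  intro S
  rw [← Group.fg_iff_subgroup_fg]
  refine fg_ext (f.comp S.subtype) ?_ ?_
  · have h1 : Group.FG ↥(S.subgroupOf f.ker) := MaxC.sub hk _
    let e : ↥(S.subgroupOf f.ker) →* (f.comp S.subtype).ker :=
      { toFun := fun x => ⟨⟨x.1.1, x.2⟩, x.1.2⟩
        map_one' := rfl
        map_mul' := fun _ _ => rfl }
    exact Group.fg_of_surjective (f := e) (fun x => ⟨⟨⟨x.1.1, x.2⟩, x.1.2⟩, rfl⟩)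
  · have h1 : Group.FG ↥((f.comp S.subtype).range.subgroupOf f.range) := MaxC.sub hr _
    have hle : (f.comp S.subtype).range ≤ f.range := by
      rintro _ ⟨x, rfl⟩
      exact ⟨x.1, rfl⟩
    exact fg_of_equiv (Subgroup.subgroupOfEquivOfLe hle) h1

theorem MaxC_comm {G : Type*} [CommGroup G] (h : Group.FG G) : MaxC G := by
  intro S
  haveI : Module.Finite ℤ (Additive G) := by
    rw [Module.Finite.iff_addGroup_fg]
    exact GroupFG.iff_add_fg.1 h
  rw [Subgroup.fg_iff_add_fg]
  have h1 : (AddSubgroup.toIntSubmodule (Subgroup.toAddSubgroup S)).FG :=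
    IsNoetherian.noetherian _
  exact (Submodule.fg_iff_addSubgroup_fg _).1 h1

theorem MaxC_finite {G : Type*} [Group G] [Finite G] : MaxC G := by
  intro S
  rw [← Group.fg_iff_subgroup_fg]
  infer_instance

end fg

/-- virtually polycyclic: all subgroups finitely generated, and virtually solvable -/
def VP (G : Type*) [Group G] : Prop :=
  MaxC G ∧ ∃ S : Subgroup G, S.index ≠ 0 ∧ Group.IsSolvable S

section vp

variable {G H : Type*} [Group G] [Group H]

theorem VP.maxC (h : VP G) : MaxC G := h.1

theorem VP.of_injective (h : VP G) (f : H →* G) (hf : Injective f) : VP H := by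
  refine ⟨h.1.of_injective f hf, ?_⟩
  obtain ⟨S, hS, hs⟩ := h.2
  refine ⟨S.comap f, ?_, ?_⟩
  · rw [Subgroup.index_comap]
    intro h0
    exact hS (Subgroup.index_eq_zero_of_relIndex_eq_zero h0)
  · exact Group.isSolvable_of_isSolvable_injective (f := f.subgroupComap S)
      (fun a b hab => Subtype.ext (hf (congrArg Subtype.val hab)))

theorem VP.sub (h : VP G) (K : Subgroup G) : VP K := h.of_injective K.subtype K.subtype_injective

theorem VP.of_surjective (h : VP G) (f : G →* H) (hf : Surjective f) : VP H := by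
  refine ⟨h.1.of_surjective f hf, ?_⟩
  obtain ⟨S, hS, hs⟩ := h.2
  refine ⟨S.map f, ?_, ?_⟩
  · intro h0
    have := Subgroup.index_map_dvd S hf
    rw [h0] at this
    exact hS (Nat.eq_zero_of_zero_dvd this)
  · exact Group.isSolvable_of_surjective (f := f.subgroupMap S) (f.subgroupMap_surjective S)

theorem VP.of_equiv (h : VP G) (e : G ≃* H) : VP H := h.of_surjective e.toMonoidHom e.surjective

theorem VP.map (f : G →* H) {K : Subgroup G} (h : VP K) : VP (K.map f) :=
  h.of_surjective (f.subgroupMap K) (f.subgroupMap_surjective K)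

theorem VP.of_le {K L : Subgroup G} (hKL : K ≤ L) (h : VP L) : VP K :=
  h.of_injective (Subgroup.inclusion hKL) (Subgroup.inclusion_injective hKL)

theorem VP_finite [Finite G] : VP G :=
  ⟨MaxC_finite, ⊥, by rw [Subgroup.index_bot]; exact Nat.card_pos.ne', inferInstance⟩

theorem VP_comm {G : Type*} [CommGroup G] (h : Group.FG G) : VP G :=
  ⟨MaxC_comm h, ⊤, by rw [Subgroup.index_top]; exact one_ne_zero, inferInstance⟩

theorem VP.of_finiteIndex {K : Subgroup G} (hK : K.index ≠ 0) (h : VP K) (hn : K.Normal) :
    VP G := by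
  haveI : Finite (G ⧸ K) := Subgroup.index_ne_zero_iff_finite.1 hK
  refine ⟨MaxC_ext (QuotientGroup.mk' K) ?_ MaxC_finite, ?_⟩
  · rw [QuotientGroup.ker_mk']; exact h.1
  · obtain ⟨S, hS, hs⟩ := h.2
    refine ⟨S.map K.subtype, ?_, ?_⟩
    · rw [Subgroup.index_map_subtype]
      exact Nat.mul_ne_zero hS hK
    · exact Group.isSolvable_of_surjective (f := K.subtype.subgroupMap S)
        (K.subtype.subgroupMap_surjective S)

/-- finite-by-solvable groups are virtually solvable -/
theorem finite_by_solvable (f : G →* H) [Finite f.ker] (hH : Group.IsSolvable f.range) :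
    ∃ S : Subgroup G, S.index ≠ 0 ∧ Group.IsSolvable S := by
  classical
  let C : Subgroup G := Subgroup.centralizer (f.ker : Set G)
  have hC : C.index ≠ 0 := by
    have h1 : (MulAut.conjNormal (H := f.ker)).ker.FiniteIndex := by
      haveI : Finite (MulAut f.ker) := Finite.of_injective
        (fun e : MulAut f.ker => (e : f.ker → f.ker)) DFunLike.coe_injective
      infer_instance
    have h2 : (MulAut.conjNormal (H := f.ker)).ker ≤ C := by
      intro c hc
      rw [MonoidHom.mem_ker] at hc
      rw [Subgroup.mem_centralizer_iff]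
      intro n hn
      have h3 := congrArg (fun e : MulAut f.ker => ((e ⟨n, hn⟩ : f.ker) : G)) hc
      simp only [MulAut.conjNormal_apply, MulAut.one_apply] at h3
      rw [mul_inv_eq_iff_eq_mul] at h3
      exact h3.symm
    exact (Subgroup.finiteIndex_of_le h2).index_ne_zero
  refine ⟨C, hC, ?_⟩
  let g : C →* f.range := f.rangeRestrict.comp C.subtype
  have hcc : ∀ x y : g.ker, x * y = y * x := by
    intro x y
    apply Subtype.ext
    apply Subtype.ext
    have hx : (x.1.1 : G) ∈ (f.ker : Set G) := congrArg Subtype.val x.2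
    exact (Subgroup.mem_centralizer_iff.1 y.1.2 _ hx)
  letI : CommGroup g.ker := { (inferInstance : Group g.ker) with mul_comm := hcc }
  haveI : Group.IsSolvable g.ker := inferInstance
  exact Group.isSolvable_of_ker_le_range g.ker.subtype g (by rw [Subgroup.range_subtype])

theorem VP_ext (f : G →* H) (hk : VP f.ker) (hr : VP f.range) : VP G := by
  classical
  refine ⟨MaxC_ext f hk.1 hr.1, ?_⟩
  obtain ⟨S, hS, hs⟩ := hk.2
  haveI : S.FiniteIndex := ⟨hS⟩
  -- a characteristic solvable subgroup of finite index of the kernel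
  obtain ⟨K, hK1, hK2, hK3⟩ := charCore (MaxC.fg hk.1) S
  haveI hKs : Group.IsSolvable K :=
    Group.isSolvable_of_isSolvable_injective (f := Subgroup.inclusion hK3)
      (Subgroup.inclusion_injective hK3)
  let K' : Subgroup G := K.map f.ker.subtype
  haveI hK'n : K'.Normal := by
    refine ⟨fun n hn g => ?_⟩
    have hg : g ∈ Subgroup.normalizer (f.ker : Set G) := by
      rw [Subgroup.normalizer_eq_top]; trivial
    have := normalizer_map_char hK1 hg
    exact (Subgroup.mem_normalizer_iff.1 this n).1 hn
  haveI hK's : Group.IsSolvable K' :=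
    Group.isSolvable_of_surjective (f := f.ker.subtype.subgroupMap K)
      (f.ker.subtype.subgroupMap_surjective K)
  have hle : K' ≤ f.ker := by
    rintro _ ⟨x, _, rfl⟩
    exact x.2
  -- the induced map on the quotient
  let f1 : G ⧸ K' →* H := QuotientGroup.lift K' f hle
  haveI : Finite f1.ker := by
    have h1 : f1.ker = f.ker.map (QuotientGroup.mk' K') := by
      ext x
      induction x using QuotientGroup.induction_on with
      | H x =>
        constructor
        · intro hx
          exact ⟨x, hx, rfl⟩
        · rintro ⟨y, hy, hxy⟩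
          rw [MonoidHom.mem_ker, ← hxy]
          exact hy
    rw [h1]
    have h2 : (K'.relIndex f.ker) ≠ 0 := by
      have : K'.subgroupOf f.ker = K := by
        rw [Subgroup.subgroupOf, Subgroup.comap_map_eq_self_of_injective f.ker.subtype_injective]
      rw [Subgroup.relIndex, this]
      exact hK2.index_ne_zero
    have h3 : (QuotientGroup.mk' K').ker.relIndex f.ker = Nat.card (f.ker.map (QuotientGroup.mk' K')) :=
      Subgroup.relIndex_ker _ _
    rw [QuotientGroup.ker_mk'] at h3
    exact Nat.finite_of_card_ne_zero (by rw [← h3]; exact h2)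
  obtain ⟨T, hT, hTs⟩ := hr.2
  -- pull back T
  let r : G ⧸ K' →* f.range := QuotientGroup.lift K' f.rangeRestrict (by
    intro x hx
    rw [MonoidHom.mem_ker]
    exact Subtype.ext (hle hx))
  have hrs : Surjective r := by
    rintro ⟨_, ⟨x, rfl⟩⟩
    exact ⟨QuotientGroup.mk x, rfl⟩
  let W : Subgroup (G ⧸ K') := T.comap r
  have hW : W.index ≠ 0 := by
    rw [Subgroup.index_comap_of_surjective T hrs]; exact hT
  let g : W →* f.range := r.comp W.subtype
  haveI : Finite g.ker := by
    refine Finite.of_injective (β := f1.ker) (fun x => ⟨x.1.1, ?_⟩) ?_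
    · have h1 : r x.1.1 = 1 := x.2
      have h2 : ∀ y : G ⧸ K', (r y : H) = f1 y := by
        intro y
        induction y using QuotientGroup.induction_on with
        | H y => rfl
      rw [MonoidHom.mem_ker, ← h2, h1]
      rfl
    · intro a b hab
      exact Subtype.ext (Subtype.ext (congrArg (fun z : f1.ker => z.1) hab))
  have hgT : g.range ≤ T := by
    rintro _ ⟨x, rfl⟩
    exact x.2
  have hgs : Group.IsSolvable g.range :=
    Group.isSolvable_of_isSolvable_injective (f := Subgroup.inclusion hgT)
      (Subgroup.inclusion_injective hgT)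
  obtain ⟨X, hX, hXs⟩ := finite_by_solvable g hgs
  let X' : Subgroup (G ⧸ K') := X.map W.subtype
  have hX' : X'.index ≠ 0 := by
    rw [Subgroup.index_map_subtype]
    exact Nat.mul_ne_zero hX hW
  haveI hX's : Group.IsSolvable X' := Group.isSolvable_of_surjective (f := W.subtype.subgroupMap X)
    (W.subtype.subgroupMap_surjective X)
  refine ⟨X'.comap (QuotientGroup.mk' K'), ?_, ?_⟩
  · rw [Subgroup.index_comap_of_surjective _ (QuotientGroup.mk'_surjective K')]; exact hX'
  · have hle2 : K' ≤ X'.comap (QuotientGroup.mk' K') := by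
      intro x hx
      rw [Subgroup.mem_comap]
      have : QuotientGroup.mk' K' x = 1 := (QuotientGroup.eq_one_iff x).2 hx
      rw [this]
      exact X'.one_mem
    refine Group.isSolvable_of_ker_le_range (Subgroup.inclusion hle2)
      ((QuotientGroup.mk' K').subgroupComap X') ?_
    intro y hy
    rw [MonoidHom.mem_ker] at hy
    have h1 : QuotientGroup.mk' K' (y : G) = 1 := congrArg Subtype.val hy
    have h2 : (y : G) ∈ K' := (QuotientGroup.eq_one_iff _).1 h1
    exact ⟨⟨y, h2⟩, Subtype.ext rfl⟩

end vp

end Run7.h469
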