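import Pool.Agent.R559.NP.Near

/-!
# Integral linear combinations with small coefficients of almost all integer vectors and of expansions of real vectors

The definitions which are used in the statements of several results files, and the theorems for a general set of integer
vectors with a power saving.
-/

set_option autoImplicit false

namespace Run7.h469.Vk

open Finset Filter Topology MeasureTheory

/-! ### definitions -/

/-- The vector `M x + b`. -/
def affine {k d : ℕ} (M : Fin k → Fin d → ℤ) (b : Fin k → ℤ) (x : Fin d → ℤ) : Fin k → ℤ :=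
  fun i => ∑ j, M i j * x j + b i

/-- The integral matrix `M` has rank `k`: a `k × k` minor is not zero. -/
def FullRank {k d : ℕ} (M : Fin k → Fin d → ℤ) : Prop :=
  ∃ e : Fin k → Fin d, (Matrix.of fun i j => M i (e j)).det ≠ 0

/-- The integer vectors `x` such that for some integral matrix `M` with `k` rows, of rank `k`, and some integer vector `b`, all
entries of `M` and `b` at most `K` in absolute value, the vector `M x + b` belongs to `W`. -/
def Hits {k : ℕ} (W : Set (Fin k → ℤ)) (d : ℕ) (K : ℝ) : Set (Fin d → ℤ) :=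
  {x | ∃ (M : Fin k → Fin d → ℤ) (b : Fin k → ℤ), FullRank M ∧ (∀ i j, |(M i j : ℝ)| ≤ K) ∧ (∀ i, |(b i : ℝ)| ≤ K) ∧
    affine M b x ∈ W}

/-- The sequence grows at least like a geometric progression. -/
def Lacunary (N : ℕ → ℝ) : Prop := 1 ≤ N 0 ∧ ∃ q : ℝ, 1 < q ∧ ∀ n, q * N n ≤ N (n + 1)

/-- The property `Q` of points of `ℝ^d` is true outside a set of Hausdorff dimension at most `s`, and almost everywhere for
each measure `μ` for which the balls of radius `r` have measure at most `C₀ r^m` for some `m > s` and some `C₀`. -/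
def Generic {d : ℕ} (s : ℝ) (Q : (Fin d → ℝ) → Prop) : Prop :=
  (∃ E : Set (Fin d → ℝ), dimH E ≤ ENNReal.ofReal s ∧ ∀ α : Fin d → ℝ, α ∉ E → Q α) ∧
  ∀ (μ : Measure (Fin d → ℝ)) (C₀ m : ℝ), s < m →
    (∀ (x : Fin d → ℝ) (r : ℝ), 0 < r → μ (Metric.closedBall x r) ≤ ENNReal.ofReal (C₀ * r ^ m)) → ∀ᵐ α ∂μ, Q α

/-- The integer vectors near the multiples `N_n α` of a real vector `α`: for all `A` there is `n₀` such that no integer vector
`x` with `|x_j - N_n α_j| ≤ A` for all `j` and `n ≥ n₀` has a combination `M x + b` in `W` with `M` an integral matrix of rank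
`k` and `b` an integer vector, all entries of `M` and `b` at most `A N_n^η` in absolute value. -/
def Avoids {k d : ℕ} (W : Set (Fin k → ℤ)) (N : ℕ → ℝ) (η : ℝ) (α : Fin d → ℝ) : Prop :=
  ∀ A : ℝ, ∃ n₀ : ℕ, ∀ n : ℕ, n₀ ≤ n → ∀ x : Fin d → ℤ, (∀ j, |(x j : ℝ) - N n * α j| ≤ A) → x ∉ Hits W d (A * N n ^ η)

/-! ### counting -/

/-- at most `C T^θ` elements of `W` have coordinates at most `T` -/
def Few {k : ℕ} (C θ : ℝ) (W : Set (Fin k → ℤ)) : Prop :=
  ∀ T : ℕ, 1 ≤ T → ∀ F : Finset (Fin k → ℤ), (∀ v ∈ F, v ∈ W ∧ ∀ i, |v i| ≤ T) → (F.card : ℝ) ≤ C * (T : ℝ) ^ θ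

theorem few_of_ncard {k : ℕ} {C θ : ℝ} {W : Set (Fin k → ℤ)} (h : ∀ T : ℕ, 1 ≤ T →
    (({v : Fin k → ℤ | (∀ i, |v i| ≤ T) ∧ v ∈ W}.ncard : ℕ) : ℝ) ≤ C * (T : ℝ) ^ θ) : Few C θ W := by
  intro T hT F hF
  have hfin : {v : Fin k → ℤ | (∀ i, |v i| ≤ T) ∧ v ∈ W}.Finite := by
    apply (Set.Finite.pi' fun _ : Fin k => Set.finite_Icc (-(T : ℤ)) T).subset
    intro v hv i
    exact abs_le.1 (hv.1 i)
  refine le_trans ?_ (h T hT)
  have h1 : F.card ≤ {v : Fin k → ℤ | (∀ i, |v i| ≤ T) ∧ v ∈ W}.ncard := by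
    rw [← Set.ncard_coe_finset]
    exact Set.ncard_le_ncard (fun v hv => ⟨(hF v hv).2, (hF v hv).1⟩) hfin
  exact_mod_cast h1

/-- the box -/
noncomputable def box (d X : ℕ) : Finset (Fin d → ℤ) := Fintype.piFinset fun _ => Icc (-(X : ℤ)) X

theorem mem_box {d X : ℕ} {x : Fin d → ℤ} : x ∈ box d X ↔ ∀ j, |x j| ≤ X := by
  unfold box
  rw [Fintype.mem_piFinset]
  exact forall_congr' fun j => by rw [mem_Icc, abs_le]

theorem card_Icc_le {X : ℕ} (hX : 1 ≤ X) : ((Icc (-(X : ℤ)) X).card : ℝ) ≤ 3 * X := by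
  rw [Int.card_Icc]
  have h1 : ((X : ℤ) + 1 - -(X : ℤ)).toNat = 2 * X + 1 := by omega
  rw [h1]
  push_cast
  have : (1 : ℝ) ≤ X := by exact_mod_cast hX
  linarith

open Classical in
/-- the vectors in the box with `M x + b` in `W` -/
noncomputable def ex {k d : ℕ} (W : Set (Fin k → ℤ)) (X : ℕ) (l : (Fin k → Fin d → ℤ) × (Fin k → ℤ)) :
    Finset (Fin d → ℤ) := (box d X).filter fun x => affine l.1 l.2 x ∈ W

theorem affine_le {k d : ℕ} {X K : ℕ} (hX : 1 ≤ X) {M : Fin k → Fin d → ℤ} {b : Fin k → ℤ} (h1 : ∀ i j, |M i j| ≤ K)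
    (h2 : ∀ i, |b i| ≤ K) {x : Fin d → ℤ} (hx : x ∈ box d X) (i : Fin k) : |affine M b x i| ≤ ((d + 1) * K * X : ℕ) := by
  unfold affine
  rw [mem_box] at hx
  have h3 : |∑ j, M i j * x j| ≤ ∑ _j : Fin d, (K : ℤ) * X := by
    refine (abs_sum_le_sum_abs _ _).trans (sum_le_sum (fun j _ => ?_))
    rw [abs_mul]
    exact mul_le_mul (h1 i j) (hx j) (abs_nonneg _) (Int.natCast_nonneg _)
  rw [sum_const, card_univ, Fintype.card_fin, nsmul_eq_mul] at h3
  have h4 : (K : ℤ) ≤ K * X := by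
    have : (1 : ℤ) ≤ X := by exact_mod_cast hX
    nlinarith [Int.natCast_nonneg K]
  have h5 := abs_add_le (∑ j, M i j * x j) (b i)
  have h6 := h2 i
  push_cast
  linarith

theorem card_ex {k d : ℕ} {C θ : ℝ} {W : Set (Fin k → ℤ)} (hW : Few C θ W) (hC : 0 ≤ C) (hθ : θ ≤ k) {X K : ℕ}
    (hX : 1 ≤ X) (hK : 1 ≤ K) (l : (Fin k → Fin d → ℤ) × (Fin k → ℤ)) (hl : FullRank l.1) (h1 : ∀ i j, |l.1 i j| ≤ K)
    (h2 : ∀ i, |l.2 i| ≤ K) :
    ((ex W X l).card : ℝ) ≤ C * (((d : ℝ) + 1) * K) ^ k * (X : ℝ) ^ θ * (3 * (X : ℝ)) ^ ((d : ℝ) - k) := by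
  classical
  obtain ⟨e, he⟩ := hl
  have hinj : Function.Injective e := by
    intro i j hij
    by_contra hne
    apply he
    apply Matrix.det_zero_of_column_eq hne
    intro r
    simp only [Matrix.of_apply, hij]
  have hkd : k ≤ d := by
    have := Fintype.card_le_of_injective e hinj
    simpa using this
  have hX1 : (1 : ℝ) ≤ X := by exact_mod_cast hX
  have hK1 : (1 : ℝ) ≤ K := by exact_mod_cast hK
  -- the other coordinates
  let g : (Fin d → ℤ) → (Fin d → ℤ) := fun x j => if j ∈ univ.image e then 0 else x j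
  let S : Finset (Fin d → ℤ) := Fintype.piFinset (fun j => if j ∈ univ.image e then {0} else Icc (-(X : ℤ)) X)
  have hS : (S.card : ℝ) ≤ (3 * (X : ℝ)) ^ ((d : ℝ) - k) := by
    have e1 : ∀ j : Fin d, (if j ∈ univ.image e then ({0} : Finset ℤ) else Icc (-(X : ℤ)) X).card =
        if j ∈ univ.image e then 1 else (Icc (-(X : ℤ)) X).card := by
      intro j
      split_ifs
      · simp
      · rfl
    have e2 : S.card = (Icc (-(X : ℤ)) X).card ^ (d - k) := by
      rw [Fintype.card_piFinset, prod_congr rfl (fun j _ => e1 j), prod_ite, prod_const_one, one_mul, prod_const]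
      congr 1
      have e3 : univ.filter (fun j : Fin d => ¬ j ∈ univ.image e) = univ \ univ.image e := by
        ext j
        simp
      rw [e3, card_sdiff_of_subset (subset_univ _), card_univ, Fintype.card_fin, card_image_of_injective _ hinj, card_univ,
        Fintype.card_fin]
    rw [e2, ← Nat.cast_sub hkd, Real.rpow_natCast]
    push_cast
    exact pow_le_pow_left₀ (Nat.cast_nonneg _) (card_Icc_le hX) _
  let F : Finset (Fin k → ℤ) := (ex W X l).image (fun x => affine l.1 l.2 x)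
  have hF : (F.card : ℝ) ≤ C * (((d + 1) * K * X : ℕ) : ℝ) ^ θ := by
    apply hW _ _ F
    · intro v hv
      rw [mem_image] at hv
      obtain ⟨x, hx, rfl⟩ := hv
      unfold ex at hx
      rw [mem_filter] at hx
      exact ⟨hx.2, affine_le hX h1 h2 hx.1⟩
    · exact Nat.mul_pos (Nat.mul_pos (by omega) hK) hX
  have hcard : (ex W X l).card ≤ (F ×ˢ S).card := by
    apply card_le_card_of_injOn (fun x => (affine l.1 l.2 x, g x))
    · intro x hx
      rw [mem_coe] at hx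
      rw [mem_coe, mem_product]
      refine ⟨mem_image_of_mem _ hx, ?_⟩
      unfold ex box at hx
      rw [mem_filter, Fintype.mem_piFinset] at hx
      rw [Fintype.mem_piFinset]
      intro j
      simp only [g]
      by_cases hj : j ∈ univ.image e
      · rw [if_pos hj, if_pos hj]
        exact mem_singleton_self _
      · rw [if_neg hj, if_neg hj]
        exact hx.1 j
    · intro x _ y _ hxy
      simp only [Prod.mk.injEq] at hxy
      obtain ⟨e1, e2⟩ := hxy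
      have hoth : ∀ j, j ∉ univ.image e → x j - y j = 0 := by
        intro j hj
        have := congrFun e2 j
        simp only [g, if_neg hj] at this
        rw [this, sub_self]
      have hz : (fun i => x (e i) - y (e i)) = (0 : Fin k → ℤ) := by
        apply Matrix.eq_zero_of_mulVec_eq_zero he
        funext i
        have h3 := congrFun e1 i
        unfold affine at h3
        have h4 : ∑ j, l.1 i j * (x j - y j) = 0 := by
          simp only [mul_sub, sum_sub_distrib]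
          linarith
        have h5 : ∑ j ∈ univ.image e, l.1 i j * (x j - y j) = ∑ j, l.1 i j * (x j - y j) := by
          apply sum_subset (subset_univ _)
          intro j _ hj
          rw [hoth j hj, mul_zero]
        rw [sum_image (fun a _ b _ h => hinj h), h4] at h5
        simp only [Matrix.mulVec, dotProduct, Matrix.of_apply, Pi.zero_apply]
        exact h5
      funext j
      by_cases hj : j ∈ univ.image e
      · rw [mem_image] at hj
        obtain ⟨i, -, rfl⟩ := hj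
        have := congrFun hz i
        simp only [Pi.zero_apply] at this
        omega
      · have := hoth j hj
        omega
  rw [card_product] at hcard
  have hθ' : (((d + 1) * K * X : ℕ) : ℝ) ^ θ ≤ (((d : ℝ) + 1) * K) ^ k * (X : ℝ) ^ θ := by
    push_cast
    rw [Real.mul_rpow (by positivity) (by positivity)]
    apply mul_le_mul_of_nonneg_right _ (by positivity)
    rw [← Real.rpow_natCast]
    apply Real.rpow_le_rpow_of_exponent_le _ hθ
    have : (0 : ℝ) ≤ d := Nat.cast_nonneg d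
    nlinarith
  calc ((ex W X l).card : ℝ) ≤ ((F.card * S.card : ℕ) : ℝ) := by exact_mod_cast hcard
    _ = (F.card : ℝ) * (S.card : ℝ) := by push_cast; ring
    _ ≤ (C * ((((d : ℝ) + 1) * K) ^ k * (X : ℝ) ^ θ)) * (3 * (X : ℝ)) ^ ((d : ℝ) - k) :=
        mul_le_mul (hF.trans (mul_le_mul_of_nonneg_left hθ' hC)) hS (Nat.cast_nonneg _) (by positivity)
    _ = C * (((d : ℝ) + 1) * K) ^ k * (X : ℝ) ^ θ * (3 * (X : ℝ)) ^ ((d : ℝ) - k) := by ring

/-- **Counting.** -/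
theorem card_hits {k d : ℕ} {C c : ℝ} {W : Set (Fin k → ℤ)} (hc : 0 ≤ c) (hC : 0 ≤ C) (hW : Few C ((k : ℝ) - c) W)
    {X K : ℕ} (hX : 1 ≤ X) (hK : 1 ≤ K) :
    {x : Fin d → ℤ | (∀ j, |x j| ≤ X) ∧ x ∈ Hits W d K}.Finite ∧
    (({x : Fin d → ℤ | (∀ j, |x j| ≤ X) ∧ x ∈ Hits W d K}.ncard : ℕ) : ℝ) ≤
      C * (((d : ℝ) + 1) ^ k * 3 ^ ((k + 1) * (d + 1))) * (K : ℝ) ^ (k * (d + 2)) * (X : ℝ) ^ ((d : ℝ) - c) := by
  classical
  have hX1 : (1 : ℝ) ≤ X := by exact_mod_cast hX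
  have hK1 : (1 : ℝ) ≤ K := by exact_mod_cast hK
  have hd0 : (0 : ℝ) ≤ d := Nat.cast_nonneg d
  let fam : Finset ((Fin k → Fin d → ℤ) × (Fin k → ℤ)) :=
    ((Fintype.piFinset fun _ : Fin k => box d K) ×ˢ box k K).filter (fun l => FullRank l.1)
  have hfam : ∀ l ∈ fam, FullRank l.1 ∧ (∀ i j, |l.1 i j| ≤ K) ∧ ∀ i, |l.2 i| ≤ K := by
    intro l hl
    simp only [fam, mem_filter, mem_product, Fintype.mem_piFinset, mem_box] at hl
    exact ⟨hl.2, hl.1.1, hl.1.2⟩
  have hbc : ∀ n : ℕ, ((box n K).card : ℝ) ≤ (3 * (K : ℝ)) ^ n := by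
    intro n
    unfold box
    rw [Fintype.card_piFinset, prod_const, card_univ, Fintype.card_fin]
    push_cast
    exact pow_le_pow_left₀ (Nat.cast_nonneg _) (card_Icc_le hK) _
  have hfc : (fam.card : ℝ) ≤ (3 * (K : ℝ)) ^ (k * (d + 1)) := by
    have h1 : fam.card ≤ ((Fintype.piFinset fun _ : Fin k => box d K) ×ˢ box k K).card := card_filter_le _ _
    rw [card_product, Fintype.card_piFinset, prod_const, card_univ, Fintype.card_fin] at h1
    calc (fam.card : ℝ) ≤ (((box d K).card ^ k * (box k K).card : ℕ) : ℝ) := by exact_mod_cast h1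
      _ = ((box d K).card : ℝ) ^ k * ((box k K).card : ℝ) := by push_cast; ring
      _ ≤ ((3 * (K : ℝ)) ^ d) ^ k * (3 * (K : ℝ)) ^ k := by
          apply mul_le_mul (pow_le_pow_left₀ (Nat.cast_nonneg _) (hbc d) _) (hbc k) (Nat.cast_nonneg _) (by positivity)
      _ = (3 * (K : ℝ)) ^ (k * (d + 1)) := by rw [← pow_mul, ← pow_add]; congr 1; ring
  let U : Finset (Fin d → ℤ) := fam.biUnion (ex W X)
  have hsub : {x : Fin d → ℤ | (∀ j, |x j| ≤ X) ∧ x ∈ Hits W d K} ⊆ (U : Set (Fin d → ℤ)) := by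
    rintro x ⟨hx, M, b, h1, h2, h3, h4⟩
    rw [mem_coe, mem_biUnion]
    refine ⟨(M, b), ?_, ?_⟩
    · simp only [fam, mem_filter, mem_product, Fintype.mem_piFinset, mem_box]
      exact ⟨⟨fun i j => by exact_mod_cast h2 i j, fun i => by exact_mod_cast h3 i⟩, h1⟩
    · unfold ex
      rw [mem_filter, mem_box]
      exact ⟨hx, h4⟩
  refine ⟨U.finite_toSet.subset hsub, ?_⟩
  have h1 : {x : Fin d → ℤ | (∀ j, |x j| ≤ X) ∧ x ∈ Hits W d K}.ncard ≤ U.card := by
    rw [← Set.ncard_coe_finset]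
    exact Set.ncard_le_ncard hsub U.finite_toSet
  by_cases hkd : k ≤ d
  · have h3d : (3 : ℝ) ^ ((d : ℝ) - k) ≤ 3 ^ d := by
      rw [← Nat.cast_sub hkd, Real.rpow_natCast]
      exact pow_le_pow_right₀ (by norm_num) (Nat.sub_le _ _)
    calc (({x : Fin d → ℤ | (∀ j, |x j| ≤ X) ∧ x ∈ Hits W d K}.ncard : ℕ) : ℝ) ≤ (U.card : ℝ) := by exact_mod_cast h1
      _ ≤ ∑ l ∈ fam, ((ex W X l).card : ℝ) := by exact_mod_cast card_biUnion_le
      _ ≤ ∑ _l ∈ fam, C * (((d : ℝ) + 1) * K) ^ k * (X : ℝ) ^ ((k : ℝ) - c) * (3 * (X : ℝ)) ^ ((d : ℝ) - k) := by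
          apply sum_le_sum
          intro l hl
          obtain ⟨h2, h3, h4⟩ := hfam l hl
          exact card_ex hW hC (by linarith) hX hK l h2 h3 h4
      _ = (fam.card : ℝ) * (C * (((d : ℝ) + 1) * K) ^ k * (X : ℝ) ^ ((k : ℝ) - c) * (3 * (X : ℝ)) ^ ((d : ℝ) - k)) := by
          rw [sum_const, nsmul_eq_mul]
      _ ≤ (3 * (K : ℝ)) ^ (k * (d + 1)) *
          (C * (((d : ℝ) + 1) * K) ^ k * (X : ℝ) ^ ((k : ℝ) - c) * (3 ^ d * (X : ℝ) ^ ((d : ℝ) - k))) := by
          apply mul_le_mul hfc _ (by positivity) (by positivity)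
          rw [Real.mul_rpow (by norm_num) (by positivity)]
          gcongr
      _ = C * ((d : ℝ) + 1) ^ k * 3 ^ (k * (d + 1) + d) * (K : ℝ) ^ (k * (d + 2)) *
          ((X : ℝ) ^ ((k : ℝ) - c) * (X : ℝ) ^ ((d : ℝ) - k)) := by
          have e0 : k * (d + 2) = k * (d + 1) + k := by ring
          have e1 : (K : ℝ) ^ (k * (d + 2)) = (K : ℝ) ^ (k * (d + 1)) * (K : ℝ) ^ k := by
            rw [e0, pow_add]
          rw [e1, mul_pow, mul_pow, pow_add (3 : ℝ)]
          ring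
      _ = C * ((d : ℝ) + 1) ^ k * 3 ^ (k * (d + 1) + d) * (K : ℝ) ^ (k * (d + 2)) * (X : ℝ) ^ ((d : ℝ) - c) := by
          rw [← Real.rpow_add (by linarith)]
          congr 2
          ring
      _ ≤ C * (((d : ℝ) + 1) ^ k * 3 ^ ((k + 1) * (d + 1))) * (K : ℝ) ^ (k * (d + 2)) * (X : ℝ) ^ ((d : ℝ) - c) := by
          rw [← mul_assoc C]
          gcongr
          · norm_num
          · nlinarith
  · have hU : U = ∅ := by
      rw [eq_empty_iff_forall_notMem]
      intro x hx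
      rw [mem_biUnion] at hx
      obtain ⟨l, hl, -⟩ := hx
      obtain ⟨⟨e, he⟩, -, -⟩ := hfam l hl
      apply he
      have : ¬ Function.Injective e := by
        intro hinj
        have := Fintype.card_le_of_injective e hinj
        simp only [Fintype.card_fin] at this
        exact hkd this
      unfold Function.Injective at this
      push Not at this
      obtain ⟨i, j, hij, hne⟩ := this
      apply Matrix.det_zero_of_column_eq hne
      intro r
      simp only [Matrix.of_apply, hij]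
    rw [hU, card_empty] at h1
    have h2 : {x : Fin d → ℤ | (∀ j, |x j| ≤ X) ∧ x ∈ Hits W d K}.ncard = 0 := by omega
    rw [h2]
    push_cast
    positivity


theorem Hits.mono {k d : ℕ} {W : Set (Fin k → ℤ)} {K K' : ℝ} (h : K ≤ K') : Hits W d K ⊆ Hits W d K' := by
  rintro x ⟨M, b, h1, h2, h3, h4⟩
  exact ⟨M, b, h1, fun i j => (h2 i j).trans h, fun i => (h3 i).trans h, h4⟩

theorem Lacunary.pow_le {N : ℕ → ℝ} (hN : Lacunary N) : ∃ q : ℝ, 1 < q ∧ ∀ n, q ^ n ≤ N n := by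
  obtain ⟨h0, q, hq, h⟩ := hN
  refine ⟨q, hq, fun n => ?_⟩
  induction n with
  | zero => simpa using h0
  | succ n ih =>
    calc q ^ (n + 1) = q * q ^ n := by ring
      _ ≤ q * N n := by gcongr
      _ ≤ N (n + 1) := h n

/-! ### expansions -/

theorem Generic.mono {d : ℕ} {s : ℝ} {Q R : (Fin d → ℝ) → Prop} (h : ∀ α, Q α → R α) (hQ : Generic s Q) : Generic s R := by
  obtain ⟨⟨E, h1, h2⟩, h3⟩ := hQ
  refine ⟨⟨E, h1, fun α hα => h α (h2 α hα)⟩, fun μ C₀ m hm hμ => ?_⟩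
  filter_upwards [h3 μ C₀ m hm hμ] with α hα
  exact h α hα

theorem Generic.all {ι : Type} [Countable ι] {d : ℕ} {s : ℝ} {Q : ι → (Fin d → ℝ) → Prop} (h : ∀ i, Generic s (Q i)) :
    Generic s (fun α => ∀ i, Q i α) := by
  constructor
  · choose E h1 h2 using fun i => (h i).1
    refine ⟨⋃ i, E i, ?_, fun α hα i => h2 i α (fun h3 => hα (Set.mem_iUnion.2 ⟨i, h3⟩))⟩
    rw [dimH_iUnion]
    exact iSup_le h1
  · intro μ C₀ m hm hμ
    rw [ae_all_iff]
    exact fun i => (h i).2 μ C₀ m hm hμ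

/-- counting the pairs of an index and a vector -/
theorem count_pairs {k d : ℕ} {C c : ℝ} {W : Set (Fin k → ℤ)} (hc : 0 ≤ c) (hcd : c ≤ d) (hC : 0 ≤ C)
    (hW : Few C ((k : ℝ) - c) W) {N : ℕ → ℝ} (hN : Lacunary N) {η : ℝ} (hη : 0 ≤ η) (A R : ℕ) (ε : ℝ) (hε : 0 < ε) :
    ∃ C' : ℝ, ∀ B : ℝ, 1 ≤ B →
      {t : ℕ × (Fin d → ℤ) | ((∀ j, |(t.2 j : ℝ)| ≤ (R + 1) * N t.1) ∧ t.2 ∈ Hits W d (A * N t.1 ^ η)) ∧ N t.1 ≤ B}.Finite ∧
      (({t : ℕ × (Fin d → ℤ) | ((∀ j, |(t.2 j : ℝ)| ≤ (R + 1) * N t.1) ∧ t.2 ∈ Hits W d (A * N t.1 ^ η)) ∧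
        N t.1 ≤ B}.ncard : ℕ) : ℝ) ≤ C' * B ^ ((d : ℝ) - c + k * (d + 2) * η + ε) := by
  classical
  obtain ⟨q, hq, hqN⟩ := hN.pow_le
  have hlq : 0 < Real.log q := Real.log_pos hq
  obtain ⟨D, hD⟩ : ∃ D : ℝ, D = C * (((d : ℝ) + 1) ^ k * 3 ^ ((k + 1) * (d + 1))) * ((A : ℝ) + 1) ^ (k * (d + 2)) *
    ((R : ℝ) + 1) ^ ((d : ℝ) - c) := ⟨_, rfl⟩
  have hD0 : 0 ≤ D := by rw [hD]; positivity
  obtain ⟨s, hs⟩ : ∃ s : ℝ, s = (d : ℝ) - c + k * (d + 2) * η := ⟨_, rfl⟩
  have hs0 : 0 ≤ s := by rw [hs]; have : 0 ≤ (k : ℝ) * (d + 2) * η := by positivity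
                         linarith
  refine ⟨(1 / ε / Real.log q + 1) * D, fun B hB => ?_⟩
  have hB0 : 0 < B := by linarith
  -- the sets for the single indices
  let S : ℕ → Set (Fin d → ℤ) := fun n => {x | (∀ j, |(x j : ℝ)| ≤ (R + 1) * N n) ∧ x ∈ Hits W d (A * N n ^ η)}
  have hN1 : ∀ n, 1 ≤ N n := fun n => (one_le_pow₀ hq.le).trans (hqN n)
  have hS : ∀ n, (S n).Finite ∧ (((S n).ncard : ℕ) : ℝ) ≤ D * N n ^ s := by
    intro n
    have hn1 := hN1 n
    have hn0 : 0 < N n := by linarith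
    obtain ⟨X, hX⟩ : ∃ X, X = ⌊((R : ℝ) + 1) * N n⌋₊ := ⟨_, rfl⟩
    obtain ⟨K, hK⟩ : ∃ K, K = ⌊((A : ℝ) + 1) * N n ^ η⌋₊ := ⟨_, rfl⟩
    have hnη : 1 ≤ N n ^ η := Real.one_le_rpow hn1 hη
    have hX1 : 1 ≤ X := by
      rw [hX]
      apply Nat.le_floor
      push_cast
      have : (0 : ℝ) ≤ R := Nat.cast_nonneg R
      nlinarith
    have hK1 : 1 ≤ K := by
      rw [hK]
      apply Nat.le_floor
      push_cast
      have : (0 : ℝ) ≤ A := Nat.cast_nonneg A
      nlinarith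
    have hXN : (X : ℝ) ≤ ((R : ℝ) + 1) * N n := by rw [hX]; exact Nat.floor_le (by positivity)
    have hKN : (K : ℝ) ≤ ((A : ℝ) + 1) * N n ^ η := by rw [hK]; exact Nat.floor_le (by positivity)
    have hKA : (A : ℝ) * N n ^ η ≤ K := by
      have h1 : ((A : ℝ) + 1) * N n ^ η < K + 1 := by rw [hK]; exact Nat.lt_floor_add_one _
      linarith
    obtain ⟨h1, h2⟩ := card_hits (d := d) hc hC hW hX1 hK1
    have hsub : S n ⊆ {x : Fin d → ℤ | (∀ j, |x j| ≤ X) ∧ x ∈ Hits W d K} := by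
      rintro x ⟨h3, h4⟩
      refine ⟨fun j => ?_, Hits.mono hKA h4⟩
      have h5 : ((x j).natAbs : ℝ) ≤ ((R : ℝ) + 1) * N n := by
        rw [Nat.cast_natAbs]
        push_cast
        exact h3 j
      have h6 : (x j).natAbs ≤ X := by rw [hX]; exact Nat.le_floor h5
      rw [← Int.natCast_natAbs]
      exact_mod_cast h6
    refine ⟨h1.subset hsub, ?_⟩
    have h3 : (((S n).ncard : ℕ) : ℝ) ≤ (({x : Fin d → ℤ | (∀ j, |x j| ≤ X) ∧ x ∈ Hits W d K}.ncard : ℕ) : ℝ) := by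
      exact_mod_cast Set.ncard_le_ncard hsub h1
    calc (((S n).ncard : ℕ) : ℝ) ≤ _ := h3
      _ ≤ C * (((d : ℝ) + 1) ^ k * 3 ^ ((k + 1) * (d + 1))) * (K : ℝ) ^ (k * (d + 2)) * (X : ℝ) ^ ((d : ℝ) - c) := h2
      _ ≤ C * (((d : ℝ) + 1) ^ k * 3 ^ ((k + 1) * (d + 1))) * (((A : ℝ) + 1) * N n ^ η) ^ (k * (d + 2)) *
          (((R : ℝ) + 1) * N n) ^ ((d : ℝ) - c) := by
          apply mul_le_mul
          · apply mul_le_mul_of_nonneg_left _ (by positivity)
            exact pow_le_pow_left₀ (Nat.cast_nonneg _) hKN _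
          · exact Real.rpow_le_rpow (Nat.cast_nonneg _) hXN (by linarith)
          · positivity
          · positivity
      _ = D * N n ^ s := by
          rw [hD, hs, Real.rpow_add hn0, mul_pow, Real.mul_rpow (by positivity) hn0.le, ← Real.rpow_natCast (N n ^ η),
            ← Real.rpow_mul hn0.le]
          have e1 : η * ((k * (d + 2) : ℕ) : ℝ) = (k : ℝ) * (d + 2) * η := by push_cast; ring
          rw [e1]
          ring
  obtain ⟨J, hJ⟩ : ∃ J, J = ⌊Real.log B / Real.log q⌋₊ + 1 := ⟨_, rfl⟩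
  have hJn : ∀ n, N n ≤ B → n < J := by
    intro n hn
    have h1 : q ^ n ≤ B := (hqN n).trans hn
    have h2 : (n : ℝ) * Real.log q ≤ Real.log B := by
      rw [← Real.log_pow]
      exact Real.log_le_log (by positivity) h1
    have h3 : (n : ℝ) ≤ Real.log B / Real.log q := by rwa [le_div_iff₀ hlq]
    rw [hJ]
    exact Nat.lt_succ_of_le (Nat.le_floor h3)
  have hJB : (J : ℝ) ≤ (1 / ε / Real.log q + 1) * B ^ ε := by
    have h1 : Real.log B ≤ B ^ ε / ε := Real.log_le_rpow_div hB0.le hε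
    have h2 : 1 ≤ B ^ ε := Real.one_le_rpow hB hε.le
    have h3 : 0 ≤ Real.log B := Real.log_nonneg hB
    rw [hJ]
    push_cast
    calc (⌊Real.log B / Real.log q⌋₊ : ℝ) + 1 ≤ Real.log B / Real.log q + 1 := by
          gcongr
          exact Nat.floor_le (by positivity)
      _ ≤ (B ^ ε / ε) / Real.log q + B ^ ε := by gcongr
      _ = _ := by ring
  let U : Finset (ℕ × (Fin d → ℤ)) := ((range J).filter (fun n => N n ≤ B)).biUnion
    (fun n => ((hS n).1.toFinset).image (fun x => (n, x)))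
  have hsub : {t : ℕ × (Fin d → ℤ) | ((∀ j, |(t.2 j : ℝ)| ≤ (R + 1) * N t.1) ∧ t.2 ∈ Hits W d (A * N t.1 ^ η)) ∧
      N t.1 ≤ B} ⊆ (U : Set (ℕ × (Fin d → ℤ))) := by
    rintro ⟨n, x⟩ ⟨h1, h2⟩
    simp only at h1 h2
    rw [mem_coe, mem_biUnion]
    refine ⟨n, ?_, ?_⟩
    · rw [mem_filter, mem_range]
      exact ⟨hJn n h2, h2⟩
    · rw [mem_image]
      exact ⟨x, (hS n).1.mem_toFinset.2 h1, rfl⟩
  refine ⟨U.finite_toSet.subset hsub, ?_⟩
  have h1 : (({t : ℕ × (Fin d → ℤ) | ((∀ j, |(t.2 j : ℝ)| ≤ (R + 1) * N t.1) ∧ t.2 ∈ Hits W d (A * N t.1 ^ η)) ∧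
      N t.1 ≤ B}.ncard : ℕ) : ℝ) ≤ (U.card : ℝ) := by
    rw [← Set.ncard_coe_finset]
    exact_mod_cast Set.ncard_le_ncard hsub U.finite_toSet
  calc _ ≤ (U.card : ℝ) := h1
    _ ≤ ∑ n ∈ (range J).filter (fun n => N n ≤ B), ((((hS n).1.toFinset).image (fun x => (n, x))).card : ℝ) := by
        exact_mod_cast card_biUnion_le
    _ ≤ ∑ _n ∈ (range J).filter (fun n => N n ≤ B), D * B ^ s := by
        apply sum_le_sum
        intro n hn
        rw [mem_filter] at hn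
        have h2 : ((((hS n).1.toFinset).image (fun x => (n, x))).card : ℝ) ≤ (((S n).ncard : ℕ) : ℝ) := by
          have h3 : (((hS n).1.toFinset).image (fun x => (n, x))).card ≤ (S n).ncard :=
            card_image_le.trans_eq (Set.ncard_eq_toFinset_card (S n) (hS n).1).symm
          exact_mod_cast h3
        refine h2.trans ((hS n).2.trans ?_)
        apply mul_le_mul_of_nonneg_left _ hD0
        exact Real.rpow_le_rpow (by linarith [hN1 n]) hn.2 hs0
    _ ≤ (J : ℝ) * (D * B ^ s) := by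
        rw [sum_const, nsmul_eq_mul]
        apply mul_le_mul_of_nonneg_right _ (by positivity)
        have := card_filter_le (range J) (fun n => N n ≤ B)
        rw [card_range] at this
        exact_mod_cast this
    _ ≤ ((1 / ε / Real.log q + 1) * B ^ ε) * (D * B ^ s) := mul_le_mul_of_nonneg_right hJB (by positivity)
    _ = (1 / ε / Real.log q + 1) * D * B ^ ((d : ℝ) - c + k * (d + 2) * η + ε) := by
        rw [← hs, Real.rpow_add hB0]
        ring

/-- **Expansions.** -/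
theorem generic_hits {k d : ℕ} (hk : 1 ≤ k) {C c : ℝ} {W : Set (Fin k → ℤ)} (hc : 0 ≤ c) (hcd : c ≤ d) (hC : 0 ≤ C)
    (hW : Few C ((k : ℝ) - c) W) {N : ℕ → ℝ} (hN : Lacunary N) {η : ℝ} (hη : 0 ≤ η) :
    Generic ((d : ℝ) - c + k * (d + 2) * η) (fun α : Fin d → ℝ => ∀ A : ℝ, ∃ n₀ : ℕ, ∀ n : ℕ, n₀ ≤ n →
      ∀ x : Fin d → ℤ, (∀ j, |(x j : ℝ) - N n * α j| ≤ A) → x ∉ Hits W d (A * N n ^ η)) := by
  classical
  obtain ⟨s, hs⟩ : ∃ s : ℝ, s = (d : ℝ) - c + k * (d + 2) * η := ⟨_, rfl⟩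
  have hs0 : 0 ≤ s := by rw [hs]; have : 0 ≤ (k : ℝ) * (d + 2) * η := by positivity
                         linarith
  obtain ⟨q, hq, hqN⟩ := hN.pow_le
  have hN1 : ∀ n, 1 ≤ N n := fun n => (one_le_pow₀ hq.le).trans (hqN n)
  obtain ⟨Bad, hBad⟩ : ∃ Bad : ℕ → ℕ → ℕ × (Fin d → ℤ) → Prop, ∀ A R t, Bad A R t ↔
    ((∀ j, |(t.2 j : ℝ)| ≤ (R + 1) * N t.1) ∧ t.2 ∈ Hits W d (A * N t.1 ^ η)) := ⟨_, fun _ _ _ => Iff.rfl⟩
  let φ : ℕ × (Fin d → ℤ) → (Fin d → ℝ) := fun t j => (t.2 j : ℝ) / N t.1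
  have hcount : ∀ A R : ℕ, ∀ ε : ℝ, 0 < ε → ∃ C' : ℝ, ∀ B : ℝ, 1 ≤ B → {t | Bad A R t ∧ N t.1 ≤ B}.Finite ∧
      (({t | Bad A R t ∧ N t.1 ≤ B}.ncard : ℕ) : ℝ) ≤ C' * B ^ (s + ε) := by
    intro A R ε hε
    simp only [hBad]
    rw [hs]
    exact count_pairs hc hcd hC hW hN hη A R ε hε
  have key : ∀ A R : ℕ, Generic s (fun α : Fin d → ℝ =>
      ∀ A' : ℝ, {t | dist (φ t) α ≤ A' * N t.1 ^ (-(1 : ℝ)) ∧ Bad A R t}.Finite) := by
    intro A R
    constructor
    · have h := Pool.Agent.R559.NP.near_dim (fun t : ℕ × (Fin d → ℤ) => hN1 t.1) (Bad := Bad A R) (τ := 1) hs0 one_pos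
        (hcount A R) φ
      rw [div_one] at h
      exact h
    · intro μ C₀ m hm hμ
      exact Pool.Agent.R559.NP.near_ae μ (C₀ := C₀) (m := m) hμ (fun t : ℕ × (Fin d → ℤ) => hN1 t.1) (Bad := Bad A R)
        (τ := 1) hs0 (by linarith) (hcount A R) φ
  have key2 := Generic.all (ι := ℕ × ℕ) (fun p => key p.1 p.2)
  rw [← hs]
  refine key2.mono (fun α hα A => ?_)
  obtain ⟨A', hA'⟩ := exists_nat_ge A
  obtain ⟨R, hR⟩ := exists_nat_ge (‖α‖ + A)
  have hfin := hα (A', R) A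
  simp only at hfin
  obtain ⟨n₀, hn₀⟩ := (hfin.image Prod.fst).bddAbove
  refine ⟨n₀ + 1, fun n hn x hx hhit => ?_⟩
  have hn1 := hN1 n
  have hn0 : 0 < N n := by linarith
  have hmem : (n, x) ∈ {t | dist (φ t) α ≤ A * N t.1 ^ (-(1 : ℝ)) ∧ Bad A' R t} := by
    have hA0 : ∀ j : Fin d, 0 ≤ A := fun j => (abs_nonneg _).trans (hx j)
    refine ⟨?_, ?_⟩
    · rw [Real.rpow_neg_one, ← div_eq_mul_inv]
      by_cases hd : Nonempty (Fin d)
      · obtain ⟨j₀⟩ := hd
        rw [dist_pi_le_iff (div_nonneg (hA0 j₀) hn0.le)]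
        intro j
        rw [Real.dist_eq]
        simp only [φ]
        have e1 : (x j : ℝ) / N n - α j = ((x j : ℝ) - N n * α j) / N n := by field_simp
        rw [e1, abs_div, abs_of_pos hn0]
        exact div_le_div_of_nonneg_right (hx j) hn0.le
      · exfalso
        obtain ⟨M, b, ⟨e, he⟩, h2, h3, h4⟩ := hhit
        exact hd ⟨e ⟨0, hk⟩⟩
    · rw [hBad]
      refine ⟨fun j => ?_, Hits.mono ?_ hhit⟩
      · have h1 : |(x j : ℝ)| ≤ A + N n * ‖α‖ := by
          have h2 : |α j| ≤ ‖α‖ := norm_le_pi_norm α j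
          calc |(x j : ℝ)| = |((x j : ℝ) - N n * α j) + N n * α j| := by ring_nf
            _ ≤ |(x j : ℝ) - N n * α j| + |N n * α j| := abs_add_le _ _
            _ ≤ A + N n * ‖α‖ := by
                rw [abs_mul, abs_of_pos hn0]
                exact add_le_add (hx j) (mul_le_mul_of_nonneg_left h2 hn0.le)
        have h3 := hA0 j
        simp only
        nlinarith
      · simp only
        exact mul_le_mul_of_nonneg_right hA' (by positivity)
  have := hn₀ (Set.mem_image_of_mem Prod.fst hmem)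
  simp only at this
  omega


theorem Generic.ae {d : ℕ} {s : ℝ} (hs : s < d) {Q : (Fin d → ℝ) → Prop} (h : Generic s Q) : ∀ᵐ α : Fin d → ℝ, Q α := by
  refine h.2 volume (2 ^ d) d hs (fun x r hr => ?_)
  rw [Real.volume_pi_closedBall x hr.le, Fintype.card_fin, mul_pow, Real.rpow_natCast]

/-- **All statements together.** -/
theorem combinations {k : ℕ} (hk : 1 ≤ k) {C c : ℝ} {W : Set (Fin k → ℤ)} (hc : 0 ≤ c) (hc1 : c ≤ 1) (hC : 0 ≤ C)
    (hW : Few C ((k : ℝ) - c) W) :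
    (∀ d X K : ℕ, 1 ≤ X → 1 ≤ K →
      (({x : Fin d → ℤ | (∀ j, |x j| ≤ X) ∧ x ∈ Hits W d K}.ncard : ℕ) : ℝ) ≤
        C * (((d : ℝ) + 1) ^ k * 3 ^ ((k + 1) * (d + 1))) * (K : ℝ) ^ (k * (d + 2)) * (X : ℝ) ^ ((d : ℝ) - c)) ∧
    (∀ d : ℕ, 1 ≤ d → ∀ N : ℕ → ℝ, Lacunary N → ∀ η : ℝ, 0 ≤ η →
      Generic ((d : ℝ) - c + k * (d + 2) * η) (fun α : Fin d → ℝ => Avoids W N η α)) ∧
    ∀ d : ℕ, 1 ≤ d → ∀ N : ℕ → ℝ, Lacunary N → ∀ η : ℝ, 0 ≤ η → k * (d + 2) * η < c →
      ∀ᵐ α : Fin d → ℝ, Avoids W N η α := by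
  have key : ∀ d : ℕ, 1 ≤ d → ∀ N : ℕ → ℝ, Lacunary N → ∀ η : ℝ, 0 ≤ η →
      Generic ((d : ℝ) - c + k * (d + 2) * η) (fun α : Fin d → ℝ => Avoids W N η α) := by
    intro d hd N hN η hη
    have hd1 : (1 : ℝ) ≤ d := by exact_mod_cast hd
    exact generic_hits hk hc (by linarith) hC hW hN hη
  refine ⟨fun d X K hX hK => (card_hits hc hC hW hX hK).2, key, fun d hd N hN η hη h => ?_⟩
  exact (key d hd N hN η hη).ae (by linarith)

end Run7.h469.Vk
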