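import Pool.Agent.Run7.h469.Ab
import Pool.Agent.Run7.h469.Vk

/-!
# Pairs of integers with few exceptions, their combinations with small coefficients, and Euclid's algorithm and Farey intervals

The definitions which are used in the statements of several results files, and the theorems for a general property of pairs of
integers with a power saving.
-/

set_option autoImplicit false

namespace Run7.h469.Vp

open Finset Filter Topology MeasureTheory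
open Run7.h469.Vk (affine FullRank Hits Few card_hits)
open Run7.h469.Ab (euclidExceptions badIntervals FewPairs fewPairs_of)

/-! ### definitions -/

/-- Let `u, v > 0`. All the pairs `M (u, v) + b` of nonzero integers, `M` an integral `2 × 2` matrix with `det M ≠ 0` and `b` an
integral vector, all entries of `M` and `b` at most `max(u, v) ^ η` in absolute value, have the property `P`. -/
def Combinations (η : ℝ) (P : (Fin 2 → ℤ) → Prop) (u v : ℕ) : Prop :=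
  0 < u → 0 < v → ∀ (M : Fin 2 → Fin 2 → ℤ) (b : Fin 2 → ℤ), M 0 0 * M 1 1 ≠ M 0 1 * M 1 0 →
    (∀ i j, |(M i j : ℝ)| ≤ ((max u v : ℕ) : ℝ) ^ η) → (∀ i, |(b i : ℝ)| ≤ ((max u v : ℕ) : ℝ) ^ η) →
    (∀ i, affine M b ![(u : ℤ), (v : ℤ)] i ≠ 0) → P (affine M b ![(u : ℤ), (v : ℤ)])

/-! ### theorems -/

theorem fullRank_two {M : Fin 2 → Fin 2 → ℤ} (h : M 0 0 * M 1 1 ≠ M 0 1 * M 1 0) : FullRank M := by
  refine ⟨id, ?_⟩
  rw [Matrix.det_fin_two]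
  simp only [Matrix.of_apply, id]
  exact sub_ne_zero.2 h

/-- the constant -/
noncomputable def cst (C : ℝ) : ℝ := C * (3 ^ 11 * 2 ^ 8)

theorem cst_nonneg {C : ℝ} (hC : 0 ≤ C) : 0 ≤ cst C := by unfold cst; positivity

theorem card_le {C c η : ℝ} (hc : 0 ≤ c) (hη : 0 ≤ η) (hC : 0 ≤ C) {P : (Fin 2 → ℤ) → Prop}
    (hW : Few C (2 - c) {t : Fin 2 → ℤ | (∀ i, t i ≠ 0) ∧ ¬ P t}) (T : ℕ) (hT : 1 ≤ T) (F : Finset (ℕ × ℕ))
    (hF : ∀ z ∈ F, 1 ≤ z.1 ∧ 1 ≤ z.2 ∧ z.1 ≤ T ∧ z.2 ≤ T ∧ ¬ Combinations η P z.1 z.2) :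
    (F.card : ℝ) ≤ cst C * (T : ℝ) ^ (2 - (c - 8 * η)) := by
  classical
  have hT1 : (1 : ℝ) ≤ T := by exact_mod_cast hT
  have hT0 : (0 : ℝ) < T := by linarith
  have hTη : 1 ≤ (T : ℝ) ^ η := Real.one_le_rpow hT1 hη
  obtain ⟨K, hK⟩ : ∃ K, K = ⌊2 * (T : ℝ) ^ η⌋₊ := ⟨_, rfl⟩
  have hK1 : 1 ≤ K := by
    rw [hK]
    apply Nat.le_floor
    push_cast
    linarith
  have hKT : (K : ℝ) ≤ 2 * (T : ℝ) ^ η := by rw [hK]; exact Nat.floor_le (by positivity)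
  have hTK : (T : ℝ) ^ η ≤ K := by
    have h1 : 2 * (T : ℝ) ^ η < K + 1 := by rw [hK]; exact Nat.lt_floor_add_one _
    linarith
  have hW' : Few C (((2 : ℕ) : ℝ) - c) {t : Fin 2 → ℤ | (∀ i, t i ≠ 0) ∧ ¬ P t} := by
    push_cast
    exact hW
  obtain ⟨h1, h2⟩ := card_hits (d := 2) hc hC hW' hT hK1
  have h3 : F.card ≤ {x : Fin 2 → ℤ | (∀ j, |x j| ≤ T) ∧
      x ∈ Hits {t : Fin 2 → ℤ | (∀ i, t i ≠ 0) ∧ ¬ P t} 2 K}.ncard := by
    rw [Set.ncard_eq_toFinset_card _ h1]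
    apply card_le_card_of_injOn (fun z => ![(z.1 : ℤ), (z.2 : ℤ)])
    · intro z hz
      rw [mem_coe] at hz
      rw [Set.Finite.coe_toFinset]
      obtain ⟨k1, k2, k3, k4, k5⟩ := hF z hz
      unfold Combinations at k5
      push Not at k5
      obtain ⟨k6, k7, M, b, k8, k9, k10, k11, k12⟩ := k5
      have hmax : ((max z.1 z.2 : ℕ) : ℝ) ^ η ≤ K := by
        refine le_trans ?_ hTK
        apply Real.rpow_le_rpow (Nat.cast_nonneg _) _ hη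
        exact_mod_cast max_le k3 k4
      refine ⟨?_, M, b, fullRank_two k8, fun i j => (k9 i j).trans hmax, fun i => (k10 i).trans hmax, k11, k12⟩
      rw [Fin.forall_fin_two]
      simp only [Matrix.cons_val_zero, Matrix.cons_val_one, Nat.abs_cast]
      exact ⟨by exact_mod_cast k3, by exact_mod_cast k4⟩
    · intro z _ z' _ e
      have e0 := congrFun e 0
      have e1 := congrFun e 1
      simp only [Matrix.cons_val_zero, Matrix.cons_val_one, Nat.cast_inj] at e0 e1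
      exact Prod.ext e0 e1
  calc (F.card : ℝ) ≤ _ := by exact_mod_cast h3
    _ ≤ C * ((((2 : ℕ) : ℝ) + 1) ^ 2 * 3 ^ ((2 + 1) * (2 + 1))) * (K : ℝ) ^ (2 * (2 + 2)) *
        (T : ℝ) ^ (((2 : ℕ) : ℝ) - c) := h2
    _ ≤ C * ((((2 : ℕ) : ℝ) + 1) ^ 2 * 3 ^ ((2 + 1) * (2 + 1))) * (2 * (T : ℝ) ^ η) ^ (2 * (2 + 2)) *
        (T : ℝ) ^ (((2 : ℕ) : ℝ) - c) := by gcongr
    _ = cst C * ((T : ℝ) ^ (η * 8) * (T : ℝ) ^ (2 - c)) := by
        have e1 : (T : ℝ) ^ (η * 8) = ((T : ℝ) ^ η) ^ 8 := by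
          rw [Real.rpow_mul hT0.le]
          exact_mod_cast Real.rpow_natCast _ 8
        rw [e1]
        unfold cst
        push_cast
        ring
    _ = cst C * (T : ℝ) ^ (2 - (c - 8 * η)) := by
        rw [← Real.rpow_add hT0]
        congr 2
        ring

theorem fewPairs {C c η : ℝ} (hc : 0 ≤ c) (hη : 0 ≤ η) (hC : 0 ≤ C) {P : (Fin 2 → ℤ) → Prop}
    (hW : Few C (2 - c) {t : Fin 2 → ℤ | (∀ i, t i ≠ 0) ∧ ¬ P t}) : FewPairs (2 - (c - 8 * η)) (Combinations η P) := by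
  apply fewPairs_of
  intro ε hε
  refine ⟨cst C, fun T hT F hF => ?_⟩
  have hT1 : (1 : ℝ) ≤ T := by exact_mod_cast hT
  refine (card_le hc hη hC hW T hT F hF).trans ?_
  apply mul_le_mul_of_nonneg_left _ (cst_nonneg hC)
  exact Real.rpow_le_rpow_of_exponent_le hT1 (by linarith)

theorem two_rpow_le {y : ℝ} (h0 : 0 ≤ y) (h1 : y ≤ 1) : (2 : ℝ) ^ (-y) ≤ 1 - y / 2 := by
  have h2 := (convexOn_rpow_left (b := (2 : ℝ)) (by norm_num)).2 (Set.mem_univ (0 : ℝ)) (Set.mem_univ (-1 : ℝ))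
    (show (0 : ℝ) ≤ 1 - y by linarith) h0 (by ring)
  simp only [smul_eq_mul, mul_zero, zero_add, Real.rpow_zero, Real.rpow_neg_one] at h2
  have e : y * -1 = -y := by ring
  rw [e] at h2
  linarith

/-- **Euclid's algorithm**, with an explicit constant. -/
theorem euclid {C c η : ℝ} (hη : 0 ≤ η) (hcη : 8 * η < c) (hc2 : c ≤ 2) (hC : 0 ≤ C) {P : (Fin 2 → ℤ) → Prop}
    (hW : Few C (2 - c) {t : Fin 2 → ℤ | (∀ i, t i ≠ 0) ∧ ¬ P t}) (X H : ℕ) (hH : 1 ≤ H) :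
    ((euclidExceptions (Combinations η P) X H).card : ℝ) ≤
      (48 + 96 * cst C) / (c - 8 * η) * (X : ℝ) ^ 2 * (H : ℝ) ^ (-((c - 8 * η) / 2)) := by
  classical
  obtain ⟨c', hc'⟩ : ∃ c', c' = c - 8 * η := ⟨_, rfl⟩
  have hc'0 : 0 < c' := by rw [hc']; linarith
  have hc'2 : c' ≤ 2 := by rw [hc']; linarith
  have hcC := cst_nonneg hC
  let B : Set (ℕ × ℕ) := {z | 1 ≤ z.1 ∧ 1 ≤ z.2 ∧ ¬ Combinations η P z.1 z.2}
  have hB : Run7.h469.EU.Sparse (cst C) (2 - c') B := by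
    intro T F hT hF
    rw [hc']
    apply card_le (by linarith) hη hC hW T hT F
    intro z hz
    obtain ⟨⟨h1, h2, h3⟩, -, -, h4, h5⟩ := hF z hz
    exact ⟨h1, h2, h4, h5, h3⟩
  obtain ⟨C', hC'⟩ : ∃ C', C' = (12 + 6 * cst C * 2 ^ (2 - c')) / (1 - 2 ^ ((2 - c') / 2 - 1)) := ⟨_, rfl⟩
  have h1 := Run7.h469.EU.euclid_card hcC (by linarith) hB X H hH (euclidExceptions (Combinations η P) X H) (fun x hx => by
    unfold euclidExceptions at hx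
    rw [mem_filter] at hx
    obtain ⟨h3, k, h4, h5⟩ := hx
    refine ⟨h3, k, ?_, h4⟩
    have h6 := Run7.h469.EU.state_mem h3 (k := k) (u := (Run7.h469.EU.sub^[k] x).1)
      (v := (Run7.h469.EU.sub^[k] x).2) rfl
    exact ⟨h6.1, h6.2.1, h5⟩)
  have h2 : (12 + 6 * cst C * 2 ^ (2 - c')) / (1 - 2 ^ ((2 - c') / 2 - 1)) ≤ (48 + 96 * cst C) / c' := by
    have e1 : (2 - c') / 2 - 1 = -(c' / 2) := by ring
    have h3 := two_rpow_le (y := c' / 2) (by linarith) (by linarith)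
    have h4 : (2 : ℝ) ^ (2 - c') ≤ 4 := by
      calc (2 : ℝ) ^ (2 - c') ≤ 2 ^ (2 : ℝ) := Real.rpow_le_rpow_of_exponent_le (by norm_num) (by linarith)
        _ = 4 := by norm_num
    rw [e1]
    have h5 : c' / 4 ≤ 1 - 2 ^ (-(c' / 2)) := by linarith
    calc (12 + 6 * cst C * 2 ^ (2 - c')) / (1 - 2 ^ (-(c' / 2))) ≤ (12 + 6 * cst C * 4) / (c' / 4) := by
          gcongr
      _ = (48 + 96 * cst C) / c' := by field_simp; ring
  rw [← hc']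
  have e2 : (2 - c') / 2 - 1 = -(c' / 2) := by ring
  rw [e2] at h1
  calc _ ≤ (12 + 6 * cst C * 2 ^ (2 - c')) / (1 - 2 ^ (-(c' / 2))) * (X : ℝ) ^ 2 * (H : ℝ) ^ (-(c' / 2)) := h1
    _ ≤ (48 + 96 * cst C) / c' * (X : ℝ) ^ 2 * (H : ℝ) ^ (-(c' / 2)) := by
        rw [e2] at h2
        gcongr

/-- **Farey intervals.** -/
theorem farey {C c η : ℝ} (hη : 0 ≤ η) (hcη : 8 * η ≤ c) (hc2 : c ≤ 2) (hC : 0 ≤ C) {P : (Fin 2 → ℤ) → Prop}
    (hW : Few C (2 - c) {t : Fin 2 → ℤ | (∀ i, t i ≠ 0) ∧ ¬ P t}) :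
    (∃ E : Set ℝ, dimH E ≤ ENNReal.ofReal (2 * (2 - (c - 8 * η)) / (4 - (c - 8 * η))) ∧
      ∀ α : ℝ, 0 < α → α ∉ E → (badIntervals (Combinations η P) α).Finite) ∧
    ∀ (μ : Measure ℝ) (C₀ m : ℝ), 2 * (2 - (c - 8 * η)) / (4 - (c - 8 * η)) < m →
      (∀ (x r : ℝ), 0 < r → μ (Metric.closedBall x r) ≤ ENNReal.ofReal (C₀ * r ^ m)) →
      ∀ᵐ α ∂μ, 0 < α → (badIntervals (Combinations η P) α).Finite := by
  have h := Run7.h469.Ab.farey (β := 2 - (c - 8 * η)) (by linarith) (Combinations η P) (fun u v huv h1 h2 => by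
    exfalso
    rcases huv with h3 | h3 <;> omega) (fewPairs (by linarith) hη hC hW)
  have e : 2 + (2 - (c - 8 * η)) = 4 - (c - 8 * η) := by ring
  rw [e] at h
  exact h


theorem ae_of {s : ℝ} (hs : s < 1) {Q : ℝ → Prop} (h : ∀ (μ : Measure ℝ) (C₁ m : ℝ), s < m →
    (∀ (x r : ℝ), 0 < r → μ (Metric.closedBall x r) ≤ ENNReal.ofReal (C₁ * r ^ m)) → ∀ᵐ α ∂μ, Q α) : ∀ᵐ α : ℝ, Q α := by
  refine h volume 2 1 hs (fun x r hr => ?_)
  rw [Real.volume_closedBall, Real.rpow_one]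

/-! ### a power saving which depends effectively on the degree -/

theorem few_mono {k : ℕ} {C C' θ θ' : ℝ} {W : Set (Fin k → ℤ)} (hC : 0 ≤ C) (hCC : C ≤ C') (hθ : θ ≤ θ')
    (hW : Few C θ W) : Few C' θ' W := by
  intro T hT F hF
  have hT1 : (1 : ℝ) ≤ T := by exact_mod_cast hT
  refine (hW T hT F hF).trans ?_
  calc C * (T : ℝ) ^ θ ≤ C * (T : ℝ) ^ θ' :=
        mul_le_mul_of_nonneg_left (Real.rpow_le_rpow_of_exponent_le hT1 hθ) hC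
    _ ≤ C' * (T : ℝ) ^ θ' := mul_le_mul_of_nonneg_right hCC (by positivity)

/-- the saving -/
noncomputable def sav (C δ : ℕ) : ℝ := 1 / ((δ : ℝ) + 2) ^ C

theorem sav_pos (C δ : ℕ) : 0 < sav C δ := by unfold sav; positivity

theorem sav_le_one (C δ : ℕ) : sav C δ ≤ 1 := by
  unfold sav
  rw [div_le_one (by positivity)]
  have : (0 : ℝ) ≤ δ := Nat.cast_nonneg δ
  exact one_le_pow₀ (by linarith)

theorem sav_add (C n δ : ℕ) : sav (C + n) δ * 2 ^ n ≤ sav C δ := by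
  unfold sav
  have h0 : (0 : ℝ) ≤ δ := Nat.cast_nonneg δ
  rw [pow_add, ← one_div_mul_one_div, mul_assoc]
  have h1 : (2 : ℝ) ^ n ≤ ((δ : ℝ) + 2) ^ n := pow_le_pow_left₀ (by norm_num) (by linarith) n
  have h2 : 1 / ((δ : ℝ) + 2) ^ n * 2 ^ n ≤ 1 := by
    rw [one_div_mul_eq_div, div_le_one (by positivity)]
    exact h1
  calc 1 / ((δ : ℝ) + 2) ^ C * (1 / ((δ : ℝ) + 2) ^ n * 2 ^ n) ≤ 1 / ((δ : ℝ) + 2) ^ C * 1 :=
        mul_le_mul_of_nonneg_left h2 (by positivity)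
    _ = _ := mul_one _

theorem sav_anti {C C' : ℕ} (h : C ≤ C') (δ : ℕ) : sav C' δ ≤ sav C δ := by
  obtain ⟨n, rfl⟩ := Nat.exists_eq_add_of_le h
  refine le_trans ?_ (sav_add C n δ)
  have h1 : (1 : ℝ) ≤ 2 ^ n := one_le_pow₀ (by norm_num)
  exact le_mul_of_one_le_right (sav_pos _ _).le h1

theorem euclid_eff (C₀ : ℕ) : ∃ C : ℕ, ∀ (δ : ℕ) (P : (Fin 2 → ℤ) → Prop),
    Few C₀ (2 - 1 / ((δ : ℝ) + 2) ^ C₀) {t : Fin 2 → ℤ | (∀ i, t i ≠ 0) ∧ ¬ P t} → ∀ X H : ℕ, 1 ≤ H →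
      ((euclidExceptions (Combinations (1 / ((δ : ℝ) + 2) ^ C) P) X H).card : ℝ) ≤
        C * ((δ : ℝ) + 2) ^ C * (X : ℝ) ^ 2 * (H : ℝ) ^ (-(1 / ((δ : ℝ) + 2) ^ C)) := by
  obtain ⟨C₁, hC₁⟩ := exists_nat_ge (48 + 96 * cst (C₀ : ℝ))
  refine ⟨max C₁ (C₀ + 4), fun δ P hW X H hH => ?_⟩
  obtain ⟨C, hC⟩ : ∃ C, C = max C₁ (C₀ + 4) := ⟨_, rfl⟩
  rw [← hC]
  have hH1 : (1 : ℝ) ≤ H := by exact_mod_cast hH
  have hδ0 : (0 : ℝ) ≤ δ := Nat.cast_nonneg δ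
  have h1 : sav C δ * 16 ≤ sav C₀ δ := by
    have h2 := sav_add C₀ 4 δ
    have h3 := sav_anti (hC ▸ le_max_right C₁ (C₀ + 4) : C₀ + 4 ≤ C) δ
    norm_num at h2
    linarith
  have hpos := sav_pos C δ
  have hpos0 := sav_pos C₀ δ
  have hle := sav_le_one C₀ δ
  have key := euclid (C := (C₀ : ℝ)) (c := sav C₀ δ) (η := sav C δ) hpos.le (by linarith) (by linarith)
    (Nat.cast_nonneg _) hW X H hH
  refine key.trans ?_
  have h4 : sav C₀ δ / 2 ≤ sav C₀ δ - 8 * sav C δ := by linarith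
  have h5 : (48 + 96 * cst (C₀ : ℝ)) / (sav C₀ δ - 8 * sav C δ) ≤ C * ((δ : ℝ) + 2) ^ C := by
    have h6 : (48 + 96 * cst (C₀ : ℝ)) ≤ C := by
      refine hC₁.trans ?_
      rw [hC]
      exact_mod_cast le_max_left C₁ (C₀ + 4)
    have h7 : 1 / (sav C₀ δ - 8 * sav C δ) ≤ ((δ : ℝ) + 2) ^ C := by
      calc 1 / (sav C₀ δ - 8 * sav C δ) ≤ 1 / (sav C₀ δ / 2) := one_div_le_one_div_of_le (by linarith) h4
        _ = 2 * ((δ : ℝ) + 2) ^ C₀ := by unfold sav; field_simp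
        _ ≤ ((δ : ℝ) + 2) * ((δ : ℝ) + 2) ^ C₀ := by gcongr; linarith
        _ = ((δ : ℝ) + 2) ^ (C₀ + 1) := by ring
        _ ≤ ((δ : ℝ) + 2) ^ C := pow_le_pow_right₀ (by linarith) (by omega)
    have h8 : 0 ≤ cst (C₀ : ℝ) := cst_nonneg (Nat.cast_nonneg _)
    calc (48 + 96 * cst (C₀ : ℝ)) / (sav C₀ δ - 8 * sav C δ)
        = (48 + 96 * cst (C₀ : ℝ)) * (1 / (sav C₀ δ - 8 * sav C δ)) := by ring
      _ ≤ C * ((δ : ℝ) + 2) ^ C := by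
          apply mul_le_mul h6 h7 _ (Nat.cast_nonneg _)
          exact one_div_nonneg.2 (by linarith)
  have h9 : (H : ℝ) ^ (-((sav C₀ δ - 8 * sav C δ) / 2)) ≤ (H : ℝ) ^ (-(1 / ((δ : ℝ) + 2) ^ C)) := by
    apply Real.rpow_le_rpow_of_exponent_le hH1
    have : sav C δ = 1 / ((δ : ℝ) + 2) ^ C := rfl
    rw [← this]
    linarith
  apply mul_le_mul (mul_le_mul_of_nonneg_right h5 (by positivity)) h9 (by positivity) (by positivity)

theorem farey_eff (C₀ : ℕ) : ∃ C : ℕ, ∀ (δ : ℕ) (P : (Fin 2 → ℤ) → Prop),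
    Few C₀ (2 - 1 / ((δ : ℝ) + 2) ^ C₀) {t : Fin 2 → ℤ | (∀ i, t i ≠ 0) ∧ ¬ P t} →
    (∃ E : Set ℝ, dimH E ≤ ENNReal.ofReal (1 - 1 / ((δ : ℝ) + 2) ^ C) ∧
      ∀ α : ℝ, 0 < α → α ∉ E → (badIntervals (Combinations (1 / ((δ : ℝ) + 2) ^ C) P) α).Finite) ∧
    ∀ (μ : Measure ℝ) (C₁ m : ℝ), 1 - 1 / ((δ : ℝ) + 2) ^ C < m →
      (∀ (x r : ℝ), 0 < r → μ (Metric.closedBall x r) ≤ ENNReal.ofReal (C₁ * r ^ m)) →
      ∀ᵐ α ∂μ, 0 < α → (badIntervals (Combinations (1 / ((δ : ℝ) + 2) ^ C) P) α).Finite := by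
  refine ⟨C₀ + 4, fun δ P hW => ?_⟩
  have h1 : sav (C₀ + 4) δ * 16 ≤ sav C₀ δ := by
    have h2 := sav_add C₀ 4 δ
    norm_num at h2
    exact h2
  have hpos := sav_pos (C₀ + 4) δ
  have hpos0 := sav_pos C₀ δ
  have hle := sav_le_one C₀ δ
  have key := farey (C := (C₀ : ℝ)) (c := sav C₀ δ) (η := sav (C₀ + 4) δ) hpos.le (by linarith) (by linarith)
    (Nat.cast_nonneg _) hW
  have h4 : sav C₀ δ / 2 ≤ sav C₀ δ - 8 * sav (C₀ + 4) δ := by linarith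
  have h5 : 2 * (2 - (sav C₀ δ - 8 * sav (C₀ + 4) δ)) / (4 - (sav C₀ δ - 8 * sav (C₀ + 4) δ)) ≤
      1 - 1 / ((δ : ℝ) + 2) ^ (C₀ + 4) := by
    have : sav (C₀ + 4) δ = 1 / ((δ : ℝ) + 2) ^ (C₀ + 4) := rfl
    rw [← this, div_le_iff₀ (by linarith)]
    nlinarith
  obtain ⟨⟨E, h6, h7⟩, h8⟩ := key
  refine ⟨⟨E, h6.trans (ENNReal.ofReal_le_ofReal h5), h7⟩, fun μ C₁ m hm hμ => h8 μ C₁ m (lt_of_le_of_lt h5 hm) hμ⟩

/-! ### a power saving without explicit dependence on the degree -/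

theorem euclid_saving {c C : ℝ} (hc : 0 < c) (hc2 : c ≤ 2) (hC : 0 ≤ C) : ∃ η C' : ℝ, 0 < η ∧
    ∀ P : (Fin 2 → ℤ) → Prop, Few C (2 - c) {t : Fin 2 → ℤ | (∀ i, t i ≠ 0) ∧ ¬ P t} → ∀ X H : ℕ, 1 ≤ H →
      ((euclidExceptions (Combinations η P) X H).card : ℝ) ≤ C' * (X : ℝ) ^ 2 * (H : ℝ) ^ (-η) := by
  refine ⟨c / 16, (48 + 96 * cst C) / (c - 8 * (c / 16)), by linarith, fun P hW X H hH => ?_⟩
  have hH1 : (1 : ℝ) ≤ H := by exact_mod_cast hH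
  refine (euclid (η := c / 16) (by linarith) (by linarith) hc2 hC hW X H hH).trans ?_
  have h8 : 0 ≤ cst C := cst_nonneg hC
  have h9 : 0 < c - 8 * (c / 16) := by linarith
  apply mul_le_mul_of_nonneg_left _ (by positivity)
  exact Real.rpow_le_rpow_of_exponent_le hH1 (by linarith)

theorem farey_saving {c C : ℝ} (hc : 0 < c) (hc2 : c ≤ 2) (hC : 0 ≤ C) : ∃ η : ℝ, 0 < η ∧
    ∀ P : (Fin 2 → ℤ) → Prop, Few C (2 - c) {t : Fin 2 → ℤ | (∀ i, t i ≠ 0) ∧ ¬ P t} →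
    (∃ E : Set ℝ, dimH E ≤ ENNReal.ofReal (1 - η) ∧
      ∀ α : ℝ, 0 < α → α ∉ E → (badIntervals (Combinations η P) α).Finite) ∧
    ∀ (μ : Measure ℝ) (C₁ m : ℝ), 1 - η < m →
      (∀ (x r : ℝ), 0 < r → μ (Metric.closedBall x r) ≤ ENNReal.ofReal (C₁ * r ^ m)) →
      ∀ᵐ α ∂μ, 0 < α → (badIntervals (Combinations η P) α).Finite := by
  refine ⟨c / 16, by linarith, fun P hW => ?_⟩
  have key := farey (η := c / 16) (by linarith) (by linarith) hc2 hC hW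
  have h5 : 2 * (2 - (c - 8 * (c / 16))) / (4 - (c - 8 * (c / 16))) ≤ 1 - c / 16 := by
    rw [div_le_iff₀ (by linarith)]
    nlinarith
  obtain ⟨⟨E, h6, h7⟩, h8⟩ := key
  refine ⟨⟨E, h6.trans (ENNReal.ofReal_le_ofReal h5), h7⟩, fun μ C₁ m hm hμ => h8 μ C₁ m (lt_of_le_of_lt h5 hm) hμ⟩

end Run7.h469.Vp
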