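import Pool.Agent.Run7.h469.Win

/-!
# Existence of derivations that vanish on a window
-/

set_option autoImplicit false
set_option linter.style.haveILetI false

namespace Run7.h469.Win

open Function

variable {P : Type*} [Group P] {ι : Type*} {t : P} {x : ι → P}

/-- the permutation of a representation -/
def perm {R V : Type*} [CommRing R] [AddCommGroup V] [Module R V] (ρ : Representation R P V) :
    P →* Equiv.Perm V where
  toFun g :=
    { toFun := ρ g
      invFun := ρ g⁻¹
      left_inv := fun v => by rw [← Module.End.mul_apply, ← map_mul]; simp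
      right_inv := fun v => by rw [← Module.End.mul_apply, ← map_mul]; simp }
  map_one' := by ext v; simp
  map_mul' a b := by ext v; simp

theorem perm_apply {R V : Type*} [CommRing R] [AddCommGroup V] [Module R V]
    (ρ : Representation R P V) (g : P) (v : V) : perm ρ g v = ρ g v := rfl

/-- the projection of the free group -/
def θ (t : P) (x : ι → P) : FreeGroup (Option ι) →* P := FreeGroup.lift (fun o => o.elim t x)

theorem θ_none : θ t x (FreeGroup.of none) = t := by simp [θ]

theorem θ_some (i : ι) : θ t x (FreeGroup.of (some i)) = x i := by simp [θ]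

/-- affine permutations -/
def aff {R V : Type*} [CommRing R] [AddCommGroup V] [Module R V] (ρ : Representation R P V)
    (t : P) (x : ι → P) (w : V) : FreeGroup (Option ι) →* Equiv.Perm V :=
  FreeGroup.lift (fun o => o.elim (Equiv.addRight w * perm ρ t) (fun i => perm ρ (x i)))

section

variable {R V : Type*} [CommRing R] [AddCommGroup V] [Module R V] (ρ : Representation R P V)
  (w : V)

theorem aff_none (v : V) : aff ρ t x w (FreeGroup.of none) v = ρ t v + w := by
  simp [aff, perm_apply]

theorem aff_some (i : ι) (v : V) : aff ρ t x w (FreeGroup.of (some i)) v = ρ (x i) v := by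
  simp [aff, perm_apply]

theorem aff_none_inv (v : V) : (aff ρ t x w (FreeGroup.of none))⁻¹ v = ρ t⁻¹ (v - w) := by
  rw [Equiv.Perm.inv_eq_iff_eq, aff_none, ← Module.End.mul_apply, ← map_mul]
  simp

theorem rho_mul (a b : P) (v : V) : ρ (a * b) v = ρ a (ρ b v) := by
  rw [map_mul]; rfl

theorem rho_inv_self (a : P) (v : V) : ρ a⁻¹ (ρ a v) = v := by
  rw [← rho_mul]; simp

theorem rho_self_inv (a : P) (v : V) : ρ a (ρ a⁻¹ v) = v := by
  rw [← rho_mul]; simp

theorem aff_eq (u : FreeGroup (Option ι)) (v : V) :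
    aff ρ t x w u v = ρ (θ t x u) v + aff ρ t x w u 0 := by
  induction u using FreeGroup.induction_on generalizing v with
  | C1 => simp
  | of o =>
    cases o with
    | none => rw [aff_none, aff_none, θ_none, map_zero, zero_add]
    | some i => rw [aff_some, aff_some, θ_some, map_zero, add_zero]
  | inv_of o ih =>
    rw [map_inv, map_inv]
    generalize aff ρ t x w (FreeGroup.of o) = A at ih ⊢
    generalize θ t x (FreeGroup.of o) = b at ih ⊢
    rw [Equiv.Perm.inv_eq_iff_eq, ih, map_add, rho_self_inv]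
    have h1 : A (A⁻¹ 0) = 0 := by simp
    rw [ih] at h1
    have h2 : ρ b (A⁻¹ 0) = - A 0 := eq_neg_of_add_eq_zero_left h1
    rw [h2]
    simp
  | mul a b iha ihb =>
    have h1 : ∀ v, aff ρ t x w (a * b) v = aff ρ t x w a (aff ρ t x w b v) := fun v => by
      rw [map_mul]; rfl
    rw [h1, h1, iha, ihb, map_add, ← rho_mul, ← map_mul, iha (aff ρ t x w b 0)]
    abel

/-- the orbit of zero under the inverse of the affine map of `t` -/
theorem pt_fixed {n : ℕ} (hw : ∀ g ∈ W t x 1 n, ρ g w = w) (j : ℕ) :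
    j ≤ n → ∀ i (l : ℤ), 0 ≤ l → l + j ≤ n →
      ρ (y t x i l) (((aff ρ t x w (FreeGroup.of none))⁻¹ ^ j) 0) =
        ((aff ρ t x w (FreeGroup.of none))⁻¹ ^ j) 0 := by
  induction j with
  | zero => intro _ i l _ _; simp
  | succ j ih =>
    intro hj i l h1 h2
    have h3 : ((aff ρ t x w (FreeGroup.of none))⁻¹ ^ (j + 1)) 0 =
        ρ t⁻¹ (((aff ρ t x w (FreeGroup.of none))⁻¹ ^ j) 0 - w) := by
      rw [pow_succ', Equiv.Perm.mul_apply, aff_none_inv]
    rw [h3]
    have h4 : y t x i l * t⁻¹ = t⁻¹ * y t x i (l + 1) := by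
      rw [← y_conj]
      group
    rw [← rho_mul, h4, rho_mul, map_sub, ih (by omega) i (l + 1) (by omega) (by push_cast at h2; omega),
      hw _ (y_mem i (by omega) (by push_cast at h2; omega))]

theorem aff_window {n : ℕ} (hw : ∀ g ∈ W t x 1 n, ρ g w = w) {u : FreeGroup (Option ι)}
    (hu : u ∈ W (FreeGroup.of none) (fun i => FreeGroup.of (some i)) 0 (n : ℤ)) :
    aff ρ t x w u 0 = 0 := by
  have h : W (FreeGroup.of none) (fun i => FreeGroup.of (some i)) 0 (n : ℤ) ≤
      (MulAction.stabilizer (Equiv.Perm V) (0 : V)).comap (aff ρ t x w) := by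
    refine W_le fun i j h1 h2 => ?_
    rw [Subgroup.mem_comap, MulAction.mem_stabilizer_iff, Equiv.Perm.smul_def, y]
    obtain ⟨k, rfl⟩ := Int.eq_ofNat_of_zero_le h1
    rw [map_mul, map_mul, map_zpow, map_zpow, Equiv.Perm.mul_apply, Equiv.Perm.mul_apply, aff_some,
      zpow_neg, ← inv_zpow, zpow_natCast, zpow_natCast]
    have h3 := pt_fixed ρ w hw k (by exact_mod_cast h2) i 0 le_rfl (by simpa using h2)
    have h4 : y t x i 0 = x i := by simp [y]
    rw [h4] at h3
    rw [h3, ← Equiv.Perm.mul_apply, inv_pow, mul_inv_cancel]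
    rfl
  have h1 := h hu
  rw [Subgroup.mem_comap, MulAction.mem_stabilizer_iff, Equiv.Perm.smul_def] at h1
  exact h1

end

/-- a bound for the windows that contain all relators -/
def Bound (t : P) (x : ι → P) (n₀ : ℕ) : Prop :=
  ∃ S : Set (FreeGroup (Option ι)), Subgroup.normalClosure S = (θ t x).ker ∧
    ∀ s ∈ S, ∃ c : ℤ, (FreeGroup.of none) ^ c * s * (FreeGroup.of none) ^ (-c) ∈
      W (FreeGroup.of none) (fun i => FreeGroup.of (some i)) 0 (n₀ : ℤ)

theorem Bound.mono {n m : ℕ} (h : Bound t x n) (hnm : n ≤ m) : Bound t x m := by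
  obtain ⟨S, h1, h2⟩ := h
  refine ⟨S, h1, fun s hs => ?_⟩
  obtain ⟨c, hc⟩ := h2 s hs
  exact ⟨c, W_mono le_rfl (by exact_mod_cast hnm) hc⟩

theorem ker_le_aff {R V : Type*} [CommRing R] [AddCommGroup V] [Module R V]
    (ρ : Representation R P V) (w : V) {n : ℕ} (hn : Bound t x n)
    (hw : ∀ g ∈ W t x 1 n, ρ g w = w) : (θ t x).ker ≤ (aff ρ t x w).ker := by
  obtain ⟨S, h1, h2⟩ := hn
  rw [← h1]
  refine Subgroup.normalClosure_le_normal fun s hs => ?_
  obtain ⟨c, hc⟩ := h2 s hs
  have hsk : s ∈ (θ t x).ker := by rw [← h1]; exact Subgroup.subset_normalClosure hs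
  have h3 := aff_window ρ w hw hc
  have h4 : (FreeGroup.of none) ^ c * s * (FreeGroup.of none) ^ (-c) ∈ (θ t x).ker := by
    rw [zpow_neg]
    exact (MonoidHom.normal_ker (θ t x)).conj_mem s hsk _
  have h5 : aff ρ t x w ((FreeGroup.of none) ^ c * s * (FreeGroup.of none) ^ (-c)) = 1 := by
    ext v
    rw [aff_eq, h3, (MonoidHom.mem_ker).1 h4]
    simp
  rw [map_mul, map_mul, zpow_neg, map_inv, mul_inv_eq_one] at h5
  rw [SetLike.mem_coe, MonoidHom.mem_ker]
  exact mul_left_cancel (h5.trans (mul_one _).symm)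

/-- Existence of derivations that vanish on a window. -/
theorem exists_der {R V : Type*} [CommRing R] [AddCommGroup V] [Module R V]
    (ρ : Representation R P V) (w : V) (hgen : Surjective (θ t x)) {n : ℕ} (hn : Bound t x n)
    (hw : ∀ g ∈ W t x 1 n, ρ g w = w) :
    ∃ D : P → V, (∀ a b, D (a * b) = D a + ρ a (D b)) ∧ D t = w ∧
      ∀ g ∈ W t x 0 n, D g = 0 := by
  have hk := ker_le_aff ρ w hn hw
  have hwd : ∀ u v, θ t x u = θ t x v → aff ρ t x w u = aff ρ t x w v := by
    intro u v huv
    have h1 : u⁻¹ * v ∈ (θ t x).ker := by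
      rw [MonoidHom.mem_ker, map_mul, map_inv, huv, inv_mul_cancel]
    have h2 := hk h1
    rw [MonoidHom.mem_ker, map_mul, map_inv, inv_mul_eq_one] at h2
    exact h2
  choose s hs using hgen
  refine ⟨fun g => aff ρ t x w (s g) 0, ?_, ?_, ?_⟩
  · intro a b
    have h1 : aff ρ t x w (s (a * b)) = aff ρ t x w (s a * s b) :=
      hwd _ _ (by rw [hs, map_mul, hs, hs])
    change aff ρ t x w (s (a * b)) 0 = aff ρ t x w (s a) 0 + ρ a (aff ρ t x w (s b) 0)
    rw [h1, map_mul, Equiv.Perm.mul_apply, aff_eq, hs, add_comm]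
  · change aff ρ t x w (s t) 0 = w
    rw [hwd (s t) (FreeGroup.of none) (by rw [hs, θ_none]), aff_none, map_zero, zero_add]
  · intro g hg
    have h1 : W t x 0 n = (W (FreeGroup.of none) (fun i => FreeGroup.of (some i)) 0
        (n : ℤ)).map (θ t x) := by
      rw [map_W, θ_none]
      congr 1
      funext i
      exact (θ_some i).symm
    rw [h1] at hg
    obtain ⟨u, hu, rfl⟩ := hg
    change aff ρ t x w (s (θ t x u)) 0 = 0
    rw [hwd (s (θ t x u)) u (hs _)]
    exact aff_window ρ w hw hu

end Run7.h469.Win
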