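import Mathlib
import Pool.Agent.Helper294.HallC.FngOfFp

/-!
# Windows in the kernel of a character, and derivations
-/

set_option autoImplicit false
set_option linter.style.haveILetI false

namespace Run7.h469.Win

open Function

section windows

variable {P Q : Type*} [Group P] [Group Q] {ι : Type*}

/-- conjugates by powers of `t` -/
def y (t : P) (x : ι → P) (i : ι) (j : ℤ) : P := t ^ j * x i * t ^ (-j)

/-- windows -/
def W (t : P) (x : ι → P) (a b : ℤ) : Subgroup P :=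
  Subgroup.closure {g | ∃ i j, a ≤ j ∧ j ≤ b ∧ g = y t x i j}

variable {t : P} {x : ι → P}

theorem W_le {a b : ℤ} {H : Subgroup P} (h : ∀ i j, a ≤ j → j ≤ b → y t x i j ∈ H) :
    W t x a b ≤ H := by
  rw [W, Subgroup.closure_le]
  rintro g ⟨i, j, h1, h2, rfl⟩
  exact h i j h1 h2

theorem y_mem {a b : ℤ} (i : ι) {j : ℤ} (h1 : a ≤ j) (h2 : j ≤ b) : y t x i j ∈ W t x a b :=
  Subgroup.subset_closure ⟨i, j, h1, h2, rfl⟩

theorem W_mono {a b a' b' : ℤ} (h1 : a' ≤ a) (h2 : b ≤ b') : W t x a b ≤ W t x a' b' :=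
  W_le fun i _ h3 h4 => y_mem i (h1.trans h3) (h4.trans h2)

theorem y_conj (i : ι) (j c : ℤ) : t ^ c * y t x i j * t ^ (-c) = y t x i (j + c) := by
  simp only [y]
  rw [neg_add, zpow_add t (-j) (-c), add_comm j c, zpow_add t c j]
  group

theorem W_conj {a b : ℤ} (c : ℤ) {g : P} (hg : g ∈ W t x a b) :
    t ^ c * g * t ^ (-c) ∈ W t x (a + c) (b + c) := by
  have h : W t x a b ≤ (W t x (a + c) (b + c)).comap (MulAut.conj (t ^ c)).toMonoidHom := by
    refine W_le fun i j h1 h2 => ?_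
    rw [Subgroup.mem_comap]
    have h3 : (MulAut.conj (t ^ c)).toMonoidHom (y t x i j) = y t x i (j + c) := by
      rw [← y_conj, zpow_neg]
      rfl
    rw [h3]
    exact y_mem i (by linarith) (by linarith)
  have h4 := h hg
  rw [Subgroup.mem_comap] at h4
  have h5 : (MulAut.conj (t ^ c)).toMonoidHom g = t ^ c * g * t ^ (-c) := by
    rw [zpow_neg]; rfl
  rwa [h5] at h4

theorem map_y (θ : P →* Q) (i : ι) (j : ℤ) : θ (y t x i j) = y (θ t) (θ ∘ x) i j := by
  simp [y]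

theorem map_W (θ : P →* Q) {a b : ℤ} : (W t x a b).map θ = W (θ t) (θ ∘ x) a b := by
  rw [W, MonoidHom.map_closure, W]
  congr 1
  ext g
  constructor
  · rintro ⟨_, ⟨i, j, h1, h2, rfl⟩, rfl⟩
    exact ⟨i, j, h1, h2, map_y θ i j⟩
  · rintro ⟨i, j, h1, h2, rfl⟩
    exact ⟨_, ⟨i, j, h1, h2, rfl⟩, map_y θ i j⟩

theorem W_fg [Finite ι] (a b : ℤ) : (W t x a b).FG := by
  rw [Subgroup.fg_iff]
  refine ⟨_, rfl, ?_⟩
  refine ((Set.finite_univ (α := ι)).prod (Set.finite_Icc a b)).image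
    (fun p => y t x p.1 p.2) |>.subset ?_
  rintro g ⟨i, j, h1, h2, rfl⟩
  exact ⟨(i, j), ⟨trivial, h1, h2⟩, rfl⟩

theorem exists_window (hgen : Subgroup.closure (insert t (Set.range x)) = ⊤) (w : P) :
    ∃ (N : ℕ) (m : ℤ), w * t ^ (-m) ∈ W t x (-N) N := by
  have hw : w ∈ Subgroup.closure (insert t (Set.range x)) := by rw [hgen]; trivial
  induction hw using Subgroup.closure_induction with
  | mem u hu =>
    rcases hu with rfl | ⟨i, rfl⟩
    · exact ⟨0, 1, by simp⟩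
    · refine ⟨0, 0, ?_⟩
      have h : x i * t ^ (-(0 : ℤ)) = y t x i 0 := by simp [y]
      rw [h]
      exact y_mem i (by simp) (by simp)
  | one => exact ⟨0, 0, by simp⟩
  | mul u v _ _ hu hv =>
    obtain ⟨N, m, h1⟩ := hu
    obtain ⟨N', m', h2⟩ := hv
    refine ⟨N + N' + m.natAbs, m + m', ?_⟩
    have h3 : u * v * t ^ (-(m + m')) = (u * t ^ (-m)) * (t ^ m * (v * t ^ (-m')) * t ^ (-m)) := by
      rw [neg_add, add_comm, zpow_add]
      group
    rw [h3]
    have hm1 : -(m.natAbs : ℤ) ≤ m := by omega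
    have hm2 : m ≤ (m.natAbs : ℤ) := by omega
    refine mul_mem (W_mono ?_ ?_ h1) (W_mono ?_ ?_ (W_conj m h2)) <;> omega
  | inv u _ hu =>
    obtain ⟨N, m, h1⟩ := hu
    refine ⟨N + m.natAbs, -m, ?_⟩
    have h3 : u⁻¹ * t ^ (-(-m)) = t ^ (-m) * (u * t ^ (-m))⁻¹ * t ^ (-(-m)) := by
      group
    rw [h3]
    have hm1 : -(m.natAbs : ℤ) ≤ m := by omega
    have hm2 : m ≤ (m.natAbs : ℤ) := by omega
    refine W_mono ?_ ?_ (W_conj (-m) (inv_mem h1)) <;> omega

theorem W_le_ker (χ : P →* Multiplicative ℤ) (hx : ∀ i, χ (x i) = 1) (a b : ℤ) :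
    W t x a b ≤ χ.ker := by
  refine W_le fun i j _ _ => ?_
  rw [MonoidHom.mem_ker, y, map_mul, map_mul, hx, mul_one, ← map_mul, ← zpow_add, add_neg_cancel,
    zpow_zero, map_one]

theorem exists_window_ker (hgen : Subgroup.closure (insert t (Set.range x)) = ⊤)
    (χ : P →* Multiplicative ℤ) (ht : χ t = Multiplicative.ofAdd 1) (hx : ∀ i, χ (x i) = 1)
    {w : P} (hw : w ∈ χ.ker) : ∃ N : ℕ, w ∈ W t x (-N) N := by
  obtain ⟨N, m, h⟩ := exists_window hgen w
  refine ⟨N, ?_⟩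
  have h1 := W_le_ker χ hx _ _ h
  rw [MonoidHom.mem_ker, map_mul, (MonoidHom.mem_ker).1 hw, one_mul, map_zpow, ht, ← ofAdd_zsmul,
    ofAdd_eq_one] at h1
  have hm : m = 0 := by simpa using h1
  subst hm
  simpa using h

end windows

end Run7.h469.Win
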